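import Mathlib

/-! Project L3 (MP_c95b3b_ag): Zilber's conjecture for products of three lines.
Definitions and basic properties. -/

namespace Pool.Agent.L3

/-- Finitely many places of a field `K` (embeddings `σ` into the complex numbers, non-archimedean
absolute values `v`) for which elements of the subring `R` satisfy one half of the product
formula. -/
structure Places (K : Type) [Field K] (R : Subring K) where
  D : ℕ
  D_pos : 0 < D
  m : ℕ
  σ : Fin D → K →+* ℂ
  v : Fin m → AbsoluteValue K ℝ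
  nonarch : ∀ j x y, v j (x + y) ≤ max (v j x) (v j y)
  prod : ∀ y ∈ R, y ≠ 0 → 0 ≤ ∑ i, Real.log ‖σ i y‖ + ∑ j, Real.log (v j y)

section
variable {K : Type} [Field K] {R : Subring K}

/-- the set of places -/
abbrev Places.Pl (P : Places K R) : Type := Fin P.D ⊕ Fin P.m

/-- logarithm of the absolute value -/
noncomputable def Places.lg (P : Places K R) (w : P.Pl) (x : K) : ℝ :=
  Real.log (Sum.elim (fun i => ‖P.σ i x‖) (fun j => P.v j x) w)

/-- the pair `(log |x|, log |1 - x|)` -/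
noncomputable def Places.lv (P : Places K R) (w : P.Pl) (x : K) : ℝ × ℝ :=
  (P.lg w x, P.lg w (1 - x))

/-- normalised sum over the places -/
noncomputable def Places.avg (P : Places K R) (f : P.Pl → ℝ) : ℝ := (∑ w, f w) / P.D

/-- `1` at the archimedean places, `0` at the others -/
def Places.arch (P : Places K R) (w : P.Pl) : ℝ := Sum.elim (fun _ => 1) (fun _ => 0) w

/-- `x` and `1 - x` are units of `R` -/
structure UU (R : Subring K) (x : K) : Prop where
  ne0 : x ≠ 0
  ne1 : x ≠ 1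
  mem : x ∈ R
  inv : x⁻¹ ∈ R
  inv1 : (1 - x)⁻¹ ∈ R

end

/-- the three rays of the tropical line -/
def ray : Fin 3 → ℝ × ℝ := ![(-1, 0), (0, -1), (1, 1)]

/-- the linear map which maps `ray j` to `ray (π j)` -/
noncomputable def rayMap (π : Equiv.Perm (Fin 3)) (x : ℝ × ℝ) : ℝ × ℝ :=
  -(x.1 • ray (π 0)) - x.2 • ray (π 1)

/-- `t`, `j` decompose the vectors of `x` : `t w • ray (j w)` is near `lv w x` -/
structure Dec {K : Type} [Field K] {R : Subring K} (P : Places K R) (x : K)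
    (j : P.Pl → Fin 3) (t : P.Pl → ℝ) (h : ℝ) : Prop where
  nonneg : ∀ w, 0 ≤ t w
  near : ∀ w, ‖P.lv w x - t w • ray (j w)‖ ≤ 2 * P.arch w
  mass : ∀ i, |P.avg (fun w => if j w = i then t w else 0) - h| ≤ 2

/-- `∑ q i k X^i Y^k` (`i ≤ n`, `k ≤ 100`) vanishes to the order `τ`, with weights `1` and `s`, at
the points `(0, 0)`, `(∞, ∞)` and `(1, 1)`. -/
structure Van (s : ℝ) (n : ℕ) (τ : ℝ) (q : ℕ → ℕ → ℤ) : Prop where
  zero : ∀ i k : ℕ, (i : ℝ) + s * k < τ → q i k = 0
  inf : ∀ i k : ℕ, i ≤ n → k ≤ 100 → ((n : ℝ) - i) + s * (100 - k) < τ → q i k = 0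
  one : ∀ α β : ℕ, (α : ℝ) + s * β < τ →
    ∑ i ∈ Finset.range (n + 1), ∑ k ∈ Finset.range 101, q i k * (i.choose α) * (k.choose β) = 0

/-- the value of the polynomial `∑ q i k X^i Y^k` (`i ≤ n`, `k ≤ 100`) -/
def val {K : Type} [Field K] (n : ℕ) (q : ℕ → ℕ → ℤ) (x y : K) : K :=
  ∑ i ∈ Finset.range (n + 1), ∑ k ∈ Finset.range 101, (q i k : K) * x ^ i * y ^ k

/-- the point `(x, y)` lies on the product of the lines `a i * X i + b i * Y i = 1`, has non-zero
coordinates, and its coordinates satisfy at least `r` independent multiplicative relations -/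
def Special {K : Type} [Field K] {k : ℕ} (r : ℕ) (a b x y : Fin k → K) : Prop :=
  (∀ i, x i ≠ 0 ∧ y i ≠ 0 ∧ a i * x i + b i * y i = 1) ∧
    ∃ Λ : Submodule ℤ (Fin k → ℤ × ℤ), r ≤ Module.finrank ℤ Λ ∧
      ∀ m ∈ Λ, ∏ i, x i ^ (m i).1 * y i ^ (m i).2 = 1

/-! ## Basic properties -/

section
variable {K : Type} [Field K] {R : Subring K} (P : Places K R)

theorem Places.lg_inl (i : Fin P.D) (x : K) : P.lg (.inl i) x = Real.log ‖P.σ i x‖ := rfl

theorem Places.lg_inr (j : Fin P.m) (x : K) : P.lg (.inr j) x = Real.log (P.v j x) := rfl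

theorem Places.arch_inl (i : Fin P.D) : P.arch (.inl i) = 1 := rfl

theorem Places.arch_inr (j : Fin P.m) : P.arch (.inr j) = 0 := rfl

theorem Places.arch_nonneg (w : P.Pl) : 0 ≤ P.arch w := by
  rcases w with i | j
  · simp [Places.arch]
  · simp [Places.arch]

theorem Places.D_cast_pos : (0 : ℝ) < P.D := by exact_mod_cast P.D_pos

theorem Places.avg_mono {f g : P.Pl → ℝ} (h : ∀ w, f w ≤ g w) : P.avg f ≤ P.avg g :=
  div_le_div_of_nonneg_right (Finset.sum_le_sum fun w _ => h w) P.D_cast_pos.le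

theorem Places.avg_nonneg {f : P.Pl → ℝ} (h : ∀ w, 0 ≤ f w) : 0 ≤ P.avg f :=
  div_nonneg (Finset.sum_nonneg fun w _ => h w) P.D_cast_pos.le

theorem Places.avg_add (f g : P.Pl → ℝ) : P.avg (fun w => f w + g w) = P.avg f + P.avg g := by
  simp only [Places.avg, Finset.sum_add_distrib, add_div]

theorem Places.avg_sub (f g : P.Pl → ℝ) : P.avg (fun w => f w - g w) = P.avg f - P.avg g := by
  simp only [Places.avg, Finset.sum_sub_distrib, sub_div]

theorem Places.avg_neg (f : P.Pl → ℝ) : P.avg (fun w => - f w) = - P.avg f := by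
  simp only [Places.avg, Finset.sum_neg_distrib, neg_div]

theorem Places.avg_mul (c : ℝ) (f : P.Pl → ℝ) : P.avg (fun w => c * f w) = c * P.avg f := by
  simp only [Places.avg, ← Finset.mul_sum, mul_div_assoc]

theorem Places.avg_sum {ι : Type} (s : Finset ι) (f : ι → P.Pl → ℝ) :
    P.avg (fun w => ∑ i ∈ s, f i w) = ∑ i ∈ s, P.avg (f i) := by
  simp only [Places.avg, ← Finset.sum_div]
  rw [Finset.sum_comm]

theorem Places.abs_avg_le (f : P.Pl → ℝ) : |P.avg f| ≤ P.avg (fun w => |f w|) := by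
  simp only [Places.avg]
  rw [abs_div, abs_of_pos P.D_cast_pos]
  exact div_le_div_of_nonneg_right (Finset.abs_sum_le_sum_abs _ _) P.D_cast_pos.le

theorem Places.avg_arch : P.avg P.arch = 1 := by
  have h := P.D_cast_pos.ne'
  simp [Places.avg, Places.arch, Fintype.sum_sum_type, h]

theorem Places.avg_const_arch (c : ℝ) : P.avg (fun w => c * P.arch w) = c := by
  rw [Places.avg_mul, P.avg_arch, mul_one]

theorem Places.sum_le_of_avg_le {f : P.Pl → ℝ} {c : ℝ} (h : P.avg f ≤ c) :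
    ∑ w, f w ≤ c * P.D := by
  rwa [Places.avg, div_le_iff₀ P.D_cast_pos] at h

/-- a sum over the archimedean places -/
theorem Places.sum_inl_le {f : P.Pl → ℝ} (hf : ∀ w, 0 ≤ f w) : ∑ i, f (.inl i) ≤ ∑ w, f w := by
  rw [Fintype.sum_sum_type]
  have := Finset.sum_nonneg (s := Finset.univ) (fun j (_ : j ∈ Finset.univ) => hf (.inr j))
  linarith

include P in
theorem Places.charZero : CharZero K :=
  ⟨fun a b h => by
    have := congrArg (P.σ ⟨0, P.D_pos⟩) h
    simpa using this⟩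

theorem Places.lg_zero (w : P.Pl) : P.lg w 0 = 0 := by
  rcases w with i | j
  · simp [Places.lg]
  · simp [Places.lg]

theorem Places.lg_one (w : P.Pl) : P.lg w 1 = 0 := by
  rcases w with i | j
  · simp [Places.lg]
  · simp [Places.lg]

theorem Places.lg_mul (w : P.Pl) {x y : K} (hx : x ≠ 0) (hy : y ≠ 0) :
    P.lg w (x * y) = P.lg w x + P.lg w y := by
  rcases w with i | j
  · simp only [Places.lg, Sum.elim_inl, map_mul, norm_mul]
    exact Real.log_mul (by simpa using hx) (by simpa using hy)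
  · simp only [Places.lg, Sum.elim_inr, map_mul]
    exact Real.log_mul ((P.v j).ne_zero hx) ((P.v j).ne_zero hy)

theorem Places.lg_inv (w : P.Pl) (x : K) : P.lg w x⁻¹ = - P.lg w x := by
  rcases w with i | j
  · simp only [Places.lg, Sum.elim_inl, map_inv₀, norm_inv, Real.log_inv]
  · simp only [Places.lg, Sum.elim_inr, map_inv₀, Real.log_inv]

theorem Places.lg_div (w : P.Pl) {x y : K} (hx : x ≠ 0) (hy : y ≠ 0) :
    P.lg w (x / y) = P.lg w x - P.lg w y := by
  rw [div_eq_mul_inv, P.lg_mul w hx (inv_ne_zero hy), P.lg_inv, sub_eq_add_neg]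

theorem Places.lg_pow (w : P.Pl) (x : K) (n : ℕ) : P.lg w (x ^ n) = n * P.lg w x := by
  rcases w with i | j
  · simp only [Places.lg, Sum.elim_inl, map_pow, norm_pow, Real.log_pow]
  · simp only [Places.lg, Sum.elim_inr, map_pow, Real.log_pow]

theorem Places.lg_zpow (w : P.Pl) (x : K) (n : ℤ) : P.lg w (x ^ n) = n * P.lg w x := by
  rcases w with i | j
  · simp only [Places.lg, Sum.elim_inl, map_zpow₀, norm_zpow, Real.log_zpow]
  · simp only [Places.lg, Sum.elim_inr, map_zpow₀, Real.log_zpow]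

theorem Places.lg_neg (w : P.Pl) (x : K) : P.lg w (-x) = P.lg w x := by
  rcases w with i | j
  · simp only [Places.lg, Sum.elim_inl, map_neg, norm_neg]
  · simp only [Places.lg, Sum.elim_inr, AbsoluteValue.map_neg]

theorem Places.lg_sub_comm (w : P.Pl) (x y : K) : P.lg w (x - y) = P.lg w (y - x) := by
  rw [← P.lg_neg, neg_sub]

theorem Places.avg_lg_nonneg {y : K} (hy : y ∈ R) (h0 : y ≠ 0) :
    0 ≤ P.avg (fun w => P.lg w y) := by
  rw [Places.avg]
  apply div_nonneg _ P.D_cast_pos.le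
  rw [Fintype.sum_sum_type]
  exact P.prod y hy h0

theorem Places.avg_lg_unit {x : K} (h0 : x ≠ 0) (h1 : x ∈ R) (h2 : x⁻¹ ∈ R) :
    P.avg (fun w => P.lg w x) = 0 := by
  refine le_antisymm ?_ (P.avg_lg_nonneg h1 h0)
  have h := P.avg_lg_nonneg h2 (inv_ne_zero h0)
  simp only [P.lg_inv] at h
  rw [P.avg_neg] at h
  linarith

theorem Places.v_nat (j : Fin P.m) (n : ℕ) : P.v j (n : K) ≤ 1 := by
  induction n with
  | zero => simp
  | succ n ih =>
    push_cast
    refine (P.nonarch j _ _).trans (max_le ih ?_)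
    simp

theorem Places.v_int (j : Fin P.m) (n : ℤ) : P.v j (n : K) ≤ 1 := by
  obtain ⟨m, rfl | rfl⟩ := n.eq_nat_or_neg
  · simpa using P.v_nat j m
  · simpa using P.v_nat j m

theorem Places.v_sum_le (j : Fin P.m) {ι : Type} (s : Finset ι) (f : ι → K) {b : ℝ} (hb : 0 ≤ b)
    (h : ∀ i ∈ s, P.v j (f i) ≤ b) : P.v j (∑ i ∈ s, f i) ≤ b := by
  classical
  induction s using Finset.induction_on with
  | empty => simpa using hb
  | insert a s ha ih =>
    rw [Finset.sum_insert ha]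
    refine (P.nonarch j _ _).trans (max_le (h a (Finset.mem_insert_self a s)) (ih ?_))
    intro i hi
    exact h i (Finset.mem_insert_of_mem hi)

theorem Places.lv_fst (w : P.Pl) (x : K) : (P.lv w x).1 = P.lg w x := rfl

theorem Places.lv_snd (w : P.Pl) (x : K) : (P.lv w x).2 = P.lg w (1 - x) := rfl

theorem Places.abs_lg_le_norm_lv (w : P.Pl) (x : K) : |P.lg w x| ≤ ‖P.lv w x‖ := by
  rw [Prod.norm_def]
  exact le_max_left _ _

theorem Places.abs_lg_one_sub_le_norm_lv (w : P.Pl) (x : K) : |P.lg w (1 - x)| ≤ ‖P.lv w x‖ := by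
  rw [Prod.norm_def]
  exact le_max_right _ _

theorem Places.norm_lv_le (w : P.Pl) (x : K) : ‖P.lv w x‖ ≤ |P.lg w x| + |P.lg w (1 - x)| := by
  rw [Prod.norm_def]
  exact max_le_add_of_nonneg (norm_nonneg _) (norm_nonneg _)

theorem UU.mem1 {x : K} (h : UU R x) : 1 - x ∈ R := R.sub_mem R.one_mem h.mem

theorem UU.ne1' {x : K} (h : UU R x) : 1 - x ≠ 0 := sub_ne_zero.mpr h.ne1.symm

theorem UU.avg_lg {x : K} (h : UU R x) : P.avg (fun w => P.lg w x) = 0 :=
  P.avg_lg_unit h.ne0 h.mem h.inv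

theorem UU.avg_lg1 {x : K} (h : UU R x) : P.avg (fun w => P.lg w (1 - x)) = 0 :=
  P.avg_lg_unit h.ne1' h.mem1 h.inv1

theorem val_mem (n : ℕ) (q : ℕ → ℕ → ℤ) {x y : K} (hx : x ∈ R) (hy : y ∈ R) :
    val n q x y ∈ R := by
  refine R.sum_mem fun i _ => R.sum_mem fun k _ => ?_
  exact R.mul_mem (R.mul_mem (intCast_mem R _) (R.pow_mem hx i)) (R.pow_mem hy k)

end

end Pool.Agent.L3
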