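import Pool.Agent.Lib.MP_c95b3b_ag_L3.Defs

/-! Project L3 (MP_c95b3b_ag), module PL1: places of number fields. -/

namespace Pool.Agent.L3

namespace PL1

open NumberField
open scoped Classical

variable {K : Type} [Field K] [NumberField K]

/-- a sum over the embeddings is a sum over the infinite places with multiplicities -/
theorem sum_embeddings (f : ℝ → ℝ) (x : K) :
    ∑ φ : K →+* ℂ, f ‖φ x‖ = ∑ w : InfinitePlace K, (w.mult : ℝ) * f (w x) := by
  classical
  rw [← Finset.sum_fiberwise Finset.univ InfinitePlace.mk (fun φ : K →+* ℂ => f ‖φ x‖)]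
  refine Finset.sum_congr rfl fun w _ => ?_
  have h : ∀ φ ∈ ({φ | InfinitePlace.mk φ = w} : Finset (K →+* ℂ)), f ‖φ x‖ = f (w x) := by
    intro φ hφ
    rw [← (Finset.mem_filter.mp hφ).2, InfinitePlace.apply]
  rw [Finset.sum_congr rfl h, Finset.sum_const, InfinitePlace.card_filter_mk_eq, nsmul_eq_mul]

/-- the product formula, additively -/
theorem sum_log (y : K) (hy : y ≠ 0) :
    ∑ φ : K →+* ℂ, Real.log ‖φ y‖ + ∑ᶠ w : FinitePlace K, Real.log (w y) = 0 := by
  have h1 := NumberField.prod_abs_eq_one hy
  have hpos : ∀ w : FinitePlace K, 0 < w y := fun w => FinitePlace.pos_iff.mpr hy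
  have hi : ∀ w : InfinitePlace K, w y ^ w.mult ≠ 0 := fun w =>
    pow_ne_zero _ ((map_ne_zero _).mpr hy)
  have hf : (∏ᶠ w : FinitePlace K, w y) ≠ 0 := by
    intro h0
    rw [h0, mul_zero] at h1
    exact zero_ne_one h1
  have h2 := congrArg Real.log h1
  rw [Real.log_mul (Finset.prod_ne_zero_iff.mpr fun w _ => hi w) hf, Real.log_one,
    Real.log_prod (fun w _ => hi w), Real.log_finprod hpos] at h2
  rw [sum_embeddings Real.log y]
  simpa [Real.log_pow] using h2

theorem finsum_eq (f : FinitePlace K → ℝ) (hf : (Function.support f).Finite)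
    (T : Finset (FinitePlace K)) :
    ∑ᶠ w, f w = ∑ w ∈ T, f w + ∑ w ∈ hf.toFinset.filter (fun w => w ∉ T), f w := by
  classical
  rw [finsum_eq_sum_of_support_subset (s := T ∪ hf.toFinset.filter (fun w => w ∉ T)) f]
  · rw [Finset.sum_union]
    rw [Finset.disjoint_left]
    intro w hw hw'
    exact (Finset.mem_filter.mp hw').2 hw
  · intro w hw
    by_cases h : w ∈ T
    · simp [h]
    · simp only [Finset.coe_union, Set.mem_union, Finset.mem_coe, Finset.mem_filter,
        Set.Finite.mem_toFinset]
      exact Or.inr ⟨hw, h⟩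

theorem support_log (y : K) (hy : y ≠ 0) :
    (Function.support fun w : FinitePlace K => Real.log (w y)).Finite := by
  refine (FinitePlace.hasFiniteMulSupport hy).subset ?_
  intro w hw h1
  apply hw
  simp only at h1 ⊢
  rw [h1, Real.log_one]

theorem support_posLog (y : K) :
    (Function.support fun w : FinitePlace K => max 0 (Real.log (w y))).Finite := by
  by_cases hy : y = 0
  · subst hy
    simp
  · refine (support_log y hy).subset ?_
    intro w hw h1
    apply hw
    simp only at h1 ⊢
    rw [h1, max_self]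

end PL1

open NumberField PL1 in
theorem exists_places (K : Type) [Field K] [NumberField K] (X : Finset K)
    (hX : ∀ x ∈ X, x ≠ 0) :
    ∃ P : Places K (Subring.closure ((X : Set K) ∪ {y | ∃ x ∈ X, y = x⁻¹})),
      P.D = Module.finrank ℚ K ∧
      ∀ x : K, P.avg (fun w => max 0 (P.lg w x)) ≤
        Height.logHeight₁ x / Module.finrank ℚ K := by
  classical
  have hTf : (⋃ x ∈ X, {w : FinitePlace K | w x ≠ 1}).Finite :=
    X.finite_toSet.biUnion fun x hx => FinitePlace.hasFiniteMulSupport (hX x hx)
  set T : Finset (FinitePlace K) := hTf.toFinset with hT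
  have hTX : ∀ w : FinitePlace K, w ∉ T → ∀ x ∈ X, w x = 1 := by
    intro w hw x hx
    by_contra h
    apply hw
    rw [hT, Set.Finite.mem_toFinset]
    exact Set.mem_biUnion hx h
  have hR : ∀ w : FinitePlace K, w ∉ T →
      ∀ y ∈ Subring.closure ((X : Set K) ∪ {y | ∃ x ∈ X, y = x⁻¹}), w y ≤ 1 := by
    intro w hw y hy
    induction hy using Subring.closure_induction with
    | mem y hy =>
      rcases hy with hy | ⟨x, hx, rfl⟩
      · exact (hTX w hw y hy).le
      · rw [map_inv₀, hTX w hw x hx, inv_one]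
    | zero => simp
    | one => simp
    | add a b _ _ ha hb => exact (w.add_le a b).trans (max_le ha hb)
    | neg a _ ha => rwa [map_neg_eq_map]
    | mul a b _ _ ha hb =>
      rw [map_mul]
      exact mul_le_one₀ ha (apply_nonneg w b) hb
  have hcard : Fintype.card (K →+* ℂ) = Module.finrank ℚ K := NumberField.Embeddings.card K ℂ
  let e : Fin (Module.finrank ℚ K) ≃ (K →+* ℂ) := (Fintype.equivFinOfCardEq hcard).symm
  have he : ∀ f : (K →+* ℂ) → ℝ, ∑ i, f (e i) = ∑ φ, f φ := fun f => Equiv.sum_comp e f
  have ht : ∀ f : FinitePlace K → ℝ, ∑ j : Fin T.card, f (T.equivFin.symm j : FinitePlace K) =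
      ∑ w ∈ T, f w := by
    intro f
    rw [Equiv.sum_comp T.equivFin.symm (fun w : T => f w), Finset.sum_coe_sort T f]
  let P : Places K (Subring.closure ((X : Set K) ∪ {y | ∃ x ∈ X, y = x⁻¹})) :=
    { D := Module.finrank ℚ K
      D_pos := Module.finrank_pos
      m := T.card
      σ := fun i => e i
      v := fun j => (T.equivFin.symm j : FinitePlace K).1
      nonarch := fun j x y => FinitePlace.add_le _ x y
      prod := by
        intro y hy h0
        have h1 := sum_log y h0
        rw [finsum_eq _ (support_log y h0) T] at h1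
        have h2 : ∑ w ∈ (support_log y h0).toFinset.filter (fun w => w ∉ T),
            Real.log (w y) ≤ 0 := by
          refine Finset.sum_nonpos fun w hw => ?_
          exact Real.log_nonpos (apply_nonneg w y) (hR w (Finset.mem_filter.mp hw).2 y hy)
        have h3 := he (fun φ => Real.log ‖φ y‖)
        have h4 := ht (fun w => Real.log (w y))
        change 0 ≤ (∑ i, Real.log ‖(e i) y‖) +
          ∑ j : Fin T.card, Real.log ((T.equivFin.symm j : FinitePlace K) y)
        rw [h4, h3]
        linarith }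
  refine ⟨P, rfl, fun x => ?_⟩
  have hD : (0 : ℝ) < Module.finrank ℚ K := by exact_mod_cast Module.finrank_pos
  have h1 : P.avg (fun w => max 0 (P.lg w x)) =
      (∑ φ : K →+* ℂ, max 0 (Real.log ‖φ x‖) + ∑ w ∈ T, max 0 (Real.log (w x))) /
        Module.finrank ℚ K := by
    unfold Places.avg
    rw [Fintype.sum_sum_type]
    have h3 := he (fun φ => max 0 (Real.log ‖φ x‖))
    have h4 := ht (fun w => max 0 (Real.log (w x)))
    rw [← h3, ← h4]
    rfl
  rw [h1]
  refine div_le_div_of_nonneg_right ?_ hD.le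
  rw [NumberField.logHeight₁_eq x]
  have h5 : ∑ φ : K →+* ℂ, max 0 (Real.log ‖φ x‖) =
      ∑ w : InfinitePlace K, (w.mult : ℝ) * max 0 (Real.log (w x)) :=
    sum_embeddings (fun r => max 0 (Real.log r)) x
  rw [h5]
  have h6 : ∑ᶠ v : FinitePlace K, Real.posLog (v x) =
      ∑ᶠ w : FinitePlace K, max 0 (Real.log (w x)) := rfl
  rw [h6, finsum_eq _ (support_posLog x) T]
  have h7 : 0 ≤ ∑ w ∈ (support_posLog x).toFinset.filter (fun w => w ∉ T),
      max 0 (Real.log (w x)) := Finset.sum_nonneg fun w _ => le_max_left _ _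
  have h8 : ∑ w : InfinitePlace K, (w.mult : ℝ) * max 0 (Real.log (w x)) =
      ∑ w : InfinitePlace K, (w.mult : ℝ) * Real.posLog (w x) := rfl
  rw [h8]
  linarith

end Pool.Agent.L3
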