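import Pool.Agent.Lib.MP_c95b3b_ag_L3.Defs

/-!
# Bounded averages for algebraic numbers (module PL2 of project L3)

If `f` is an integral polynomial with `f(0) ≠ 0`, then the average of `|log |a||` over the places
is bounded in terms of `f` for every root `a` of `f` in a field with places.
-/

namespace Pool.Agent.L3

namespace PL2

open Polynomial

section
variable {K : Type} [Field K] {R : Subring K} (P : Places K R)

/-- the number of archimedean places times `log |c|` bounds the sum of `-log v(c)` -/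
theorem sum_int (c : ℤ) (hc : c ≠ 0) :
    ∑ j, -Real.log (P.v j (c : K)) ≤ P.D * Real.log |(c : ℝ)| := by
  have := P.charZero
  have h := P.prod (c : K) (intCast_mem R c) (Int.cast_ne_zero.2 hc)
  have h1 : ∑ i, Real.log ‖P.σ i (c : K)‖ = P.D * Real.log |(c : ℝ)| := by
    have : ∀ i, Real.log ‖P.σ i (c : K)‖ = Real.log |(c : ℝ)| := by
      intro i
      rw [map_intCast, Complex.norm_intCast]
    simp only [this, Finset.sum_const, Finset.card_univ, Fintype.card_fin, nsmul_eq_mul]
  rw [Finset.sum_neg_distrib]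
  linarith

theorem v_int_pos (j : Fin P.m) {c : ℤ} (hc : c ≠ 0) : 0 < P.v j (c : K) := by
  have := P.charZero
  exact (P.v j).pos (Int.cast_ne_zero.2 hc)

/-- the root is not too large -/
theorem lead_mul_le (f : ℤ[X]) (h0 : f.coeff 0 ≠ 0) (a : K) (ha : aeval a f = 0) (j : Fin P.m) :
    P.v j (f.leadingCoeff : K) * P.v j a ≤ 1 := by
  have := P.charZero
  have hlc : P.v j (f.leadingCoeff : K) ≤ 1 := P.v_int j _
  have hnn : 0 ≤ P.v j (f.leadingCoeff : K) := (P.v j).nonneg _
  rcases le_or_gt (P.v j a) 1 with h | h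
  · exact mul_le_one₀ hlc ((P.v j).nonneg _) h
  have hd : f.natDegree ≠ 0 := by
    intro hd
    rw [eq_C_of_natDegree_eq_zero hd, aeval_C] at ha
    have : ((f.coeff 0 : ℤ) : K) = 0 := by simpa using ha
    exact h0 (Int.cast_eq_zero.1 this)
  obtain ⟨d, hd'⟩ := Nat.exists_eq_succ_of_ne_zero hd
  have hs : (f.leadingCoeff : K) * a ^ (d + 1) =
      -∑ i ∈ Finset.range (d + 1), (f.coeff i : K) * a ^ i := by
    rw [aeval_eq_sum_range, hd', Finset.sum_range_succ] at ha
    simp only [zsmul_eq_mul] at ha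
    rw [leadingCoeff, hd']
    linear_combination ha
  have hv : P.v j (f.leadingCoeff : K) * P.v j a ^ (d + 1) ≤ P.v j a ^ d := by
    rw [← map_pow, ← map_mul, hs, AbsoluteValue.map_neg]
    refine P.v_sum_le j _ _ (by positivity) fun i hi => ?_
    rw [map_mul, map_pow]
    calc P.v j (f.coeff i : K) * P.v j a ^ i ≤ 1 * P.v j a ^ i :=
          mul_le_mul_of_nonneg_right (P.v_int j _) (by positivity)
      _ = P.v j a ^ i := one_mul _
      _ ≤ P.v j a ^ d :=
          pow_le_pow_right₀ h.le (Nat.lt_succ_iff.1 (Finset.mem_range.1 hi))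
  have hpos : 0 < P.v j a ^ d := by positivity
  rw [pow_succ', ← mul_assoc] at hv
  exact le_of_mul_le_mul_right (by linarith) hpos

/-- the root is not too small -/
theorem coeff_zero_le (f : ℤ[X]) (a : K) (ha : aeval a f = 0) (j : Fin P.m) :
    P.v j (f.coeff 0 : K) ≤ P.v j a := by
  rcases le_or_gt 1 (P.v j a) with h | h
  · exact (P.v_int j _).trans h
  have hs : (f.coeff 0 : K) =
      -∑ i ∈ Finset.range f.natDegree, (f.coeff (i + 1) : K) * a ^ (i + 1) := by
    rw [aeval_eq_sum_range, Finset.sum_range_succ'] at ha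
    simp only [zsmul_eq_mul, pow_zero, mul_one] at ha
    linear_combination ha
  rw [hs, AbsoluteValue.map_neg]
  refine P.v_sum_le j _ _ ((P.v j).nonneg _) fun i _ => ?_
  rw [map_mul, map_pow]
  calc P.v j (f.coeff (i + 1) : K) * P.v j a ^ (i + 1) ≤ 1 * P.v j a ^ (i + 1) :=
        mul_le_mul_of_nonneg_right (P.v_int j _) (by positivity)
    _ = P.v j a ^ i * P.v j a := by rw [one_mul, pow_succ]
    _ ≤ 1 * P.v j a :=
        mul_le_mul_of_nonneg_right (pow_le_one₀ ((P.v j).nonneg _) h.le) ((P.v j).nonneg _)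
    _ = P.v j a := one_mul _

theorem abs_log_v_le (f : ℤ[X]) (h0 : f.coeff 0 ≠ 0) (a : K) (ha : aeval a f = 0)
    (j : Fin P.m) :
    |Real.log (P.v j a)| ≤
      -Real.log (P.v j (f.leadingCoeff : K)) + -Real.log (P.v j (f.coeff 0 : K)) := by
  have hf : f ≠ 0 := by
    rintro rfl
    exact h0 (by simp)
  have hlc : f.leadingCoeff ≠ 0 := leadingCoeff_ne_zero.2 hf
  have p1 := v_int_pos P j hlc
  have p2 := v_int_pos P j h0
  have l1 : Real.log (P.v j (f.leadingCoeff : K)) ≤ 0 := Real.log_nonpos p1.le (P.v_int j _)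
  have l2 : Real.log (P.v j (f.coeff 0 : K)) ≤ 0 := Real.log_nonpos p2.le (P.v_int j _)
  have b2 := coeff_zero_le P f a ha j
  have pa : 0 < P.v j a := p2.trans_le b2
  have b1 := lead_mul_le P f h0 a ha j
  have e1 : Real.log (P.v j (f.leadingCoeff : K)) + Real.log (P.v j a) ≤ 0 := by
    rw [← Real.log_mul p1.ne' pa.ne']
    exact Real.log_nonpos (by positivity) b1
  have e2 : Real.log (P.v j (f.coeff 0 : K)) ≤ Real.log (P.v j a) := Real.log_le_log p2 b2
  rw [abs_le]
  constructor <;> linarith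

/-- the archimedean bound -/
theorem abs_log_norm_le (f : ℤ[X]) (h0 : f.coeff 0 ≠ 0) (a : K) (ha : aeval a f = 0)
    (i : Fin P.D) :
    |Real.log ‖P.σ i a‖| ≤
      ∑ z ∈ (f.map (Int.castRingHom ℂ)).roots.toFinset, |Real.log ‖z‖| := by
  have hf : f.map (Int.castRingHom ℂ) ≠ 0 := by
    rw [Ne, Polynomial.map_eq_zero_iff (RingHom.injective_int _)]
    rintro rfl
    exact h0 (by simp)
  have hr : P.σ i a ∈ (f.map (Int.castRingHom ℂ)).roots.toFinset := by
    rw [Multiset.mem_toFinset, mem_roots hf, IsRoot.def, eval_map]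
    have h1 : (Int.castRingHom ℂ) = (P.σ i).comp (algebraMap ℤ K) := RingHom.ext_int _ _
    rw [h1, ← hom_eval₂]
    rw [aeval_def] at ha
    rw [ha, map_zero]
  exact Finset.single_le_sum (f := fun z : ℂ => |Real.log ‖z‖|) (fun _ _ => abs_nonneg _) hr

end

end PL2

open PL2 in
/-- algebraic numbers have bounded averages of `|log|`, uniformly in the field -/
theorem avg_abs_lg_le (f : Polynomial ℤ) (h0 : f.coeff 0 ≠ 0) : ∃ C : ℝ,
    ∀ (K : Type) [Field K] (R : Subring K) (P : Places K R) (a : K),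
      Polynomial.aeval a f = 0 → P.avg (fun w => |P.lg w a|) ≤ C := by
  refine ⟨(∑ z ∈ (f.map (Int.castRingHom ℂ)).roots.toFinset, |Real.log ‖z‖|) +
    Real.log |(f.leadingCoeff : ℝ)| + Real.log |(f.coeff 0 : ℝ)|, ?_⟩
  intro K _ R P a ha
  have hf : f ≠ 0 := by
    rintro rfl
    exact h0 (by simp)
  have hlc : f.leadingCoeff ≠ 0 := Polynomial.leadingCoeff_ne_zero.2 hf
  set C1 : ℝ := ∑ z ∈ (f.map (Int.castRingHom ℂ)).roots.toFinset, |Real.log ‖z‖| with hC1
  have h1 : ∑ i, |P.lg (.inl i) a| ≤ P.D * C1 := by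
    calc ∑ i, |P.lg (.inl i) a| ≤ ∑ _i : Fin P.D, C1 :=
          Finset.sum_le_sum fun i _ => abs_log_norm_le P f h0 a ha i
      _ = P.D * C1 := by simp
  have h2 : ∑ j, |P.lg (.inr j) a| ≤
      P.D * Real.log |(f.leadingCoeff : ℝ)| + P.D * Real.log |(f.coeff 0 : ℝ)| := by
    calc ∑ j, |P.lg (.inr j) a| ≤ ∑ j, (-Real.log (P.v j (f.leadingCoeff : K)) +
          -Real.log (P.v j (f.coeff 0 : K))) :=
          Finset.sum_le_sum fun j _ => abs_log_v_le P f h0 a ha j
      _ = ∑ j, -Real.log (P.v j (f.leadingCoeff : K)) +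
          ∑ j, -Real.log (P.v j (f.coeff 0 : K)) := Finset.sum_add_distrib
      _ ≤ _ := add_le_add (sum_int P _ hlc) (sum_int P _ h0)
  rw [Places.avg, div_le_iff₀ P.D_cast_pos, Fintype.sum_sum_type]
  nlinarith [h1, h2]

end Pool.Agent.L3
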