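import Mathlib
import Pool.Agent.Lib.MP_c95b3b_ag_L3.Defs
import Pool.Agent.Lib.MP_c95b3b_ag_L3.Place1
import Pool.Agent.Lib.MP_c95b3b_ag_L3.Place2

/-! Project L3 (MP_c95b3b_ag), module FB: the set-up for points over number fields. -/

namespace Pool.Agent.L3
namespace FB

open Module

/-- the functional of an integer vector -/
noncomputable def dualMap (k : ℕ) : (Fin k ⊕ Fin k → ℝ) →ₗ[ℝ] Dual ℝ (Fin k → ℝ × ℝ) where
  toFun c :=
    { toFun := fun v => ∑ i, (c (.inl i) * (v i).1 + c (.inr i) * (v i).2)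
      map_add' := by
        intro v w
        simp only [Pi.add_apply, Prod.fst_add, Prod.snd_add]
        rw [← Finset.sum_add_distrib]
        exact Finset.sum_congr rfl fun i _ => by ring
      map_smul' := by
        intro a v
        simp only [Pi.smul_apply, Prod.smul_fst, Prod.smul_snd, smul_eq_mul, RingHom.id_apply]
        rw [Finset.mul_sum]
        exact Finset.sum_congr rfl fun i _ => by ring }
  map_add' := by
    intro c d
    refine LinearMap.ext fun v => ?_
    simp only [LinearMap.coe_mk, AddHom.coe_mk, LinearMap.add_apply, Pi.add_apply]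
    rw [← Finset.sum_add_distrib]
    exact Finset.sum_congr rfl fun i _ => by ring
  map_smul' := by
    intro a c
    refine LinearMap.ext fun v => ?_
    simp only [LinearMap.coe_mk, AddHom.coe_mk, LinearMap.smul_apply, Pi.smul_apply, smul_eq_mul,
      RingHom.id_apply]
    rw [Finset.mul_sum]
    exact Finset.sum_congr rfl fun i _ => by ring

theorem dualMap_apply (k : ℕ) (c : Fin k ⊕ Fin k → ℝ) (v : Fin k → ℝ × ℝ) :
    dualMap k c v = ∑ i, (c (.inl i) * (v i).1 + c (.inr i) * (v i).2) := rfl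

theorem dualMap_ker (k : ℕ) : LinearMap.ker (dualMap k) = ⊥ := by
  classical
  rw [LinearMap.ker_eq_bot']
  intro c hc
  funext j
  rcases j with j | j
  · have h := congrArg (fun f : Dual ℝ (Fin k → ℝ × ℝ) => f (Pi.single j (1, 0))) hc
    simp only [dualMap_apply, LinearMap.zero_apply] at h
    rw [Finset.sum_eq_single j] at h
    · simpa using h
    · intro b _ hb
      simp [hb]
    · simp
  · have h := congrArg (fun f : Dual ℝ (Fin k → ℝ × ℝ) => f (Pi.single j (0, 1))) hc
    simp only [dualMap_apply, LinearMap.zero_apply] at h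
    rw [Finset.sum_eq_single j] at h
    · simpa using h
    · intro b _ hb
      simp [hb]
    · simp

/-- the two coordinates side by side -/
def flat (k : ℕ) : (Fin k → ℤ × ℤ) →ₗ[ℤ] (Fin k ⊕ Fin k → ℤ) where
  toFun m := Sum.elim (fun i => (m i).1) (fun i => (m i).2)
  map_add' := by
    intro m n
    ext j
    rcases j with j | j <;> simp
  map_smul' := by
    intro a m
    ext j
    rcases j with j | j <;> simp

theorem flat_ker (k : ℕ) : LinearMap.ker (flat k) = ⊥ := by
  rw [LinearMap.ker_eq_bot']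
  intro m hm
  funext i
  have h1 := congrFun hm (.inl i)
  have h2 := congrFun hm (.inr i)
  simp only [flat, LinearMap.coe_mk, AddHom.coe_mk, Sum.elim_inl, Sum.elim_inr, Pi.zero_apply] at h1 h2
  exact Prod.ext h1 h2

/-- the space of real solutions of integer equations -/
def annih (k : ℕ) (Λ : Submodule ℤ (Fin k → ℤ × ℤ)) : Submodule ℝ (Fin k → ℝ × ℝ) where
  carrier := {v | ∀ m ∈ Λ, ∑ i, (((m i).1 : ℝ) * (v i).1 + ((m i).2 : ℝ) * (v i).2) = 0}
  add_mem' := by
    intro v w hv hw m hm
    have h1 := hv m hm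
    have h2 := hw m hm
    simp only [Pi.add_apply, Prod.fst_add, Prod.snd_add]
    calc _ = ∑ i, (((m i).1 : ℝ) * (v i).1 + ((m i).2 : ℝ) * (v i).2) +
        ∑ i, (((m i).1 : ℝ) * (w i).1 + ((m i).2 : ℝ) * (w i).2) := by
          rw [← Finset.sum_add_distrib]
          exact Finset.sum_congr rfl fun i _ => by ring
      _ = 0 := by rw [h1, h2, add_zero]
  zero_mem' := by
    intro m _
    simp
  smul_mem' := by
    intro a v hv m hm
    have h1 := hv m hm
    simp only [Pi.smul_apply, Prod.smul_fst, Prod.smul_snd, smul_eq_mul]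
    calc _ = a * ∑ i, (((m i).1 : ℝ) * (v i).1 + ((m i).2 : ℝ) * (v i).2) := by
          rw [Finset.mul_sum]
          exact Finset.sum_congr rfl fun i _ => by ring
      _ = 0 := by rw [h1, mul_zero]

theorem finrank_annih (k r : ℕ) (Λ : Submodule ℤ (Fin k → ℤ × ℤ)) (hr : r ≤ finrank ℤ Λ) :
    finrank ℝ (annih k Λ) + r ≤ 2 * k := by
  obtain ⟨f, hf⟩ := exists_linearIndependent_of_le_finrank hr
  have h1 : LinearIndependent ℤ (fun j => flat k (f j : Fin k → ℤ × ℤ)) := by
    have h0 : LinearIndependent ℤ (fun j => (f j : Fin k → ℤ × ℤ)) :=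
      hf.map' Λ.subtype (Submodule.ker_subtype Λ)
    exact h0.map' (flat k) (flat_ker k)
  have h2 : LinearIndependent ℝ (fun j => algebraMap ℤ ℝ ∘ flat k (f j : Fin k → ℤ × ℤ)) :=
    linearIndependent_algebraMap_comp_iff.2 h1
  have h3 : LinearIndependent ℝ
      (fun j => dualMap k (algebraMap ℤ ℝ ∘ flat k (f j : Fin k → ℤ × ℤ))) :=
    h2.map' (dualMap k) (dualMap_ker k)
  set W : Subspace ℝ (Dual ℝ (Fin k → ℝ × ℝ)) := Submodule.span ℝ
    (Set.range (fun j => dualMap k (algebraMap ℤ ℝ ∘ flat k (f j : Fin k → ℤ × ℤ)))) with hW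
  have h4 : finrank ℝ W = r := by
    rw [hW, finrank_span_eq_card h3, Fintype.card_fin]
  have h5 := Subspace.finrank_add_finrank_dualCoannihilator_eq W
  have h6 : finrank ℝ (Fin k → ℝ × ℝ) = 2 * k := by
    rw [Module.finrank_pi_fintype]
    simp [mul_comm]
  have h7 : annih k Λ ≤ W.dualCoannihilator := by
    intro v hv
    rw [Submodule.mem_dualCoannihilator]
    intro φ hφ
    induction hφ using Submodule.span_induction with
    | mem x hx =>
      obtain ⟨j, rfl⟩ := hx
      have := hv _ (f j).2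
      simpa [dualMap_apply, flat] using this
    | zero => simp
    | add x y _ _ hx hy => rw [LinearMap.add_apply, hx, hy, add_zero]
    | smul a x _ hx => rw [LinearMap.smul_apply, hx, smul_zero]
  have h8 := Submodule.finrank_mono h7
  rw [h4, h6] at h5
  omega


/-! ## Estimates at the places -/

section
variable {K : Type} [Field K] {R : Subring K} (P : Places K R)

theorem lg_one_sub_le (w : P.Pl) (x : K) :
    P.lg w (1 - x) ≤ max 0 (P.lg w x) + Real.log 2 * P.arch w := by
  rcases w with i | j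
  · rw [P.arch_inl, mul_one, P.lg_inl, P.lg_inl, map_sub, map_one]
    by_cases h1 : (1 - P.σ i x) = 0
    · rw [h1, norm_zero, Real.log_zero]
      have := Real.log_pos (by norm_num : (1 : ℝ) < 2)
      have := le_max_left 0 (Real.log ‖P.σ i x‖)
      linarith
    · have h2 : 0 < ‖1 - P.σ i x‖ := norm_pos_iff.2 h1
      have h3 : ‖1 - P.σ i x‖ ≤ 1 + ‖P.σ i x‖ := by
        have := norm_sub_le (1 : ℂ) (P.σ i x)
        simpa using this
      rcases le_or_gt ‖P.σ i x‖ 1 with h4 | h4
      · have h5 : Real.log ‖1 - P.σ i x‖ ≤ Real.log 2 :=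
          Real.log_le_log h2 (by linarith)
        have := le_max_left 0 (Real.log ‖P.σ i x‖)
        linarith
      · have h5 : Real.log ‖1 - P.σ i x‖ ≤ Real.log (‖P.σ i x‖ * 2) :=
          Real.log_le_log h2 (by linarith)
        rw [Real.log_mul (by linarith) (by norm_num)] at h5
        have := le_max_right 0 (Real.log ‖P.σ i x‖)
        linarith
  · rw [P.arch_inr, mul_zero, add_zero, P.lg_inr, P.lg_inr]
    have h1 : P.v j (1 - x) ≤ max 1 (P.v j x) := by
      have := P.nonarch j 1 (-x)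
      rw [map_one, AbsoluteValue.map_neg, ← sub_eq_add_neg] at this
      exact this
    rcases (AbsoluteValue.nonneg (P.v j) (1 - x)).eq_or_lt with h2 | h2
    · rw [← h2, Real.log_zero]
      exact le_max_left _ _
    · rcases le_or_gt (P.v j x) 1 with h4 | h4
      · rw [max_eq_left h4] at h1
        exact (Real.log_nonpos h2.le h1).trans (le_max_left _ _)
      · rw [max_eq_right h4.le] at h1
        exact (Real.log_le_log h2 h1).trans (le_max_right _ _)

theorem avg_abs_eq {y : K} (h0 : P.avg (fun w => P.lg w y) = 0) :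
    P.avg (fun w => |P.lg w y|) = 2 * P.avg (fun w => max 0 (P.lg w y)) := by
  have h1 : (fun w => |P.lg w y|) = fun w => 2 * max 0 (P.lg w y) - P.lg w y := by
    funext w
    rcases le_total 0 (P.lg w y) with h | h
    · rw [abs_of_nonneg h, max_eq_right h]; ring
    · rw [abs_of_nonpos h, max_eq_left h]; ring
  rw [h1, P.avg_sub, h0, P.avg_mul, sub_zero]

theorem avg_norm_lv_le {x : K} (hx : UU R x) :
    P.avg (fun w => ‖P.lv w x‖) ≤ 4 * P.avg (fun w => max 0 (P.lg w x)) + 2 * Real.log 2 := by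
  have h1 : P.avg (fun w => ‖P.lv w x‖) ≤
      P.avg (fun w => |P.lg w x|) + P.avg (fun w => |P.lg w (1 - x)|) := by
    rw [← P.avg_add]
    exact P.avg_mono fun w => P.norm_lv_le w x
  rw [avg_abs_eq P (hx.avg_lg P), avg_abs_eq P (hx.avg_lg1 P)] at h1
  have h2 : P.avg (fun w => max 0 (P.lg w (1 - x))) ≤
      P.avg (fun w => max 0 (P.lg w x)) + Real.log 2 := by
    rw [← P.avg_const_arch (Real.log 2), ← P.avg_add]
    refine P.avg_mono fun w => max_le ?_ (lg_one_sub_le P w x)
    have h3 := le_max_left 0 (P.lg w x)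
    have h4 := P.arch_nonneg w
    have h5 := Real.log_pos (by norm_num : (1 : ℝ) < 2)
    positivity
  linarith

theorem lg_prod (w : P.Pl) {ι : Type} (s : Finset ι) (f : ι → K) (hf : ∀ i ∈ s, f i ≠ 0) :
    P.lg w (∏ i ∈ s, f i) = ∑ i ∈ s, P.lg w (f i) := by
  classical
  induction s using Finset.induction_on with
  | empty => simp [P.lg_one]
  | insert a s ha ih =>
    rw [Finset.prod_insert ha, Finset.sum_insert ha, P.lg_mul w (hf a (Finset.mem_insert_self a s))
      (Finset.prod_ne_zero_iff.2 fun i hi => hf i (Finset.mem_insert_of_mem hi)),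
      ih fun i hi => hf i (Finset.mem_insert_of_mem hi)]

end

/-- an integer polynomial with non-zero constant term which vanishes at a non-zero algebraic
number -/
theorem exists_poly {K0 : Type} [Field K0] [NumberField K0] {a : K0} (ha : a ≠ 0) :
    ∃ f : Polynomial ℤ, f.coeff 0 ≠ 0 ∧ Polynomial.aeval a f = 0 := by
  have h1 : IsAlgebraic ℤ a := by
    have h2 : IsAlgebraic ℚ a := Algebra.IsAlgebraic.isAlgebraic a
    exact (IsFractionRing.isAlgebraic_iff ℤ ℚ K0).2 h2
  obtain ⟨p, hp0, hp⟩ := h1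
  obtain ⟨q, hq⟩ := Polynomial.exists_eq_pow_rootMultiplicity_mul_and_not_dvd p hp0 0
  refine ⟨q, ?_, ?_⟩
  · intro h0
    apply hq.2
    rw [Polynomial.C_0, sub_zero]
    exact Polynomial.X_dvd_iff.2 h0
  · have h3 := hp
    rw [hq.1, map_mul, map_pow, Polynomial.C_0, sub_zero, Polynomial.aeval_X] at h3
    rcases mul_eq_zero.1 h3 with h4 | h4
    · exact absurd h4 (pow_ne_zero _ ha)
    · exact h4


end FB

open FB in
theorem setup (k : ℕ) (K0 : Type) [Field K0] [NumberField K0] (a b : Fin k → K0)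
    (ha : ∀ i, a i ≠ 0) (hb : ∀ i, b i ≠ 0) : ∃ c : ℝ, ∃ Γ : Finset (Fin k → ℝ × ℝ),
    (∀ γ ∈ Γ, ‖γ‖ ≤ c) ∧
    ∀ (K : Type) [Field K] [NumberField K] [Algebra K0 K] (r : ℕ) (x y : Fin k → K),
      Special r (fun i => algebraMap K0 K (a i)) (fun i => algebraMap K0 K (b i)) x y →
      ∃ (R : Subring K) (P : Places K R) (g : P.Pl → Fin k → ℝ × ℝ)
        (E : Submodule ℝ (Fin k → ℝ × ℝ)),
        (∀ i, UU R (algebraMap K0 K (a i) * x i)) ∧ P.avg (fun w => ‖g w‖) ≤ c ∧
        (∀ i, g (.inl i) ∈ Γ) ∧ Module.finrank ℝ E + r ≤ 2 * k ∧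
        (∀ w, (fun i => P.lv w (algebraMap K0 K (a i) * x i)) - g w ∈ E) ∧
        ∀ i, P.avg (fun w => ‖P.lv w (algebraMap K0 K (a i) * x i)‖) ≤
          c + 4 * (Height.logHeight₁ (x i) / Module.finrank ℚ K) := by
  classical
  -- the constants
  choose fa hfa0 hfa using fun i => exists_poly (ha i)
  choose fb hfb0 hfb using fun i => exists_poly (hb i)
  choose Ca hCa using fun i => avg_abs_lg_le (fa i) (hfa0 i)
  choose Cb hCb using fun i => avg_abs_lg_le (fb i) (hfb0 i)
  set Γ : Finset (Fin k → ℝ × ℝ) := (Finset.univ : Finset (K0 →+* ℂ)).image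
    (fun σ => fun i => (Real.log ‖σ (a i)‖, Real.log ‖σ (b i)‖)) with hΓ
  set S : ℝ := ∑ i, (|Ca i| + |Cb i|) with hS
  have hS0 : 0 ≤ S := Finset.sum_nonneg fun i _ => by positivity
  set T : ℝ := ∑ γ ∈ Γ, ‖γ‖ with hT
  have hT0 : 0 ≤ T := Finset.sum_nonneg fun i _ => norm_nonneg _
  have hlog2 : 0 < Real.log 2 := Real.log_pos (by norm_num)
  refine ⟨4 * S + 2 * Real.log 2 + T, Γ, ?_, ?_⟩
  · intro γ hγ
    have h1 : ‖γ‖ ≤ T := Finset.single_le_sum (f := fun γ => ‖γ‖) (fun i _ => norm_nonneg _) hγ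
    linarith
  intro K _ _ _ r x y hsp
  obtain ⟨hxy, Λ, hr, hΛ⟩ := hsp
  set a' : Fin k → K := fun i => algebraMap K0 K (a i) with ha'
  set b' : Fin k → K := fun i => algebraMap K0 K (b i) with hb'
  have ha0 : ∀ i, a' i ≠ 0 := fun i => by
    simpa [ha'] using ha i
  have hb0 : ∀ i, b' i ≠ 0 := fun i => by
    simpa [hb'] using hb i
  have hx0 : ∀ i, x i ≠ 0 := fun i => (hxy i).1
  have hy0 : ∀ i, y i ≠ 0 := fun i => (hxy i).2.1
  have hone : ∀ i, 1 - a' i * x i = b' i * y i := fun i => by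
    have := (hxy i).2.2
    rw [← this]
    simp only [ha', hb']
    ring
  set X : Finset K := Finset.univ.image (fun i => a' i * x i) ∪
    Finset.univ.image (fun i => b' i * y i) with hX
  have hXa : ∀ i, a' i * x i ∈ X := fun i =>
    Finset.mem_union_left _ (Finset.mem_image_of_mem _ (Finset.mem_univ i))
  have hXb : ∀ i, b' i * y i ∈ X := fun i =>
    Finset.mem_union_right _ (Finset.mem_image_of_mem _ (Finset.mem_univ i))
  have hX0 : ∀ z ∈ X, z ≠ 0 := by
    intro z hz
    rcases Finset.mem_union.1 hz with h | h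
    · obtain ⟨i, -, rfl⟩ := Finset.mem_image.1 h
      exact mul_ne_zero (ha0 i) (hx0 i)
    · obtain ⟨i, -, rfl⟩ := Finset.mem_image.1 h
      exact mul_ne_zero (hb0 i) (hy0 i)
  set R : Subring K := Subring.closure ((X : Set K) ∪ {y | ∃ x ∈ X, y = x⁻¹}) with hR
  obtain ⟨P, hPD, hPH⟩ : ∃ P : Places K R, P.D = Module.finrank ℚ K ∧
      ∀ x : K, P.avg (fun w => max 0 (P.lg w x)) ≤
        Height.logHeight₁ x / Module.finrank ℚ K := exists_places K X hX0
  have hmem : ∀ z ∈ X, z ∈ R := fun z hz => Subring.subset_closure (Or.inl hz)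
  have hinv : ∀ z ∈ X, z⁻¹ ∈ R := fun z hz => Subring.subset_closure (Or.inr ⟨z, hz, rfl⟩)
  have hUU : ∀ i, UU R (a' i * x i) := by
    intro i
    refine ⟨mul_ne_zero (ha0 i) (hx0 i), ?_, hmem _ (hXa i), hinv _ (hXa i), ?_⟩
    · intro h
      have h1 := hone i
      rw [h, sub_self] at h1
      exact mul_ne_zero (hb0 i) (hy0 i) h1.symm
    · rw [hone i]
      exact hinv _ (hXb i)
  have hroot : ∀ i, Polynomial.aeval (a' i) (fa i) = 0 := by
    intro i
    simp only [ha']
    rw [Polynomial.aeval_algebraMap_apply, hfa i, map_zero]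
  have hrootb : ∀ i, Polynomial.aeval (b' i) (fb i) = 0 := by
    intro i
    simp only [hb']
    rw [Polynomial.aeval_algebraMap_apply, hfb i, map_zero]
  have hsumle : ∀ i, |Ca i| + |Cb i| ≤ S := fun i =>
    Finset.single_le_sum (f := fun i => |Ca i| + |Cb i|) (fun i _ => by positivity)
      (Finset.mem_univ i)
  refine ⟨R, P, fun w i => (P.lg w (a' i), P.lg w (b' i)), annih k Λ, hUU, ?_, ?_, ?_, ?_, ?_⟩
  · -- average of g
    have h1 : P.avg (fun w => ‖(fun i => (P.lg w (a' i), P.lg w (b' i)) : Fin k → ℝ × ℝ)‖) ≤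
        P.avg (fun w => ∑ i, (|P.lg w (a' i)| + |P.lg w (b' i)|)) := by
      refine P.avg_mono fun w => ?_
      have h0 : 0 ≤ ∑ i, (|P.lg w (a' i)| + |P.lg w (b' i)|) :=
        Finset.sum_nonneg fun i _ => by positivity
      rw [pi_norm_le_iff_of_nonneg h0]
      intro i
      have h2 : |P.lg w (a' i)| + |P.lg w (b' i)| ≤ ∑ i, (|P.lg w (a' i)| + |P.lg w (b' i)|) :=
        Finset.single_le_sum (f := fun i => |P.lg w (a' i)| + |P.lg w (b' i)|)
          (fun i _ => by positivity) (Finset.mem_univ i)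
      refine le_trans ?_ h2
      rw [Prod.norm_def]
      exact max_le_add_of_nonneg (norm_nonneg _) (norm_nonneg _)
    rw [P.avg_sum] at h1
    have h3 : ∑ i, P.avg (fun w => |P.lg w (a' i)| + |P.lg w (b' i)|) ≤ S := by
      rw [hS]
      refine Finset.sum_le_sum fun i _ => ?_
      rw [P.avg_add]
      exact add_le_add ((hCa i K R P _ (hroot i)).trans (le_abs_self _))
        ((hCb i K R P _ (hrootb i)).trans (le_abs_self _))
    linarith
  · intro i
    rw [hΓ]
    exact Finset.mem_image.2 ⟨(P.σ i).comp (algebraMap K0 K), Finset.mem_univ _, rfl⟩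
  · exact finrank_annih k r Λ hr
  · intro w m hm
    have h1 := hΛ m hm
    have h2 : P.lg w (∏ i, x i ^ (m i).1 * y i ^ (m i).2) = 0 := by rw [h1, P.lg_one]
    rw [lg_prod P w _ _ (fun i _ => mul_ne_zero (zpow_ne_zero _ (hx0 i)) (zpow_ne_zero _ (hy0 i)))]
      at h2
    rw [← h2]
    refine Finset.sum_congr rfl fun i _ => ?_
    rw [P.lg_mul w (zpow_ne_zero _ (hx0 i)) (zpow_ne_zero _ (hy0 i)), P.lg_zpow, P.lg_zpow]
    simp only [Pi.sub_apply, Prod.fst_sub, Prod.snd_sub, P.lv_fst, P.lv_snd]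
    have h3 : P.lg w (a' i * x i) = P.lg w (a' i) + P.lg w (x i) := P.lg_mul w (ha0 i) (hx0 i)
    have h4 : P.lg w (1 - a' i * x i) = P.lg w (b' i) + P.lg w (y i) := by
      rw [hone i]
      exact P.lg_mul w (hb0 i) (hy0 i)
    rw [show algebraMap K0 K (a i) = a' i from rfl, h3, h4]
    ring
  · intro i
    have h1 := avg_norm_lv_le P (hUU i)
    have h2 : P.avg (fun w => max 0 (P.lg w (a' i * x i))) ≤
        |Ca i| + Height.logHeight₁ (x i) / Module.finrank ℚ K := by
      have h3 : P.avg (fun w => max 0 (P.lg w (a' i * x i))) ≤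
          P.avg (fun w => |P.lg w (a' i)| + max 0 (P.lg w (x i))) := by
        refine P.avg_mono fun w => ?_
        rw [P.lg_mul w (ha0 i) (hx0 i)]
        refine max_le ?_ ?_
        · have := abs_nonneg (P.lg w (a' i))
          have := le_max_left 0 (P.lg w (x i))
          linarith
        · have := le_abs_self (P.lg w (a' i))
          have := le_max_right 0 (P.lg w (x i))
          linarith
      rw [P.avg_add] at h3
      have h4 := (hCa i K R P _ (hroot i)).trans (le_abs_self _)
      have h5 := hPH (x i)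
      linarith
    have h6 := hsumle i
    have h7 := abs_nonneg (Cb i)
    have h8 : P.avg (fun w => ‖P.lv w (a' i * x i)‖) ≤
        4 * S + 2 * Real.log 2 + T + 4 * (Height.logHeight₁ (x i) / Module.finrank ℚ K) := by
      linarith
    exact h8

end Pool.Agent.L3
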