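import Pool.Agent.Lib.MP_c95b3b_ag_L3.Defs

/-! Project L3 (MP_c95b3b_ag): decomposition along the three rays. -/

namespace Pool.Agent.L3

namespace VA

/-- logarithm of a number in `[1/2, 3]` -/
theorem abs_log_le {r : ℝ} (h1 : 1 / 2 ≤ r) (h2 : r ≤ 3) : |Real.log r| ≤ 2 := by
  have h0 : 0 < r := by linarith
  have h3 := Real.log_le_sub_one_of_pos h0
  have h4 := Real.one_sub_inv_le_log_of_pos h0
  have h5 : r⁻¹ ≤ 2 := by
    rw [inv_le_comm₀ h0 (by norm_num)]
    linarith
  rw [abs_le]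
  constructor <;> linarith

theorem norm_pair_le {a b c : ℝ} (ha : |a| ≤ c) (hb : |b| ≤ c) : ‖((a, b) : ℝ × ℝ)‖ ≤ c := by
  rw [Prod.norm_def]
  exact max_le ha hb

theorem ray0 : ray 0 = (-1, 0) := rfl
theorem ray1 : ray 1 = (0, -1) := rfl
theorem ray2 : ray 2 = (1, 1) := rfl

/-- pointwise decomposition at the archimedean places -/
theorem arch_point (u : ℂ) (h0 : u ≠ 0) :
    ∃ (j : Fin 3) (t : ℝ), 0 ≤ t ∧
      ‖((Real.log ‖u‖, Real.log ‖1 - u‖) : ℝ × ℝ) - t • ray j‖ ≤ 2 := by
  have hu : 0 < ‖u‖ := norm_pos_iff.mpr h0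
  have hlow : 1 - ‖u‖ ≤ ‖1 - u‖ := by
    have := norm_sub_norm_le (1 : ℂ) u
    simpa using this
  have hlow2 : ‖u‖ - 1 ≤ ‖1 - u‖ := by
    have := norm_sub_norm_le u (1 : ℂ)
    rw [norm_sub_rev] at this
    simpa using this
  have hup : ‖1 - u‖ ≤ 1 + ‖u‖ := by
    have := norm_sub_le (1 : ℂ) u
    simpa using this
  rcases le_or_gt ‖u‖ (1 / 2) with h1 | h1
  · refine ⟨0, - Real.log ‖u‖, ?_, ?_⟩
    · have := Real.log_nonpos hu.le (by linarith)
      linarith
    · have : ((Real.log ‖u‖, Real.log ‖1 - u‖) : ℝ × ℝ) - (- Real.log ‖u‖) • ray 0 =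
          (0, Real.log ‖1 - u‖) := by
        rw [ray0]
        ext <;> simp
      rw [this]
      exact norm_pair_le (by simp) (abs_log_le (by linarith) (by linarith))
  · rcases le_or_gt 2 ‖u‖ with h2 | h2
    · refine ⟨2, Real.log ‖u‖, Real.log_nonneg (by linarith), ?_⟩
      have h3 : 0 < ‖1 - u‖ := by linarith
      have : ((Real.log ‖u‖, Real.log ‖1 - u‖) : ℝ × ℝ) - (Real.log ‖u‖) • ray 2 =
          (0, Real.log (‖1 - u‖ / ‖u‖)) := by
        rw [ray2, Real.log_div h3.ne' hu.ne']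
        ext <;> simp
      rw [this]
      refine norm_pair_le (by simp) (abs_log_le ?_ ?_)
      · rw [le_div_iff₀ hu]
        linarith
      · rw [div_le_iff₀ hu]
        linarith
    · refine ⟨1, max 0 (- Real.log ‖1 - u‖), le_max_left _ _, ?_⟩
      have : ((Real.log ‖u‖, Real.log ‖1 - u‖) : ℝ × ℝ) -
          (max 0 (- Real.log ‖1 - u‖)) • ray 1 =
          (Real.log ‖u‖, Real.log ‖1 - u‖ + max 0 (- Real.log ‖1 - u‖)) := by
        rw [ray1]
        ext <;> simp
      rw [this]
      refine norm_pair_le (abs_log_le h1.le (by linarith)) ?_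
      have h3 : Real.log ‖1 - u‖ ≤ 2 := by
        rcases (norm_nonneg (1 - u)).eq_or_lt with h | h
        · rw [← h]
          simp
        · have := Real.log_le_sub_one_of_pos h
          linarith
      rw [abs_le]
      rcases le_total 0 (- Real.log ‖1 - u‖) with h | h
      · rw [max_eq_right h]
        constructor <;> linarith
      · rw [max_eq_left h]
        constructor <;> linarith

section
variable {K : Type} [Field K]

/-- pointwise decomposition at the non-archimedean places -/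
theorem nonarch_point (v : AbsoluteValue K ℝ) (hv : ∀ x y, v (x + y) ≤ max (v x) (v y)) {x : K}
    (h0 : x ≠ 0) (h1 : 1 - x ≠ 0) :
    ∃ (j : Fin 3) (t : ℝ), 0 ≤ t ∧
      ((Real.log (v x), Real.log (v (1 - x))) : ℝ × ℝ) = t • ray j := by
  have hx : 0 < v x := v.pos h0
  have hx1 : 0 < v (1 - x) := v.pos h1
  have a1 : v (1 - x) ≤ max 1 (v x) := by
    have := hv 1 (-x)
    rwa [← sub_eq_add_neg, v.map_one, v.map_neg] at this
  have a2 : 1 ≤ max (v (1 - x)) (v x) := by
    have := hv (1 - x) x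
    rwa [sub_add_cancel, v.map_one] at this
  have a3 : v x ≤ max 1 (v (1 - x)) := by
    have := hv 1 (-(1 - x))
    rw [v.map_one, v.map_neg] at this
    convert this using 2
    ring
  rcases lt_trichotomy (v x) 1 with h | h | h
  · refine ⟨0, - Real.log (v x), ?_, ?_⟩
    · have := Real.log_nonpos hx.le h.le
      linarith
    · have h2 : v (1 - x) = 1 := by
        apply le_antisymm
        · rwa [max_eq_left h.le] at a1
        · rcases le_max_iff.mp a2 with h3 | h3
          · exact h3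
          · linarith
      rw [ray0, h2]
      ext <;> simp
  · refine ⟨1, - Real.log (v (1 - x)), ?_, ?_⟩
    · rw [h, max_self] at a1
      have := Real.log_nonpos hx1.le a1
      linarith
    · rw [ray1, h]
      ext <;> simp
  · refine ⟨2, Real.log (v x), Real.log_nonneg h.le, ?_⟩
    have h2 : v (1 - x) = v x := by
      apply le_antisymm
      · rwa [max_eq_right h.le] at a1
      · rcases le_max_iff.mp a3 with h3 | h3
        · linarith
        · exact h3
    rw [ray2, h2]
    ext <;> simp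

variable {R : Subring K}

/-- pointwise decomposition -/
theorem point (P : Places K R) {x : K} (hx : UU R x) (w : P.Pl) :
    ∃ (j : Fin 3) (t : ℝ), 0 ≤ t ∧ ‖P.lv w x - t • ray j‖ ≤ 2 * P.arch w := by
  rcases w with i | j
  · obtain ⟨j, t, ht, h⟩ := arch_point (P.σ i x) (by simpa using hx.ne0)
    refine ⟨j, t, ht, ?_⟩
    rw [P.arch_inl, mul_one]
    have : P.lv (.inl i) x = (Real.log ‖P.σ i x‖, Real.log ‖1 - P.σ i x‖) := by
      rw [Places.lv, P.lg_inl, P.lg_inl, map_sub, map_one]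
    rw [this]
    exact h
  · obtain ⟨k, t, ht, h⟩ := nonarch_point (P.v j) (P.nonarch j) hx.ne0 hx.ne1'
    refine ⟨k, t, ht, ?_⟩
    have : P.lv (.inr j) x = t • ray k := by
      rw [← h, Places.lv, P.lg_inr, P.lg_inr]
    rw [this, P.arch_inr]
    simp

/-- averages of functions that differ by `c` at the archimedean places -/
theorem avg_near (P : Places K R) {f g : P.Pl → ℝ} {c : ℝ} (h : ∀ w, |f w - g w| ≤ c * P.arch w) :
    |P.avg f - P.avg g| ≤ c := by
  rw [← P.avg_sub]
  refine (P.abs_avg_le _).trans ?_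
  refine (P.avg_mono h).trans ?_
  rw [P.avg_const_arch]

/-- the coordinates of the approximation -/
theorem coord (P : Places K R) {x : K} {w : P.Pl} {j : Fin 3} {t : ℝ}
    (h : ‖P.lv w x - t • ray j‖ ≤ 2 * P.arch w) :
    |P.lg w x - ((if j = 2 then t else 0) - (if j = 0 then t else 0))| ≤ 2 * P.arch w ∧
    |P.lg w (1 - x) - ((if j = 2 then t else 0) - (if j = 1 then t else 0))| ≤ 2 * P.arch w := by
  rw [Prod.norm_def] at h
  have h1 := (le_max_left _ _).trans h
  have h2 := (le_max_right _ _).trans h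
  rw [Real.norm_eq_abs, Prod.fst_sub, Prod.smul_fst, P.lv_fst] at h1
  rw [Real.norm_eq_abs, Prod.snd_sub, Prod.smul_snd, P.lv_snd] at h2
  fin_cases j
  · simp [ray0] at h1 h2 ⊢
    exact ⟨h1, h2⟩
  · simp [ray1] at h1 h2 ⊢
    exact ⟨h1, h2⟩
  · simp [ray2] at h1 h2 ⊢
    exact ⟨h1, h2⟩

theorem norm_smul_ray (j : Fin 3) {t : ℝ} (ht : 0 ≤ t) : ‖t • ray j‖ = t := by
  rw [norm_smul, Real.norm_of_nonneg ht]
  have : ‖ray j‖ = 1 := by
    fin_cases j
    · show ‖((-1, 0) : ℝ × ℝ)‖ = 1
      rw [Prod.norm_def]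
      simp
    · show ‖((0, -1) : ℝ × ℝ)‖ = 1
      rw [Prod.norm_def]
      simp
    · show ‖((1, 1) : ℝ × ℝ)‖ = 1
      rw [Prod.norm_def]
      simp
  rw [this, mul_one]

end

end VA

theorem exists_dec {K : Type} [Field K] {R : Subring K} (P : Places K R) {x : K} (hx : UU R x) :
    ∃ j t h, Dec P x j t h := by
  choose j t ht hn using VA.point P hx
  refine ⟨j, t, P.avg (fun w => if j w = 2 then t w else 0), ht, hn, ?_⟩
  have h1 := VA.avg_near P (c := 2) fun w => (VA.coord P (hn w)).1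
  have h2 := VA.avg_near P (c := 2) fun w => (VA.coord P (hn w)).2
  rw [hx.avg_lg P, P.avg_sub] at h1
  rw [hx.avg_lg1 P, P.avg_sub] at h2
  intro i
  fin_cases i
  · show |P.avg (fun w => if j w = 0 then t w else 0) - _| ≤ 2
    refine le_of_eq_of_le ?_ h1
    congr 1
    ring
  · show |P.avg (fun w => if j w = 1 then t w else 0) - _| ≤ 2
    refine le_of_eq_of_le ?_ h2
    congr 1
    ring
  · show |P.avg (fun w => if j w = 2 then t w else 0) - _| ≤ 2
    simp

theorem Dec.avg_norm {K : Type} [Field K] {R : Subring K} {P : Places K R} {x : K}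
    {j : P.Pl → Fin 3} {t : P.Pl → ℝ} {h : ℝ} (H : Dec P x j t h) :
    |P.avg t - 3 * h| ≤ 6 ∧ |P.avg (fun w => ‖P.lv w x‖) - 3 * h| ≤ 8 ∧
      |P.avg (fun w => max 0 (P.lg w x)) - h| ≤ 4 := by
  have h0 := H.mass 0
  have h1 := H.mass 1
  have h2 := H.mass 2
  have hs : P.avg t = P.avg (fun w => if j w = 0 then t w else 0) +
      P.avg (fun w => if j w = 1 then t w else 0) +
      P.avg (fun w => if j w = 2 then t w else 0) := by
    rw [← P.avg_add, ← P.avg_add]
    congr 1
    funext w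
    generalize j w = i
    fin_cases i <;> simp
  have a1 : |P.avg t - 3 * h| ≤ 6 := by
    rw [hs]
    rw [abs_le] at h0 h1 h2 ⊢
    constructor <;> linarith [h0.1, h0.2, h1.1, h1.2, h2.1, h2.2]
  have a2 : |P.avg (fun w => ‖P.lv w x‖) - P.avg t| ≤ 2 := by
    refine VA.avg_near P fun w => ?_
    have := abs_norm_sub_norm_le (P.lv w x) (t w • ray (j w))
    rw [VA.norm_smul_ray _ (H.nonneg w)] at this
    exact this.trans (H.near w)
  have a3 : |P.avg (fun w => max 0 (P.lg w x)) - P.avg (fun w => if j w = 2 then t w else 0)| ≤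
      2 := by
    refine VA.avg_near P fun w => ?_
    have h3 := (VA.coord P (H.near w)).1
    have h4 := H.nonneg w
    revert h3
    generalize j w = i
    intro h3
    rw [abs_le] at h3 ⊢
    have h5 : ∀ a : ℝ, 0 ≤ max 0 a ∧ a ≤ max 0 a := fun a => ⟨le_max_left _ _, le_max_right _ _⟩
    have h6 := h5 (P.lg w x)
    have h7 : 0 ≤ 2 * P.arch w := mul_nonneg (by norm_num) (P.arch_nonneg w)
    rcases le_total 0 (P.lg w x) with h8 | h8
    · rw [max_eq_right h8] at h6 ⊢
      fin_cases i <;> simp at h3 ⊢ <;> constructor <;> linarith [h3.1, h3.2]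
    · rw [max_eq_left h8] at h6 ⊢
      fin_cases i <;> simp at h3 ⊢
      · linarith
      · linarith
      · constructor <;> linarith [h3.1, h3.2]
  refine ⟨a1, ?_, ?_⟩
  · rw [abs_le] at a1 a2 ⊢
    constructor <;> linarith [a1.1, a1.2, a2.1, a2.2]
  · rw [abs_le] at a3 h2 ⊢
    constructor <;> linarith [a3.1, a3.2, h2.1, h2.2]

end Pool.Agent.L3
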