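import Pool.Agent.Lib.MP_c95b3b_ag_L3.Defs

/-! Project L3 (MP_c95b3b_ag), module FD, first part: from number fields to complex points. -/

namespace Pool.Agent.L3

namespace FD

/-- A non-trivial finitely generated algebra over a number field has a point in a number field. -/
theorem exists_point (K0 : Type) [Field K0] [NumberField K0] (A : Type) [CommRing A]
    [Nontrivial A] [Algebra K0 A] [Algebra.FiniteType K0 A] :
    ∃ (K : Type) (_ : Field K) (_ : NumberField K) (_ : Algebra K0 K), Nonempty (A →ₐ[K0] K) := by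
  obtain ⟨m, hm⟩ := Ideal.exists_maximal A
  let _ : Field (A ⧸ m) := Ideal.Quotient.field m
  have h1 : Algebra.FiniteType K0 (A ⧸ m) :=
    Algebra.FiniteType.of_surjective (Ideal.Quotient.mkₐ K0 m) (Ideal.Quotient.mkₐ_surjective K0 m)
  have h2 : Module.Finite K0 (A ⧸ m) := finite_of_finite_type_of_isJacobsonRing K0 (A ⧸ m)
  have h3 : CharZero (A ⧸ m) :=
    charZero_of_injective_algebraMap (algebraMap K0 (A ⧸ m)).injective
  have h4 : Module.Finite ℚ (A ⧸ m) := Module.Finite.trans K0 (A ⧸ m)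
  have h5 : NumberField (A ⧸ m) := ⟨⟩
  exact ⟨A ⧸ m, inferInstance, h5, inferInstance, ⟨Ideal.Quotient.mkₐ K0 m⟩⟩

/-- multiplicative relations between units are preserved -/
theorem special_map {A L K : Type} [CommRing A] [Field L] [Field K] (f : A →+* L)
    (hf : Function.Injective f) (g : A →+* K) {k r : ℕ} (a b x y x' y' : Fin k → A)
    (hx : ∀ i, x i * x' i = 1) (hy : ∀ i, y i * y' i = 1)
    (h : Special r (fun i => f (a i)) (fun i => f (b i)) (fun i => f (x i)) (fun i => f (y i))) :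
    Special r (fun i => g (a i)) (fun i => g (b i)) (fun i => g (x i)) (fun i => g (y i)) := by
  obtain ⟨h1, Λ, hr, hΛ⟩ := h
  refine ⟨fun i => ⟨?_, ?_, ?_⟩, Λ, hr, fun m hm => ?_⟩
  · intro h0
    have h2 := congrArg g (hx i)
    rw [map_mul, map_one, show g (x i) = 0 from h0, zero_mul] at h2
    exact zero_ne_one h2
  · intro h0
    have h2 := congrArg g (hy i)
    rw [map_mul, map_one, show g (y i) = 0 from h0, zero_mul] at h2
    exact zero_ne_one h2
  · have h2 : f (a i) * f (x i) + f (b i) * f (y i) = 1 := (h1 i).2.2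
    rw [← map_mul, ← map_mul, ← map_add, ← map_one f] at h2
    have h3 := congrArg g (hf h2)
    rw [map_add, map_mul, map_mul, map_one] at h3
    exact h3
  · let u : Fin k → Aˣ := fun i => ⟨x i, x' i, hx i, by rw [mul_comm]; exact hx i⟩
    let v : Fin k → Aˣ := fun i => ⟨y i, y' i, hy i, by rw [mul_comm]; exact hy i⟩
    have key : ∀ (M : Type) [Field M] (s : A →+* M),
        ((Units.map (s : A →* M) (∏ i, u i ^ (m i).1 * v i ^ (m i).2) : Mˣ) : M) =
          ∏ i, s (x i) ^ (m i).1 * s (y i) ^ (m i).2 := by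
      intro M _ s
      rw [map_prod, Units.coe_prod]
      refine Finset.prod_congr rfl fun i _ => ?_
      rw [map_mul, map_zpow, map_zpow, Units.val_mul, Units.val_zpow_eq_zpow_val,
        Units.val_zpow_eq_zpow_val]
      rfl
    have h3 : Units.map (f : A →* L) (∏ i, u i ^ (m i).1 * v i ^ (m i).2) =
        Units.map (f : A →* L) 1 := by
      apply Units.ext
      rw [map_one, Units.val_one, key L f]
      exact hΛ m hm
    have h4 : (∏ i, u i ^ (m i).1 * v i ^ (m i).2) = 1 := Units.map_injective hf h3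
    have h5 := key K g
    rw [h4, map_one, Units.val_one] at h5
    exact h5.symm

/-- A statement on special points over number fields implies the statement on complex points. -/
theorem complex_of_nf (k r : ℕ)
    (hnf : ∀ (K0 : Type) [Field K0] [NumberField K0] (a b : Fin k → K0),
      (∀ i, a i ≠ 0) → (∀ i, b i ≠ 0) → ∃ F : MvPolynomial (Fin k) ℤ, F ≠ 0 ∧
      ∀ (K : Type) [Field K] [NumberField K] [Algebra K0 K] (x y : Fin k → K),
        Special r (fun i => algebraMap K0 K (a i)) (fun i => algebraMap K0 K (b i)) x y →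
        MvPolynomial.aeval (fun i => algebraMap K0 K (a i) * x i) F = 0)
    (a b : Fin k → ℂ) (ha : ∀ i, a i ≠ 0) (hb : ∀ i, b i ≠ 0)
    (ha' : ∀ i, IsAlgebraic ℚ (a i)) (hb' : ∀ i, IsAlgebraic ℚ (b i)) :
    ∃ F : MvPolynomial (Fin k) ℤ, F ≠ 0 ∧ ∀ x y : Fin k → ℂ, Special r a b x y →
      MvPolynomial.aeval (fun i => a i * x i) F = 0 := by
  set S : Set ℂ := Set.range a ∪ Set.range b with hS
  have hSfin : S.Finite := (Set.finite_range a).union (Set.finite_range b)
  let K0 : IntermediateField ℚ ℂ := IntermediateField.adjoin ℚ S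
  have hfin : FiniteDimensional ℚ K0 := by
    have : Finite S := hSfin
    refine IntermediateField.finiteDimensional_adjoin fun z hz => ?_
    rcases hz with ⟨i, rfl⟩ | ⟨i, rfl⟩
    · exact (ha' i).isIntegral
    · exact (hb' i).isIntegral
  have : NumberField K0 := ⟨⟩
  let a0 : Fin k → K0 := fun i => ⟨a i, IntermediateField.subset_adjoin ℚ S (Or.inl ⟨i, rfl⟩)⟩
  let b0 : Fin k → K0 := fun i => ⟨b i, IntermediateField.subset_adjoin ℚ S (Or.inr ⟨i, rfl⟩)⟩
  have ha0 : ∀ i, a0 i ≠ 0 := fun i h => ha i (congrArg Subtype.val h)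
  have hb0 : ∀ i, b0 i ≠ 0 := fun i h => hb i (congrArg Subtype.val h)
  obtain ⟨F, hF, H⟩ := hnf K0 a0 b0 ha0 hb0
  refine ⟨F, hF, fun x y hxy => ?_⟩
  by_contra hne
  let e : ℂ := MvPolynomial.aeval (fun i => a i * x i) F
  have he : e ≠ 0 := hne
  let T : Set ℂ := (Set.range x ∪ Set.range y) ∪ (Set.range (fun i => (x i)⁻¹) ∪
    Set.range (fun i => (y i)⁻¹)) ∪ {e⁻¹}
  have hTfin : T.Finite := (((Set.finite_range _).union (Set.finite_range _)).union
    ((Set.finite_range _).union (Set.finite_range _))).union (Set.finite_singleton _)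
  let A : Subalgebra K0 ℂ := Algebra.adjoin K0 T
  have hA : Algebra.FiniteType K0 A := by
    rw [← Subalgebra.fg_iff_finiteType]
    exact Subalgebra.fg_def.mpr ⟨T, hTfin, rfl⟩
  obtain ⟨K, _, _, _, ⟨φ⟩⟩ := exists_point K0 A
  have hTA : ∀ z ∈ T, z ∈ A := fun z hz => Algebra.subset_adjoin hz
  let X : Fin k → A := fun i => ⟨x i, hTA _ (Or.inl (Or.inl (Or.inl ⟨i, rfl⟩)))⟩
  let Y : Fin k → A := fun i => ⟨y i, hTA _ (Or.inl (Or.inl (Or.inr ⟨i, rfl⟩)))⟩
  let X' : Fin k → A := fun i => ⟨(x i)⁻¹, hTA _ (Or.inl (Or.inr (Or.inl ⟨i, rfl⟩)))⟩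
  let Y' : Fin k → A := fun i => ⟨(y i)⁻¹, hTA _ (Or.inl (Or.inr (Or.inr ⟨i, rfl⟩)))⟩
  let E' : A := ⟨e⁻¹, hTA _ (Or.inr rfl)⟩
  have hX : ∀ i, X i * X' i = 1 := fun i => Subtype.ext (mul_inv_cancel₀ (hxy.1 i).1)
  have hY : ∀ i, Y i * Y' i = 1 := fun i => Subtype.ext (mul_inv_cancel₀ (hxy.1 i).2.1)
  have hS1 : Special r (fun i => (φ : A →+* K) (algebraMap K0 A (a0 i)))
      (fun i => (φ : A →+* K) (algebraMap K0 A (b0 i))) (fun i => (φ : A →+* K) (X i))
      (fun i => (φ : A →+* K) (Y i)) :=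
    special_map A.subtype Subtype.val_injective (φ : A →+* K)
      (fun i => algebraMap K0 A (a0 i)) (fun i => algebraMap K0 A (b0 i)) X Y X' Y' hX hY hxy
  have hcomm : ∀ z : K0, (φ : A →+* K) (algebraMap K0 A z) = algebraMap K0 K z := φ.commutes
  have hS2 : Special r (fun i => algebraMap K0 K (a0 i)) (fun i => algebraMap K0 K (b0 i))
      (fun i => (φ : A →+* K) (X i)) (fun i => (φ : A →+* K) (Y i)) := by
    simpa only [hcomm] using hS1
  have h0 := H K _ _ hS2
  let G : A := MvPolynomial.aeval (fun i => algebraMap K0 A (a0 i) * X i) F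
  have h1 : (φ : A →+* K) G = 0 := by
    rw [← h0]
    have h2 := MvPolynomial.map_aeval (fun i => algebraMap K0 A (a0 i) * X i) (φ : A →+* K) F
    rw [h2]
    have h3 : (φ : A →+* K).comp (algebraMap ℤ A) = algebraMap ℤ K := Subsingleton.elim _ _
    rw [h3, MvPolynomial.coe_eval₂Hom, ← MvPolynomial.aeval_def]
    simp only [map_mul, hcomm]
  have h2 : A.subtype G = e := by
    have h2 := MvPolynomial.map_aeval (fun i => algebraMap K0 A (a0 i) * X i) A.subtype F
    rw [h2]
    have h3 : A.subtype.comp (algebraMap ℤ A) = algebraMap ℤ ℂ := Subsingleton.elim _ _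
    rw [h3, MvPolynomial.coe_eval₂Hom, ← MvPolynomial.aeval_def]
    rfl
  have h3 : G * E' = 1 := Subtype.ext (by
    change A.subtype G * e⁻¹ = 1
    rw [h2]
    exact mul_inv_cancel₀ he)
  have h4 := congrArg (φ : A →+* K) h3
  rw [map_mul, h1, zero_mul, map_one] at h4
  exact zero_ne_one h4

end FD

end Pool.Agent.L3
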