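import Pool.Agent.Lib.MP_c95b3b_ag_L3.FC
import Pool.Agent.Lib.MP_c95b3b_ag_L3.FD1

/-! Project L3 (MP_c95b3b_ag), module FD: complex points. -/

namespace Pool.Agent.L3

theorem three_lines (a b : Fin 3 → ℂ) (ha : ∀ i, a i ≠ 0) (hb : ∀ i, b i ≠ 0)
    (ha' : ∀ i, IsAlgebraic ℚ (a i)) (hb' : ∀ i, IsAlgebraic ℚ (b i)) :
    ∃ F : MvPolynomial (Fin 3) ℤ, F ≠ 0 ∧ ∀ x y : Fin 3 → ℂ, Special 4 a b x y →
      MvPolynomial.aeval (fun i => a i * x i) F = 0 :=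
  FD.complex_of_nf 3 4 (fun K0 _ _ a b ha hb => three_lines_nf K0 a b ha hb) a b ha hb ha' hb'

end Pool.Agent.L3
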