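import Mathlib

/-! Project L3 (MP_c95b3b_ag), module TC: pigeonhole principle for linear forms. -/

namespace Pool.Agent.L3

namespace TC

/-- index of the box of `x ∈ [0, L]` -/
noncomputable def box (L : ℕ) (hL : 0 < L) (x : ℝ) : Fin L :=
  ⟨min ⌊x⌋₊ (L - 1), lt_of_le_of_lt (min_le_right _ _) (Nat.sub_lt hL one_pos)⟩

theorem box_spec (L : ℕ) (hL : 0 < L) (x : ℝ) (h0 : 0 ≤ x) (h1 : x ≤ L) :
    ((box L hL x : ℕ) : ℝ) ≤ x ∧ x ≤ ((box L hL x : ℕ) : ℝ) + 1 := by
  have hb : (box L hL x : ℕ) = min ⌊x⌋₊ (L - 1) := rfl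
  rw [hb]
  rcases le_total ⌊x⌋₊ (L - 1) with h | h
  · rw [min_eq_left h]
    exact ⟨Nat.floor_le h0, (Nat.lt_floor_add_one x).le⟩
  · rw [min_eq_right h]
    constructor
    · calc ((L - 1 : ℕ) : ℝ) ≤ (⌊x⌋₊ : ℝ) := by exact_mod_cast h
        _ ≤ x := Nat.floor_le h0
    · have : ((L - 1 : ℕ) : ℝ) = (L : ℝ) - 1 := by
        rw [Nat.cast_sub hL]; simp
      rw [this]; linarith

theorem close (L : ℕ) (hL : 0 < L) (x y : ℝ) (hx0 : 0 ≤ x) (hx1 : x ≤ L) (hy0 : 0 ≤ y)
    (hy1 : y ≤ L) (h : box L hL x = box L hL y) : |x - y| ≤ 1 := by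
  obtain ⟨a1, a2⟩ := box_spec L hL x hx0 hx1
  obtain ⟨b1, b2⟩ := box_spec L hL y hy0 hy1
  rw [h] at a1 a2
  rw [abs_le]; constructor <;> linarith

end TC

open TC in
theorem pigeon {n J : Type} [Fintype n] [Fintype J] [DecidableEq n] (a : J → n → ℝ) (W : ℝ)
    (hW : ∀ j i, |a j i| ≤ W) (H L : ℕ) (hL : 0 < L)
    (hc : L ^ Fintype.card J < (H + 1) ^ Fintype.card n) :
    ∃ q : n → ℤ, q ≠ 0 ∧ (∀ i, |q i| ≤ H) ∧
      ∀ j, |∑ i, a j i * q i| ≤ 2 * Fintype.card n * W * H / L := by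
  classical
  set M : ℝ := Fintype.card n * W * H with hM
  let val : (n → Fin (H + 1)) → J → ℝ := fun q j => ∑ i, a j i * ((q i : ℕ) : ℝ)
  have hval : ∀ q j, |val q j| ≤ M := by
    intro q j
    calc |val q j| ≤ ∑ i, |a j i * ((q i : ℕ) : ℝ)| := Finset.abs_sum_le_sum_abs _ _
      _ ≤ ∑ _i : n, W * H := by
          refine Finset.sum_le_sum fun i _ => ?_
          rw [abs_mul]
          have h1 : |((q i : ℕ) : ℝ)| ≤ H := by
            rw [Nat.abs_cast]; exact_mod_cast Nat.lt_succ_iff.mp (q i).2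
          exact mul_le_mul (hW j i) h1 (abs_nonneg _) ((abs_nonneg _).trans (hW j i))
      _ = M := by rw [Finset.sum_const, Finset.card_univ, nsmul_eq_mul, hM]; ring
  let F : (n → Fin (H + 1)) → (J → Fin L) :=
    fun q j => box L hL (L * (val q j + M) / (2 * M))
  have hcard : Fintype.card (J → Fin L) < Fintype.card (n → Fin (H + 1)) := by
    simpa using hc
  obtain ⟨q₁, q₂, hne, hF⟩ := Fintype.exists_ne_map_eq_of_card_lt F hcard
  refine ⟨fun i => ((q₁ i : ℕ) : ℤ) - ((q₂ i : ℕ) : ℤ), ?_, ?_, ?_⟩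
  · intro h
    apply hne
    funext i
    have := congrFun h i
    simp only [Pi.zero_apply, sub_eq_zero, Nat.cast_inj] at this
    exact Fin.ext this
  · intro i
    have h1 := Nat.lt_succ_iff.mp (q₁ i).2
    have h2 := Nat.lt_succ_iff.mp (q₂ i).2
    show |((q₁ i : ℕ) : ℤ) - ((q₂ i : ℕ) : ℤ)| ≤ (H : ℤ)
    rw [abs_le]; constructor <;> omega
  · intro j
    have hdiff : ∑ i, a j i * (((((q₁ i : ℕ) : ℤ) - ((q₂ i : ℕ) : ℤ) : ℤ)) : ℝ)
        = val q₁ j - val q₂ j := by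
      simp only [val]
      rw [← Finset.sum_sub_distrib]
      refine Finset.sum_congr rfl fun i _ => ?_
      push_cast; ring
    rw [hdiff]
    have h1 := hval q₁ j
    have h2 := hval q₂ j
    have hM0 : 0 ≤ M := (abs_nonneg _).trans h1
    have hLr : (0 : ℝ) < L := by exact_mod_cast hL
    have hgoal : 2 * (Fintype.card n : ℝ) * W * H / L = 2 * M / L := by rw [hM]; ring
    rw [hgoal]
    rcases hM0.eq_or_lt with hz | hpos
    · rw [← hz] at h1 h2
      have e1 : val q₁ j = 0 := by rwa [abs_nonpos_iff] at h1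
      have e2 : val q₂ j = 0 := by rwa [abs_nonpos_iff] at h2
      rw [e1, e2, ← hz]; simp
    · rw [abs_le] at h1 h2
      have hx : ∀ v : ℝ, -M ≤ v → v ≤ M →
          0 ≤ L * (v + M) / (2 * M) ∧ L * (v + M) / (2 * M) ≤ L := by
        intro v hv1 hv2
        constructor
        · apply div_nonneg (mul_nonneg hLr.le (by linarith)) (by linarith)
        · rw [div_le_iff₀ (by linarith)]
          exact mul_le_mul_of_nonneg_left (by linarith) hLr.le
      have hbox := congrFun hF j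
      have hcl := close L hL _ _ (hx _ h1.1 h1.2).1 (hx _ h1.1 h1.2).2 (hx _ h2.1 h2.2).1
        (hx _ h2.1 h2.2).2 hbox
      have hrw : L * (val q₁ j + M) / (2 * M) - L * (val q₂ j + M) / (2 * M)
          = (val q₁ j - val q₂ j) * (L / (2 * M)) := by field_simp; ring
      rw [hrw, abs_mul, abs_of_pos (by positivity : (0 : ℝ) < L / (2 * M))] at hcl
      rw [le_div_iff₀ hLr]
      have := mul_le_mul_of_nonneg_right hcl (by positivity : (0 : ℝ) ≤ 2 * M)
      have hs : |val q₁ j - val q₂ j| * (L / (2 * M)) * (2 * M) = |val q₁ j - val q₂ j| * L := by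
        field_simp
      rw [hs] at this
      linarith

end Pool.Agent.L3
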