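import Pool.Agent.Lib.MP_c95b3b_ag_L3.Defs

/-! Project L3 (MP_c95b3b_ag), module TA: reduction of powers. -/

namespace Pool.Agent.L3

namespace TA

/-- shift in the first variable -/
def sh1 (f : ℕ → ℕ → ℤ) : ℕ → ℕ → ℤ
  | 0, _ => 0
  | a + 1, b => f a b

/-- shift in the second variable -/
def sh2 (f : ℕ → ℕ → ℤ) : ℕ → ℕ → ℤ
  | _, 0 => 0
  | a, b + 1 => f a b

/-- the coefficients -/
def co : ℕ → (ℕ → ℕ → ℤ) × (ℕ → ℕ → ℤ)
  | 0 => (fun _ _ => 0, fun a b => if a = 0 ∧ b = 0 then 1 else 0)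
  | n + 1 => (fun a b => (co n).1 a b + sh1 (co n).1 a b - sh2 (co n).1 a b + (co n).2 a b,
      fun a b => -sh1 (co n).1 a b)

/-- the support is in `[0, n]²` -/
def Sup (n : ℕ) (f : ℕ → ℕ → ℤ) : Prop := ∀ a b, n < a ∨ n < b → f a b = 0

theorem Sup.mono {n : ℕ} {f : ℕ → ℕ → ℤ} (h : Sup n f) : Sup (n + 1) f :=
  fun a b hab => h a b (by omega)

theorem Sup.sh1 {n : ℕ} {f : ℕ → ℕ → ℤ} (h : Sup n f) : Sup (n + 1) (sh1 f) := by
  intro a b hab
  cases a with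
  | zero => rfl
  | succ a => exact h a b (by omega)

theorem Sup.sh2 {n : ℕ} {f : ℕ → ℕ → ℤ} (h : Sup n f) : Sup (n + 1) (sh2 f) := by
  intro a b hab
  cases b with
  | zero => rfl
  | succ b => exact h a b (by omega)

theorem co_sup (n : ℕ) : Sup n (co n).1 ∧ Sup n (co n).2 := by
  induction n with
  | zero =>
    refine ⟨fun a b _ => rfl, fun a b hab => ?_⟩
    change (if a = 0 ∧ b = 0 then (1 : ℤ) else 0) = 0
    rw [if_neg]
    omega
  | succ n ih =>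
    obtain ⟨h1, h2⟩ := ih
    refine ⟨fun a b hab => ?_, fun a b hab => ?_⟩
    · change (co n).1 a b + TA.sh1 (co n).1 a b - TA.sh2 (co n).1 a b + (co n).2 a b = 0
      rw [h1.mono a b hab, h1.sh1 a b hab, h1.sh2 a b hab, h2.mono a b hab]
      ring
    · change -TA.sh1 (co n).1 a b = 0
      rw [h1.sh1 a b hab, neg_zero]

section sums
variable {M : Type} [AddCommMonoid M]

/-- the double sum -/
def S (N : ℕ) (g : ℕ → ℕ → M) : M := ∑ a ∈ Finset.range (N + 1), ∑ b ∈ Finset.range (N + 1), g a b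

theorem S_mono (N : ℕ) (g : ℕ → ℕ → M) (h : ∀ a b, N < a ∨ N < b → g a b = 0) :
    S (N + 1) g = S N g := by
  unfold S
  rw [Finset.sum_range_succ, Finset.sum_eq_zero (s := Finset.range (N + 1 + 1))
    (f := fun b => g (N + 1) b) (fun b _ => h _ _ (Or.inl (Nat.lt_succ_self N))), add_zero]
  refine Finset.sum_congr rfl fun a _ => ?_
  rw [Finset.sum_range_succ, h _ _ (Or.inr (Nat.lt_succ_self N)), add_zero]

theorem S_sh1 (N : ℕ) (g h : ℕ → ℕ → M) (h0 : ∀ b, g 0 b = 0) (h1 : ∀ a b, g (a + 1) b = h a b)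
    (hs : ∀ a b, N < a ∨ N < b → h a b = 0) : S (N + 1) g = S N h := by
  unfold S
  rw [Finset.sum_range_succ', Finset.sum_eq_zero (s := Finset.range (N + 1 + 1))
    (f := fun b => g 0 b) (fun b _ => h0 b), add_zero]
  refine Finset.sum_congr rfl fun a _ => ?_
  rw [Finset.sum_range_succ]
  simp only [h1]
  rw [hs _ _ (Or.inr (Nat.lt_succ_self N)), add_zero]

theorem S_sh2 (N : ℕ) (g h : ℕ → ℕ → M) (h0 : ∀ a, g a 0 = 0) (h1 : ∀ a b, g a (b + 1) = h a b)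
    (hs : ∀ a b, N < a ∨ N < b → h a b = 0) : S (N + 1) g = S N h := by
  unfold S
  rw [Finset.sum_range_succ]
  have e : ∀ a, ∑ b ∈ Finset.range (N + 1 + 1), g a b = ∑ b ∈ Finset.range (N + 1), h a b := by
    intro a
    rw [Finset.sum_range_succ', h0, add_zero]
    simp only [h1]
  rw [e, Finset.sum_eq_zero (s := Finset.range (N + 1)) (f := fun b => h (N + 1) b)
    (fun b _ => hs _ _ (Or.inl (Nat.lt_succ_self N))), add_zero]
  exact Finset.sum_congr rfl fun a _ => e a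

end sums

/-- sum of absolute values -/
def nm (N : ℕ) (f : ℕ → ℕ → ℤ) : ℤ := S N fun a b => |f a b|

theorem nm_mono (N : ℕ) (f : ℕ → ℕ → ℤ) (h : Sup N f) : nm (N + 1) f = nm N f :=
  S_mono N _ fun a b hab => by rw [h a b hab, abs_zero]

theorem nm_sh1 (N : ℕ) (f : ℕ → ℕ → ℤ) (h : Sup N f) : nm (N + 1) (sh1 f) = nm N f :=
  S_sh1 N _ _ (fun b => abs_zero) (fun a b => rfl) fun a b hab => by rw [h a b hab, abs_zero]

theorem nm_sh2 (N : ℕ) (f : ℕ → ℕ → ℤ) (h : Sup N f) : nm (N + 1) (sh2 f) = nm N f :=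
  S_sh2 N _ _ (fun b => abs_zero) (fun a b => rfl) fun a b hab => by rw [h a b hab, abs_zero]

theorem nm_add4 (N : ℕ) (f g h l : ℕ → ℕ → ℤ) :
    nm N (fun a b => f a b + g a b - h a b + l a b) ≤ nm N f + nm N g + nm N h + nm N l := by
  unfold nm S
  rw [← Finset.sum_add_distrib, ← Finset.sum_add_distrib, ← Finset.sum_add_distrib]
  refine Finset.sum_le_sum fun a _ => ?_
  rw [← Finset.sum_add_distrib, ← Finset.sum_add_distrib, ← Finset.sum_add_distrib]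
  refine Finset.sum_le_sum fun b _ => ?_
  have h1 := abs_add_le (f a b + g a b - h a b) (l a b)
  have h2 := abs_sub (f a b + g a b) (h a b)
  have h3 := abs_add_le (f a b) (g a b)
  linarith

theorem co_nm (n : ℕ) : nm n (co n).1 ≤ 4 ^ n ∧ nm n (co n).2 ≤ 4 ^ n := by
  induction n with
  | zero =>
    constructor
    · simp [nm, S, co]
    · simp [nm, S, co]
  | succ n ih =>
    obtain ⟨h1, h2⟩ := ih
    obtain ⟨s1, s2⟩ := co_sup n
    constructor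
    · have h := nm_add4 (n + 1) (co n).1 (sh1 (co n).1) (sh2 (co n).1) (co n).2
      rw [nm_mono n _ s1, nm_sh1 n _ s1, nm_sh2 n _ s1, nm_mono n _ s2] at h
      refine le_trans h ?_
      rw [pow_succ]
      linarith
    · have h : nm (n + 1) (co (n + 1)).2 = nm (n + 1) (sh1 (co n).1) := by
        unfold nm S
        refine Finset.sum_congr rfl fun a _ => Finset.sum_congr rfl fun b _ => ?_
        change |-sh1 (co n).1 a b| = _
        rw [abs_neg]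
      rw [h, nm_sh1 n _ s1, pow_succ]
      have : (0 : ℤ) ≤ 4 ^ n := by positivity
      linarith

/-- the monomials -/
noncomputable def ph (u : ℂ) (a b : ℕ) : ℂ := ((‖u‖ ^ (2 * a) * ‖1 - u‖ ^ (2 * b) : ℝ) : ℂ)

/-- evaluation -/
noncomputable def ev (u : ℂ) (N : ℕ) (f : ℕ → ℕ → ℤ) : ℂ := S N fun a b => (f a b : ℂ) * ph u a b

theorem ph1 (u : ℂ) (a b : ℕ) : ph u (a + 1) b = ((‖u‖ ^ 2 : ℝ) : ℂ) * ph u a b := by
  unfold ph
  push_cast
  ring

theorem ph2 (u : ℂ) (a b : ℕ) : ph u a (b + 1) = ((‖1 - u‖ ^ 2 : ℝ) : ℂ) * ph u a b := by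
  unfold ph
  push_cast
  ring

theorem ev_mono (u : ℂ) (N : ℕ) (f : ℕ → ℕ → ℤ) (h : Sup N f) : ev u (N + 1) f = ev u N f :=
  S_mono N _ fun a b hab => by rw [h a b hab, Int.cast_zero, zero_mul]

theorem ev_sh1 (u : ℂ) (N : ℕ) (f : ℕ → ℕ → ℤ) (h : Sup N f) :
    ev u (N + 1) (sh1 f) = ((‖u‖ ^ 2 : ℝ) : ℂ) * ev u N f := by
  have h1 : ev u (N + 1) (sh1 f) = S N fun a b => (f a b : ℂ) * ph u (a + 1) b :=
    S_sh1 N _ _ (fun b => by change ((0 : ℤ) : ℂ) * _ = 0; rw [Int.cast_zero, zero_mul])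
      (fun a b => rfl) fun a b hab => by rw [h a b hab, Int.cast_zero, zero_mul]
  rw [h1]
  unfold ev S
  rw [Finset.mul_sum]
  refine Finset.sum_congr rfl fun a _ => ?_
  rw [Finset.mul_sum]
  refine Finset.sum_congr rfl fun b _ => ?_
  beta_reduce
  rw [ph1]
  ring

theorem ev_sh2 (u : ℂ) (N : ℕ) (f : ℕ → ℕ → ℤ) (h : Sup N f) :
    ev u (N + 1) (sh2 f) = ((‖1 - u‖ ^ 2 : ℝ) : ℂ) * ev u N f := by
  have h1 : ev u (N + 1) (sh2 f) = S N fun a b => (f a b : ℂ) * ph u a (b + 1) :=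
    S_sh2 N _ _ (fun b => by change ((0 : ℤ) : ℂ) * _ = 0; rw [Int.cast_zero, zero_mul])
      (fun a b => rfl) fun a b hab => by rw [h a b hab, Int.cast_zero, zero_mul]
  rw [h1]
  unfold ev S
  rw [Finset.mul_sum]
  refine Finset.sum_congr rfl fun a _ => ?_
  rw [Finset.mul_sum]
  refine Finset.sum_congr rfl fun b _ => ?_
  beta_reduce
  rw [ph2]
  ring

theorem ev_step1 (u : ℂ) (n : ℕ) : ev u (n + 1) (co (n + 1)).1 =
    (1 + ((‖u‖ ^ 2 : ℝ) : ℂ) - ((‖1 - u‖ ^ 2 : ℝ) : ℂ)) * ev u n (co n).1 + ev u n (co n).2 := by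
  obtain ⟨s1, s2⟩ := co_sup n
  have h : ev u (n + 1) (co (n + 1)).1 = ev u (n + 1) (co n).1 + ev u (n + 1) (sh1 (co n).1) -
      ev u (n + 1) (sh2 (co n).1) + ev u (n + 1) (co n).2 := by
    unfold ev S
    rw [← Finset.sum_add_distrib, ← Finset.sum_sub_distrib, ← Finset.sum_add_distrib]
    refine Finset.sum_congr rfl fun a _ => ?_
    rw [← Finset.sum_add_distrib, ← Finset.sum_sub_distrib, ← Finset.sum_add_distrib]
    refine Finset.sum_congr rfl fun b _ => ?_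
    change (((co n).1 a b + sh1 (co n).1 a b - sh2 (co n).1 a b + (co n).2 a b : ℤ) : ℂ) * _ = _
    push_cast
    ring
  rw [h, ev_mono u n _ s1, ev_sh1 u n _ s1, ev_sh2 u n _ s1, ev_mono u n _ s2]
  ring

theorem ev_step2 (u : ℂ) (n : ℕ) : ev u (n + 1) (co (n + 1)).2 =
    -((‖u‖ ^ 2 : ℝ) : ℂ) * ev u n (co n).1 := by
  obtain ⟨s1, s2⟩ := co_sup n
  have h : ev u (n + 1) (co (n + 1)).2 = -ev u (n + 1) (sh1 (co n).1) := by
    unfold ev S
    rw [← Finset.sum_neg_distrib]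
    refine Finset.sum_congr rfl fun a _ => ?_
    rw [← Finset.sum_neg_distrib]
    refine Finset.sum_congr rfl fun b _ => ?_
    change ((-sh1 (co n).1 a b : ℤ) : ℂ) * _ = _
    push_cast
    ring
  rw [h, ev_sh1 u n _ s1]
  ring

theorem sq_eq (u : ℂ) : u * u =
    (1 + ((‖u‖ ^ 2 : ℝ) : ℂ) - ((‖1 - u‖ ^ 2 : ℝ) : ℂ)) * u - ((‖u‖ ^ 2 : ℝ) : ℂ) := by
  have h : ∀ z : ℂ, ((‖z‖ ^ 2 : ℝ) : ℂ) = z * (starRingEnd ℂ) z := by
    intro z
    rw [← Complex.normSq_eq_norm_sq, Complex.mul_conj]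
  rw [h, h, map_sub, map_one]
  ring

theorem pow_eq (u : ℂ) (n : ℕ) : u ^ n = ev u n (co n).1 * u + ev u n (co n).2 := by
  induction n with
  | zero => simp [ev, S, co, ph]
  | succ n ih =>
    rw [ev_step1, ev_step2, pow_succ, ih]
    linear_combination (ev u n (co n).1) * sq_eq u

end TA

theorem pow_reduce : ∃ A B : ℕ → ℕ → ℕ → ℤ,
    (∀ n a b, n < a ∨ n < b → A n a b = 0 ∧ B n a b = 0) ∧
    (∀ n, ∑ a ∈ Finset.range (n + 1), ∑ b ∈ Finset.range (n + 1), |A n a b| ≤ 4 ^ n ∧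
      ∑ a ∈ Finset.range (n + 1), ∑ b ∈ Finset.range (n + 1), |B n a b| ≤ 4 ^ n) ∧
    ∀ (u : ℂ) (n : ℕ), u ^ n =
      (∑ a ∈ Finset.range (n + 1), ∑ b ∈ Finset.range (n + 1),
        (A n a b : ℂ) * ((‖u‖ ^ (2 * a) * ‖1 - u‖ ^ (2 * b) : ℝ) : ℂ)) * u +
      ∑ a ∈ Finset.range (n + 1), ∑ b ∈ Finset.range (n + 1),
        (B n a b : ℂ) * ((‖u‖ ^ (2 * a) * ‖1 - u‖ ^ (2 * b) : ℝ) : ℂ) :=
  ⟨fun n => (TA.co n).1, fun n => (TA.co n).2,
    fun n a b h => ⟨(TA.co_sup n).1 a b h, (TA.co_sup n).2 a b h⟩,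
    fun n => TA.co_nm n, fun u n => TA.pow_eq u n⟩

end Pool.Agent.L3
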