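import Mathlib

/-! Project L3 (MP_c95b3b_ag), module TF: bases with bounded coordinates. -/

namespace Pool.Agent.L3

namespace TF

/-- the Euclidean version of `Fin k → ℝ × ℝ` -/
abbrev EE (k : ℕ) : Type := PiLp 2 (fun _ : Fin k => WithLp 2 (ℝ × ℝ))

/-- the linear identification -/
noncomputable def T (k : ℕ) : (Fin k → ℝ × ℝ) ≃ₗ[ℝ] EE k :=
  (LinearEquiv.piCongrRight (fun _ : Fin k => (WithLp.linearEquiv 2 ℝ (ℝ × ℝ)).symm)).trans
    (WithLp.linearEquiv 2 ℝ (Fin k → WithLp 2 (ℝ × ℝ))).symm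

theorem norm_sq (k : ℕ) (x : Fin k → ℝ × ℝ) :
    ‖T k x‖ ^ 2 = ∑ i, ((x i).1 ^ 2 + (x i).2 ^ 2) := by
  rw [PiLp.norm_sq_eq_of_L2]
  refine Finset.sum_congr rfl fun i _ => ?_
  rw [WithLp.prod_norm_sq_eq_of_L2]
  simp only [Real.norm_eq_abs, sq_abs]
  rfl

theorem norm_le (k : ℕ) (x : Fin k → ℝ × ℝ) : ‖T k x‖ ≤ 2 * k * ‖x‖ := by
  have h1 : ‖T k x‖ ^ 2 ≤ (2 * k * ‖x‖) ^ 2 := by
    rw [norm_sq]
    have h2 : ∀ i ∈ (Finset.univ : Finset (Fin k)), (x i).1 ^ 2 + (x i).2 ^ 2 ≤ 2 * ‖x‖ ^ 2 := by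
      intro i _
      have hx := norm_le_pi_norm x i
      have ha : |(x i).1| ≤ ‖x‖ := (by simpa using norm_fst_le (x i) : |(x i).1| ≤ ‖x i‖).trans hx
      have hb : |(x i).2| ≤ ‖x‖ := (by simpa using norm_snd_le (x i) : |(x i).2| ≤ ‖x i‖).trans hx
      have ha' : (x i).1 ^ 2 ≤ ‖x‖ ^ 2 := by
        rw [← sq_abs]; exact pow_le_pow_left₀ (abs_nonneg _) ha 2
      have hb' : (x i).2 ^ 2 ≤ ‖x‖ ^ 2 := by
        rw [← sq_abs]; exact pow_le_pow_left₀ (abs_nonneg _) hb 2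
      linarith
    have h3 := Finset.sum_le_card_nsmul _ _ _ h2
    rw [Finset.card_univ, Fintype.card_fin, nsmul_eq_mul] at h3
    refine h3.trans ?_
    rcases Nat.eq_zero_or_pos k with hk | hk
    · subst hk; simp
    have hk1 : (1 : ℝ) ≤ k := by exact_mod_cast hk
    have h4 : 0 ≤ ‖x‖ ^ 2 := by positivity
    have h5 : (k : ℝ) * (2 * ‖x‖ ^ 2) ≤ (k * k) * (2 * ‖x‖ ^ 2) := by
      apply mul_le_mul_of_nonneg_right _ (by positivity)
      nlinarith
    nlinarith [mul_nonneg (mul_nonneg (by linarith : (0 : ℝ) ≤ k) (by linarith : (0 : ℝ) ≤ k)) h4]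
  exact le_of_sq_le_sq h1 (by positivity)

theorem le_norm (k : ℕ) (x : Fin k → ℝ × ℝ) : ‖x‖ ≤ ‖T k x‖ := by
  rw [pi_norm_le_iff_of_nonneg (norm_nonneg _)]
  intro i
  have h1 : (x i).1 ^ 2 + (x i).2 ^ 2 ≤ ‖T k x‖ ^ 2 := by
    rw [norm_sq]
    exact Finset.single_le_sum (f := fun i => (x i).1 ^ 2 + (x i).2 ^ 2)
      (fun i _ => by positivity) (Finset.mem_univ i)
  rw [Prod.norm_def, max_le_iff]
  constructor
  · rw [Real.norm_eq_abs]
    exact abs_le_of_sq_le_sq (by nlinarith [sq_nonneg (x i).2]) (norm_nonneg _)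
  · rw [Real.norm_eq_abs]
    exact abs_le_of_sq_le_sq (by nlinarith [sq_nonneg (x i).1]) (norm_nonneg _)

end TF

open TF in
theorem exists_basis_bdd (k d : ℕ) (E : Submodule ℝ (Fin k → ℝ × ℝ))
    (hE : Module.finrank ℝ E ≤ d) : ∃ b : Fin d → Fin k → ℝ × ℝ, (∀ i, ‖b i‖ ≤ 1) ∧
      ∀ e ∈ E, ∃ y : Fin d → ℝ, e = ∑ i, y i • b i ∧ ∀ i, |y i| ≤ 2 * k * ‖e‖ := by
  set F : Submodule ℝ (EE k) := E.map (T k).toLinearMap with hF
  have hfr : Module.finrank ℝ F = Module.finrank ℝ E := LinearEquiv.finrank_map_eq (T k) E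
  set B := stdOrthonormalBasis ℝ F with hB
  have hn : Module.finrank ℝ F ≤ d := hfr.le.trans hE
  refine ⟨fun i => if h : (i : ℕ) < Module.finrank ℝ F then (T k).symm (B ⟨i, h⟩ : EE k) else 0,
    fun i => ?_, fun e he => ?_⟩
  · dsimp only
    split_ifs with h
    · refine (le_norm k _).trans ?_
      rw [LinearEquiv.apply_symm_apply]
      have := B.orthonormal.1 ⟨i, h⟩
      rw [Submodule.norm_coe, this]
    · simp
  · set w : F := ⟨T k e, Submodule.mem_map_of_mem he⟩ with hw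
    refine ⟨fun i => if h : (i : ℕ) < Module.finrank ℝ F then inner ℝ (B ⟨i, h⟩) w else 0, ?_, ?_⟩
    · have h1 : ∑ i, inner ℝ (B i) w • B i = w := B.sum_repr' w
      have h2 : ∑ i, inner ℝ (B i) w • (T k).symm (B i : EE k) = e := by
        have h3 := congrArg (fun z : F => (T k).symm (z : EE k)) h1
        simp only [hw, LinearEquiv.symm_apply_apply] at h3
        rw [← h3]
        simp [map_sum, hw]
      rw [← h2]
      refine Fintype.sum_of_injective (Fin.castLE hn) (Fin.castLE_injective hn) _ _ ?_ ?_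
      · intro i hi
        have hlt : ¬ (i : ℕ) < Module.finrank ℝ F := fun hlt => hi ⟨⟨i, hlt⟩, rfl⟩
        simp [hlt]
      · intro i
        simp
    · intro i
      dsimp only
      split_ifs with h
      · have h1 : |inner ℝ (B ⟨i, h⟩) w| ≤ ‖B ⟨i, h⟩‖ * ‖w‖ := abs_real_inner_le_norm _ _
        rw [B.orthonormal.1, one_mul] at h1
        refine h1.trans ?_
        rw [← Submodule.norm_coe]
        exact norm_le k e
      · rw [abs_zero]; positivity

end Pool.Agent.L3
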