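import Pool.Agent.Lib.MP_c95b3b_ag_L3.TE
import Pool.Agent.Lib.MP_c95b3b_ag_L3.TF

/-!
Project L3 (MP_c95b3b_ag), module TG: Theorem T.
-/

namespace Pool.Agent.L3

namespace TG

open MvPolynomial

variable {k : ℕ}

/-- the exponent of a bounded tuple -/
noncomputable def ex (N : ℕ) (n : Fin k → Fin (N + 1)) : Fin k →₀ ℕ :=
  Finsupp.equivFunOnFinite.symm fun i => (n i : ℕ)

theorem ex_apply (N : ℕ) (n : Fin k → Fin (N + 1)) (i : Fin k) : ex N n i = n i := rfl

theorem le_of_mem_support {N : ℕ} {Q : MvPolynomial (Fin k) ℤ} (hQ : ∀ i, Q.degreeOf i ≤ N)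
    {e : Fin k →₀ ℕ} (he : e ∈ Q.support) (i : Fin k) : e i ≤ N :=
  (monomial_le_degreeOf i he).trans (hQ i)

theorem exists_ex {N : ℕ} {Q : MvPolynomial (Fin k) ℤ} (hQ : ∀ i, Q.degreeOf i ≤ N)
    {e : Fin k →₀ ℕ} (he : e ∈ Q.support) : ∃ n, ex N n = e :=
  ⟨fun i => ⟨e i, Nat.lt_succ_of_le (le_of_mem_support hQ he i)⟩, by ext i; rfl⟩

theorem card_support_le {N : ℕ} {Q : MvPolynomial (Fin k) ℤ} (hQ : ∀ i, Q.degreeOf i ≤ N) :
    Q.support.card ≤ (N + 1) ^ k := by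
  classical
  have h : Q.support ⊆ (Finset.univ : Finset (Fin k → Fin (N + 1))).image (ex N) := by
    intro e he
    obtain ⟨n, hn⟩ := exists_ex hQ he
    exact Finset.mem_image.mpr ⟨n, Finset.mem_univ _, hn⟩
  refine (Finset.card_le_card h).trans (Finset.card_image_le.trans ?_)
  simp

theorem finite_polys (k N : ℕ) (C : ℝ) :
    {Q : MvPolynomial (Fin k) ℤ | (∀ i, Q.degreeOf i ≤ N) ∧
      ∀ e, |((Q.coeff e : ℤ) : ℝ)| ≤ C}.Finite := by
  classical
  obtain ⟨B, hB⟩ := exists_nat_ge C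
  have hfin : (Set.univ.pi fun _ : Fin k → Fin (N + 1) => Set.Icc (-(B : ℤ)) B).Finite :=
    Set.Finite.pi fun _ => Set.finite_Icc _ _
  refine Set.Finite.of_injOn (f := fun Q n => Q.coeff (ex N n)) ?_ ?_ hfin
  · rintro Q ⟨-, h2⟩ n -
    have h3 := (h2 (ex N n)).trans hB
    have h4 : |Q.coeff (ex N n)| ≤ (B : ℤ) := by exact_mod_cast h3
    exact abs_le.mp h4
  · rintro Q ⟨h1, -⟩ Q' ⟨h1', -⟩ h
    ext e
    by_cases he : ∃ n, ex N n = e
    · obtain ⟨n, rfl⟩ := he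
      exact congrFun h n
    · have h2 : e ∉ Q.support := fun h' => he (exists_ex h1 h')
      have h3 : e ∉ Q'.support := fun h' => he (exists_ex h1' h')
      rw [notMem_support_iff.mp h2, notMem_support_iff.mp h3]

theorem aeval_eq {K : Type} [Field K] (U : Fin k → K) (Q : MvPolynomial (Fin k) ℤ) :
    aeval U Q = ∑ d ∈ Q.support, ((Q.coeff d : ℤ) : K) * ∏ i, U i ^ d i := by
  rw [aeval_def, eval₂_eq']
  rfl

theorem map_aeval' {K L : Type} [Field K] [Field L] (σ : K →+* L) (U : Fin k → K)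
    (Q : MvPolynomial (Fin k) ℤ) : σ (aeval U Q) = aeval (fun i => σ (U i)) Q := by
  rw [aeval_eq, aeval_eq, map_sum]
  refine Finset.sum_congr rfl fun d _ => ?_
  rw [map_mul, map_intCast, map_prod]
  simp only [map_pow]

theorem aeval_mem {K : Type} [Field K] {R : Subring K} {U : Fin k → K} (hU : ∀ i, U i ∈ R)
    (Q : MvPolynomial (Fin k) ℤ) : aeval U Q ∈ R := by
  rw [aeval_eq]
  exact R.sum_mem fun d _ => R.mul_mem (intCast_mem R _) (R.prod_mem fun i _ => R.pow_mem (hU i) _)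

theorem prod_le {x : Fin k → ℝ} (hx : ∀ i, 0 ≤ x i) {N : ℕ} {e : Fin k →₀ ℕ} (he : ∀ i, e i ≤ N) :
    ∏ i, x i ^ e i ≤ ∏ i, max 1 (x i) ^ N := by
  refine Finset.prod_le_prod (fun i _ => pow_nonneg (hx i) _) fun i _ => ?_
  calc x i ^ e i ≤ max 1 (x i) ^ e i := pow_le_pow_left₀ (hx i) (le_max_right _ _) _
    _ ≤ max 1 (x i) ^ N := pow_le_pow_right₀ (le_max_left _ _) (he i)

theorem arch_le {N : ℕ} {C : ℝ} {Q : MvPolynomial (Fin k) ℤ} (hQ : ∀ i, Q.degreeOf i ≤ N)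
    (hC : ∀ e, |((Q.coeff e : ℤ) : ℝ)| ≤ C) (u : Fin k → ℂ) :
    ‖aeval u Q‖ ≤ ((N : ℝ) + 1) ^ k * C * ∏ i, max 1 ‖u i‖ ^ N := by
  have hC0 : 0 ≤ C := (abs_nonneg _).trans (hC 0)
  have hP : 0 ≤ ∏ i, max 1 ‖u i‖ ^ N := Finset.prod_nonneg fun i _ => by positivity
  rw [aeval_eq]
  refine (norm_sum_le _ _).trans ?_
  have h : ∀ d ∈ Q.support, ‖((Q.coeff d : ℤ) : ℂ) * ∏ i, u i ^ d i‖ ≤
      C * ∏ i, max 1 ‖u i‖ ^ N := by
    intro d hd
    rw [norm_mul, norm_prod]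
    have h1 : ‖((Q.coeff d : ℤ) : ℂ)‖ ≤ C := by
      rw [Complex.norm_intCast]
      exact hC d
    refine mul_le_mul h1 ?_ (Finset.prod_nonneg fun i _ => norm_nonneg _) hC0
    simp only [norm_pow]
    exact prod_le (fun i => norm_nonneg _) (le_of_mem_support hQ hd)
  refine (Finset.sum_le_card_nsmul _ _ _ h).trans ?_
  rw [nsmul_eq_mul, mul_assoc]
  refine mul_le_mul_of_nonneg_right ?_ (by positivity)
  exact_mod_cast card_support_le hQ

theorem nonarch_le {K : Type} [Field K] {R : Subring K} (P : Places K R) (j : Fin P.m) {N : ℕ}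
    {Q : MvPolynomial (Fin k) ℤ} (hQ : ∀ i, Q.degreeOf i ≤ N) (U : Fin k → K) :
    P.v j (aeval U Q) ≤ ∏ i, max 1 (P.v j (U i)) ^ N := by
  have hP : 0 ≤ ∏ i, max 1 (P.v j (U i)) ^ N := Finset.prod_nonneg fun i _ => by positivity
  rw [aeval_eq]
  refine P.v_sum_le j _ _ hP fun d hd => ?_
  rw [map_mul, map_prod]
  simp only [map_pow]
  have h1 := prod_le (fun i => (P.v j).nonneg (U i)) (le_of_mem_support hQ hd)
  calc P.v j ((Q.coeff d : ℤ) : K) * ∏ i, P.v j (U i) ^ d i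
      ≤ 1 * ∏ i, P.v j (U i) ^ d i := by
        refine mul_le_mul_of_nonneg_right (P.v_int j _)
          (Finset.prod_nonneg fun i _ => pow_nonneg ((P.v j).nonneg _) _)
    _ ≤ _ := by rw [one_mul]; exact h1

theorem log_prod_max (x : Fin k → ℝ) (N : ℕ) :
    Real.log (∏ i, max 1 (x i) ^ N) = N * ∑ i, Real.log (max 1 (x i)) := by
  rw [Real.log_prod (fun i _ => by positivity), Finset.mul_sum]
  refine Finset.sum_congr rfl fun i _ => ?_
  rw [Real.log_pow]

theorem log_max_le (x : ℝ) : Real.log (max 1 x) ≤ |Real.log x| := by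
  rcases le_total x 1 with h | h
  · rw [max_eq_left h, Real.log_one]
    exact abs_nonneg _
  · rw [max_eq_right h]
    exact le_abs_self _

theorem lg_le {K : Type} [Field K] {R : Subring K} (P : Places K R) {N : ℕ} {C : ℝ} (hC1 : 1 ≤ C)
    {Q : MvPolynomial (Fin k) ℤ} (hQ : ∀ i, Q.degreeOf i ≤ N)
    (hC : ∀ e, |((Q.coeff e : ℤ) : ℝ)| ≤ C) (U : Fin k → K)
    (hne : aeval U Q ≠ 0) (w : P.Pl) :
    P.lg w (aeval U Q) ≤ (k * Real.log (N + 1) + Real.log C) * P.arch w +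
      N * ∑ i, ‖P.lv w (U i)‖ := by
  rcases w with j | j
  · rw [P.lg_inl, P.arch_inl, mul_one]
    have h0 : 0 < ‖P.σ j (aeval U Q)‖ := norm_pos_iff.mpr ((map_ne_zero (P.σ j)).mpr hne)
    have h1 : ‖P.σ j (aeval U Q)‖ ≤ ((N : ℝ) + 1) ^ k * C * ∏ i, max 1 ‖P.σ j (U i)‖ ^ N := by
      rw [map_aeval']
      exact arch_le hQ hC _
    have h2 := Real.log_le_log h0 h1
    have hP : 0 < ∏ i, max 1 ‖P.σ j (U i)‖ ^ N := Finset.prod_pos fun i _ => by positivity
    rw [Real.log_mul (by positivity) hP.ne', Real.log_mul (by positivity) (by positivity),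
      Real.log_pow, log_prod_max] at h2
    refine h2.trans (add_le_add le_rfl ?_)
    refine mul_le_mul_of_nonneg_left (Finset.sum_le_sum fun i _ => ?_) (Nat.cast_nonneg _)
    refine (log_max_le _).trans ?_
    exact P.abs_lg_le_norm_lv (.inl j) (U i)
  · rw [P.lg_inr, P.arch_inr, mul_zero, zero_add]
    have h0 : 0 < P.v j (aeval U Q) := (P.v j).pos hne
    have h2 := Real.log_le_log h0 (nonarch_le P j hQ U)
    rw [log_prod_max] at h2
    refine h2.trans ?_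
    refine mul_le_mul_of_nonneg_left (Finset.sum_le_sum fun i _ => ?_) (Nat.cast_nonneg _)
    refine (log_max_le _).trans ?_
    exact P.abs_lg_le_norm_lv (.inr j) (U i)

theorem norm_le_sum (x : Fin k → ℝ × ℝ) : ‖x‖ ≤ ∑ a, ‖x a‖ := by
  rw [pi_norm_le_iff_of_nonneg (Finset.sum_nonneg fun a _ => norm_nonneg _)]
  intro a
  exact Finset.single_le_sum (f := fun a => ‖x a‖) (fun a _ => norm_nonneg _) (Finset.mem_univ a)

end TG

open TG in
theorem T_main (k q : ℕ) (hk : 1 ≤ k) (B : ℝ) : ∃ η : ℝ, 0 < η ∧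
    ∃ 𝒬 : Finset (MvPolynomial (Fin k) ℤ), (∀ Q ∈ 𝒬, Q ≠ 0) ∧
      ∀ (K : Type) [Field K] (R : Subring K) (P : Places K R) (U : Fin k → K),
        (∀ i, U i ∈ R) → (∀ i, U i ≠ 0 ∧ U i ≠ 1) →
        P.avg (fun w => ∑ i, ‖P.lv w (U i)‖) ≤ B →
        ∀ (p : Fin q → Fin k → ℝ × ℝ) (E : Fin q → Submodule ℝ (Fin k → ℝ × ℝ)),
          (∀ l, Module.finrank ℝ (E l) < k) →
          (∀ i : Fin P.D, ∃ l, ∃ e ∈ E l, ‖(fun a => P.lv (.inl i) (U a)) - p l - e‖ ≤ η) →
          ∃ Q ∈ 𝒬, MvPolynomial.aeval U Q = 0 := by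
  classical
  obtain ⟨B', hB', hB1⟩ : ∃ B', B ≤ B' ∧ 1 ≤ B' := ⟨max B 1, le_max_left _ _, le_max_right _ _⟩
  have hk' : (1 : ℝ) ≤ k := by exact_mod_cast hk
  set ρ : ℝ := 2 * k * (4 * B' + 1) with hρ
  have hρ2 : 2 * B' ≤ ρ := by nlinarith
  have hρ1 : 1 ≤ ρ := by linarith
  obtain ⟨M0, hM0⟩ := T_core k q hk ρ hρ1
  obtain ⟨M, hM, hM1, hMB⟩ : ∃ M : ℕ, M0 ≤ M ∧ 1 ≤ M ∧ 4 * (1 + k + B') < M := by
    refine ⟨max (max M0 1) (⌈4 * (1 + k + B')⌉₊ + 1), ?_, ?_, ?_⟩
    · exact (le_max_left _ _).trans (le_max_left _ _)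
    · exact (le_max_right _ _).trans (le_max_left _ _)
    · have h1 := Nat.le_ceil (4 * (1 + (k : ℝ) + B'))
      have h2 : ((⌈4 * (1 + (k : ℝ) + B')⌉₊ + 1 : ℕ) : ℝ) ≤
          ((max (max M0 1) (⌈4 * (1 + (k : ℝ) + B')⌉₊ + 1) : ℕ) : ℝ) := by
        exact_mod_cast le_max_right _ _
      push_cast at h2 ⊢
      linarith
  set N : ℕ := M ^ (2 * k) with hN
  have hN1 : 1 ≤ N := Nat.one_le_pow _ _ hM1
  have hNR : (1 : ℝ) ≤ N := by exact_mod_cast hN1
  have hNM : ((M : ℝ) ^ (2 * k)) = N := by rw [hN]; push_cast; rfl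
  set δ : ℝ := Real.exp (-(3 * (M : ℝ) ^ (2 * k + 1))) with hδ
  have hδ0 : 0 < δ := Real.exp_pos _
  have hδ1 : δ ≤ 1 := by
    rw [hδ]
    refine Real.exp_le_one_iff.mpr ?_
    have : 0 ≤ (M : ℝ) ^ (2 * k + 1) := by positivity
    linarith
  refine ⟨δ / 2, by positivity, ((finite_polys k N (Real.exp N)).toFinset.filter fun Q => Q ≠ 0),
    fun Q hQ => (Finset.mem_filter.mp hQ).2, ?_⟩
  intro K _ R P U hUR hU havg p E hE hnear
  have hD := P.D_cast_pos
  set S : P.Pl → ℝ := fun w => ∑ i, ‖P.lv w (U i)‖ with hS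
  have hS0 : ∀ w, 0 ≤ S w := fun w => Finset.sum_nonneg fun i _ => norm_nonneg _
  have hSsum : ∑ w, S w ≤ B' * P.D := P.sum_le_of_avg_le (havg.trans hB')
  set good : Finset (Fin P.D) := Finset.univ.filter fun i => S (.inl i) ≤ 2 * B' with hgood
  -- Markov
  have hcard : (P.D : ℝ) / 2 ≤ good.card := by
    have h1 : ∑ i ∈ Finset.univ.filter (fun i : Fin P.D => ¬ S (.inl i) ≤ 2 * B'), (2 * B') ≤
        ∑ i, S (.inl i) := by
      refine (Finset.sum_le_sum (g := fun i => S (.inl i)) ?_).trans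
        (Finset.sum_le_sum_of_subset_of_nonneg (Finset.filter_subset _ _) fun i _ _ => hS0 _)
      intro i hi
      exact (not_le.mp (Finset.mem_filter.mp hi).2).le
    rw [Finset.sum_const, nsmul_eq_mul] at h1
    have h2 := (h1.trans (P.sum_inl_le hS0)).trans hSsum
    have h3 := Finset.card_filter_add_card_filter_not (s := (Finset.univ : Finset (Fin P.D)))
      (fun i => S (.inl i) ≤ 2 * B')
    rw [Finset.card_univ, Fintype.card_fin] at h3
    have h4 : ((good.card : ℝ)) + ((Finset.univ.filter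
      (fun i : Fin P.D => ¬ S (.inl i) ≤ 2 * B')).card : ℝ) = P.D := by exact_mod_cast h3
    have hB0 : 0 < B' := by linarith
    have h5 : ((Finset.univ.filter
      (fun i : Fin P.D => ¬ S (.inl i) ≤ 2 * B')).card : ℝ) * 2 ≤ P.D := by
      by_contra hcon
      have h6 := mul_lt_mul_of_pos_left (not_le.mp hcon) hB0
      linarith
    linarith
  -- data for the points `p l`
  have hdata : ∀ l : Fin q, ∃ p' : Fin k → ℝ × ℝ, ‖p'‖ ≤ 2 * B' ∧
      ∀ i ∈ good, ∀ e ∈ E l, ‖(fun a => P.lv (.inl i) (U a)) - p l - e‖ ≤ δ / 2 →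
        ∃ e' ∈ E l, ‖(fun a => P.lv (.inl i) (U a)) - p' - e'‖ ≤ δ ∧ ‖e'‖ ≤ 4 * B' + 1 := by
    intro l
    have hn : ∀ i ∈ good, ‖(fun a => P.lv (.inl i) (U a))‖ ≤ 2 * B' := fun i hi =>
      (norm_le_sum _).trans (Finset.mem_filter.mp hi).2
    by_cases h : ∃ i ∈ good, ∃ e ∈ E l, ‖(fun a => P.lv (.inl i) (U a)) - p l - e‖ ≤ δ / 2
    · obtain ⟨i0, hi0, e0, he0, h0⟩ := h
      refine ⟨fun a => P.lv (.inl i0) (U a), hn i0 hi0, fun i hi e he hie =>
        ⟨e - e0, (E l).sub_mem he he0, ?_, ?_⟩⟩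
      · have h1 : (fun a => P.lv (.inl i) (U a)) - (fun a => P.lv (.inl i0) (U a)) - (e - e0) =
            ((fun a => P.lv (.inl i) (U a)) - p l - e) -
              ((fun a => P.lv (.inl i0) (U a)) - p l - e0) := by abel
        rw [h1]
        refine (norm_sub_le _ _).trans ?_
        linarith
      · have h1 : e - e0 = (fun a => P.lv (.inl i) (U a)) - (fun a => P.lv (.inl i0) (U a)) -
            (((fun a => P.lv (.inl i) (U a)) - p l - e) -
              ((fun a => P.lv (.inl i0) (U a)) - p l - e0)) := by abel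
        rw [h1]
        refine (norm_sub_le _ _).trans ?_
        have h2 := norm_sub_le (fun a => P.lv (.inl i) (U a)) (fun a => P.lv (.inl i0) (U a))
        have h3 := norm_sub_le ((fun a => P.lv (.inl i) (U a)) - p l - e)
          ((fun a => P.lv (.inl i0) (U a)) - p l - e0)
        have h4 := hn i hi
        have h5 := hn i0 hi0
        linarith
    · refine ⟨0, by rw [norm_zero]; linarith, fun i hi e he hie => absurd ⟨i, hi, e, he, hie⟩ h⟩
  choose p' hp' hp2 using hdata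
  choose b hb hb2 using fun l => exists_basis_bdd k (k - 1) (E l) (by have := hE l; omega)
  obtain ⟨Q, hQ0, hQdeg, hQc, hQs⟩ := hM0 M hM p' b (fun l => (hp' l).trans hρ2) hb
  rw [← hN] at hQdeg
  rw [hNM] at hQc
  have hQmem : Q ∈ ((finite_polys k N (Real.exp N)).toFinset.filter fun Q => Q ≠ 0) :=
    Finset.mem_filter.mpr ⟨(Set.Finite.mem_toFinset _).mpr ⟨hQdeg, hQc⟩, hQ0⟩
  refine ⟨Q, hQmem, ?_⟩
  by_contra hne
  have hpos := P.avg_lg_nonneg (aeval_mem hUR Q) hne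
  have hlg := lg_le P (N := N) (C := Real.exp N) (Real.one_le_exp (Nat.cast_nonneg N)) hQdeg hQc U hne
  rw [Real.log_exp] at hlg
  set C : ℝ := k * Real.log (N + 1) + N with hC
  have hlog0 : 0 ≤ Real.log ((N : ℝ) + 1) := Real.log_nonneg (by linarith)
  have hC0 : 0 ≤ C := by positivity
  have hC1 : C ≤ (k + 1) * N := by
    have h1 : Real.log ((N : ℝ) + 1) ≤ N := by
      have := Real.log_le_sub_one_of_pos (show (0 : ℝ) < N + 1 by positivity)
      linarith
    rw [hC]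
    nlinarith
  set τ : ℝ := (M : ℝ) ^ (2 * k + 1) / 2 with hτ
  have hτ0 : 0 ≤ τ := by positivity
  have hsmall : ∀ i ∈ good, P.lg (.inl i) (MvPolynomial.aeval U Q) ≤ -τ := by
    intro i hi
    obtain ⟨l, e, he, hle⟩ := hnear i
    obtain ⟨e', he', h1, h2⟩ := hp2 l i hi e he hle
    obtain ⟨y, hy1, hy2⟩ := hb2 l e' he'
    have hy : ∀ i, |y i| ≤ ρ := fun i => (hy2 i).trans (by
      rw [hρ]
      exact mul_le_mul_of_nonneg_left h2 (by positivity))
    have h3 := hQs l y hy (fun a => P.σ i (U a)) (fun a => ⟨by simpa using (hU a).1, fun h => by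
      have h' : P.σ i (U a) = P.σ i 1 := by rw [map_one]; exact h
      exact (hU a).2 ((P.σ i).injective h')⟩) (by
        have h4 : (fun a => (Real.log ‖P.σ i (U a)‖, Real.log ‖1 - P.σ i (U a)‖)) =
            fun a => P.lv (.inl i) (U a) := by
          funext a
          simp [Places.lv, Places.lg]
        rw [h4, ← hy1]
        exact h1)
    rw [← map_aeval'] at h3
    rw [P.lg_inl]
    have h4 : 0 < ‖P.σ i (MvPolynomial.aeval U Q)‖ := norm_pos_iff.mpr
      ((map_ne_zero (P.σ i)).mpr hne)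
    have h5 := Real.log_le_log h4 h3
    rwa [Real.log_exp] at h5
  have hsum : ∑ w, P.lg w (MvPolynomial.aeval U Q) ≤
      ∑ w, (C * P.arch w + N * S w) - ∑ i ∈ good, τ := by
    have h1 : ∑ i ∈ good, τ = ∑ i : Fin P.D, if i ∈ good then τ else 0 := by
      rw [Finset.sum_ite_mem, Finset.univ_inter]
    rw [h1, Fintype.sum_sum_type, Fintype.sum_sum_type]
    have h2 : ∑ i : Fin P.D, P.lg (.inl i) (MvPolynomial.aeval U Q) ≤
        ∑ i : Fin P.D, (C * P.arch (.inl i) + N * S (.inl i)) -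
          ∑ i : Fin P.D, if i ∈ good then τ else 0 := by
      rw [← Finset.sum_sub_distrib]
      refine Finset.sum_le_sum fun i _ => ?_
      by_cases hi : i ∈ good
      · rw [if_pos hi]
        have h3 := hsmall i hi
        have h4 : 0 ≤ C * P.arch (.inl i) + N * S (.inl i) :=
          add_nonneg (mul_nonneg hC0 (P.arch_nonneg _)) (mul_nonneg (Nat.cast_nonneg _) (hS0 _))
        linarith
      · rw [if_neg hi, sub_zero]
        exact hlg _
    have h3 : ∑ j : Fin P.m, P.lg (.inr j) (MvPolynomial.aeval U Q) ≤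
        ∑ j : Fin P.m, (C * P.arch (.inr j) + N * S (.inr j)) :=
      Finset.sum_le_sum fun j _ => hlg _
    linarith
  have harch : ∑ w, P.arch w = P.D := by
    simp [Places.arch, Fintype.sum_sum_type]
  rw [Finset.sum_add_distrib, ← Finset.mul_sum, ← Finset.mul_sum, harch, Finset.sum_const,
    nsmul_eq_mul] at hsum
  have hpos' : 0 ≤ ∑ w, P.lg w (MvPolynomial.aeval U Q) := by
    have h1 : P.avg (fun w => P.lg w (MvPolynomial.aeval U Q)) * P.D =
        ∑ w, P.lg w (MvPolynomial.aeval U Q) := by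
      rw [Places.avg, div_mul_cancel₀ _ hD.ne']
    rw [← h1]
    exact mul_nonneg hpos hD.le
  have hτN : τ = M * N / 2 := by
    rw [hτ, pow_succ, hNM]
    ring
  have h1 : (N : ℝ) * ∑ w, S w ≤ N * (B' * P.D) := mul_le_mul_of_nonneg_left hSsum (by positivity)
  have h2 : (P.D : ℝ) / 2 * τ ≤ good.card * τ := mul_le_mul_of_nonneg_right hcard hτ0
  have h3 : C * P.D ≤ (k + 1) * N * P.D := mul_le_mul_of_nonneg_right hC1 hD.le
  have h4 : 0 ≤ ((k : ℝ) + 1) * N * P.D + N * (B' * P.D) - P.D / 2 * τ := by linarith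
  rw [hτN] at h4
  have h5 : ((k : ℝ) + 1) * N * P.D + N * (B' * P.D) - P.D / 2 * (M * N / 2) =
      (N * P.D) * ((k + 1 + B') - M / 4) := by ring
  rw [h5] at h4
  have h6 : 0 < (N : ℝ) * P.D := by positivity
  have h7 : (k + 1 + B') - (M : ℝ) / 4 < 0 := by linarith
  nlinarith

end Pool.Agent.L3
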