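import Pool.Agent.Lib.MP_c95b3b_ag_L3.TG
import Pool.Agent.Lib.MP_c95b3b_ag_L3.VA

/-!
Project L3 (MP_c95b3b_ag), module FA: one large height.
-/

namespace Pool.Agent.L3

namespace FA

/-- if the height of `V` is large, its vectors are not near a line -/
theorem onto {K : Type} [Field K] {R : Subring K} {P : Places K R} {V : K}
    {j : P.Pl → Fin 3} {t : P.Pl → ℝ} {h c : ℝ} (H : Dec P V j t h) (hh : 2 * c + 6 < h)
    {g' : P.Pl → ℝ × ℝ} (hg : P.avg (fun w => ‖g' w‖) ≤ c) (S : Submodule ℝ (ℝ × ℝ))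
    (hS : ∀ w, P.lv w V - g' w ∈ S) : S = ⊤ := by
  by_contra hne
  obtain ⟨f, hf, hle⟩ := Submodule.exists_le_ker_of_lt_top S (lt_top_iff_ne_top.mpr hne)
  have hfx : ∀ x : ℝ × ℝ, f x = x.1 * f (1, 0) + x.2 * f (0, 1) := by
    intro x
    have hx : x = x.1 • ((1, 0) : ℝ × ℝ) + x.2 • ((0, 1) : ℝ × ℝ) := by
      ext <;> simp
    conv_lhs => rw [hx]
    rw [map_add, map_smul, map_smul, smul_eq_mul, smul_eq_mul]
  obtain ⟨j0, M, hM, hj0, hb⟩ : ∃ (j0 : Fin 3) (M : ℝ), 0 < M ∧ |f (ray j0)| = M ∧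
      ∀ x : ℝ × ℝ, |f x| ≤ 2 * M * ‖x‖ := by
    have key : ∀ M : ℝ, |f (1, 0)| ≤ M → |f (0, 1)| ≤ M → ∀ x : ℝ × ℝ, |f x| ≤ 2 * M * ‖x‖ := by
      intro M h1 h2 x
      rw [hfx x]
      have hx1 : |x.1| ≤ ‖x‖ := by
        rw [Prod.norm_def]
        exact le_max_left _ _
      have hx2 : |x.2| ≤ ‖x‖ := by
        rw [Prod.norm_def]
        exact le_max_right _ _
      calc |x.1 * f (1, 0) + x.2 * f (0, 1)| ≤ |x.1| * |f (1, 0)| + |x.2| * |f (0, 1)| := by
            rw [← abs_mul, ← abs_mul]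
            exact abs_add_le _ _
        _ ≤ ‖x‖ * M + ‖x‖ * M := by
            gcongr
        _ = 2 * M * ‖x‖ := by ring
    have hne0 : f (1, 0) ≠ 0 ∨ f (0, 1) ≠ 0 := by
      by_contra hcon
      push Not at hcon
      apply hf
      apply LinearMap.ext
      intro x
      rw [hfx x, hcon.1, hcon.2]
      simp
    rcases le_total |f (0, 1)| |f (1, 0)| with hle1 | hle1
    · refine ⟨0, |f (1, 0)|, ?_, ?_, key _ le_rfl hle1⟩
      · rw [abs_pos]
        rcases hne0 with h1 | h1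
        · exact h1
        · intro h2
          rw [h2, abs_zero] at hle1
          exact h1 (abs_nonpos_iff.mp hle1)
      · rw [hfx]
        simp [ray]
    · refine ⟨1, |f (0, 1)|, ?_, ?_, key _ hle1 le_rfl⟩
      · rw [abs_pos]
        rcases hne0 with h1 | h1
        · intro h2
          rw [h2, abs_zero] at hle1
          exact h1 (abs_nonpos_iff.mp hle1)
        · exact h1
      · rw [hfx]
        simp [ray]
  have hw : ∀ w, (if j w = j0 then t w else 0) ≤ 2 * ‖g' w‖ + 4 * P.arch w := by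
    intro w
    split_ifs with hj
    · have h1 : f (P.lv w V) = f (g' w) := by
        have := hle (hS w)
        rw [LinearMap.mem_ker, map_sub, sub_eq_zero] at this
        exact this
      have h2 : t w * M ≤ |f (P.lv w V)| + |f (P.lv w V - t w • ray (j w))| := by
        have h3 : t w * M = |f (t w • ray (j w))| := by
          rw [map_smul, smul_eq_mul, abs_mul, abs_of_nonneg (H.nonneg w), hj, hj0]
        rw [h3]
        have h4 : f (t w • ray (j w)) = f (P.lv w V) - f (P.lv w V - t w • ray (j w)) := by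
          rw [← map_sub]
          congr 1
          abel
        rw [h4]
        exact abs_sub _ _
      rw [h1] at h2
      have h5 := hb (g' w)
      have h6 := hb (P.lv w V - t w • ray (j w))
      have h7 := H.near w
      have h8 : 2 * M * ‖P.lv w V - t w • ray (j w)‖ ≤ 2 * M * (2 * P.arch w) := by
        gcongr
      have h9 : t w * M ≤ (2 * ‖g' w‖ + 4 * P.arch w) * M := by
        calc t w * M ≤ |f (g' w)| + |f (P.lv w V - t w • ray (j w))| := h2
          _ ≤ 2 * M * ‖g' w‖ + 2 * M * (2 * P.arch w) := add_le_add h5 (h6.trans h8)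
          _ = _ := by ring
      exact le_of_mul_le_mul_right h9 hM
    · have := P.arch_nonneg w
      positivity
  have hav := P.avg_mono hw
  rw [P.avg_add, P.avg_mul, P.avg_const_arch] at hav
  have hm := (abs_le.mp (H.mass j0)).1
  linarith

section
variable {k : ℕ} (E : Submodule ℝ ((Fin k → ℝ × ℝ) × (ℝ × ℝ)))

/-- the size of the smallest vector over the ray -/
noncomputable def mu (j : Fin 3) : ℝ := sInf {r : ℝ | ∃ e, (e, ray j) ∈ E ∧ r = ‖e‖}

variable {E}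

theorem bdd (j : Fin 3) : BddBelow {r : ℝ | ∃ e, (e, ray j) ∈ E ∧ r = ‖e‖} :=
  ⟨0, by rintro r ⟨e, -, rfl⟩; exact norm_nonneg _⟩

theorem mu_nonneg (j : Fin 3) : 0 ≤ mu E j := by
  apply Real.sInf_nonneg
  rintro r ⟨e, -, rfl⟩
  exact norm_nonneg _

theorem mu_le {j : Fin 3} {s : ℝ} (hs : 0 ≤ s) {e : Fin k → ℝ × ℝ} (he : (e, s • ray j) ∈ E) :
    s * mu E j ≤ ‖e‖ := by
  rcases hs.eq_or_lt with h | h
  · rw [← h, zero_mul]
    exact norm_nonneg _
  · have h1 : (s⁻¹ • e, ray j) ∈ E := by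
      have := E.smul_mem s⁻¹ he
      rwa [Prod.smul_mk, smul_smul, inv_mul_cancel₀ h.ne', one_smul] at this
    have h2 : mu E j ≤ ‖s⁻¹ • e‖ := csInf_le (bdd j) ⟨_, h1, rfl⟩
    rw [norm_smul, norm_inv, Real.norm_of_nonneg hs] at h2
    calc s * mu E j ≤ s * (s⁻¹ * ‖e‖) := by gcongr
      _ = ‖e‖ := by rw [← mul_assoc, mul_inv_cancel₀ h.ne', one_mul]

theorem exists_near (hE : E.map (LinearMap.snd ℝ _ _) = ⊤) (j : Fin 3) {ε : ℝ} (hε : 0 < ε) :
    ∃ e, (e, ray j) ∈ E ∧ ‖e‖ < mu E j + ε := by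
  have hne : {r : ℝ | ∃ e, (e, ray j) ∈ E ∧ r = ‖e‖}.Nonempty := by
    have h1 : ray j ∈ E.map (LinearMap.snd ℝ _ _) := by
      rw [hE]
      exact Submodule.mem_top
    obtain ⟨⟨e, v⟩, he, hv⟩ := h1
    rw [LinearMap.snd_apply] at hv
    simp only at hv
    subst hv
    exact ⟨‖e‖, e, he, rfl⟩
  obtain ⟨r, ⟨e, he, hr⟩, hlt⟩ := Real.lt_sInf_add_pos hne hε
  exact ⟨e, he, by rw [← hr]; exact hlt⟩

/-- the fibre over a line -/
def sub (E : Submodule ℝ ((Fin k → ℝ × ℝ) × (ℝ × ℝ))) (j : Fin 3) :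
    Submodule ℝ (Fin k → ℝ × ℝ) :=
  (E ⊓ (Submodule.span ℝ {ray j}).comap (LinearMap.snd ℝ _ _)).map (LinearMap.fst ℝ _ _)

theorem finrank_sub (hE : E.map (LinearMap.snd ℝ _ _) = ⊤) (hk : Module.finrank ℝ E ≤ k)
    (j : Fin 3) : Module.finrank ℝ (sub E j) < k := by
  refine lt_of_lt_of_le ?_ hk
  refine lt_of_le_of_lt (Submodule.finrank_map_le _ _) ?_
  apply Submodule.finrank_lt_finrank_of_lt
  refine lt_of_le_of_ne inf_le_left ?_
  intro heq
  have h1 : E ≤ (Submodule.span ℝ {ray j}).comap (LinearMap.snd ℝ _ _) := inf_eq_left.mp heq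
  rw [← Submodule.map_le_iff_le_comap, hE] at h1
  have h2 : Submodule.span ℝ {ray j} = ⊤ := top_le_iff.mp h1
  have h3 := finrank_span_le_card (R := ℝ) ({ray j} : Set (ℝ × ℝ))
  rw [h2, finrank_top] at h3
  simp at h3

theorem mem_sub {j : Fin 3} {s : ℝ} {e : Fin k → ℝ × ℝ} (he : (e, s • ray j) ∈ E) :
    e ∈ sub E j := by
  refine ⟨(e, s • ray j), ⟨he, ?_⟩, rfl⟩
  change s • ray j ∈ Submodule.span ℝ {ray j}
  exact Submodule.smul_mem _ _ (Submodule.mem_span_singleton_self _)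

end

end FA

theorem one_large (k : ℕ) (hk : 1 ≤ k) (B c : ℝ) (Γ : Finset (Fin k → ℝ × ℝ)) : ∃ H1 : ℝ,
    ∃ 𝒬 : Finset (MvPolynomial (Fin k) ℤ), (∀ Q ∈ 𝒬, Q ≠ 0) ∧
      ∀ (K : Type) [Field K] (R : Subring K) (P : Places K R) (U : Fin k → K) (V : K)
        (g : P.Pl → Fin k → ℝ × ℝ) (g' : P.Pl → ℝ × ℝ)
        (E : Submodule ℝ ((Fin k → ℝ × ℝ) × (ℝ × ℝ))),
        (∀ i, UU R (U i)) → UU R V → P.avg (fun w => ‖g w‖) ≤ c → P.avg (fun w => ‖g' w‖) ≤ c →
        (∀ i, g (.inl i) ∈ Γ) → (∀ i, ‖g' (.inl i)‖ ≤ c) → Module.finrank ℝ E ≤ k →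
        (∀ w, ((fun a => P.lv w (U a)) - g w, P.lv w V - g' w) ∈ E) →
        P.avg (fun w => ∑ i, ‖P.lv w (U i)‖) ≤ B → H1 ≤ P.avg (fun w => ‖P.lv w V‖) →
        ∃ Q ∈ 𝒬, MvPolynomial.aeval U Q = 0 := by
  obtain ⟨η, hη, 𝒬, h𝒬, hT⟩ := T_main k (Fintype.card (Γ × Fin 3)) hk B
  have hc' : (0 : ℝ) < 2 + |c| := by positivity
  set ε : ℝ := η / (4 * (2 + |c|)) with hε_def
  have hε : 0 < ε := by positivity
  refine ⟨3 * (11 + 4 * |c| + (|B| + |c|) / ε) + 8, 𝒬, h𝒬, ?_⟩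
  intro K _ R P U V g g' E hU hV hg hg' hΓ hgi hfin hmem hB hH
  have hc : 0 ≤ c := (P.avg_nonneg fun w => norm_nonneg (g w)).trans hg
  have hB0 : 0 ≤ B := (P.avg_nonneg fun w => Finset.sum_nonneg fun i _ => norm_nonneg _).trans hB
  rw [abs_of_nonneg hc] at hc' hε_def hH
  rw [abs_of_nonneg hB0] at hH
  obtain ⟨j, t, h, H⟩ := exists_dec P hV
  have hh : 11 + 4 * c + (B + c) / ε ≤ h := by
    have := (abs_le.mp H.avg_norm.2.1).2
    linarith
  have hq : 0 ≤ (B + c) / ε := by positivity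
  have hE : E.map (LinearMap.snd ℝ _ _) = ⊤ := by
    refine FA.onto H (c := c) (by linarith) hg' _ ?_
    intro w
    exact ⟨_, hmem w, rfl⟩
  obtain ⟨js, hjs⟩ := Finite.exists_max (FA.mu E)
  obtain ⟨e0, he0, hn0⟩ := FA.exists_near hE 0 hε
  obtain ⟨e1, he1, hn1⟩ := FA.exists_near hE 1 hε
  set m : ℝ := FA.mu E js + ε with hm_def
  have hm0 : ‖e0‖ ≤ m := hn0.le.trans (by linarith [hjs 0])
  have hm1 : ‖e1‖ ≤ m := hn1.le.trans (by linarith [hjs 1])
  have hm : 0 ≤ m := (norm_nonneg _).trans hm0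
  -- correction vectors
  have hcor : ∀ r : ℝ × ℝ, ∃ e : Fin k → ℝ × ℝ, (e, r) ∈ E ∧ ‖e‖ ≤ 2 * m * ‖r‖ := by
    intro r
    refine ⟨-(r.1 • e0) - r.2 • e1, ?_, ?_⟩
    · have h1 := E.sub_mem (E.neg_mem (E.smul_mem r.1 he0)) (E.smul_mem r.2 he1)
      convert h1 using 1
      ext <;> simp [ray]
    · have hx1 : |r.1| ≤ ‖r‖ := by
        rw [Prod.norm_def]
        exact le_max_left _ _
      have hx2 : |r.2| ≤ ‖r‖ := by
        rw [Prod.norm_def]
        exact le_max_right _ _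
      calc ‖-(r.1 • e0) - r.2 • e1‖ ≤ ‖-(r.1 • e0)‖ + ‖r.2 • e1‖ := norm_sub_le _ _
        _ = |r.1| * ‖e0‖ + |r.2| * ‖e1‖ := by
            rw [norm_neg, norm_smul, norm_smul, Real.norm_eq_abs, Real.norm_eq_abs]
        _ ≤ ‖r‖ * m + ‖r‖ * m := by gcongr
        _ = 2 * m * ‖r‖ := by ring
  -- the decomposition at every place
  have hdec : ∀ w, ∃ e er : Fin k → ℝ × ℝ, (fun a => P.lv w (U a)) - g w = e + er ∧
      (e, t w • ray (j w)) ∈ E ∧ ‖er‖ ≤ 2 * m * (2 * P.arch w + ‖g' w‖) := by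
    intro w
    obtain ⟨er, h1, h2⟩ := hcor (P.lv w V - g' w - t w • ray (j w))
    refine ⟨(fun a => P.lv w (U a)) - g w - er, er, by abel, ?_, h2.trans ?_⟩
    · have := E.sub_mem (hmem w) h1
      rw [Prod.mk_sub_mk] at this
      convert this using 2
      abel
    · have h3 : ‖P.lv w V - g' w - t w • ray (j w)‖ ≤ 2 * P.arch w + ‖g' w‖ := by
        calc ‖P.lv w V - g' w - t w • ray (j w)‖
            = ‖(P.lv w V - t w • ray (j w)) - g' w‖ := by congr 1; abel
          _ ≤ ‖P.lv w V - t w • ray (j w)‖ + ‖g' w‖ := norm_sub_le _ _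
          _ ≤ 2 * P.arch w + ‖g' w‖ := by
              have := H.near w
              linarith
      gcongr
  -- mu is small
  have hmu : FA.mu E js ≤ ε := by
    by_contra hcon
    push Not at hcon
    have hw : ∀ w, FA.mu E js * (if j w = js then t w else 0) ≤
        (∑ i, ‖P.lv w (U i)‖) + ‖g w‖ + 2 * m * (2 * P.arch w + ‖g' w‖) := by
      intro w
      have h0 : 0 ≤ (∑ i, ‖P.lv w (U i)‖) := Finset.sum_nonneg fun i _ => norm_nonneg _
      have ha := P.arch_nonneg w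
      split_ifs with hj
      · obtain ⟨e, er, h1, h2, h3⟩ := hdec w
        rw [hj] at h2
        have h4 := FA.mu_le (H.nonneg w) h2
        have h5 : ‖e‖ ≤ ‖(fun a => P.lv w (U a))‖ + ‖g w‖ + ‖er‖ := by
          have : e = (fun a => P.lv w (U a)) - g w - er := by rw [h1]; abel
          rw [this]
          calc _ ≤ ‖(fun a => P.lv w (U a)) - g w‖ + ‖er‖ := norm_sub_le _ _
            _ ≤ _ := by
              gcongr
              exact norm_sub_le _ _
        have h6 : ‖(fun a => P.lv w (U a))‖ ≤ ∑ i, ‖P.lv w (U i)‖ := by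
          rw [pi_norm_le_iff_of_nonneg h0]
          intro i
          exact Finset.single_le_sum (f := fun i => ‖P.lv w (U i)‖)
            (fun i _ => norm_nonneg _) (Finset.mem_univ i)
        rw [mul_comm]
        linarith
      · rw [mul_zero]
        positivity
    have hav := P.avg_mono hw
    rw [P.avg_mul, P.avg_add, P.avg_add, P.avg_mul, P.avg_add, P.avg_const_arch] at hav
    have hmass := (abs_le.mp (H.mass js)).1
    have hmpos : 0 < FA.mu E js := hε.trans hcon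
    have h1 : FA.mu E js * (h - 2) ≤ B + c + 2 * m * (2 + c) := by
      calc FA.mu E js * (h - 2) ≤ FA.mu E js *
            P.avg (fun w => if j w = js then t w else 0) := by
              gcongr
              linarith
        _ ≤ _ := hav
        _ ≤ B + c + 2 * m * (2 + c) := by gcongr
    have h2 : m ≤ 2 * FA.mu E js := by rw [hm_def]; linarith
    have h3 : 2 * m * (2 + c) ≤ 2 * (2 * FA.mu E js) * (2 + c) := by gcongr
    have h4 : FA.mu E js * (h - 10 - 4 * c) ≤ B + c := by linarith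
    have h5 : (B + c) / ε + 1 ≤ h - 10 - 4 * c := by linarith
    have h6 : FA.mu E js * ((B + c) / ε + 1) ≤ B + c := le_trans (by gcongr) h4
    have h7 : ε * ((B + c) / ε + 1) ≤ FA.mu E js * ((B + c) / ε + 1) := by gcongr
    have h8 : ε * ((B + c) / ε + 1) = B + c + ε := by
      field_simp
    linarith
  -- apply Theorem T
  let φ := (Fintype.equivFin (Γ × Fin 3))
  refine hT K R P U (fun i => (hU i).mem) (fun i => ⟨(hU i).ne0, (hU i).ne1⟩) hB
    (fun l => ((φ.symm l).1 : Fin k → ℝ × ℝ)) (fun l => FA.sub E (φ.symm l).2)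
    (fun l => FA.finrank_sub hE hfin _) ?_
  intro i
  obtain ⟨e, er, h1, h2, h3⟩ := hdec (.inl i)
  refine ⟨φ (⟨g (.inl i), hΓ i⟩, j (.inl i)), e, ?_, ?_⟩
  · rw [Equiv.symm_apply_apply]
    exact FA.mem_sub h2
  · rw [Equiv.symm_apply_apply]
    change ‖(fun a => P.lv (.inl i) (U a)) - g (.inl i) - e‖ ≤ η
    rw [h1, add_sub_cancel_left]
    refine h3.trans ?_
    rw [P.arch_inl]
    have h4 : m ≤ 2 * ε := by rw [hm_def]; linarith
    have h5 := hgi i
    calc 2 * m * (2 * 1 + ‖g' (.inl i)‖) ≤ 2 * (2 * ε) * (2 * 1 + c) := by gcongr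
      _ = η := by
        rw [hε_def]
        field_simp
        ring

end Pool.Agent.L3
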