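import Pool.Agent.Lib.MP_c95b3b_ag_L3.Defs

/-! Project L3 (MP_c95b3b_ag), module VB: the exponent matrix. -/

namespace Pool.Agent.L3

namespace VB

theorem ray0 : ray 0 = (-1, 0) := rfl
theorem ray1 : ray 1 = (0, -1) := rfl
theorem ray2 : ray 2 = (1, 1) := rfl

theorem norm_ray (i : Fin 3) : ‖ray i‖ = 1 := by
  fin_cases i
  · simp [ray0, Prod.norm_def]
  · simp [ray1, Prod.norm_def]
  · simp [ray2, Prod.norm_def]

theorem decomp (v : ℝ × ℝ) : v = -(v.1 • ray 0) - v.2 • ray 1 := by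
  rw [ray0, ray1]
  ext <;> simp

theorem ray_sum : ray 2 = - ray 0 - ray 1 := by
  rw [ray0, ray1, ray2]
  ext <;> simp

/-- the span of the first components is everything: the second component is a linear function -/
theorem exists_lin {ι : Type} {X X' : ι → ℝ × ℝ} (E : Submodule ℝ ((ℝ × ℝ) × (ℝ × ℝ)))
    (hE : Module.finrank ℝ E ≤ 2) (hX : ∀ w, (X w, X' w) ∈ E)
    (hf : ∀ f : (ℝ × ℝ) →ₗ[ℝ] ℝ, (∀ w, f (X w) = 0) → f = 0) :
    ∃ M : (ℝ × ℝ) →ₗ[ℝ] (ℝ × ℝ), ∀ w, M (X w) = X' w := by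
  set p : E →ₗ[ℝ] (ℝ × ℝ) := (LinearMap.fst ℝ (ℝ × ℝ) (ℝ × ℝ)).comp E.subtype with hp
  have hsurj : Function.Surjective p := by
    rw [← LinearMap.range_eq_top]
    by_contra hne
    obtain ⟨f, hf0, hf1⟩ := Submodule.exists_le_ker_of_lt_top _ (lt_top_iff_ne_top.mpr hne)
    apply hf0
    apply hf
    intro w
    have : p ⟨(X w, X' w), hX w⟩ ∈ LinearMap.range p := LinearMap.mem_range_self _ _
    exact hf1 this
  have h2 : Module.finrank ℝ (ℝ × ℝ) = 2 := by simp
  have hfr : Module.finrank ℝ E = Module.finrank ℝ (ℝ × ℝ) := by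
    apply le_antisymm (by rw [h2]; exact hE)
    exact LinearMap.finrank_le_finrank_of_surjective hsurj
  have hinj : Function.Injective p :=
    (LinearMap.injective_iff_surjective_of_finrank_eq_finrank hfr).mpr hsurj
  set e := LinearEquiv.ofBijective p ⟨hinj, hsurj⟩ with he
  refine ⟨((LinearMap.snd ℝ (ℝ × ℝ) (ℝ × ℝ)).comp E.subtype).comp e.symm.toLinearMap, ?_⟩
  intro w
  have h3 : e ⟨(X w, X' w), hX w⟩ = X w := rfl
  have h4 : e.symm (X w) = ⟨(X w, X' w), hX w⟩ := by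
    rw [LinearEquiv.symm_apply_eq, h3]
  simp [h4]

/-- a linear map in terms of the images of the rays -/
theorem lin_eq {V : Type} [AddCommGroup V] [Module ℝ V] (M : (ℝ × ℝ) →ₗ[ℝ] V) (v : ℝ × ℝ) :
    M v = -(v.1 • M (ray 0)) - v.2 • M (ray 1) := by
  conv_lhs => rw [decomp v]
  rw [map_sub, map_neg, map_smul, map_smul]

theorem lin_bound {V : Type} [NormedAddCommGroup V] [NormedSpace ℝ V] (a0 a1 : V) (v : ℝ × ℝ)
    {μ : ℝ} (h0 : ‖a0‖ ≤ μ) (h1 : ‖a1‖ ≤ μ) : ‖-(v.1 • a0) - v.2 • a1‖ ≤ 2 * μ * ‖v‖ := by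
  have e1 : |v.1| ≤ ‖v‖ := norm_fst_le v
  have e2 : |v.2| ≤ ‖v‖ := norm_snd_le v
  have hμ : 0 ≤ μ := (norm_nonneg _).trans h0
  calc ‖-(v.1 • a0) - v.2 • a1‖ ≤ ‖-(v.1 • a0)‖ + ‖v.2 • a1‖ := norm_sub_le _ _
    _ = |v.1| * ‖a0‖ + |v.2| * ‖a1‖ := by
        rw [norm_neg, norm_smul, norm_smul, Real.norm_eq_abs, Real.norm_eq_abs]
    _ ≤ ‖v‖ * μ + ‖v‖ * μ := by gcongr
    _ = 2 * μ * ‖v‖ := by ring

theorem sum_class {ι : Type} [Fintype ι] (t : ι → ℝ) (j : ι → Fin 3) :
    ∑ w, t w = ∑ i, ∑ w, if j w = i then t w else 0 := by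
  rw [Finset.sum_comm]
  apply Finset.sum_congr rfl
  intro w _
  simp

theorem exists_class {ι : Type} [Fintype ι] {t δ : ι → ℝ} {j : ι → Fin 3} {i : Fin 3}
    {a K κ c : ℝ} (hδ0 : ∀ w, 0 ≤ δ w) (hδ : ∑ w, δ w ≤ c) (hK : 0 ≤ K) (hκ : 0 ≤ κ)
    (hm : a ≤ ∑ w, if j w = i then t w else 0) (hlt : K * c < κ * a) :
    ∃ w, j w = i ∧ K * δ w < κ * t w := by
  by_contra hcon
  push Not at hcon
  have h1 : ∑ w, κ * (if j w = i then t w else 0) ≤ ∑ w, K * δ w := by
    apply Finset.sum_le_sum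
    intro w _
    split_ifs with hw
    · exact hcon w hw
    · rw [mul_zero]
      exact mul_nonneg hK (hδ0 w)
  rw [← Finset.mul_sum, ← Finset.mul_sum] at h1
  have h2 := mul_le_mul_of_nonneg_left hm hκ
  have h3 := mul_le_mul_of_nonneg_left hδ hK
  linarith

/-- no functional vanishes on all the vectors -/
theorem no_functional {ι : Type} [Fintype ι] {X : ι → ℝ × ℝ} {t δ : ι → ℝ} {j : ι → Fin 3}
    {c h : ℝ} (ht : ∀ w, 0 ≤ t w) (h1 : ∀ w, ‖X w - t w • ray (j w)‖ ≤ δ w)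
    (hδ : ∑ w, δ w ≤ c) (hc : 0 < c)
    (hm : ∀ i, h - c ≤ ∑ w, if j w = i then t w else 0) (hh : 100 * c ≤ h)
    (f : (ℝ × ℝ) →ₗ[ℝ] ℝ) (hf : ∀ w, f (X w) = 0) : f = 0 := by
  have hδ0 : ∀ w, 0 ≤ δ w := fun w => (norm_nonneg _).trans (h1 w)
  by_contra hne
  obtain ⟨i, hi⟩ : ∃ i : Fin 3, |f (ray 0)| ≤ |f (ray i)| ∧ |f (ray 1)| ≤ |f (ray i)| := by
    rcases le_total |f (ray 0)| |f (ray 1)| with h | h
    · exact ⟨1, h, le_rfl⟩
    · exact ⟨0, le_rfl, h⟩
  have hpos : 0 < |f (ray i)| := by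
    rcases (abs_nonneg (f (ray i))).lt_or_eq with h | h
    · exact h
    · exfalso
      apply hne
      have h0 : f (ray 0) = 0 := by
        have := hi.1
        rw [← h] at this
        exact abs_nonpos_iff.mp this
      have h1 : f (ray 1) = 0 := by
        have := hi.2
        rw [← h] at this
        exact abs_nonpos_iff.mp this
      apply LinearMap.ext
      intro v
      rw [lin_eq f v, h0, h1]
      simp
  obtain ⟨w, hw, hlt⟩ := exists_class (K := 2) (κ := 1) (i := i) hδ0 hδ (by norm_num) (by norm_num)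
    (hm i) (by linarith)
  have h3 : |f (X w - t w • ray (j w))| ≤ 2 * |f (ray i)| * δ w := by
    rw [lin_eq f]
    refine (lin_bound (f (ray 0)) (f (ray 1)) _ hi.1 hi.2).trans ?_
    gcongr
    exact h1 w
  rw [map_sub, hf, zero_sub, abs_neg, map_smul, hw, smul_eq_mul, abs_mul,
    abs_of_nonneg (ht w)] at h3
  have h4 : t w * |f (ray i)| ≤ (2 * δ w) * |f (ray i)| := by linarith
  have h5 := le_of_mul_le_mul_right h4 hpos
  linarith

/-- if `∑ b i • ray (p i)` is nearly zero then `p` is a permutation and the `b i` are nearly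
equal -/
theorem perm_of_sum (p : Fin 3 → Fin 3) (b : Fin 3 → ℝ) (hb : ∀ i, 0 ≤ b i) {s ε : ℝ}
    (hs : 1 ≤ s) (hε : 100 * ε ≤ s) (hsum : |∑ i, b i - 3 * s| ≤ 54 * ε)
    (h0 : ‖∑ i, b i • ray (p i)‖ ≤ 30 * ε) :
    Function.Injective p ∧ ∀ i, |b i - s| ≤ 48 * ε := by
  have e1 : |(∑ i, b i • ray (p i)).1| ≤ 30 * ε := (norm_fst_le _).trans h0
  have e2 : |(∑ i, b i • ray (p i)).2| ≤ 30 * ε := (norm_snd_le _).trans h0
  have b0 := hb 0
  have b1 := hb 1
  have b2 := hb 2
  simp only [Fin.sum_univ_three, Prod.fst_add, Prod.snd_add, Prod.smul_fst, Prod.smul_snd,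
    smul_eq_mul] at e1 e2 hsum
  have key : ∀ q0 q1 q2 : Fin 3,
      |b 0 * (ray q0).1 + b 1 * (ray q1).1 + b 2 * (ray q2).1| ≤ 30 * ε →
      |b 0 * (ray q0).2 + b 1 * (ray q1).2 + b 2 * (ray q2).2| ≤ 30 * ε →
      (q0 ≠ q1 ∧ q0 ≠ q2 ∧ q1 ≠ q2) ∧ |b 0 - s| ≤ 48 * ε ∧ |b 1 - s| ≤ 48 * ε ∧
        |b 2 - s| ≤ 48 * ε := by
    intro q0 q1 q2 h1 h2
    rw [abs_le] at h1 h2 hsum
    obtain ⟨h1a, h1b⟩ := h1
    obtain ⟨h2a, h2b⟩ := h2
    obtain ⟨sa, sb⟩ := hsum
    simp only [abs_le]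
    have r0 : ray 0 = (-1, 0) := rfl
    have r1 : ray 1 = (0, -1) := rfl
    have r2 : ray 2 = (1, 1) := rfl
    fin_cases q0 <;> fin_cases q1 <;> fin_cases q2 <;>
      simp only [Fin.zero_eta, Fin.mk_one, Fin.reduceFinMk, r0, r1, r2] at h1a h1b h2a h2b ⊢ <;>
      first
      | (exfalso; linarith)
      | (refine ⟨by decide, ⟨?_, ?_⟩, ⟨?_, ?_⟩, ?_, ?_⟩ <;> linarith)
  obtain ⟨⟨k1, k2, k3⟩, k4, k5, k6⟩ := key _ _ _ e1 e2
  constructor
  · intro a a' haa
    fin_cases a <;> fin_cases a' <;> first | rfl | exact absurd haa k1 | exact absurd haa k2 | exact absurd haa k3 | exact absurd haa.symm k1 | exact absurd haa.symm k2 | exact absurd haa.symm k3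
  · intro i
    fin_cases i
    · exact k4
    · exact k5
    · exact k6

theorem core {ι : Type} [Fintype ι] {X X' : ι → ℝ × ℝ} {t t' δ : ι → ℝ} {j j' : ι → Fin 3}
    {c h h' : ℝ} (E : Submodule ℝ ((ℝ × ℝ) × (ℝ × ℝ))) (ht : ∀ w, 0 ≤ t w) (ht' : ∀ w, 0 ≤ t' w)
    (h1 : ∀ w, ‖X w - t w • ray (j w)‖ ≤ δ w) (h2 : ∀ w, ‖X' w - t' w • ray (j' w)‖ ≤ δ w)
    (hδ : ∑ w, δ w ≤ c) (hc : 0 < c)
    (m : ∀ i, |(∑ w, if j w = i then t w else 0) - h| ≤ c)
    (m' : ∀ i, |(∑ w, if j' w = i then t' w else 0) - h'| ≤ c)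
    (hE : Module.finrank ℝ E ≤ 2) (hX : ∀ w, (X w, X' w) ∈ E) (hh : 100 * c ≤ h) (hh' : h ≤ h') :
    ∃ π : Equiv.Perm (Fin 3),
      ∑ w, ‖X' w - (h' / h) • rayMap π (X w)‖ ≤ 464 * c * (h' / h) := by
  have hδ0 : ∀ w, 0 ≤ δ w := fun w => (norm_nonneg _).trans (h1 w)
  have hmlo : ∀ i, h - c ≤ ∑ w, if j w = i then t w else 0 := fun i => by
    have := (abs_le.mp (m i)).1
    linarith
  obtain ⟨M, hM⟩ := exists_lin E hE hX (fun f hf => no_functional ht h1 hδ hc hmlo hh f hf)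
  have hpos : 0 < h := by linarith
  set s := h' / h with hs
  have hs1 : 1 ≤ s := by
    rw [hs, le_div_iff₀ hpos]
    linarith
  have hsh : s * h = h' := div_mul_cancel₀ _ hpos.ne'
  obtain ⟨i0, hi0⟩ := Finite.exists_max (fun i => ‖M (ray i)‖)
  set μ := ‖M (ray i0)‖ with hμdef
  have hμ0 : 0 ≤ μ := norm_nonneg _
  have hμ : ∀ i, ‖M (ray i)‖ ≤ μ := hi0
  have hMb : ∀ v, ‖M v‖ ≤ 2 * μ * ‖v‖ := fun v => by
    rw [lin_eq M v]
    exact lin_bound _ _ _ (hμ 0) (hμ 1)
  have hdiff : ∀ w, ‖X' w - t w • M (ray (j w))‖ ≤ 2 * μ * δ w := by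
    intro w
    have := hMb (X w - t w • ray (j w))
    rw [map_sub, map_smul, hM] at this
    refine this.trans ?_
    gcongr
    exact h1 w
  have hX'n : ∀ w, |‖X' w‖ - t' w| ≤ δ w := by
    intro w
    have := abs_norm_sub_norm_le (X' w) (t' w • ray (j' w))
    rw [norm_smul, norm_ray, mul_one, Real.norm_eq_abs, abs_of_nonneg (ht' w)] at this
    exact this.trans (h2 w)
  have hX'm : ∀ w, |‖X' w‖ - t w * ‖M (ray (j w))‖| ≤ 2 * μ * δ w := by
    intro w
    have := abs_norm_sub_norm_le (X' w) (t w • M (ray (j w)))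
    rw [norm_smul, Real.norm_eq_abs, abs_of_nonneg (ht w)] at this
    exact this.trans (hdiff w)
  have hS : |∑ w, t' w - 3 * h'| ≤ 3 * c := by
    rw [sum_class t' j', Fin.sum_univ_three]
    have a0 := abs_le.mp (m' 0)
    have a1 := abs_le.mp (m' 1)
    have a2 := abs_le.mp (m' 2)
    rw [abs_le]
    constructor <;> linarith [a0.1, a0.2, a1.1, a1.2, a2.1, a2.2]
  have hSt : |∑ w, t w - 3 * h| ≤ 3 * c := by
    rw [sum_class t j, Fin.sum_univ_three]
    have a0 := abs_le.mp (m 0)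
    have a1 := abs_le.mp (m 1)
    have a2 := abs_le.mp (m 2)
    rw [abs_le]
    constructor <;> linarith [a0.1, a0.2, a1.1, a1.2, a2.1, a2.2]
  have hc0 : c ≤ h' / 100 := by linarith
  have hμ4 : μ ≤ 4 * s := by
    have e1 : ∑ w, (if j w = i0 then t w else 0) * μ ≤ ∑ w, (t' w + (1 + 2 * μ) * δ w) := by
      apply Finset.sum_le_sum
      intro w _
      have a1 := abs_le.mp (hX'n w)
      have a2 := abs_le.mp (hX'm w)
      split_ifs with hw
      · rw [hw] at a2
        have : ‖M (ray i0)‖ = μ := rfl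
        rw [this] at a2
        linarith [a1.2, a2.1]
      · rw [zero_mul]
        have := ht' w
        have := hδ0 w
        positivity
    rw [← Finset.sum_mul, Finset.sum_add_distrib, ← Finset.mul_sum] at e1
    have e2 := mul_le_mul_of_nonneg_right (hmlo i0) hμ0
    have e3 : (1 + 2 * μ) * ∑ w, δ w ≤ (1 + 2 * μ) * c :=
      mul_le_mul_of_nonneg_left hδ (by positivity)
    have e4 := (abs_le.mp hS).2
    by_contra hcon
    push Not at hcon
    have e5 : μ * (h - 3 * c) ≤ 3 * h' + 4 * c := by nlinarith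
    have e6 : 4 * s * (h - 3 * c) < μ * (h - 3 * c) := by
      apply mul_lt_mul_of_pos_right hcon
      linarith
    have e7 : s * (100 * c) ≤ s * h := mul_le_mul_of_nonneg_left hh (by linarith)
    nlinarith
  set ε := s * c / h with hε
  have hεh : ε * h = s * c := div_mul_cancel₀ _ hpos.ne'
  have hε0 : 0 < ε := by positivity
  have hεs : 100 * ε ≤ s := by
    rw [hε, ← mul_div_assoc, div_le_iff₀ hpos]
    nlinarith
  have h9 : ∀ w, 2 * μ * δ w + δ w ≤ 9 * s * δ w := by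
    intro w
    have := hδ0 w
    have e : 2 * μ + 1 ≤ 9 * s := by linarith
    nlinarith
  have h3 : ∀ i, ∃ w, j w = i ∧ (9 * s) * δ w < (10 * ε) * t w := by
    intro i
    apply exists_class hδ0 hδ (by positivity) (by positivity) (hmlo i)
    have : ε * (100 * c) ≤ ε * h := mul_le_mul_of_nonneg_left hh hε0.le
    have : 0 < s * c := by positivity
    nlinarith
  choose W hW1 hW2 using h3
  have htpos : ∀ i, 0 < t (W i) := by
    intro i
    have e1 := hW2 i
    have e2 : 0 ≤ (9 * s) * δ (W i) := mul_nonneg (by positivity) (hδ0 _)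
    by_contra hcon
    push Not at hcon
    have : (10 * ε) * t (W i) ≤ 0 := mul_nonpos_of_nonneg_of_nonpos (by positivity) hcon
    linarith
  set b : Fin 3 → ℝ := fun i => t' (W i) / t (W i) with hb
  set p : Fin 3 → Fin 3 := fun i => j' (W i) with hp
  have hb0 : ∀ i, 0 ≤ b i := fun i => div_nonneg (ht' _) (htpos i).le
  have hab : ∀ i, ‖M (ray i) - b i • ray (p i)‖ ≤ 10 * ε := by
    intro i
    have e1 : ‖t (W i) • M (ray i) - t' (W i) • ray (p i)‖ ≤ 10 * ε * t (W i) := by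
      have e2 : t (W i) • M (ray i) - t' (W i) • ray (p i) =
          (X' (W i) - t' (W i) • ray (j' (W i))) - (X' (W i) - t (W i) • M (ray (j (W i)))) := by
        rw [hW1 i]
        simp only [hp]
        abel
      rw [e2]
      refine (norm_sub_le _ _).trans ?_
      have := h2 (W i)
      have := hdiff (W i)
      have := h9 (W i)
      have := hW2 i
      linarith
    have e3 : M (ray i) - b i • ray (p i) =
        (t (W i))⁻¹ • (t (W i) • M (ray i) - t' (W i) • ray (p i)) := by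
      rw [smul_sub, smul_smul, smul_smul, inv_mul_cancel₀ (htpos i).ne', one_smul]
      simp only [hb, div_eq_inv_mul]
    rw [e3, norm_smul, norm_inv, Real.norm_eq_abs, abs_of_pos (htpos i), inv_mul_le_iff₀ (htpos i)]
    linarith
  have hbA : ∀ i, |‖M (ray i)‖ - b i| ≤ 10 * ε := by
    intro i
    have := abs_norm_sub_norm_le (M (ray i)) (b i • ray (p i))
    rw [norm_smul, norm_ray, mul_one, Real.norm_eq_abs, abs_of_nonneg (hb0 i)] at this
    exact this.trans (hab i)
  have hsum : |∑ i, b i - 3 * s| ≤ 54 * ε := by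
    have e1 : |∑ w, t' w - ∑ w, t w * ‖M (ray (j w))‖| ≤ 9 * s * c := by
      rw [← Finset.sum_sub_distrib]
      refine (Finset.abs_sum_le_sum_abs _ _).trans ?_
      calc ∑ w, |t' w - t w * ‖M (ray (j w))‖| ≤ ∑ w, 9 * s * δ w := by
            apply Finset.sum_le_sum
            intro w _
            have a1 := abs_le.mp (hX'n w)
            have a2 := abs_le.mp (hX'm w)
            have a3 := h9 w
            rw [abs_le]
            constructor <;> linarith [a1.1, a1.2, a2.1, a2.2]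
        _ = 9 * s * ∑ w, δ w := by rw [Finset.mul_sum]
        _ ≤ 9 * s * c := mul_le_mul_of_nonneg_left hδ (by positivity)
    have e2 : ∑ w, t w * ‖M (ray (j w))‖ =
        ∑ i, (∑ w, if j w = i then t w else 0) * ‖M (ray i)‖ := by
      rw [sum_class (fun w => t w * ‖M (ray (j w))‖) j]
      apply Finset.sum_congr rfl
      intro i _
      rw [Finset.sum_mul]
      apply Finset.sum_congr rfl
      intro w _
      split_ifs with hw
      · rw [hw]
      · rw [zero_mul]
    have e3 : |∑ i, (∑ w, if j w = i then t w else 0) * ‖M (ray i)‖ - h * ∑ i, ‖M (ray i)‖| ≤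
        12 * s * c := by
      rw [Finset.mul_sum, ← Finset.sum_sub_distrib]
      refine (Finset.abs_sum_le_sum_abs _ _).trans ?_
      calc ∑ i, |(∑ w, if j w = i then t w else 0) * ‖M (ray i)‖ - h * ‖M (ray i)‖| ≤
          ∑ i : Fin 3, c * (4 * s) := by
            apply Finset.sum_le_sum
            intro i _
            rw [← sub_mul, abs_mul, abs_norm]
            exact mul_le_mul (m i) ((hμ i).trans hμ4) (norm_nonneg _) hc.le
        _ = 12 * s * c := by
            simp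
            ring
    have e4 : |h * ∑ i, ‖M (ray i)‖ - h * ∑ i, b i| ≤ 30 * (s * c) := by
      rw [← mul_sub, ← Finset.sum_sub_distrib, abs_mul, abs_of_pos hpos, ← hεh]
      have : |∑ i, (‖M (ray i)‖ - b i)| ≤ 30 * ε := by
        refine (Finset.abs_sum_le_sum_abs _ _).trans ?_
        calc ∑ i, |‖M (ray i)‖ - b i| ≤ ∑ i : Fin 3, 10 * ε :=
              Finset.sum_le_sum fun i _ => hbA i
          _ = 30 * ε := by
              simp
              ring
      calc h * |∑ i, (‖M (ray i)‖ - b i)| ≤ h * (30 * ε) :=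
            mul_le_mul_of_nonneg_left this hpos.le
        _ = 30 * (ε * h) := by ring
    rw [e2] at e1
    have e5 : |h * (∑ i, b i - 3 * s)| ≤ 54 * (s * c) := by
      have a1 := abs_le.mp e1
      have a2 := abs_le.mp e3
      have a3 := abs_le.mp e4
      have a4 := abs_le.mp hS
      have a5 : c ≤ s * c := by nlinarith
      have a6 : h * (∑ i, b i - 3 * s) = h * ∑ i, b i - 3 * h' := by
        rw [← hsh]
        ring
      rw [a6, abs_le]
      constructor <;> linarith [a1.1, a1.2, a2.1, a2.2, a3.1, a3.2, a4.1, a4.2]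
    rw [abs_mul, abs_of_pos hpos, ← hεh] at e5
    have e6 : h * |∑ i, b i - 3 * s| ≤ h * (54 * ε) := by linarith
    exact le_of_mul_le_mul_left e6 hpos
  have hzero : ‖∑ i, b i • ray (p i)‖ ≤ 30 * ε := by
    have e1 : ∑ i, M (ray i) = 0 := by
      rw [Fin.sum_univ_three, ray_sum, map_sub, map_neg]
      abel
    have e2 : ∑ i, b i • ray (p i) = - ∑ i, (M (ray i) - b i • ray (p i)) := by
      rw [Finset.sum_sub_distrib, e1]
      abel
    rw [e2, norm_neg]
    refine (norm_sum_le _ _).trans ?_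
    calc ∑ i, ‖M (ray i) - b i • ray (p i)‖ ≤ ∑ i : Fin 3, 10 * ε :=
          Finset.sum_le_sum fun i _ => hab i
      _ = 30 * ε := by
          simp
          ring
  obtain ⟨hinj, hbs⟩ := perm_of_sum p b hb0 hs1 hεs hsum hzero
  refine ⟨Equiv.ofBijective p (Finite.injective_iff_bijective.mp hinj), ?_⟩
  set π := Equiv.ofBijective p (Finite.injective_iff_bijective.mp hinj) with hπ
  have hπp : ∀ i, π i = p i := fun i => rfl
  have hfin : ∀ i, ‖M (ray i) - s • ray (π i)‖ ≤ 58 * ε := by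
    intro i
    have e1 : M (ray i) - s • ray (π i) =
        (M (ray i) - b i • ray (p i)) + (b i - s) • ray (p i) := by
      rw [hπp, sub_smul]
      abel
    rw [e1]
    refine (norm_add_le _ _).trans ?_
    rw [norm_smul, norm_ray, mul_one, Real.norm_eq_abs]
    linarith [hab i, hbs i]
  have hterm : ∀ w, ‖X' w - s • rayMap π (X w)‖ ≤ 116 * ε * (t w + δ w) := by
    intro w
    have e1 : X' w - s • rayMap π (X w) =
        -((X w).1 • (M (ray 0) - s • ray (π 0))) - (X w).2 • (M (ray 1) - s • ray (π 1)) := by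
      rw [← hM w, lin_eq M (X w), rayMap]
      simp only [smul_sub, smul_neg, smul_smul, mul_comm s]
      abel
    rw [e1]
    refine (lin_bound _ _ _ (hfin 0) (hfin 1)).trans ?_
    have e2 : ‖X w‖ ≤ t w + δ w := by
      have := norm_sub_norm_le (X w) (t w • ray (j w))
      rw [norm_smul, norm_ray, mul_one, Real.norm_eq_abs, abs_of_nonneg (ht w)] at this
      linarith [h1 w]
    calc 2 * (58 * ε) * ‖X w‖ ≤ 2 * (58 * ε) * (t w + δ w) := by gcongr
      _ = 116 * ε * (t w + δ w) := by ring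
  calc ∑ w, ‖X' w - s • rayMap π (X w)‖ ≤ ∑ w, 116 * ε * (t w + δ w) :=
        Finset.sum_le_sum fun w _ => hterm w
    _ = 116 * ε * (∑ w, t w + ∑ w, δ w) := by
        rw [← Finset.mul_sum, Finset.sum_add_distrib]
    _ ≤ 116 * ε * (4 * h) := by
        have := (abs_le.mp hSt).2
        gcongr
        linarith
    _ = 464 * (ε * h) := by ring
    _ = 464 * c * s := by rw [hεh]; ring

theorem rayMap_sub' (π : Equiv.Perm (Fin 3)) (x y : ℝ × ℝ) :
    rayMap π (x - y) = rayMap π x - rayMap π y := by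
  simp only [rayMap, Prod.fst_sub, Prod.snd_sub, sub_smul]
  abel

theorem rayMap_norm' (π : Equiv.Perm (Fin 3)) (x : ℝ × ℝ) : ‖rayMap π x‖ ≤ 2 * ‖x‖ := by
  have := lin_bound (ray (π 0)) (ray (π 1)) x (μ := 1) (norm_ray _).le (norm_ray _).le
  simpa [rayMap] using this

end VB

theorem matrix_near (c : ℝ) : ∃ H0 C : ℝ, 0 < H0 ∧ 0 ≤ C ∧
    ∀ (ι : Type) [Fintype ι] (D : ℝ) (x x' g g' : ι → ℝ × ℝ) (t t' er : ι → ℝ)
      (j j' : ι → Fin 3) (h h' : ℝ) (E : Submodule ℝ ((ℝ × ℝ) × (ℝ × ℝ))),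
      0 < D → (∀ w, 0 ≤ t w) → (∀ w, 0 ≤ t' w) →
      (∀ w, ‖x w - t w • ray (j w)‖ ≤ er w) → (∀ w, ‖x' w - t' w • ray (j' w)‖ ≤ er w) →
      (∑ w, er w) / D ≤ c → (∑ w, ‖g w‖) / D ≤ c → (∑ w, ‖g' w‖) / D ≤ c →
      (∀ i, |(∑ w, if j w = i then t w else 0) / D - h| ≤ c) →
      (∀ i, |(∑ w, if j' w = i then t' w else 0) / D - h'| ≤ c) →
      Module.finrank ℝ E ≤ 2 → (∀ w, (x w - g w, x' w - g' w) ∈ E) →
      H0 ≤ h → h ≤ h' →
      ∃ π : Equiv.Perm (Fin 3),
        (∑ w, ‖x' w - (h' / h) • rayMap π (x w)‖) / D ≤ C * (h' / h) := by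
  set c1 : ℝ := 3 * (|c| + 1) with hc1
  have hc1p : 0 < c1 := by positivity
  have hcc : 3 * c ≤ c1 := by
    have := le_abs_self c
    linarith
  refine ⟨100 * c1, 465 * c1, by positivity, by positivity, ?_⟩
  intro ι _ D x x' g g' t t' er j j' h h' E hD ht ht' h1 h2 her hg hg' m m' hE hX hh hh'
  rw [div_le_iff₀ hD] at her hg hg'
  have hs0 : 0 < h := by linarith
  have hs1 : 1 ≤ h' / h := by
    rw [le_div_iff₀ hs0]
    linarith
  have hcD : c * D ≤ c1 * D := by
    apply mul_le_mul_of_nonneg_right _ hD.le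
    rw [hc1]
    linarith [le_abs_self c, abs_nonneg c]
  have hratio : (h' * D) / (h * D) = h' / h := mul_div_mul_right _ _ hD.ne'
  have key := VB.core (X := fun w => x w - g w) (X' := fun w => x' w - g' w) (t := t) (t' := t')
    (δ := fun w => er w + ‖g w‖ + ‖g' w‖) (j := j) (j' := j') (c := c1 * D) (h := h * D)
    (h' := h' * D) E ht ht'
    (by
      intro w
      have e : x w - g w - t w • ray (j w) = (x w - t w • ray (j w)) - g w := by abel
      show ‖x w - g w - t w • ray (j w)‖ ≤ er w + ‖g w‖ + ‖g' w‖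
      rw [e]
      refine (norm_sub_le _ _).trans ?_
      linarith [h1 w, norm_nonneg (g' w)])
    (by
      intro w
      have e : x' w - g' w - t' w • ray (j' w) = (x' w - t' w • ray (j' w)) - g' w := by abel
      show ‖x' w - g' w - t' w • ray (j' w)‖ ≤ er w + ‖g w‖ + ‖g' w‖
      rw [e]
      refine (norm_sub_le _ _).trans ?_
      linarith [h2 w, norm_nonneg (g w)])
    (by
      rw [Finset.sum_add_distrib, Finset.sum_add_distrib]
      have : (3 * c) * D ≤ c1 * D := mul_le_mul_of_nonneg_right hcc hD.le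
      linarith)
    (by positivity)
    (by
      intro i
      have e : (∑ w, if j w = i then t w else 0) - h * D =
          ((∑ w, if j w = i then t w else 0) / D - h) * D := by
        field_simp
      rw [e, abs_mul, abs_of_pos hD]
      exact (mul_le_mul_of_nonneg_right (m i) hD.le).trans hcD)
    (by
      intro i
      have e : (∑ w, if j' w = i then t' w else 0) - h' * D =
          ((∑ w, if j' w = i then t' w else 0) / D - h') * D := by
        field_simp
      rw [e, abs_mul, abs_of_pos hD]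
      exact (mul_le_mul_of_nonneg_right (m' i) hD.le).trans hcD)
    hE hX
    (by
      have := mul_le_mul_of_nonneg_right hh hD.le
      linarith)
    (mul_le_mul_of_nonneg_right hh' hD.le)
  obtain ⟨π, hπ⟩ := key
  rw [hratio] at hπ
  refine ⟨π, ?_⟩
  rw [div_le_iff₀ hD]
  have hterm : ∀ w, ‖x' w - (h' / h) • rayMap π (x w)‖ ≤
      ‖x' w - g' w - (h' / h) • rayMap π (x w - g w)‖ + ‖g' w‖ + (h' / h) * (2 * ‖g w‖) := by
    intro w
    have e : x' w - (h' / h) • rayMap π (x w) =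
        (x' w - g' w - (h' / h) • rayMap π (x w - g w)) + g' w - (h' / h) • rayMap π (g w) := by
      rw [VB.rayMap_sub', smul_sub]
      abel
    rw [e]
    refine (norm_sub_le _ _).trans ?_
    have e2 : ‖(h' / h) • rayMap π (g w)‖ ≤ (h' / h) * (2 * ‖g w‖) := by
      rw [norm_smul, Real.norm_eq_abs, abs_of_pos (by linarith)]
      exact mul_le_mul_of_nonneg_left (VB.rayMap_norm' π (g w)) (by linarith)
    have e3 := norm_add_le (x' w - g' w - (h' / h) • rayMap π (x w - g w)) (g' w)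
    linarith
  calc ∑ w, ‖x' w - (h' / h) • rayMap π (x w)‖ ≤
      ∑ w, (‖x' w - g' w - (h' / h) • rayMap π (x w - g w)‖ + ‖g' w‖ +
        (h' / h) * (2 * ‖g w‖)) := Finset.sum_le_sum fun w _ => hterm w
    _ = ∑ w, ‖x' w - g' w - (h' / h) • rayMap π (x w - g w)‖ + ∑ w, ‖g' w‖ +
        (h' / h) * (2 * ∑ w, ‖g w‖) := by
        rw [Finset.sum_add_distrib, Finset.sum_add_distrib, ← Finset.mul_sum, ← Finset.mul_sum]
    _ ≤ 464 * (c1 * D) * (h' / h) + c * D + (h' / h) * (2 * (c * D)) := by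
        have : (h' / h) * (2 * ∑ w, ‖g w‖) ≤ (h' / h) * (2 * (c * D)) := by
          apply mul_le_mul_of_nonneg_left _ (by linarith)
          linarith
        linarith
    _ ≤ 465 * c1 * (h' / h) * D := by
        have e1 : 0 ≤ c * D := by
          have : 0 ≤ ∑ w, ‖g w‖ := Finset.sum_nonneg fun w _ => norm_nonneg _
          linarith
        have e2 : c * D ≤ (c * D) * (h' / h) := by nlinarith
        have e3 : (3 * c) * D * (h' / h) ≤ c1 * D * (h' / h) := by
          apply mul_le_mul_of_nonneg_right _ (by linarith)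
          exact mul_le_mul_of_nonneg_right hcc hD.le
        nlinarith

end Pool.Agent.L3
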