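import Mathlib
import Pool.Agent.Lib.MP_c95b3b_ag_L3.Defs

/-! Project L3 (MP_c95b3b_ag), module VC: the six symmetries of the tropical line. -/

namespace Pool.Agent.L3

namespace VC

theorem norm_ray (j : Fin 3) : ‖ray j‖ = 1 := by
  fin_cases j <;> simp [ray, Prod.norm_def]

theorem sum_ray (π : Equiv.Perm (Fin 3)) : ray (π 0) + ray (π 1) + ray (π 2) = 0 := by
  have h := Equiv.sum_comp π ray
  rw [Fin.sum_univ_three, Fin.sum_univ_three] at h
  rw [h]
  simp [ray]

theorem rayMap_ray (π : Equiv.Perm (Fin 3)) (j : Fin 3) : rayMap π (ray j) = ray (π j) := by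
  have h := sum_ray π
  fin_cases j
  · simp [rayMap, ray]
  · simp [rayMap, ray]
  · have h2 : ray (π 2) = - ray (π 0) - ray (π 1) := by
      rw [← sub_eq_zero, ← h]
      abel
    simp only [Fin.reduceFinMk, Fin.isValue]
    rw [h2]
    simp [rayMap, ray]

theorem rayMap_lin (π : Equiv.Perm (Fin 3)) (s t : ℝ) (x y : ℝ × ℝ) :
    rayMap π (s • x + t • y) = s • rayMap π x + t • rayMap π y := by
  simp only [rayMap, Prod.fst_add, Prod.snd_add, Prod.smul_fst, Prod.smul_snd, smul_eq_mul]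
  module

theorem eq_ray (x : ℝ × ℝ) : x = (-x.1) • ray 0 + (-x.2) • ray 1 := by
  ext <;> simp [ray]

end VC

theorem rayMap_inv (π : Equiv.Perm (Fin 3)) (x : ℝ × ℝ) : rayMap π⁻¹ (rayMap π x) = x := by
  have h : rayMap π x = (-x.1) • ray (π 0) + (-x.2) • ray (π 1) := by
    simp only [rayMap]
    module
  have h0 : ∀ j, π⁻¹ (π j) = j := fun j => by simp
  rw [h, VC.rayMap_lin, VC.rayMap_ray, VC.rayMap_ray, h0, h0, ← VC.eq_ray]

theorem rayMap_sub (π : Equiv.Perm (Fin 3)) (x y : ℝ × ℝ) :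
    rayMap π (x - y) = rayMap π x - rayMap π y := by
  simp only [rayMap, Prod.fst_sub, Prod.snd_sub]
  module

theorem rayMap_smul (π : Equiv.Perm (Fin 3)) (s : ℝ) (x : ℝ × ℝ) :
    rayMap π (s • x) = s • rayMap π x := by
  simp only [rayMap, Prod.smul_fst, Prod.smul_snd, smul_eq_mul]
  module

theorem rayMap_norm (π : Equiv.Perm (Fin 3)) (x : ℝ × ℝ) : ‖rayMap π x‖ ≤ 2 * ‖x‖ := by
  have h1 : ‖rayMap π x‖ ≤ ‖x.1 • ray (π 0)‖ + ‖x.2 • ray (π 1)‖ := by
    simp only [rayMap]
    refine (norm_sub_le _ _).trans ?_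
    rw [norm_neg]
  rw [norm_smul, norm_smul, VC.norm_ray, VC.norm_ray, mul_one, mul_one] at h1
  have h2 : ‖x.1‖ ≤ ‖x‖ := norm_fst_le x
  have h3 : ‖x.2‖ ≤ ‖x‖ := norm_snd_le x
  linarith

namespace VC

theorem cases_perm (π : Equiv.Perm (Fin 3)) :
    (π 0 = 0 ∧ π 1 = 1) ∨ (π 0 = 1 ∧ π 1 = 0) ∨ (π 0 = 2 ∧ π 1 = 1) ∨ (π 0 = 0 ∧ π 1 = 2) ∨
      (π 0 = 1 ∧ π 1 = 2) ∨ (π 0 = 2 ∧ π 1 = 0) := by
  revert π
  decide

end VC

theorem exists_moebius (π : Equiv.Perm (Fin 3)) : ∃ a b c d : ℤ, a * d - b * c ≠ 0 ∧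
    ∀ (K : Type) [Field K] (R : Subring K) (P : Places K R) (x : K), UU R x →
      (c : K) * x + d ≠ 0 ∧ UU R ((a * x + b) / (c * x + d)) ∧
      ∀ w, P.lv w ((a * x + b) / (c * x + d)) = rayMap π (P.lv w x) := by
  rcases VC.cases_perm π with h | h | h | h | h | h
  · -- x
    refine ⟨1, 0, 0, 1, by norm_num, ?_⟩
    intro K _ R P x hx
    have e : (((1 : ℤ) : K) * x + ((0 : ℤ) : K)) / (((0 : ℤ) : K) * x + ((1 : ℤ) : K)) = x := by
      push_cast
      simp
    rw [e]
    refine ⟨by simp, hx, fun w => ?_⟩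
    simp [rayMap, h.1, h.2, ray, Places.lv]
  · -- 1 - x
    refine ⟨-1, 1, 0, 1, by norm_num, ?_⟩
    intro K _ R P x hx
    have e : (((-1 : ℤ) : K) * x + ((1 : ℤ) : K)) / (((0 : ℤ) : K) * x + ((1 : ℤ) : K)) =
        1 - x := by
      push_cast
      simp
      ring
    rw [e]
    refine ⟨by simp, ?_, fun w => ?_⟩
    · refine ⟨hx.ne1', ?_, hx.mem1, hx.inv1, ?_⟩
      · intro h1
        apply hx.ne0
        linear_combination -h1
      · have : 1 - (1 - x) = x := by ring
        rw [this]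
        exact hx.inv
    · have : 1 - (1 - x) = x := by ring
      simp [rayMap, h.1, h.2, ray, Places.lv, this]
  · -- 1 / x
    refine ⟨0, 1, 1, 0, by norm_num, ?_⟩
    intro K _ R P x hx
    have hx0 := hx.ne0
    have hx1 := hx.ne1'
    have e : (((0 : ℤ) : K) * x + ((1 : ℤ) : K)) / (((1 : ℤ) : K) * x + ((0 : ℤ) : K)) =
        x⁻¹ := by
      push_cast
      simp
    rw [e]
    have e1 : 1 - x⁻¹ = -((1 - x) / x) := by
      field_simp
      ring
    refine ⟨by simpa using hx0, ?_, fun w => ?_⟩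
    · refine ⟨inv_ne_zero hx0, ?_, hx.inv, ?_, ?_⟩
      · intro h1
        exact hx.ne1 (by rw [← inv_inv x, h1, inv_one])
      · rw [inv_inv]
        exact hx.mem
      · have : (1 - x⁻¹)⁻¹ = -(x * (1 - x)⁻¹) := by
          rw [e1, ← neg_inv, inv_div, div_eq_mul_inv]
        rw [this]
        exact R.neg_mem (R.mul_mem hx.mem hx.inv1)
    · have h2 : P.lg w (1 - x⁻¹) = P.lg w (1 - x) - P.lg w x := by
        rw [e1, P.lg_neg, P.lg_div w hx1 hx0]
      simp [rayMap, h.1, h.2, ray, Places.lv, h2, P.lg_inv]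
      ring
  · -- x / (x - 1)
    refine ⟨1, 0, 1, -1, by norm_num, ?_⟩
    intro K _ R P x hx
    have hx0 := hx.ne0
    have hx1 := hx.ne1'
    have hx1' : x - 1 ≠ 0 := sub_ne_zero.mpr hx.ne1
    have e : (((1 : ℤ) : K) * x + ((0 : ℤ) : K)) / (((1 : ℤ) : K) * x + ((-1 : ℤ) : K)) =
        -(x / (1 - x)) := by
      push_cast
      have : (1 : K) * x + (-1) = -(1 - x) := by ring
      rw [this, div_neg]
      simp
    have e1 : 1 - -(x / (1 - x)) = (1 - x)⁻¹ := by
      field_simp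
      ring
    rw [e]
    refine ⟨?_, ?_, fun w => ?_⟩
    · push_cast
      intro h1
      apply hx1'
      linear_combination h1
    · refine ⟨neg_ne_zero.mpr (div_ne_zero hx0 hx1), ?_, ?_, ?_, ?_⟩
      · intro h1
        have := e1
        rw [h1, sub_self] at this
        exact inv_ne_zero hx1 this.symm
      · rw [div_eq_mul_inv]
        exact R.neg_mem (R.mul_mem hx.mem hx.inv1)
      · rw [← neg_inv, inv_div, div_eq_mul_inv]
        exact R.neg_mem (R.mul_mem hx.mem1 hx.inv)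
      · rw [e1, inv_inv]
        exact hx.mem1
    · have h2 : P.lg w (-(x / (1 - x))) = P.lg w x - P.lg w (1 - x) := by
        rw [P.lg_neg, P.lg_div w hx0 hx1]
      simp [rayMap, h.1, h.2, ray, Places.lv, h2, P.lg_inv, e1]
  · -- 1 / (1 - x)
    refine ⟨0, 1, -1, 1, by norm_num, ?_⟩
    intro K _ R P x hx
    have hx0 := hx.ne0
    have hx1 := hx.ne1'
    have e : (((0 : ℤ) : K) * x + ((1 : ℤ) : K)) / (((-1 : ℤ) : K) * x + ((1 : ℤ) : K)) =
        (1 - x)⁻¹ := by
      push_cast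
      have : (-1 : K) * x + 1 = 1 - x := by ring
      rw [this]
      simp
    have e1 : 1 - (1 - x)⁻¹ = -(x / (1 - x)) := by
      field_simp
      ring
    rw [e]
    refine ⟨?_, ?_, fun w => ?_⟩
    · push_cast
      intro h1
      apply hx1
      linear_combination h1
    · refine ⟨inv_ne_zero hx1, ?_, hx.inv1, ?_, ?_⟩
      · intro h1
        have := e1
        rw [h1, sub_self] at this
        exact neg_ne_zero.mpr (div_ne_zero hx0 hx1) this.symm
      · rw [inv_inv]
        exact hx.mem1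
      · rw [e1, ← neg_inv, inv_div, div_eq_mul_inv]
        exact R.neg_mem (R.mul_mem hx.mem1 hx.inv)
    · have h2 : P.lg w (-(x / (1 - x))) = P.lg w x - P.lg w (1 - x) := by
        rw [P.lg_neg, P.lg_div w hx0 hx1]
      simp [rayMap, h.1, h.2, ray, Places.lv, h2, P.lg_inv, e1]
  · -- (x - 1) / x
    refine ⟨1, -1, 1, 0, by norm_num, ?_⟩
    intro K _ R P x hx
    have hx0 := hx.ne0
    have hx1 := hx.ne1'
    have e : (((1 : ℤ) : K) * x + ((-1 : ℤ) : K)) / (((1 : ℤ) : K) * x + ((0 : ℤ) : K)) =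
        -((1 - x) / x) := by
      push_cast
      have : (1 : K) * x + (-1) = -(1 - x) := by ring
      rw [this, neg_div]
      simp
    have e1 : 1 - -((1 - x) / x) = x⁻¹ := by
      field_simp
      ring
    rw [e]
    refine ⟨by simpa using hx0, ?_, fun w => ?_⟩
    · refine ⟨neg_ne_zero.mpr (div_ne_zero hx1 hx0), ?_, ?_, ?_, ?_⟩
      · intro h1
        have := e1
        rw [h1, sub_self] at this
        exact inv_ne_zero hx0 this.symm
      · rw [div_eq_mul_inv]
        exact R.neg_mem (R.mul_mem hx.mem1 hx.inv)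
      · rw [← neg_inv, inv_div, div_eq_mul_inv]
        exact R.neg_mem (R.mul_mem hx.mem hx.inv1)
      · rw [e1, inv_inv]
        exact hx.mem
    · have h2 : P.lg w (-((1 - x) / x)) = P.lg w (1 - x) - P.lg w x := by
        rw [P.lg_neg, P.lg_div w hx1 hx0]
      simp [rayMap, h.1, h.2, ray, Places.lv, h2, P.lg_inv, e1]
      ring

namespace VC

open MvPolynomial

/-- `(c Y + d)^n Q(X, (a Y + b) / (c Y + d))` -/
noncomputable def trans (a b c d : ℤ) (Q : MvPolynomial (Fin 2) ℤ) : MvPolynomial (Fin 2) ℤ :=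
  ∑ m ∈ Q.support, C (coeff m Q) * X 0 ^ m 0 * (C a * X 1 + C b) ^ m 1 *
    (C c * X 1 + C d) ^ (degreeOf 1 Q - m 1)

theorem aeval_trans (a b c d : ℤ) (Q : MvPolynomial (Fin 2) ℤ) {K : Type} [Field K] (x y : K)
    (h : (c : K) * y + d ≠ 0) :
    aeval ![x, y] (trans a b c d Q) =
      ((c : K) * y + d) ^ (degreeOf 1 Q) * aeval ![x, (a * y + b) / (c * y + d)] Q := by
  have hQ : aeval ![x, ((a : K) * y + b) / (c * y + d)] Q =
      ∑ m ∈ Q.support, aeval ![x, ((a : K) * y + b) / (c * y + d)] (monomial m (coeff m Q)) := by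
    conv_lhs => rw [Q.as_sum]
    rw [map_sum]
  rw [hQ, trans, map_sum, Finset.mul_sum]
  refine Finset.sum_congr rfl fun m hm => ?_
  have hle : m 1 ≤ degreeOf 1 Q := by
    rw [degreeOf_eq_sup]
    exact Finset.le_sup (f := fun m : Fin 2 →₀ ℕ => m 1) hm
  have hsplit : ((c : K) * y + d) ^ (degreeOf 1 Q) =
      ((c : K) * y + d) ^ (degreeOf 1 Q - m 1) * ((c : K) * y + d) ^ (m 1) := by
    rw [← pow_add, Nat.sub_add_cancel hle]
  rw [aeval_monomial, Finsupp.prod_fintype _ _ (by simp), Fin.prod_univ_two]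
  simp only [map_mul, map_pow, map_add, aeval_X, Matrix.cons_val_zero,
    Matrix.cons_val_one, algebraMap_int_eq, eq_intCast, map_intCast]
  have hpow : ((c : K) * y + d) ^ (m 1) ≠ 0 := pow_ne_zero _ h
  rw [hsplit, div_pow, mul_comm (((c : K) * y + d) ^ (degreeOf 1 Q - m 1))]
  generalize ((c : K) * y + d) ^ (m 1) = u at hpow
  generalize ((c : K) * y + d) ^ (degreeOf 1 Q - m 1) = t
  field_simp

theorem infinite_moebius (a b c d : ℤ) (h : a * d - b * c ≠ 0) :
    {z : ℚ | ∃ y : ℚ, (c : ℚ) * y + d ≠ 0 ∧ z = (a * y + b) / (c * y + d)}.Infinite := by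
  have h' : (a : ℚ) * d - b * c ≠ 0 := by exact_mod_cast h
  have hfin : {y : ℚ | (c : ℚ) * y + d = 0}.Finite := by
    refine Set.Subsingleton.finite ?_
    intro y hy z hz
    simp only [Set.mem_ofPred_eq] at hy hz
    by_contra hne
    have hc : (c : ℚ) = 0 := by
      have : (c : ℚ) * (y - z) = 0 := by linear_combination hy - hz
      rcases mul_eq_zero.mp this with h1 | h1
      · exact h1
      · exact absurd (sub_eq_zero.mp h1) hne
    have hd : (d : ℚ) = 0 := by
      rw [hc] at hy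
      simpa using hy
    exact h' (by rw [hc, hd]; ring)
  have hinf : {y : ℚ | (c : ℚ) * y + d ≠ 0}.Infinite := by
    have := hfin.infinite_compl
    exact this
  have hinj : Set.InjOn (fun y : ℚ => ((a : ℚ) * y + b) / (c * y + d))
      {y : ℚ | (c : ℚ) * y + d ≠ 0} := by
    intro y hy z hz hyz
    simp only [Set.mem_ofPred_eq] at hy hz hyz
    rw [div_eq_div_iff hy hz] at hyz
    have : ((a : ℚ) * d - b * c) * (y - z) = 0 := by linear_combination hyz
    rcases mul_eq_zero.mp this with h1 | h1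
    · exact absurd h1 h'
    · exact sub_eq_zero.mp h1
  refine (hinf.image hinj).mono ?_
  rintro z ⟨y, hy, rfl⟩
  exact ⟨y, hy, rfl⟩

end VC

theorem moebius_poly (a b c d : ℤ) (h : a * d - b * c ≠ 0) (Q : MvPolynomial (Fin 2) ℤ)
    (hQ : Q ≠ 0) : ∃ Q' : MvPolynomial (Fin 2) ℤ, Q' ≠ 0 ∧
      ∀ (K : Type) [Field K] [CharZero K] (x y : K), (c : K) * y + d ≠ 0 →
        MvPolynomial.aeval ![x, (a * y + b) / (c * y + d)] Q = 0 →
        MvPolynomial.aeval ![x, y] Q' = 0 := by
  refine ⟨VC.trans a b c d Q, ?_, ?_⟩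
  · intro h0
    apply hQ
    have hinj : Function.Injective (MvPolynomial.map (σ := Fin 2) (Int.castRingHom ℚ)) :=
      MvPolynomial.map_injective _ (RingHom.injective_int _)
    apply hinj
    rw [map_zero]
    refine MvPolynomial.funext_set
      (s := ![Set.univ, {z : ℚ | ∃ y : ℚ, (c : ℚ) * y + d ≠ 0 ∧ z = (a * y + b) / (c * y + d)}])
      ?_ ?_
    · intro i
      fin_cases i
      · simpa using Set.infinite_univ
      · simpa using VC.infinite_moebius a b c d h
    · intro x hx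
      have hx1 := hx 1 (Set.mem_univ _)
      simp only [Matrix.cons_val_one] at hx1
      obtain ⟨y, hy, hxy⟩ := hx1
      have hval := VC.aeval_trans a b c d Q (x 0) y hy
      rw [h0, map_zero] at hval
      have hz : MvPolynomial.aeval ![x 0, ((a : ℚ) * y + b) / (c * y + d)] Q = 0 := by
        rcases mul_eq_zero.mp hval.symm with h1 | h1
        · exact absurd h1 (pow_ne_zero _ hy)
        · exact h1
      have hx' : x = ![x 0, ((a : ℚ) * y + b) / (c * y + d)] := by
        ext i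
        fin_cases i
        · rfl
        · simpa using hxy
      rw [MvPolynomial.eval_map, map_zero]
      rw [MvPolynomial.aeval_def] at hz
      rw [hx']
      exact hz
  · intro K _ _ x y hy hz
    rw [VC.aeval_trans a b c d Q x y hy, hz, mul_zero]

end Pool.Agent.L3
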