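import Mathlib
import Pool.Agent.Lib.MP_c95b3b_ag_L3.Defs

/-! Project L3, module VD: the auxiliary polynomial (Siegel's lemma). -/

namespace Pool.Agent.L3

namespace VD

/-- the pairs `(b, a)` with `a + s b < 80 s` -/
noncomputable def E (s : ℝ) : Finset (Σ _ : ℕ, ℕ) :=
  (Finset.range 80).sigma (fun b => Finset.range ⌈s * (80 - b)⌉₊)

theorem mem_E {s : ℝ} (hs : 1 ≤ s) {a b : ℕ} : (⟨b, a⟩ : Σ _ : ℕ, ℕ) ∈ E s ↔
    (a : ℝ) + s * b < 80 * s := by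
  unfold E
  rw [Finset.mem_sigma, Finset.mem_range, Finset.mem_range, Nat.lt_ceil]
  constructor
  · rintro ⟨-, h⟩
    linarith
  · intro h
    have hb : (b : ℝ) < 80 := by
      by_contra hc
      push Not at hc
      have h1 : s * 80 ≤ s * b := mul_le_mul_of_nonneg_left hc (by linarith)
      have h2 : (0 : ℝ) ≤ a := Nat.cast_nonneg a
      linarith
    refine ⟨by exact_mod_cast hb, by linarith⟩

theorem card_E {s : ℝ} (hs : 1 ≤ s) : ((E s).card : ℝ) ≤ 3240 * s + 80 := by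
  unfold E
  rw [Finset.card_sigma]
  push_cast
  have h1 : ∀ b ∈ Finset.range 80, ((Finset.range ⌈s * (80 - (b : ℝ))⌉₊).card : ℝ) ≤
      s * (80 - b) + 1 := by
    intro b hb
    rw [Finset.card_range]
    have hb' : (b : ℝ) ≤ 80 := by
      have := Finset.mem_range.1 hb
      exact_mod_cast this.le
    have h0 : 0 ≤ s * (80 - (b : ℝ)) := mul_nonneg (by linarith) (by linarith)
    exact (Nat.ceil_lt_add_one h0).le
  refine (Finset.sum_le_sum h1).trans ?_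
  rw [Finset.sum_add_distrib, ← Finset.mul_sum, Finset.sum_sub_distrib]
  have h2 : ∑ b ∈ Finset.range 80, (b : ℝ) = 3160 := by
    norm_num [Finset.sum_range_succ]
  rw [h2]
  simp only [Finset.sum_const, Finset.card_range, nsmul_eq_mul]
  push_cast
  linarith

theorem exists_E {s : ℝ} (hs : 1 ≤ s) : ∃ E : Finset (Σ _ : ℕ, ℕ),
    (∀ a b : ℕ, (⟨b, a⟩ : Σ _ : ℕ, ℕ) ∈ E ↔ (a : ℝ) + s * b < 80 * s) ∧
      (E.card : ℝ) ≤ 3240 * s + 80 :=
  ⟨E s, fun _ _ => mem_E hs, card_E hs⟩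

/-- the matrix of the linear system -/
def mat (n m : ℕ) (E : Finset (Σ _ : ℕ, ℕ)) :
    Matrix (Fin 3 × {x // x ∈ E}) (Fin (n + 1) × Fin (m + 1)) ℤ :=
  fun r j =>
    if r.1 = 0 then (if (j.1 : ℕ) = r.2.1.2 ∧ (j.2 : ℕ) = r.2.1.1 then 1 else 0)
    else if r.1 = 1 then (if (j.1 : ℕ) + r.2.1.2 = n ∧ (j.2 : ℕ) + r.2.1.1 = m then 1 else 0)
    else ((j.1 : ℕ).choose r.2.1.2 : ℤ) * ((j.2 : ℕ).choose r.2.1.1 : ℤ)

theorem mat_le (n m : ℕ) (E : Finset (Σ _ : ℕ, ℕ)) (r : Fin 3 × {x // x ∈ E})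
    (j : Fin (n + 1) × Fin (m + 1)) : |mat n m E r j| ≤ 2 ^ (n + m) := by
  have h1 : (1 : ℤ) ≤ 2 ^ (n + m) := one_le_pow₀ (by norm_num)
  unfold mat
  split_ifs
  · simpa using h1
  · simp
  · simpa using h1
  · simp
  · have h2 : (((j.1 : ℕ).choose r.2.1.2 : ℕ) : ℤ) ≤ 2 ^ n := by
      have : (j.1 : ℕ).choose r.2.1.2 ≤ 2 ^ n :=
        (Nat.choose_le_two_pow _ _).trans (Nat.pow_le_pow_right (by norm_num) (by omega))
      exact_mod_cast this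
    have h3 : (((j.2 : ℕ).choose r.2.1.1 : ℕ) : ℤ) ≤ 2 ^ m := by
      have : (j.2 : ℕ).choose r.2.1.1 ≤ 2 ^ m :=
        (Nat.choose_le_two_pow _ _).trans (Nat.pow_le_pow_right (by norm_num) (by omega))
      exact_mod_cast this
    rw [abs_of_nonneg (by positivity), pow_add]
    exact mul_le_mul h2 h3 (by positivity) (by positivity)

attribute [local instance] Matrix.seminormedAddCommGroup in
theorem siegel (n m : ℕ) (E : Finset (Σ _ : ℕ, ℕ)) (hpos : 0 < E.card)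
    (hcard : 43 * (3 * (E.card : ℝ)) ≤ 42 * (((n : ℝ) + 1) * (m + 1))) :
    ∃ t : Fin (n + 1) × Fin (m + 1) → ℤ, t ≠ 0 ∧ (mat n m E).mulVec t = 0 ∧
      ∀ j, |(t j : ℝ)| ≤ (((n : ℝ) + 1) * (m + 1) * 2 ^ (n + m)) ^ (42 : ℝ) := by
  have hcα : Fintype.card (Fin 3 × {x // x ∈ E}) = 3 * E.card := by
    rw [Fintype.card_prod, Fintype.card_fin, Fintype.card_coe]
  have hcβ : Fintype.card (Fin (n + 1) × Fin (m + 1)) = (n + 1) * (m + 1) := by
    rw [Fintype.card_prod, Fintype.card_fin, Fintype.card_fin]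
  have hposR : (0 : ℝ) < E.card := by exact_mod_cast hpos
  have hltR : (3 * (E.card : ℝ)) < ((n : ℝ) + 1) * (m + 1) := by
    nlinarith
  have hlt : Fintype.card (Fin 3 × {x // x ∈ E}) <
      Fintype.card (Fin (n + 1) × Fin (m + 1)) := by
    rw [hcα, hcβ]
    exact_mod_cast hltR
  obtain ⟨t, ht0, hAt, ht⟩ := Int.Matrix.exists_ne_zero_int_vec_norm_le (mat n m E) hlt
    (by rw [hcα]; omega)
  refine ⟨t, ht0, hAt, fun j => ?_⟩
  have hA : ‖mat n m E‖ ≤ 2 ^ (n + m) := by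
    rw [Matrix.norm_le_iff (by positivity)]
    intro r j
    rw [Int.norm_eq_abs, ← Int.cast_abs]
    exact_mod_cast mat_le n m E r j
  have h1 : |(t j : ℝ)| ≤ ‖t‖ := by
    have := norm_le_pi_norm t j
    rwa [Int.norm_eq_abs] at this
  refine h1.trans (ht.trans ?_)
  rw [hcα, hcβ]
  push_cast
  have hn0 : (0 : ℝ) ≤ n := Nat.cast_nonneg n
  have hm0 : (0 : ℝ) ≤ m := Nat.cast_nonneg m
  have e1 : (1 : ℝ) ≤ 2 ^ (n + m) := one_le_pow₀ (by norm_num)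
  have hX : (1 : ℝ) ≤ ((n : ℝ) + 1) * (m + 1) * 2 ^ (n + m) := by
    have e2 : (1 : ℝ) ≤ ((n : ℝ) + 1) * (m + 1) := by nlinarith
    nlinarith
  have hmax : max 1 ‖mat n m E‖ ≤ 2 ^ (n + m) := max_le e1 hA
  have hbase : ((n : ℝ) + 1) * (m + 1) * max 1 ‖mat n m E‖ ≤
      ((n : ℝ) + 1) * (m + 1) * 2 ^ (n + m) :=
    mul_le_mul_of_nonneg_left hmax (by positivity)
  have hexp : (3 * (E.card : ℝ)) / (((n : ℝ) + 1) * (m + 1) - 3 * E.card) ≤ 42 := by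
    rw [div_le_iff₀ (by linarith)]
    linarith
  have hexp0 : 0 ≤ (3 * (E.card : ℝ)) / (((n : ℝ) + 1) * (m + 1) - 3 * E.card) :=
    div_nonneg (by positivity) (by linarith)
  refine (Real.rpow_le_rpow (by positivity) hbase hexp0).trans ?_
  exact Real.rpow_le_rpow_of_exponent_le hX hexp

theorem bound (n m : ℕ) (s : ℝ) (h1 : (n : ℝ) ≤ 101 * s) (h2 : (m : ℝ) ≤ 100 * s) :
    (((n : ℝ) + 1) * (m + 1) * 2 ^ (n + m)) ^ (42 : ℝ) ≤ Real.exp (42 * 403 * s) := by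
  have hs : 0 ≤ s := by
    have := Nat.cast_nonneg (α := ℝ) m
    linarith
  have e1 : (n : ℝ) + 1 ≤ Real.exp (101 * s) :=
    (Real.add_one_le_exp (n : ℝ)).trans (Real.exp_le_exp.2 (by linarith))
  have e2 : (m : ℝ) + 1 ≤ Real.exp (101 * s) :=
    (Real.add_one_le_exp (m : ℝ)).trans (Real.exp_le_exp.2 (by linarith))
  have e3 : (2 : ℝ) ^ (n + m) ≤ Real.exp (201 * s) := by
    have h2 : (2 : ℝ) ≤ Real.exp 1 := by
      have := Real.add_one_le_exp (1 : ℝ)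
      linarith
    calc (2 : ℝ) ^ (n + m) ≤ (Real.exp 1) ^ (n + m) :=
          pow_le_pow_left₀ (by norm_num) h2 _
      _ = Real.exp ((n : ℝ) + m) := by
          rw [← Real.exp_nat_mul]
          push_cast
          rw [mul_one]
      _ ≤ Real.exp (201 * s) := Real.exp_le_exp.2 (by linarith)
  have e4 : ((n : ℝ) + 1) * (m + 1) * 2 ^ (n + m) ≤ Real.exp (403 * s) := by
    have : Real.exp (403 * s) = Real.exp (101 * s) * Real.exp (101 * s) *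
        Real.exp (201 * s) := by
      rw [← Real.exp_add, ← Real.exp_add]
      congr 1
      ring
    rw [this]
    exact mul_le_mul (mul_le_mul e1 e2 (by positivity) (by positivity)) e3 (by positivity)
      (by positivity)
  calc (((n : ℝ) + 1) * (m + 1) * 2 ^ (n + m)) ^ (42 : ℝ)
      ≤ (Real.exp (403 * s)) ^ (42 : ℝ) :=
        Real.rpow_le_rpow (by positivity) e4 (by norm_num)
    _ = Real.exp (42 * 403 * s) := by
        rw [← Real.exp_mul]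
        congr 1
        ring

/-- the solution of the linear system as a function on all pairs -/
def ext (n m : ℕ) (t : Fin (n + 1) × Fin (m + 1) → ℤ) (i k : ℕ) : ℤ :=
  if h : i < n + 1 ∧ k < m + 1 then t (⟨i, h.1⟩, ⟨k, h.2⟩) else 0

theorem ext_pos {n m : ℕ} (t : Fin (n + 1) × Fin (m + 1) → ℤ) {i k : ℕ}
    (h : i < n + 1 ∧ k < m + 1) : ext n m t i k = t (⟨i, h.1⟩, ⟨k, h.2⟩) := by
  unfold ext
  rw [dif_pos h]

theorem ext_neg {n m : ℕ} (t : Fin (n + 1) × Fin (m + 1) → ℤ) {i k : ℕ}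
    (h : ¬ (i < n + 1 ∧ k < m + 1)) : ext n m t i k = 0 := by
  unfold ext
  rw [dif_neg h]

theorem ext_coe {n m : ℕ} (t : Fin (n + 1) × Fin (m + 1) → ℤ) (i : Fin (n + 1))
    (k : Fin (m + 1)) : ext n m t i k = t (i, k) := ext_pos t ⟨i.2, k.2⟩

theorem row_zero {n m : ℕ} {E : Finset (Σ _ : ℕ, ℕ)} (t : Fin (n + 1) × Fin (m + 1) → ℤ)
    (hrow : ∀ r, ∑ j, mat n m E r j * t j = 0) (i k : ℕ) (h : (⟨k, i⟩ : Σ _ : ℕ, ℕ) ∈ E) :
    ext n m t i k = 0 := by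
  by_cases hik : i < n + 1 ∧ k < m + 1
  · have h1 := hrow (0, ⟨⟨k, i⟩, h⟩)
    rw [Finset.sum_eq_single (⟨⟨i, hik.1⟩, ⟨k, hik.2⟩⟩ : Fin (n + 1) × Fin (m + 1))] at h1
    · rw [ext_pos t hik]
      simpa [mat] using h1
    · rintro ⟨b1, b2⟩ - hb
      have : ¬ ((b1 : ℕ) = i ∧ (b2 : ℕ) = k) := by
        rintro ⟨e1, e2⟩
        exact hb (Prod.ext (Fin.ext e1) (Fin.ext e2))
      simp [mat, this]
    · intro hc
      exact absurd (Finset.mem_univ _) hc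
  · exact ext_neg t hik

theorem row_inf {n m : ℕ} {E : Finset (Σ _ : ℕ, ℕ)} (t : Fin (n + 1) × Fin (m + 1) → ℤ)
    (hrow : ∀ r, ∑ j, mat n m E r j * t j = 0) (i k : ℕ) (hi : i ≤ n) (hk : k ≤ m)
    (h : (⟨m - k, n - i⟩ : Σ _ : ℕ, ℕ) ∈ E) : ext n m t i k = 0 := by
  have hik : i < n + 1 ∧ k < m + 1 := ⟨by omega, by omega⟩
  have h1 := hrow (1, ⟨⟨m - k, n - i⟩, h⟩)
  rw [Finset.sum_eq_single (⟨⟨i, hik.1⟩, ⟨k, hik.2⟩⟩ : Fin (n + 1) × Fin (m + 1))] at h1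
  · rw [ext_pos t hik]
    have e1 : i + (n - i) = n := by omega
    have e2 : k + (m - k) = m := by omega
    simpa [mat, e1, e2] using h1
  · rintro ⟨b1, b2⟩ - hb
    have : ¬ ((b1 : ℕ) + (n - i) = n ∧ (b2 : ℕ) + (m - k) = m) := by
      rintro ⟨e1, e2⟩
      refine hb (Prod.ext (Fin.ext ?_) (Fin.ext ?_))
      · show (b1 : ℕ) = i
        omega
      · show (b2 : ℕ) = k
        omega
    simp [mat, this]
  · intro hc
    exact absurd (Finset.mem_univ _) hc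

theorem row_one {n m : ℕ} {E : Finset (Σ _ : ℕ, ℕ)} (t : Fin (n + 1) × Fin (m + 1) → ℤ)
    (hrow : ∀ r, ∑ j, mat n m E r j * t j = 0) (α β : ℕ) (h : (⟨β, α⟩ : Σ _ : ℕ, ℕ) ∈ E) :
    ∑ i ∈ Finset.range (n + 1), ∑ k ∈ Finset.range (m + 1),
      ext n m t i k * (i.choose α) * (k.choose β) = 0 := by
  have h1 := hrow (2, ⟨⟨β, α⟩, h⟩)
  rw [Fintype.sum_prod_type] at h1
  rw [Finset.sum_range, ← h1]
  refine Finset.sum_congr rfl fun i _ => ?_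
  rw [Finset.sum_range]
  refine Finset.sum_congr rfl fun k _ => ?_
  rw [ext_coe]
  simp only [mat]
  rw [if_neg (by decide), if_neg (by decide)]
  ring

theorem main (m : ℕ) (hm : m = 100) (s : ℝ) (hs : 1 ≤ s) : ∃ q : ℕ → ℕ → ℤ,
    (∃ i k, i ≤ ⌈100 * s⌉₊ ∧ k ≤ m ∧ q i k ≠ 0) ∧
    (∀ i k, |(q i k : ℝ)| ≤ Real.exp (42 * 403 * s)) ∧
    (∀ i k : ℕ, (i : ℝ) + s * k < 80 * s → q i k = 0) ∧
    (∀ i k : ℕ, i ≤ ⌈100 * s⌉₊ → k ≤ m →
      ((⌈100 * s⌉₊ : ℝ) - i) + s * (m - k) < 80 * s → q i k = 0) ∧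
    (∀ α β : ℕ, (α : ℝ) + s * β < 80 * s →
      ∑ i ∈ Finset.range (⌈100 * s⌉₊ + 1), ∑ k ∈ Finset.range (m + 1),
        q i k * (i.choose α) * (k.choose β) = 0) := by
  obtain ⟨n, hn⟩ : ∃ n : ℕ, n = ⌈100 * s⌉₊ := ⟨_, rfl⟩
  rw [← hn]
  have hnle : 100 * s ≤ n := hn ▸ Nat.le_ceil _
  have hnlt : (n : ℝ) < 100 * s + 1 := hn ▸ Nat.ceil_lt_add_one (by linarith)
  have hmR : (m : ℝ) = 100 := by
    rw [hm]
    norm_num
  obtain ⟨E, hmem, hE⟩ := exists_E hs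
  have hpos : 0 < E.card := by
    refine Finset.card_pos.2 ⟨⟨0, 0⟩, (hmem 0 0).2 ?_⟩
    push_cast
    linarith
  obtain ⟨t, ht0, hAt, ht⟩ := siegel n m E hpos (by
    rw [hmR]
    have h1 : (10100 * s + 101) ≤ ((n : ℝ) + 1) * (100 + 1) := by linarith
    linarith)
  obtain ⟨j, hj⟩ := Function.ne_iff.1 ht0
  have hrow : ∀ r, ∑ j, mat n m E r j * t j = 0 := fun r => congrFun hAt r
  have hb := bound n m s (by linarith) (by rw [hmR]; linarith)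
  refine ⟨ext n m t, ⟨j.1, j.2, by omega, by omega, ?_⟩, ?_, ?_, ?_, ?_⟩
  · rw [ext_coe]
    exact hj
  · intro i k
    by_cases h : i < n + 1 ∧ k < m + 1
    · rw [ext_pos t h]
      exact (ht _).trans hb
    · rw [ext_neg t h]
      simp only [Int.cast_zero, abs_zero]
      exact (Real.exp_pos _).le
  · intro i k hik
    exact row_zero t hrow i k ((hmem i k).2 hik)
  · intro i k hi hk hik
    refine row_inf t hrow i k hi hk ((hmem _ _).2 ?_)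
    rw [Nat.cast_sub hi, Nat.cast_sub hk]
    exact hik
  · intro α β hαβ
    exact row_one t hrow α β ((hmem α β).2 hαβ)

end VD

theorem exists_aux : ∃ C : ℝ, ∀ s : ℝ, 1 ≤ s → ∃ q : ℕ → ℕ → ℤ,
    (∃ i k, i ≤ ⌈100 * s⌉₊ ∧ k ≤ 100 ∧ q i k ≠ 0) ∧
    (∀ i k, |(q i k : ℝ)| ≤ Real.exp (C * s)) ∧ Van s ⌈100 * s⌉₊ (80 * s) q := by
  refine ⟨42 * 403, fun s hs => ?_⟩
  obtain ⟨m, hm⟩ : ∃ m : ℕ, m = 100 := ⟨_, rfl⟩
  obtain ⟨q, h1, h2, h3, h4, h5⟩ := VD.main m hm s hs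
  have hmR : (m : ℝ) = 100 := by
    rw [hm]
    norm_num
  have hm1 : m + 1 = 101 := by rw [hm]
  rw [hmR] at h4
  rw [hm1] at h5
  refine ⟨q, ?_, h2, ⟨h3, ?_, h5⟩⟩
  · obtain ⟨i, k, e1, e2, e3⟩ := h1
    exact ⟨i, k, e1, hm ▸ e2, e3⟩
  · intro i k hi hk hik
    exact h4 i k hi (hm.symm ▸ hk) hik

end Pool.Agent.L3
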