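import Pool.Agent.Lib.MP_c95b3b_ag_L3.Defs

/-! Project L3 (MP_c95b3b_ag), module VE: the product formula for the auxiliary polynomial. -/

namespace Pool.Agent.L3

namespace VE

section
variable {K : Type} [Field K] {R : Subring K} (P : Places K R)

/-- bound of the value of a polynomial at one place -/
theorem lg_val_le (w : P.Pl) (n : ℕ) (z : ℕ → ℕ → ℤ) {X Y : K} (hX : X ≠ 0) (hY : Y ≠ 0)
    (E Z : ℝ) (hZ0 : 0 < Z) (hZ : ∀ i k, |(z i k : ℝ)| ≤ Z)
    (hE : ∀ i k : ℕ, i ≤ n → k ≤ 100 → z i k ≠ 0 → i * P.lg w X + k * P.lg w Y ≤ E)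
    (hne : val n z X Y ≠ 0) :
    P.lg w (val n z X Y) ≤ E + P.arch w * Real.log (101 * (n + 1) * Z) := by
  rcases w with l | l
  · rw [P.arch_inl, one_mul, P.lg_inl]
    have hσX : 0 < ‖P.σ l X‖ := by simpa using hX
    have hσY : 0 < ‖P.σ l Y‖ := by simpa using hY
    have hterm : ∀ i ∈ Finset.range (n + 1), ∀ k ∈ Finset.range 101,
        ‖P.σ l ((z i k : K) * X ^ i * Y ^ k)‖ ≤ Z * Real.exp E := by
      intro i hi k hk
      rw [Finset.mem_range] at hi hk
      by_cases h0 : z i k = 0
      · rw [h0]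
        simp only [Int.cast_zero, zero_mul, map_zero, norm_zero]
        positivity
      · have h1 := hE i k (by omega) (by omega) h0
        rw [P.lg_inl, P.lg_inl] at h1
        rw [map_mul, map_mul, map_pow, map_pow, map_intCast, norm_mul, norm_mul, norm_pow,
          norm_pow, mul_assoc]
        refine mul_le_mul ?_ ?_ (by positivity) hZ0.le
        · have := hZ i k
          simpa using this
        · have h2 : ‖P.σ l X‖ ^ i * ‖P.σ l Y‖ ^ k =
              Real.exp (i * Real.log ‖P.σ l X‖ + k * Real.log ‖P.σ l Y‖) := by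
            rw [Real.exp_add, mul_comm (i : ℝ), mul_comm (k : ℝ), Real.exp_mul, Real.exp_mul,
              Real.exp_log hσX, Real.exp_log hσY, Real.rpow_natCast, Real.rpow_natCast]
          rw [h2]
          exact Real.exp_le_exp.2 h1
    have h3 : ‖P.σ l (val n z X Y)‖ ≤ 101 * (n + 1) * Z * Real.exp E := by
      rw [val, map_sum]
      refine (norm_sum_le _ _).trans ?_
      have h4 : ∀ i ∈ Finset.range (n + 1),
          ‖P.σ l (∑ k ∈ Finset.range 101, (z i k : K) * X ^ i * Y ^ k)‖ ≤
            101 * (Z * Real.exp E) := by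
        intro i hi
        rw [map_sum]
        refine (norm_sum_le _ _).trans ?_
        refine (Finset.sum_le_sum fun k hk => hterm i hi k hk).trans ?_
        simp
      refine (Finset.sum_le_sum h4).trans ?_
      rw [Finset.sum_const, Finset.card_range, nsmul_eq_mul]
      push_cast
      apply le_of_eq
      ring
    have h5 : 0 < ‖P.σ l (val n z X Y)‖ := by simpa using hne
    have h6 : 0 < 101 * ((n : ℝ) + 1) * Z := by positivity
    calc Real.log ‖P.σ l (val n z X Y)‖ ≤ Real.log (101 * (n + 1) * Z * Real.exp E) :=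
          Real.log_le_log h5 h3
      _ = E + Real.log (101 * (n + 1) * Z) := by
          rw [Real.log_mul h6.ne' (Real.exp_pos E).ne', Real.log_exp]
          ring
  · rw [P.arch_inr, zero_mul, add_zero, P.lg_inr]
    have hvX : 0 < P.v l X := (P.v l).pos hX
    have hvY : 0 < P.v l Y := (P.v l).pos hY
    have h3 : P.v l (val n z X Y) ≤ Real.exp E := by
      rw [val]
      refine P.v_sum_le l _ _ (Real.exp_pos E).le fun i hi => ?_
      refine P.v_sum_le l _ _ (Real.exp_pos E).le fun k hk => ?_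
      rw [Finset.mem_range] at hi hk
      by_cases h0 : z i k = 0
      · rw [h0]
        simp only [Int.cast_zero, zero_mul, map_zero]
        positivity
      · have h1 := hE i k (by omega) (by omega) h0
        rw [P.lg_inr, P.lg_inr] at h1
        rw [map_mul, map_mul, map_pow, map_pow, mul_assoc]
        have h2 : P.v l X ^ i * P.v l Y ^ k =
            Real.exp (i * Real.log (P.v l X) + k * Real.log (P.v l Y)) := by
          rw [Real.exp_add, mul_comm (i : ℝ), mul_comm (k : ℝ), Real.exp_mul, Real.exp_mul,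
            Real.exp_log hvX, Real.exp_log hvY, Real.rpow_natCast, Real.rpow_natCast]
        rw [h2]
        calc P.v l (z i k : K) * Real.exp (i * Real.log (P.v l X) + k * Real.log (P.v l Y))
            ≤ 1 * Real.exp E := by
              refine mul_le_mul (P.v_int l _) (Real.exp_le_exp.2 h1) (Real.exp_pos _).le
                zero_le_one
          _ = Real.exp E := one_mul _
    have h5 : 0 < P.v l (val n z X Y) := (P.v l).pos hne
    calc Real.log (P.v l (val n z X Y)) ≤ Real.log (Real.exp E) := Real.log_le_log h5 h3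
      _ = E := Real.log_exp E

end

/-- coefficients of the expansion around `(1, 1)` -/
def shift (n : ℕ) (q : ℕ → ℕ → ℤ) (α β : ℕ) : ℤ :=
  ∑ i ∈ Finset.range (n + 1), ∑ k ∈ Finset.range 101, q i k * (i.choose α) * (k.choose β)

theorem pow_expand {K : Type} [Field K] (x : K) (m i : ℕ) (hi : i < m) :
    x ^ i = ∑ α ∈ Finset.range m, (i.choose α : K) * (x - 1) ^ α := by
  have h1 : x ^ i = ((x - 1) + 1) ^ i := by rw [sub_add_cancel]
  rw [h1, add_pow]
  have h2 : Finset.range (i + 1) ⊆ Finset.range m := Finset.range_subset_range.2 hi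
  rw [← Finset.sum_subset h2]
  · refine Finset.sum_congr rfl fun α _ => ?_
    rw [one_pow, mul_one, mul_comm]
  · intro α _ hα
    rw [Finset.mem_range, not_lt] at hα
    rw [Nat.choose_eq_zero_of_lt (by omega), Nat.cast_zero, zero_mul]

theorem val_shift {K : Type} [Field K] (n : ℕ) (q : ℕ → ℕ → ℤ) (x y : K) :
    val n q x y = val n (shift n q) (x - 1) (y - 1) := by
  have h1 : ∀ i ∈ Finset.range (n + 1), ∀ k ∈ Finset.range 101,
      (q i k : K) * x ^ i * y ^ k = ∑ α ∈ Finset.range (n + 1), ∑ β ∈ Finset.range 101,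
        (q i k : K) * (i.choose α : K) * (k.choose β : K) * (x - 1) ^ α * (y - 1) ^ β := by
    intro i hi k hk
    rw [pow_expand x (n + 1) i (Finset.mem_range.1 hi), pow_expand y 101 k (Finset.mem_range.1 hk),
      mul_assoc, Finset.sum_mul_sum, Finset.mul_sum]
    refine Finset.sum_congr rfl fun α _ => ?_
    rw [Finset.mul_sum]
    refine Finset.sum_congr rfl fun β _ => ?_
    ring
  rw [val, val]
  rw [Finset.sum_congr rfl fun i hi => Finset.sum_congr rfl fun k hk => h1 i hi k hk]
  have h2 : ∀ α ∈ Finset.range (n + 1), ∀ β ∈ Finset.range 101,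
      (shift n q α β : K) * (x - 1) ^ α * (y - 1) ^ β =
        ∑ i ∈ Finset.range (n + 1), ∑ k ∈ Finset.range 101,
          (q i k : K) * (i.choose α : K) * (k.choose β : K) * (x - 1) ^ α * (y - 1) ^ β := by
    intro α _ β _
    rw [shift]
    push_cast
    simp only [Finset.sum_mul]
  rw [Finset.sum_congr rfl fun α hα => Finset.sum_congr rfl fun β hβ => h2 α hα β hβ]
  -- exchange the sums
  have e1 : ∀ i ∈ Finset.range (n + 1),
      (∑ k ∈ Finset.range 101, ∑ α ∈ Finset.range (n + 1), ∑ β ∈ Finset.range 101,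
        (q i k : K) * (i.choose α : K) * (k.choose β : K) * (x - 1) ^ α * (y - 1) ^ β) =
      ∑ α ∈ Finset.range (n + 1), ∑ β ∈ Finset.range 101, ∑ k ∈ Finset.range 101,
        (q i k : K) * (i.choose α : K) * (k.choose β : K) * (x - 1) ^ α * (y - 1) ^ β := by
    intro i _
    rw [Finset.sum_comm]
    refine Finset.sum_congr rfl fun α _ => ?_
    rw [Finset.sum_comm]
  rw [Finset.sum_congr rfl e1, Finset.sum_comm]
  refine Finset.sum_congr rfl fun α _ => ?_
  rw [Finset.sum_comm]

theorem choose_le (i a m : ℕ) (h : i ≤ m) : ((i.choose a : ℕ) : ℝ) ≤ 2 ^ m := by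
  have h1 : i.choose a ≤ 2 ^ i := Nat.choose_le_two_pow i a
  have h2 : (2 : ℕ) ^ i ≤ 2 ^ m := Nat.pow_le_pow_right (by norm_num) h
  exact_mod_cast h1.trans h2

theorem shift_le (n : ℕ) (q : ℕ → ℕ → ℤ) (Z : ℝ) (hZ0 : 0 ≤ Z) (hZ : ∀ i k, |(q i k : ℝ)| ≤ Z)
    (α β : ℕ) : |(shift n q α β : ℝ)| ≤ 101 * (n + 1) * (Z * 2 ^ n * 2 ^ 100) := by
  rw [shift]
  push_cast
  refine (Finset.abs_sum_le_sum_abs _ _).trans ?_
  have h1 : ∀ i ∈ Finset.range (n + 1),
      |∑ k ∈ Finset.range 101, (q i k : ℝ) * (i.choose α : ℝ) * (k.choose β : ℝ)| ≤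
        101 * (Z * 2 ^ n * 2 ^ 100) := by
    intro i hi
    refine (Finset.abs_sum_le_sum_abs _ _).trans ?_
    have h2 : ∀ k ∈ Finset.range 101,
        |(q i k : ℝ) * (i.choose α : ℝ) * (k.choose β : ℝ)| ≤ Z * 2 ^ n * 2 ^ 100 := by
      intro k hk
      rw [Finset.mem_range] at hi hk
      rw [abs_mul, abs_mul, Nat.abs_cast, Nat.abs_cast]
      refine mul_le_mul (mul_le_mul (hZ i k) (choose_le i α n (by omega)) (by positivity) hZ0)
        (choose_le k β 100 (by omega)) (by positivity) (by positivity)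
    refine (Finset.sum_le_sum h2).trans ?_
    simp
  refine (Finset.sum_le_sum h1).trans ?_
  rw [Finset.sum_const, Finset.card_range, nsmul_eq_mul]
  push_cast
  apply le_of_eq
  ring

end VE

open VE in
theorem eval_ineq (C0 : ℝ) : ∃ C : ℝ, ∀ (K : Type) [Field K] (R : Subring K) (P : Places K R)
    (x y : K) (j : P.Pl → Fin 3) (t : P.Pl → ℝ) (h s τ c : ℝ) (n : ℕ) (q : ℕ → ℕ → ℤ),
    UU R x → UU R y → Dec P x j t h → 0 ≤ h → 1 ≤ s → 0 ≤ τ → τ ≤ 80 * s → 0 ≤ c →
    (n : ℝ) ≤ 100 * s + 1 →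
    P.avg (fun w => ‖P.lv w y - s • P.lv w x‖) ≤ C0 * s →
    (∀ i k, |(q i k : ℝ)| ≤ Real.exp c) → Van s n τ q → val n q x y ≠ 0 →
    3 * τ * h ≤ 200 * s * h + h + c + C * s := by
  refine ⟨100 * C0 + 22000, ?_⟩
  intro K _ R P x y j t h s τ c n q hx hy hdec hh hs hτ0 hτ hc hn hd hq hvan hne
  set Z : ℝ := 101 * (n + 1) * (Real.exp c * 2 ^ n * 2 ^ 100) with hZdef
  set L : ℝ := Real.log (101 * (n + 1) * Z) with hLdef
  have hn0 : (0 : ℝ) ≤ n := Nat.cast_nonneg n
  have hZpos : 0 < Z := by positivity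
  have hZ1 : Real.exp c ≤ Z := by
    have h1 : (1 : ℝ) ≤ 2 ^ n := one_le_pow₀ (by norm_num)
    have h2 : (1 : ℝ) ≤ 101 * ((n : ℝ) + 1) := by nlinarith
    have h3 : Real.exp c ≤ Real.exp c * 2 ^ n := le_mul_of_one_le_right (Real.exp_pos c).le h1
    have h4 : Real.exp c * 2 ^ n ≤ Real.exp c * 2 ^ n * 2 ^ 100 :=
      le_mul_of_one_le_right (by positivity) (by norm_num)
    have h5 : Real.exp c * 2 ^ n * 2 ^ 100 ≤ Z :=
      le_mul_of_one_le_left (by positivity) h2
    linarith
  set d : P.Pl → ℝ := fun w => ‖P.lv w y - s • P.lv w x‖ with hddef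
  have hd0 : ∀ w, 0 ≤ d w := fun w => norm_nonneg _
  -- the coordinates
  have hx1 : ∀ w, |P.lg w x - t w * (ray (j w)).1| ≤ 2 * P.arch w := fun w => by
    have h1 := norm_fst_le (P.lv w x - t w • ray (j w))
    exact h1.trans (hdec.near w)
  have hx2 : ∀ w, |P.lg w (1 - x) - t w * (ray (j w)).2| ≤ 2 * P.arch w := fun w => by
    have h1 := norm_snd_le (P.lv w x - t w • ray (j w))
    exact h1.trans (hdec.near w)
  have hy1 : ∀ w, |P.lg w y - s * P.lg w x| ≤ d w := fun w => by
    have h1 := norm_fst_le (P.lv w y - s • P.lv w x)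
    exact h1
  have hy2 : ∀ w, |P.lg w (1 - y) - s * P.lg w (1 - x)| ≤ d w := fun w => by
    have h1 := norm_snd_le (P.lv w y - s • P.lv w x)
    exact h1
  -- comparison of monomials: `u, v` are the logarithms, `b = 0, ±1` the direction
  have mono : ∀ (i k : ℕ) (u v b T a D G : ℝ), i ≤ n → k ≤ 100 → 0 ≤ a → 0 ≤ D →
      u ≤ b * T + 2 * a → v ≤ s * u + D → ((i : ℝ) + s * k) * (b * T) ≤ G →
      i * u + k * v ≤ G + 2 * (n + 100 * s) * a + 100 * D := by
    intro i k u v b T a D G hi hk ha hD hu hv hG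
    have hi' : (i : ℝ) ≤ n := by exact_mod_cast hi
    have hk' : (k : ℝ) ≤ 100 := by exact_mod_cast hk
    have hi0 : (0 : ℝ) ≤ i := Nat.cast_nonneg i
    have hk0 : (0 : ℝ) ≤ k := Nat.cast_nonneg k
    have h1 : k * v ≤ k * (s * u + D) := mul_le_mul_of_nonneg_left hv hk0
    have h2 : (i + s * k) * u ≤ (i + s * k) * (b * T + 2 * a) :=
      mul_le_mul_of_nonneg_left hu (by positivity)
    have h3 : k * D ≤ 100 * D := mul_le_mul_of_nonneg_right hk' hD
    have h4 : (i + s * k) * (2 * a) ≤ (n + 100 * s) * (2 * a) := by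
      refine mul_le_mul_of_nonneg_right ?_ (by positivity)
      nlinarith
    nlinarith
  -- the bound at one place
  have hplace : ∀ w, P.lg w (val n q x y) ≤
      (-τ) * (if j w = 0 then t w else 0) + (-τ) * (if j w = 1 then t w else 0) +
      (n + 100 * s - τ) * (if j w = 2 then t w else 0) +
      (2 * (n + 100 * s) + L) * P.arch w + 100 * d w := by
    intro w
    have ha := P.arch_nonneg w
    have hD := hd0 w
    have hT := hdec.nonneg w
    have e1 := abs_le.1 (hx1 w)
    have e2 := abs_le.1 (hx2 w)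
    have e3 := abs_le.1 (hy1 w)
    have e4 := abs_le.1 (hy2 w)
    rcases (by
      have : ∀ a : Fin 3, a = 0 ∨ a = 1 ∨ a = 2 := by decide
      exact this (j w) : j w = 0 ∨ j w = 1 ∨ j w = 2) with hj | hj | hj
    · rw [hj] at e1 e2
      have r1 : (ray 0).1 = -1 := rfl
      rw [r1] at e1
      have h1 := lg_val_le P w n q hx.ne0 hy.ne0
        (-τ * t w + 2 * (n + 100 * s) * P.arch w + 100 * d w) Z hZpos
        (fun i k => (hq i k).trans hZ1) ?_ hne
      · rw [hj]
        simp only [if_true, Fin.isValue, zero_ne_one, if_false, Fin.reduceEq]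
        linarith
      · intro i k hi hk h0
        refine mono i k _ _ (-1) (t w) _ _ _ hi hk ha hD (by linarith) (by linarith) ?_
        have h2 : τ ≤ (i : ℝ) + s * k := by
          by_contra h3
          exact h0 (hvan.zero i k (not_le.1 h3))
        nlinarith
    · rw [hj] at e1 e2
      have r2 : (ray 1).2 = -1 := rfl
      rw [r2] at e2
      rw [val_shift] at hne ⊢
      have hx' : x - 1 ≠ 0 := sub_ne_zero.2 hx.ne1
      have hy' : y - 1 ≠ 0 := sub_ne_zero.2 hy.ne1
      have h1 := lg_val_le P w n (shift n q) hx' hy'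
        (-τ * t w + 2 * (n + 100 * s) * P.arch w + 100 * d w) Z hZpos
        (fun i k => shift_le n q (Real.exp c) (Real.exp_pos c).le hq i k) ?_ hne
      · rw [hj]
        simp only [if_true, Fin.isValue, one_ne_zero, if_false, Fin.reduceEq]
        linarith
      · intro i k hi hk h0
        rw [P.lg_sub_comm w x 1, P.lg_sub_comm w y 1]
        refine mono i k _ _ (-1) (t w) _ _ _ hi hk ha hD (by linarith) (by linarith) ?_
        have h2 : τ ≤ (i : ℝ) + s * k := by
          by_contra h3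
          exact h0 (hvan.one i k (not_le.1 h3))
        nlinarith
    · rw [hj] at e1 e2
      have r1 : (ray 2).1 = 1 := rfl
      rw [r1] at e1
      have h1 := lg_val_le P w n q hx.ne0 hy.ne0
        ((n + 100 * s - τ) * t w + 2 * (n + 100 * s) * P.arch w + 100 * d w) Z hZpos
        (fun i k => (hq i k).trans hZ1) ?_ hne
      · rw [hj]
        simp only [if_true, Fin.isValue, if_false, Fin.reduceEq]
        linarith
      · intro i k hi hk h0
        refine mono i k _ _ 1 (t w) _ _ _ hi hk ha hD (by linarith) (by linarith) ?_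
        have h2 : τ ≤ ((n : ℝ) - i) + s * (100 - k) := by
          by_contra h3
          exact h0 (hvan.inf i k hi hk (not_le.1 h3))
        nlinarith
  -- average
  have hQR : val n q x y ∈ R := val_mem n q hx.mem hy.mem
  have h0 := (P.avg_lg_nonneg hQR hne).trans (P.avg_mono hplace)
  have hsum : P.avg (fun w =>
      (-τ) * (if j w = 0 then t w else 0) + (-τ) * (if j w = 1 then t w else 0) +
      (n + 100 * s - τ) * (if j w = 2 then t w else 0) +
      (2 * (n + 100 * s) + L) * P.arch w + 100 * d w) =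
      (-τ) * P.avg (fun w => if j w = 0 then t w else 0) +
      (-τ) * P.avg (fun w => if j w = 1 then t w else 0) +
      (n + 100 * s - τ) * P.avg (fun w => if j w = 2 then t w else 0) +
      (2 * (n + 100 * s) + L) + 100 * P.avg d := by
    rw [P.avg_add, P.avg_add, P.avg_add, P.avg_add, P.avg_mul, P.avg_mul, P.avg_mul,
      P.avg_const_arch, P.avg_mul]
  rw [hsum] at h0
  have m0 := abs_le.1 (hdec.mass 0)
  have m1 := abs_le.1 (hdec.mass 1)
  have m2 := abs_le.1 (hdec.mass 2)
  have hL : L ≤ c + 20805 * s := by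
    have hN : (0 : ℝ) < 101 * (n + 1) := by positivity
    have e0 : 101 * ((n : ℝ) + 1) * Z =
        (101 * (n + 1)) * (101 * (n + 1)) * (Real.exp c * (2 ^ n * 2 ^ 100)) := by
      rw [hZdef]; ring
    have h2n : (2 : ℝ) ^ n * 2 ^ 100 ≠ 0 := by positivity
    have e1 : Real.log ((2 : ℝ) ^ n * 2 ^ 100) = n * Real.log 2 + 100 * Real.log 2 := by
      rw [Real.log_mul (by positivity) (by positivity), Real.log_pow, Real.log_pow]
      norm_num
    rw [hLdef, e0, Real.log_mul (mul_pos hN hN).ne' (by positivity), Real.log_mul hN.ne' hN.ne',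
      Real.log_mul (Real.exp_pos c).ne' h2n, Real.log_exp, e1]
    have h1 : Real.log (101 * ((n : ℝ) + 1)) ≤ 101 * ((n : ℝ) + 1) := by
      have := Real.log_le_sub_one_of_pos hN
      linarith
    have h2 : Real.log 2 ≤ 1 := by
      have := Real.log_le_sub_one_of_pos (show (0 : ℝ) < 2 by norm_num)
      linarith
    have h3 : (n : ℝ) * Real.log 2 ≤ n := mul_le_of_le_one_right hn0 h2
    nlinarith
  have hd' : P.avg d ≤ C0 * s := hd
  have a0 : (-τ) * P.avg (fun w => if j w = 0 then t w else 0) ≤ (-τ) * h + 2 * τ := by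
    nlinarith [mul_le_mul_of_nonneg_left m0.1 hτ0]
  have a1 : (-τ) * P.avg (fun w => if j w = 1 then t w else 0) ≤ (-τ) * h + 2 * τ := by
    nlinarith [mul_le_mul_of_nonneg_left m1.1 hτ0]
  have hpos : 0 ≤ (n : ℝ) + 100 * s - τ := by linarith
  have a2 : ((n : ℝ) + 100 * s - τ) * P.avg (fun w => if j w = 2 then t w else 0) ≤
      (200 * s + 1 - τ) * h + 2 * (200 * s + 1) := by
    have b1 : ((n : ℝ) + 100 * s - τ) * P.avg (fun w => if j w = 2 then t w else 0) ≤
        ((n : ℝ) + 100 * s - τ) * (h + 2) :=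
      mul_le_mul_of_nonneg_left (by linarith [m2.2]) hpos
    have b2 : ((n : ℝ) + 100 * s - τ) * (h + 2) ≤ (200 * s + 1 - τ) * (h + 2) :=
      mul_le_mul_of_nonneg_right (by linarith) (by linarith)
    nlinarith
  nlinarith

end Pool.Agent.L3
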