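import Mathlib
import Pool.Agent.Lib.MP_c95b3b_ag_L3.Defs

/-! Project L3, module VF: the order of vanishing is bounded by the coefficients (Mahler measure at
the archimedean places, Gauss norm at the others). -/

namespace Pool.Agent.L3

open Polynomial

namespace VF

variable {K : Type} [Field K]

/-- multiplication by `X - x`, `v x > 1`, multiplies the Gauss norm by `v x` -/
theorem gauss_one (v : AbsoluteValue K ℝ) (hv : ∀ x y, v (x + y) ≤ max (v x) (v y)) {x : K}
    (hx : 1 < v x) (G : K[X]) {M : ℝ} (h : ∀ k, v (((X - C x) * G).coeff k) ≤ M) :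
    ∀ k, v (G.coeff k) * v x ≤ M := by
  have hM : 0 ≤ M := (v.nonneg _).trans (h 0)
  rcases eq_or_ne G 0 with rfl | hG
  · intro k
    simpa using hM
  obtain ⟨k0, hk0, hmax⟩ := Finset.exists_max_image G.support (fun k => v (G.coeff k))
    (Polynomial.nonempty_support_iff.2 hG)
  have hmax' : ∀ k, v (G.coeff k) ≤ v (G.coeff k0) := by
    intro k
    by_cases hk : k ∈ G.support
    · exact hmax k hk
    · rw [Polynomial.notMem_support_iff.1 hk]
      simp
  have hpos : 0 < v (G.coeff k0) := v.pos (Polynomial.mem_support_iff.1 hk0)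
  have hx0 : 0 < v x := zero_lt_one.trans hx
  -- the coefficient of the product
  have hco : G.coeff k0 * x = (if k0 = 0 then 0 else G.coeff (k0 - 1)) +
      -(((X - C x) * G).coeff k0) := by
    rw [sub_mul, Polynomial.coeff_sub, Polynomial.coeff_C_mul]
    rcases k0 with _ | k
    · simp [mul_comm]
    · rw [Polynomial.coeff_X_mul]
      simp only [Nat.add_eq_zero_iff, one_ne_zero, and_false, if_false, Nat.add_sub_cancel]
      ring
  have h1 : v (G.coeff k0) * v x ≤ max (v (G.coeff k0)) M := by
    rw [← v.map_mul, hco]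
    refine (hv _ _).trans (max_le_max ?_ ?_)
    · split_ifs
      · simp
      · exact hmax' _
    · rw [v.map_neg]
      exact h k0
  have h2 : v (G.coeff k0) * v x ≤ M := by
    rcases le_max_iff.1 h1 with h1 | h1
    · exfalso
      have : v (G.coeff k0) * 1 < v (G.coeff k0) * v x := by
        exact mul_lt_mul_of_pos_left hx hpos
      linarith
    · exact h1
  intro k
  exact (mul_le_mul_of_nonneg_right (hmax' k) hx0.le).trans h2

theorem gauss_pow (v : AbsoluteValue K ℝ) (hv : ∀ x y, v (x + y) ≤ max (v x) (v y)) {x : K}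
    (hx : 1 < v x) (e : ℕ) : ∀ (G : K[X]) {M : ℝ},
    (∀ k, v (((X - C x) ^ e * G).coeff k) ≤ M) → ∀ k, v (G.coeff k) * v x ^ e ≤ M := by
  induction e with
  | zero =>
    intro G M h k
    simpa using h k
  | succ e ih =>
    intro G M h k
    have hx0 : 0 < v x ^ e := pow_pos (zero_lt_one.trans hx) e
    have h1 : ∀ k, v (((X - C x) * G).coeff k) ≤ M / v x ^ e := by
      intro k
      rw [le_div_iff₀ hx0]
      refine ih ((X - C x) * G) (fun k => ?_) k
      rw [← mul_assoc, ← pow_succ]
      exact h k
    have h2 := gauss_one v hv hx G h1 k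
    rw [le_div_iff₀ hx0] at h2
    rwa [pow_succ', ← mul_assoc]

theorem mahler_pow (z : ℂ) (e : ℕ) :
    ((X - C z) ^ e : ℂ[X]).mahlerMeasure = max 1 ‖z‖ ^ e := by
  induction e with
  | zero => simp
  | succ e ih => rw [pow_succ, Polynomial.mahlerMeasure_mul, ih, Polynomial.mahlerMeasure_X_sub_C,
      pow_succ]

end VF

theorem order_bound {K : Type} [Field K] {R : Subring K} (P : Places K R) (x : K)
    (F : Polynomial ℤ) (hF : F ≠ 0) (e : ℕ) (L : ℝ)
    (hL : ∑ i ∈ F.support, |(F.coeff i : ℝ)| ≤ L)
    (hd : (Polynomial.X - Polynomial.C x) ^ e ∣ F.map (Int.castRingHom K)) :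
    (e : ℝ) * P.avg (fun w => max 0 (P.lg w x)) ≤ Real.log L := by
  have : CharZero K := P.charZero
  have hinj : Function.Injective (Int.castRingHom K) := Int.cast_injective
  obtain ⟨G, hG⟩ := hd
  have ha0 : F.leadingCoeff ≠ 0 := Polynomial.leadingCoeff_ne_zero.2 hF
  have haK : (F.leadingCoeff : K) ≠ 0 := by exact_mod_cast ha0
  have haR : (F.leadingCoeff : K) ∈ R := intCast_mem R _
  have hlead : (F.leadingCoeff : K) = G.leadingCoeff := by
    have h1 : (F.map (Int.castRingHom K)).leadingCoeff = (F.leadingCoeff : K) := by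
      rw [Polynomial.leadingCoeff_map_of_injective hinj]
      rfl
    rw [← h1, hG, Polynomial.leadingCoeff_mul, Polynomial.leadingCoeff_pow,
      Polynomial.leadingCoeff_X_sub_C, one_pow, one_mul]
  have hG0 : G ≠ 0 := by
    rintro rfl
    rw [Polynomial.leadingCoeff_zero] at hlead
    exact haK hlead
  have key : ∀ w, P.lg w (F.leadingCoeff : K) + e * max 0 (P.lg w x) ≤
      Real.log L * P.arch w := by
    rintro (i | j)
    · rw [P.lg_inl, P.lg_inl, P.arch_inl, mul_one]
      -- archimedean places
      have h1 : F.map (Int.castRingHom ℂ) = (X - C (P.σ i x)) ^ e * G.map (P.σ i) := by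
        have h2 : F.map (Int.castRingHom ℂ) = (F.map (Int.castRingHom K)).map (P.σ i) := by
          rw [Polynomial.map_map]
          congr 1
          exact RingHom.ext_int _ _
        rw [h2, hG, Polynomial.map_mul, Polynomial.map_pow, Polynomial.map_sub, Polynomial.map_X,
          Polynomial.map_C]
      have h3 : (F.map (Int.castRingHom ℂ)).mahlerMeasure ≤ L := by
        refine (Polynomial.mahlerMeasure_le_sum_norm_coeff _).trans (le_trans (le_of_eq ?_) hL)
        rw [Polynomial.sum_def, Polynomial.support_map_of_injective F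
          (show Function.Injective (Int.castRingHom ℂ) from Int.cast_injective)]
        refine Finset.sum_congr rfl fun k _ => ?_
        rw [Polynomial.coeff_map, eq_intCast, Complex.norm_intCast]
      have h4 : ‖P.σ i (F.leadingCoeff : K)‖ * max 1 ‖P.σ i x‖ ^ e ≤ L := by
        rw [h1, Polynomial.mahlerMeasure_mul, VF.mahler_pow] at h3
        refine le_trans ?_ h3
        rw [mul_comm]
        refine mul_le_mul_of_nonneg_left ?_ (by positivity)
        refine le_trans (le_of_eq ?_) (Polynomial.leadingCoeff_le_mahlerMeasure _)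
        rw [hlead, Polynomial.leadingCoeff_map_of_injective (P.σ i).injective]
      have h5 : 0 < ‖P.σ i (F.leadingCoeff : K)‖ := by
        rw [norm_pos_iff, _root_.map_ne_zero]
        exact haK
      have h6 : (0 : ℝ) < max 1 ‖P.σ i x‖ := lt_max_of_lt_left one_pos
      have h7 : Real.log (max 1 ‖P.σ i x‖) = max 0 (Real.log ‖P.σ i x‖) := by
        rcases le_total ‖P.σ i x‖ 1 with h | h
        · rw [max_eq_left h, Real.log_one, max_eq_left (Real.log_nonpos (norm_nonneg _) h)]
        · rw [max_eq_right h, max_eq_right (Real.log_nonneg h)]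
      have h8 := Real.log_le_log (by positivity) h4
      rwa [Real.log_mul h5.ne' (by positivity), Real.log_pow, h7] at h8
    · rw [P.lg_inr, P.lg_inr, P.arch_inr, mul_zero]
      have h0 : 0 < P.v j (F.leadingCoeff : K) := (P.v j).pos haK
      rcases le_or_gt (P.v j x) 1 with h | h
      · rw [max_eq_left (Real.log_nonpos ((P.v j).nonneg _) h), mul_zero, add_zero]
        exact Real.log_nonpos h0.le (P.v_int j _)
      · rw [max_eq_right (Real.log_nonneg h.le)]
        have h1 : ∀ k, P.v j (((X - C x) ^ e * G).coeff k) ≤ 1 := by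
          intro k
          rw [← hG, Polynomial.coeff_map, eq_intCast]
          exact P.v_int j _
        have h2 := VF.gauss_pow (P.v j) (P.nonarch j) h e G h1 G.natDegree
        rw [Polynomial.coeff_natDegree, ← hlead] at h2
        have h3 : 0 < P.v j x := zero_lt_one.trans h
        have h4 := Real.log_le_log (by positivity) h2
        rwa [Real.log_mul h0.ne' (by positivity), Real.log_pow, Real.log_one] at h4
  have h1 := P.avg_mono key
  rw [P.avg_const_arch, P.avg_add, P.avg_mul] at h1
  have h2 := P.avg_lg_nonneg haR haK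
  linarith

end Pool.Agent.L3
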