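import Mathlib

/-! Project L3 (MP_c95b3b_ag), module VG: the Wronskian of linearly independent integer
polynomials. -/

namespace Pool.Agent.L3

namespace VG

open Polynomial Matrix

theorem det_choose_ne (ρ : ℕ) (d : Fin ρ → ℕ) (hd : Function.Injective d) :
    (Matrix.of fun i j : Fin ρ => (((d i).choose (j : ℕ) : ℕ) : ℚ)).det ≠ 0 := by
  intro h0
  have h1 : (Matrix.vandermonde fun i => ((d i : ℕ) : ℚ)).det =
      (Matrix.of fun i j : Fin ρ => ((descPochhammer ℚ (j : ℕ)).eval ((d i : ℕ) : ℚ))).det :=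
    Matrix.det_eval_matrixOfPolynomials_eq_det_vandermonde _ _
      (fun i => descPochhammer_natDegree ℚ i) (fun i => monic_descPochhammer ℚ i)
  have h2 : (Matrix.of fun i j : Fin ρ => ((descPochhammer ℚ (j : ℕ)).eval ((d i : ℕ) : ℚ))) =
      (Matrix.of fun i j : Fin ρ => (((j : ℕ).factorial : ℚ)) *
        (Matrix.of fun i j : Fin ρ => (((d i).choose (j : ℕ) : ℕ) : ℚ)) i j) := by
    ext i j
    simp [descPochhammer_eval_eq_descFactorial, Nat.descFactorial_eq_factorial_mul_choose]
  rw [h2, Matrix.det_mul_row, h0, mul_zero] at h1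
  exact (Matrix.det_vandermonde_ne_zero_iff.mpr (fun i j hij => hd (by exact_mod_cast hij))) h1

theorem coeff_prod_of_le {R ι : Type*} [CommRing R] (s : Finset ι) (f : ι → R[X]) (d : ι → ℕ)
    (h : ∀ i ∈ s, (f i).natDegree ≤ d i) :
    (∏ i ∈ s, f i).natDegree ≤ ∑ i ∈ s, d i ∧
    (∏ i ∈ s, f i).coeff (∑ i ∈ s, d i) = ∏ i ∈ s, (f i).coeff (d i) := by
  classical
  induction s using Finset.induction_on with
  | empty => simp
  | insert a s ha ih =>
    obtain ⟨h1, h2⟩ := ih (fun i hi => h i (Finset.mem_insert_of_mem hi))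
    have h3 := h a (Finset.mem_insert_self a s)
    rw [Finset.prod_insert ha, Finset.sum_insert ha, Finset.prod_insert ha]
    refine ⟨natDegree_mul_le.trans (by omega), ?_⟩
    rw [Polynomial.coeff_mul_add_eq_of_natDegree_le h3 h1, h2]

/-- the Hasse-Wronskian -/
noncomputable def W {R : Type*} [CommRing R] {ρ : ℕ} (f : Fin ρ → R[X]) : R[X] :=
  (Matrix.of fun i j : Fin ρ => hasseDeriv (j : ℕ) (f i)).det

theorem W_distinct {ρ : ℕ} (f : Fin ρ → ℚ[X]) (h0 : ∀ i, f i ≠ 0)
    (hd : Function.Injective fun i => (f i).natDegree) : W f ≠ 0 := by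
  classical
  intro hW
  set d : Fin ρ → ℕ := fun i => (f i).natDegree with hdd
  set N : Matrix (Fin ρ) (Fin ρ) ℚ[X] :=
    Matrix.of fun i j : Fin ρ => (X : ℚ[X]) ^ (j : ℕ) *
      (Matrix.of fun i j : Fin ρ => hasseDeriv (j : ℕ) (f i)) i j with hN
  have hN0 : N.det = 0 := by
    rw [hN, Matrix.det_mul_row]
    unfold W at hW
    rw [hW, mul_zero]
  have hcoef : ∀ i j, (N i j).coeff (d i) = (f i).leadingCoeff * ((d i).choose (j : ℕ) : ℕ) := by
    intro i j
    simp only [hN, Matrix.of_apply]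
    rw [coeff_X_pow_mul']
    split_ifs with hj
    · rw [hasseDeriv_coeff, Nat.sub_add_cancel hj]
      simp only [hdd, coeff_natDegree]
      ring
    · rw [Nat.choose_eq_zero_of_lt (not_le.mp hj)]
      simp
  have hdeg : ∀ i j, (N i j).natDegree ≤ d i := by
    intro i j
    rw [natDegree_le_iff_coeff_eq_zero]
    intro k hk
    simp only [hN, Matrix.of_apply]
    rw [coeff_X_pow_mul']
    split_ifs with hj
    · rw [hasseDeriv_coeff, Nat.sub_add_cancel hj, coeff_eq_zero_of_natDegree_lt hk, mul_zero]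
    · rfl
  have hcd : N.det.coeff (∑ i, d i) =
      (Matrix.of fun i j : Fin ρ => (f i).leadingCoeff *
        (Matrix.of fun i j : Fin ρ => (((d i).choose (j : ℕ) : ℕ) : ℚ)) i j).det := by
    rw [Matrix.det_apply, Matrix.det_apply, finsetSum_coeff]
    refine Finset.sum_congr rfl fun σ _ => ?_
    rw [coeff_smul]
    congr 1
    have h1 := (coeff_prod_of_le Finset.univ (fun i => N (σ i) i) (fun i => d (σ i))
      (fun i _ => hdeg _ _)).2
    rw [Equiv.sum_comp σ d] at h1
    rw [h1]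
    refine Finset.prod_congr rfl fun i _ => ?_
    rw [hcoef]
    simp
  rw [hN0, coeff_zero, Matrix.det_mul_column] at hcd
  have h1 : (∏ i, (f i).leadingCoeff) ≠ 0 :=
    Finset.prod_ne_zero_iff.mpr fun i _ => leadingCoeff_ne_zero.mpr (h0 i)
  exact (mul_ne_zero h1 (det_choose_ne ρ d hd)) hcd.symm

theorem W_ne_zero {ρ : ℕ} : ∀ (s : ℕ) (f : Fin ρ → ℚ[X]), LinearIndependent ℚ f →
    ∑ i, (f i).natDegree = s → W f ≠ 0 := by
  classical
  intro s
  induction s using Nat.strong_induction_on with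
  | _ s ih =>
    intro f hf hs
    by_cases hd : Function.Injective fun i => (f i).natDegree
    · exact W_distinct f (fun i => hf.ne_zero i) hd
    · simp only [Function.Injective, not_forall] at hd
      obtain ⟨i, j, hij, hne⟩ := hd
      set α : ℚ := (f i).leadingCoeff / (f j).leadingCoeff with hα
      set g : ℚ[X] := f i - α • f j with hg
      have hfj : (f j).leadingCoeff ≠ 0 := leadingCoeff_ne_zero.mpr (hf.ne_zero j)
      have hfi : (f i).leadingCoeff ≠ 0 := leadingCoeff_ne_zero.mpr (hf.ne_zero i)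
      have hα0 : α ≠ 0 := div_ne_zero hfi hfj
      have hf' : LinearIndependent ℚ (Function.update f i g) := by
        refine hf.update i g ⟨1, one_mem _, Finsupp.single i 1 - Finsupp.single j α, ?_, ?_⟩
        · rw [Finsupp.sub_apply, Finsupp.single_eq_same, Finsupp.single_eq_of_ne (by tauto),
            sub_zero]
          exact one_mem _
        · rw [map_sub, Finsupp.linearCombination_single, Finsupp.linearCombination_single]
          simp [hg]
      have hg0 : g ≠ 0 := by
        have := hf'.ne_zero i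
        simpa using this
      have hdeg : g.natDegree < (f i).natDegree := by
        refine natDegree_lt_natDegree hg0 ?_
        have h1 : (α • f j).degree = (f j).degree := by
          rw [smul_eq_C_mul, degree_C_mul hα0]
        have h2 : (f i).degree = (α • f j).degree := by
          rw [h1, degree_eq_natDegree (hf.ne_zero i), degree_eq_natDegree (hf.ne_zero j), hij]
        refine degree_sub_lt_left h2 (hf.ne_zero i) ?_
        rw [smul_eq_C_mul, leadingCoeff_mul, leadingCoeff_C, hα]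
        field_simp
      have hlt : ∑ k, (Function.update f i g k).natDegree < s := by
        rw [← hs]
        refine Finset.sum_lt_sum (fun k _ => ?_) ⟨i, Finset.mem_univ _, by simpa using hdeg⟩
        by_cases hk : k = i
        · subst hk
          simpa using hdeg.le
        · rw [Function.update_of_ne hk]
      have hW := ih _ hlt (Function.update f i g) hf' rfl
      have hWe : W (Function.update f i g) = W f := by
        unfold W
        rw [← Matrix.det_updateRow_add_smul_self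
          (Matrix.of fun i j : Fin ρ => hasseDeriv (j : ℕ) (f i)) hne (C (-α))]
        congr 1
        ext k l : 2
        by_cases hk : k = i
        · subst hk
          have e1 : (hasseDeriv (l : ℕ)) g =
              (hasseDeriv (l : ℕ)) (f k) - α • (hasseDeriv (l : ℕ)) (f j) := by
            rw [hg, map_sub, map_smul]
          simp only [Matrix.of_apply, Function.update_self, Matrix.updateRow_self, Pi.add_apply,
            Pi.smul_apply, e1, smul_eq_mul, smul_eq_C_mul, C_neg]
          ring_nf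
        · simp only [Matrix.of_apply, Function.update_of_ne hk, Matrix.updateRow_ne hk]
      rwa [hWe] at hW

theorem hasseDeriv_map {R S : Type*} [CommRing R] [CommRing S] (φ : R →+* S) (k : ℕ) (f : R[X]) :
    (hasseDeriv k f).map φ = hasseDeriv k (f.map φ) := by
  ext i
  simp [hasseDeriv_coeff, coeff_map]

theorem W_map {R S : Type*} [CommRing R] [CommRing S] (φ : R →+* S) {ρ : ℕ} (f : Fin ρ → R[X]) :
    (W f).map φ = W fun i => (f i).map φ := by
  unfold W
  rw [← coe_mapRingHom, RingHom.map_det]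
  congr 1
  ext i j : 2
  simp [hasseDeriv_map]

theorem W_ne_zero_int {ρ : ℕ} (c : Fin ρ → ℤ[X]) (hc : LinearIndependent ℤ c) : W c ≠ 0 := by
  intro h0
  have h1 : LinearIndependent ℤ fun i => (c i).map (Int.castRingHom ℚ) := by
    have h2 := hc.map' (mapRingHom (Int.castRingHom ℚ)).toIntAlgHom.toLinearMap
      (LinearMap.ker_eq_bot.mpr (by
        intro a b hab
        exact map_injective _ (Int.cast_injective) (by simpa using hab)))
    exact h2
  rw [LinearIndependent.iff_fractionRing ℤ ℚ] at h1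
  refine W_ne_zero _ _ h1 rfl ?_
  rw [← W_map, h0, Polynomial.map_zero]

/-- `P` has non-negative coefficients, dominates `p`, and `P(1) ≤ M` -/
def Dom (p : ℤ[X]) (M : ℝ) : Prop :=
  ∃ P : ℝ[X], (∀ i, |(p.coeff i : ℝ)| ≤ P.coeff i) ∧ P.eval 1 ≤ M

theorem Dom.sum_le {p : ℤ[X]} {M : ℝ} (h : Dom p M) :
    ∑ i ∈ p.support, |(p.coeff i : ℝ)| ≤ M := by
  obtain ⟨P, h1, h2⟩ := h
  refine le_trans ?_ h2
  have hP : ∀ i, 0 ≤ P.coeff i := fun i => (abs_nonneg _).trans (h1 i)
  rw [eval_eq_sum, Polynomial.sum_def]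
  simp only [one_pow, mul_one]
  refine le_trans (Finset.sum_le_sum fun i _ => h1 i) ?_
  refine Finset.sum_le_sum_of_subset_of_nonneg ?_ (fun i _ _ => hP i)
  intro i hi
  rw [mem_support_iff] at hi ⊢
  have h3 := h1 i
  have h4 : 0 < |(p.coeff i : ℝ)| := abs_pos.mpr (by exact_mod_cast hi)
  linarith

theorem Dom.mul {p q : ℤ[X]} {M N : ℝ} (hp : Dom p M) (hq : Dom q N) (hN : 0 ≤ M) :
    Dom (p * q) (M * N) := by
  obtain ⟨P, h1, h2⟩ := hp
  obtain ⟨Q, h3, h4⟩ := hq
  have hP : ∀ i, 0 ≤ P.coeff i := fun i => (abs_nonneg _).trans (h1 i)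
  have hQ : ∀ i, 0 ≤ Q.coeff i := fun i => (abs_nonneg _).trans (h3 i)
  refine ⟨P * Q, fun i => ?_, ?_⟩
  · rw [coeff_mul, coeff_mul]
    push_cast
    refine (Finset.abs_sum_le_sum_abs _ _).trans (Finset.sum_le_sum fun x _ => ?_)
    rw [abs_mul]
    exact mul_le_mul (h1 _) (h3 _) (abs_nonneg _) (hP _)
  · rw [eval_mul]
    refine mul_le_mul h2 h4 ?_ hN
    rw [eval_eq_sum, Polynomial.sum_def]
    exact Finset.sum_nonneg fun i _ => by simpa using hQ i

theorem Dom.one : Dom 1 1 := by
  refine ⟨1, fun i => ?_, by simp⟩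
  rw [coeff_one, coeff_one]
  split_ifs <;> simp

theorem Dom.prod {ι : Type*} (s : Finset ι) (f : ι → ℤ[X]) (M : ℝ) (hM : 0 ≤ M)
    (h : ∀ i ∈ s, Dom (f i) M) : Dom (∏ i ∈ s, f i) (M ^ s.card) := by
  classical
  induction s using Finset.induction_on with
  | empty => simpa using Dom.one
  | insert a s ha ih =>
    rw [Finset.prod_insert ha, Finset.card_insert_of_notMem ha, pow_succ, mul_comm _ M]
    exact (h a (Finset.mem_insert_self _ _)).mul
      (ih fun i hi => h i (Finset.mem_insert_of_mem hi)) hM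

theorem Dom.sum {ι : Type*} (s : Finset ι) (f : ι → ℤ[X]) (M : ℝ)
    (h : ∀ i ∈ s, Dom (f i) M) : Dom (∑ i ∈ s, f i) (s.card * M) := by
  classical
  induction s using Finset.induction_on with
  | empty => exact ⟨0, by simp, by simp⟩
  | insert a s ha ih =>
    rw [Finset.sum_insert ha, Finset.card_insert_of_notMem ha]
    obtain ⟨P, h1, h2⟩ := h a (Finset.mem_insert_self _ _)
    obtain ⟨Q, h3, h4⟩ := ih fun i hi => h i (Finset.mem_insert_of_mem hi)
    refine ⟨P + Q, fun i => ?_, ?_⟩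
    · rw [coeff_add, coeff_add]
      push_cast
      exact (abs_add_le _ _).trans (add_le_add (h1 i) (h3 i))
    · rw [eval_add]
      push_cast
      linarith

theorem Dom.smul_sign {p : ℤ[X]} {M : ℝ} (u : ℤˣ) (h : Dom p M) : Dom (u • p) M := by
  obtain ⟨P, h1, h2⟩ := h
  refine ⟨P, fun i => ?_, h2⟩
  rcases Int.units_eq_one_or u with rfl | rfl
  · simpa using h1 i
  · simpa using h1 i

theorem dom_hasse (p : ℤ[X]) (n j : ℕ) (hn : p.natDegree ≤ n) (L : ℝ) (hL1 : 1 ≤ L)
    (hL : ∀ k, |(p.coeff k : ℝ)| ≤ L) : Dom (hasseDeriv j p) ((n + 1) * 2 ^ n * L) := by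
  refine ⟨∑ k ∈ Finset.range (n + 1), monomial k (2 ^ n * L), fun i => ?_, ?_⟩
  · rw [finsetSum_coeff]
    simp only [coeff_monomial]
    rw [Finset.sum_ite_eq']
    rw [hasseDeriv_coeff]
    by_cases hi : i + j ≤ n
    · rw [if_pos (Finset.mem_range.mpr (by omega))]
      push_cast
      rw [abs_mul]
      refine mul_le_mul ?_ (hL _) (abs_nonneg _) (by positivity)
      rw [abs_of_nonneg (by positivity)]
      have h1 : (i + j).choose j ≤ 2 ^ (i + j) := Nat.choose_le_two_pow _ _
      have h2 : (2 : ℕ) ^ (i + j) ≤ 2 ^ n := Nat.pow_le_pow_right (by norm_num) hi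
      exact_mod_cast h1.trans h2
    · rw [coeff_eq_zero_of_natDegree_lt (by omega), mul_zero]
      simp only [Int.cast_zero, abs_zero]
      split_ifs <;> positivity
  · rw [eval_finsetSum]
    simp only [eval_monomial, one_pow, mul_one, Finset.sum_const, Finset.card_range, nsmul_eq_mul]
    push_cast
    linarith

theorem dvd_hasse {K : Type*} [Field K] (x : K) (F : K[X]) (e ρ j : ℕ) (hj : j < ρ)
    (h : (X - C x) ^ (e + ρ) ∣ F) : (X - C x) ^ e ∣ hasseDeriv j F := by
  rw [X_sub_C_pow_dvd_iff, X_pow_dvd_iff] at h ⊢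
  intro d hd
  have h1 : (hasseDeriv (d + j) F).eval x = 0 := by
    rw [← taylor_coeff]
    exact h (d + j) (by omega)
  have h2 : ((hasseDeriv j F).comp (X + C x)).coeff d = (hasseDeriv d (hasseDeriv j F)).eval x := by
    rw [← taylor_coeff]
    rfl
  rw [h2, ← LinearMap.comp_apply, hasseDeriv_comp, LinearMap.smul_apply, eval_smul, h1, smul_zero]

theorem dvd_W {K : Type*} [Field K] {ρ : ℕ} (f : Fin ρ → K[X]) (x : K) (φ : Fin ρ → K) (e : ℕ)
    (hφ : φ ≠ 0) (h : (X - C x) ^ (e + ρ) ∣ ∑ i, C (φ i) * f i) : (X - C x) ^ e ∣ W f := by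
  classical
  obtain ⟨i0, hi0⟩ : ∃ i, φ i ≠ 0 := by
    by_contra hc
    push Not at hc
    exact hφ (funext hc)
  set F : K[X] := ∑ i, C (φ i) * f i with hF
  set M : Matrix (Fin ρ) (Fin ρ) K[X] := Matrix.of fun i j : Fin ρ => hasseDeriv (j : ℕ) (f i)
    with hM
  have h1 : ∀ j : Fin ρ, ∃ q : K[X], hasseDeriv (j : ℕ) F = (X - C x) ^ e * q := fun j =>
    dvd_hasse x F e ρ j j.2 h
  choose q hq using h1
  have h2 : (M.updateRow i0 (∑ k, C (φ k) • M k)).det = C (φ i0) • M.det :=
    Matrix.det_updateRow_sum M i0 (fun k => C (φ k))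
  have h3 : (∑ k, C (φ k) • M k) = (X - C x) ^ e • q := by
    ext1 j
    rw [Finset.sum_apply, Pi.smul_apply, smul_eq_mul, ← hq j, hF, map_sum]
    refine Finset.sum_congr rfl fun k _ => ?_
    rw [Pi.smul_apply, smul_eq_mul, hM, Matrix.of_apply, ← smul_eq_C_mul, ← smul_eq_C_mul,
      map_smul]
  rw [h3, Matrix.det_updateRow_smul] at h2
  have h4 : (X - C x) ^ e ∣ C (φ i0) * M.det := by
    rw [← smul_eq_mul (C (φ i0)) M.det, ← h2]
    exact Dvd.intro _ rfl
  have h5 : IsUnit (C (φ i0)) := isUnit_C.mpr (isUnit_iff_ne_zero.mpr hi0)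
  exact (h5.dvd_mul_left).mp h4

end VG

theorem wronskian {ρ : ℕ} (c : Fin ρ → Polynomial ℤ) (hc : LinearIndependent ℤ c) (n : ℕ)
    (hn : ∀ i, (c i).natDegree ≤ n) (L : ℝ) (hL1 : 1 ≤ L)
    (hL : ∀ i k, |((c i).coeff k : ℝ)| ≤ L) :
    ∃ W : Polynomial ℤ, W ≠ 0 ∧
      ∑ i ∈ W.support, |(W.coeff i : ℝ)| ≤ ρ.factorial * ((n + 1) * 2 ^ n * L) ^ ρ ∧
      ∀ (K : Type) [Field K] [CharZero K] (x : K) (φ : Fin ρ → K) (e : ℕ), φ ≠ 0 →
        (Polynomial.X - Polynomial.C x) ^ (e + ρ) ∣
          ∑ i, Polynomial.C (φ i) * (c i).map (Int.castRingHom K) →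
        (Polynomial.X - Polynomial.C x) ^ e ∣ W.map (Int.castRingHom K) := by
  classical
  refine ⟨VG.W c, VG.W_ne_zero_int c hc, ?_, ?_⟩
  · apply VG.Dom.sum_le
    have h1 : VG.Dom (VG.W c) (((Finset.univ : Finset (Equiv.Perm (Fin ρ))).card : ℝ) *
        ((n + 1) * 2 ^ n * L) ^ ρ) := by
      unfold VG.W
      rw [Matrix.det_apply]
      refine VG.Dom.sum _ _ _ fun σ _ => VG.Dom.smul_sign _ ?_
      have h2 := VG.Dom.prod (Finset.univ : Finset (Fin ρ))
        (fun i => (Matrix.of fun i j : Fin ρ => Polynomial.hasseDeriv (j : ℕ) (c i)) (σ i) i)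
        ((n + 1) * 2 ^ n * L) (by positivity)
        (fun i _ => VG.dom_hasse (c (σ i)) n (i : ℕ) (hn _) L hL1 (hL _))
      simpa using h2
    simpa [Finset.card_univ, Fintype.card_perm] using h1
  · intro K _ _ x φ e hφ h
    rw [VG.W_map]
    exact VG.dvd_W _ x φ e hφ h

end Pool.Agent.L3
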