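import Pool.Agent.Lib.MP_c95b3b_ag_L3.Defs
import Pool.Agent.Lib.MP_c95b3b_ag_L3.VA
import Pool.Agent.Lib.MP_c95b3b_ag_L3.VD
import Pool.Agent.Lib.MP_c95b3b_ag_L3.VE
import Pool.Agent.Lib.MP_c95b3b_ag_L3.VF
import Pool.Agent.Lib.MP_c95b3b_ag_L3.VG

/-! Project L3 (MP_c95b3b_ag), module VH: two solutions with proportional vectors. -/

namespace Pool.Agent.L3

namespace VH

open Polynomial

/-- the column polynomials -/
noncomputable def col (n : ℕ) (q : ℕ → ℕ → ℤ) (k : ℕ) : ℤ[X] :=
  ∑ i ∈ Finset.range (n + 1), monomial i (q i k)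

theorem col_coeff (n : ℕ) (q : ℕ → ℕ → ℤ) (k i : ℕ) :
    (col n q k).coeff i = if i ≤ n then q i k else 0 := by
  simp only [col, finsetSum_coeff, coeff_monomial]
  by_cases h : i ≤ n
  · rw [if_pos h, Finset.sum_eq_single i]
    · simp
    · intro b _ hb
      rw [if_neg hb]
    · intro hi
      exact absurd (Finset.mem_range.mpr (Nat.lt_succ_of_le h)) hi
  · rw [if_neg h]
    apply Finset.sum_eq_zero
    intro b hb
    rw [if_neg]
    rintro rfl
    exact h (Nat.lt_succ_iff.mp (Finset.mem_range.mp hb))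

/-- the polynomial in `X` at the point `y` -/
noncomputable def bigF {K : Type} [Field K] (n : ℕ) (q : ℕ → ℕ → ℤ) (y : K) : K[X] :=
  ∑ k ∈ Finset.range 101, C (y ^ k) * (col n q k).map (Int.castRingHom K)

theorem bigF_coeff {K : Type} [Field K] (n : ℕ) (q : ℕ → ℕ → ℤ) (y : K) (i : ℕ) :
    (bigF n q y).coeff i =
      if i ≤ n then ∑ k ∈ Finset.range 101, (q i k : K) * y ^ k else 0 := by
  simp only [bigF, finsetSum_coeff, coeff_C_mul, coeff_map, col_coeff]
  split_ifs with h
  · apply Finset.sum_congr rfl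
    intro k _
    simp [mul_comm]
  · simp

theorem bigF_eq {K : Type} [Field K] (n : ℕ) (q : ℕ → ℕ → ℤ) (y : K) :
    bigF n q y = ∑ i ∈ Finset.range (n + 1),
      monomial i (∑ k ∈ Finset.range 101, (q i k : K) * y ^ k) := by
  ext i
  rw [bigF_coeff]
  simp only [finsetSum_coeff, coeff_monomial]
  by_cases h : i ≤ n
  · rw [if_pos h]
    symm
    rw [Finset.sum_eq_single i]
    · simp
    · intro b _ hb
      rw [if_neg hb]
    · intro hi
      exact absurd (Finset.mem_range.mpr (Nat.lt_succ_of_le h)) hi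
  · rw [if_neg h]
    symm
    apply Finset.sum_eq_zero
    intro b hb
    rw [if_neg]
    rintro rfl
    exact h (Nat.lt_succ_iff.mp (Finset.mem_range.mp hb))

/-- the derived coefficients -/
def q1 (n E : ℕ) (q : ℕ → ℕ → ℤ) (i k : ℕ) : ℤ :=
  if i ≤ n - E then (i + E).choose E * q (i + E) k else 0

theorem hasse_eval {K : Type} [Field K] (n E : ℕ) (hE : E ≤ n) (q : ℕ → ℕ → ℤ) (x y : K) :
    (hasseDeriv E (bigF n q y)).eval x = val (n - E) (q1 n E q) x y := by
  have hn : n + 1 = E + (n - E + 1) := by omega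
  rw [bigF_eq, map_sum, eval_finsetSum, hn, Finset.sum_range_add, val]
  have h1 : ∑ i ∈ Finset.range E, eval x (hasseDeriv E (monomial i
      (∑ k ∈ Finset.range 101, (q i k : K) * y ^ k))) = 0 := by
    apply Finset.sum_eq_zero
    intro i hi
    rw [hasseDeriv_monomial, Nat.choose_eq_zero_of_lt (Finset.mem_range.mp hi)]
    simp
  rw [h1, zero_add]
  apply Finset.sum_congr rfl
  intro i hi
  have hi' : i ≤ n - E := Nat.lt_succ_iff.mp (Finset.mem_range.mp hi)
  rw [hasseDeriv_monomial, eval_monomial, Nat.add_sub_cancel_left, Finset.mul_sum, Finset.sum_mul]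
  apply Finset.sum_congr rfl
  intro k _
  rw [q1, if_pos hi', Nat.add_comm E i]
  push_cast
  ring

/-- the leading Taylor coefficient does not vanish -/
theorem hasse_ne_zero {K : Type} [Field K] (F : K[X]) (hF : F ≠ 0) (x : K) :
    (hasseDeriv (F.rootMultiplicity x) F).eval x ≠ 0 := by
  obtain ⟨G, hG1, hG2⟩ := exists_eq_pow_rootMultiplicity_mul_and_not_dvd F hF x
  set E := F.rootMultiplicity x with hE
  rw [← taylor_coeff, hG1, taylor_mul, taylor_pow]
  have h1 : taylor x (X - C x) = X := by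
    simp
  rw [h1, coeff_X_pow_mul' ]
  simp only [le_refl, if_true, Nat.sub_self, taylor_coeff_zero]
  rwa [Ne, ← IsRoot.def, ← dvd_iff_isRoot]

theorem natDegree_bigF {K : Type} [Field K] (n : ℕ) (q : ℕ → ℕ → ℤ) (y : K) :
    (bigF n q y).natDegree ≤ n := by
  rw [natDegree_le_iff_coeff_eq_zero]
  intro N hN
  rw [bigF_coeff, if_neg (by omega)]

theorem natDegree_col (n : ℕ) (q : ℕ → ℕ → ℤ) (k : ℕ) :
    (col n q k).natDegree ≤ n := by
  rw [natDegree_le_iff_coeff_eq_zero]
  intro N hN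
  rw [col_coeff, if_neg (by omega)]

theorem q1_bound {n E : ℕ} (hE : E ≤ n) {q : ℕ → ℕ → ℤ} {c : ℝ}
    (hq : ∀ i k, |(q i k : ℝ)| ≤ Real.exp c) (i k : ℕ) :
    |(q1 n E q i k : ℝ)| ≤ Real.exp (c + n * Real.log 2) := by
  rw [q1]
  split_ifs with hi
  · have h1 : ((i + E).choose E : ℝ) ≤ 2 ^ n := by
      have e1 : (i + E).choose E ≤ 2 ^ (i + E) := Nat.choose_le_two_pow _ _
      have e2 : 2 ^ (i + E) ≤ 2 ^ n := Nat.pow_le_pow_right (by norm_num) (by omega)
      exact_mod_cast e1.trans e2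
    have h2 : Real.exp (c + n * Real.log 2) = 2 ^ n * Real.exp c := by
      rw [Real.exp_add, mul_comm (n : ℝ), Real.exp_mul, Real.exp_log (by norm_num),
        Real.rpow_natCast]
      ring
    rw [h2]
    push_cast
    rw [abs_mul, abs_of_nonneg (by positivity : (0 : ℝ) ≤ ((i + E).choose E : ℝ))]
    exact mul_le_mul h1 (hq _ _) (abs_nonneg _) (by positivity)
  · simp only [Int.cast_zero, abs_zero]
    positivity

theorem van_q1 {s : ℝ} {n E : ℕ} (hE : E ≤ n) {τ : ℝ} {q : ℕ → ℕ → ℤ}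
    (hV : Van s n τ q) : Van s (n - E) (τ - E) (q1 n E q) := by
  refine ⟨?_, ?_, ?_⟩
  · intro i k h
    rw [q1]
    split_ifs with hi
    · rw [hV.zero (i + E) k (by push_cast; linarith), mul_zero]
    · rfl
  · intro i k hi hk h
    rw [q1, if_pos hi, hV.inf (i + E) k (by omega) hk, mul_zero]
    push_cast [Nat.cast_sub hE] at h ⊢
    have : (0 : ℝ) ≤ E := Nat.cast_nonneg E
    linarith
  · intro α β h
    have h1 := hV.one (α + E) β (by push_cast; linarith)
    have hn : n + 1 = E + (n - E + 1) := by omega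
    rw [hn, Finset.sum_range_add] at h1
    have h0 : ∑ i ∈ Finset.range E, ∑ k ∈ Finset.range 101,
        q i k * (i.choose (α + E)) * (k.choose β) = 0 := by
      apply Finset.sum_eq_zero
      intro i hi
      apply Finset.sum_eq_zero
      intro k _
      rw [Nat.choose_eq_zero_of_lt (by have := Finset.mem_range.mp hi; omega)]
      simp
    rw [h0, zero_add] at h1
    have h2 : ∑ i ∈ Finset.range (n - E + 1), ∑ k ∈ Finset.range 101,
        q1 n E q i k * (i.choose α) * (k.choose β) =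
        ((α + E).choose E : ℤ) * ∑ i ∈ Finset.range (n - E + 1), ∑ k ∈ Finset.range 101,
        q (E + i) k * ((E + i).choose (α + E)) * (k.choose β) := by
      rw [Finset.mul_sum]
      apply Finset.sum_congr rfl
      intro i hi
      rw [Finset.mul_sum]
      apply Finset.sum_congr rfl
      intro k _
      have hi' : i ≤ n - E := Nat.lt_succ_iff.mp (Finset.mem_range.mp hi)
      rw [q1, if_pos hi']
      have e : (i + E).choose E * i.choose α = (α + E).choose E * (E + i).choose (α + E) := by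
        rcases le_or_gt α i with hα | hα
        · have := Nat.choose_mul (n := i + E) (k := α + E) (s := E) (by omega)
          rw [Nat.add_sub_cancel, Nat.add_sub_cancel] at this
          rw [Nat.add_comm E i]
          linarith
        · rw [Nat.choose_eq_zero_of_lt hα, Nat.choose_eq_zero_of_lt (by omega : E + i < α + E)]
          simp
      have e' : (((i + E).choose E : ℕ) : ℤ) * ((i.choose α : ℕ) : ℤ) =
          (((α + E).choose E : ℕ) : ℤ) * (((E + i).choose (α + E) : ℕ) : ℤ) := by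
        exact_mod_cast e
      calc (((i + E).choose E : ℕ) : ℤ) * q (i + E) k * ((i.choose α : ℕ) : ℤ) *
            ((k.choose β : ℕ) : ℤ)
          = (((i + E).choose E : ℕ) : ℤ) * ((i.choose α : ℕ) : ℤ) * q (i + E) k *
            ((k.choose β : ℕ) : ℤ) := by ring
        _ = _ := by
          rw [e', Nat.add_comm E i]
          ring
    rw [h2, h1, mul_zero]

set_option maxRecDepth 10000 in
theorem bigF_ne_zero {K : Type} [Field K] {R : Subring K} (P : Places K R) {n : ℕ}
    {q : ℕ → ℕ → ℤ} {y : K} {i0 k0 : ℕ} (hi0 : i0 ≤ n) (hk0 : k0 ≤ 100) (hq0 : q i0 k0 ≠ 0)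
    {c : ℝ} (hq : ∀ i k, |(q i k : ℝ)| ≤ Real.exp c)
    (hy : Real.log 101 + c < P.avg (fun w => max 0 (P.lg w y))) : bigF n q y ≠ 0 := by
  intro hF
  have h1 : ∑ k ∈ Finset.range 101, (q i0 k : K) * y ^ k = 0 := by
    have := congrArg (fun G => G.coeff i0) hF
    simpa only [bigF_coeff, if_pos hi0, coeff_zero] using this
  set T : ℤ[X] := col 100 (fun i _ => q i0 i) 0 with hT
  have hT0 : T ≠ 0 := by
    intro h
    apply hq0
    have := congrArg (fun G => G.coeff k0) h
    simpa only [hT, col_coeff, if_pos hk0, coeff_zero] using this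
  have hd : (X - C y) ^ 1 ∣ T.map (Int.castRingHom K) := by
    rw [pow_one, dvd_iff_isRoot, IsRoot.def, hT, col, Polynomial.map_sum, eval_finsetSum]
    simpa only [map_monomial, eval_monomial, eq_intCast] using h1
  have hL : ∑ i ∈ T.support, |(T.coeff i : ℝ)| ≤ 101 * Real.exp c := by
    have hsub : T.support ⊆ Finset.range 101 := by
      intro i hi
      rw [mem_support_iff] at hi
      rw [Finset.mem_range]
      by_contra hcon
      apply hi
      rw [hT, col_coeff, if_neg (by omega)]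
    calc ∑ i ∈ T.support, |(T.coeff i : ℝ)| ≤ ∑ i ∈ Finset.range 101, |(T.coeff i : ℝ)| :=
          Finset.sum_le_sum_of_subset_of_nonneg hsub fun _ _ _ => abs_nonneg _
      _ ≤ ∑ i ∈ Finset.range 101, Real.exp c := by
          apply Finset.sum_le_sum
          intro i hi
          rw [hT, col_coeff, if_pos (by have := Finset.mem_range.mp hi; omega)]
          exact hq _ _
      _ = 101 * Real.exp c := by
          rw [Finset.sum_const, Finset.card_range, nsmul_eq_mul]
          norm_num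
  have h2 := order_bound P y T hT0 1 _ hL hd
  rw [Real.log_mul (by norm_num) (Real.exp_pos c).ne', Real.log_exp] at h2
  push_cast at h2
  linarith

theorem avg_max_le {K : Type} [Field K] {R : Subring K} (P : Places K R) (x y : K) {s : ℝ}
    (hs : 0 ≤ s) : s * P.avg (fun w => max 0 (P.lg w x)) ≤
      P.avg (fun w => max 0 (P.lg w y)) + P.avg (fun w => ‖P.lv w y - s • P.lv w x‖) := by
  rw [← P.avg_mul, ← P.avg_add]
  apply P.avg_mono
  intro w
  have h1 : |P.lg w y - s * P.lg w x| ≤ ‖P.lv w y - s • P.lv w x‖ := by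
    have := norm_fst_le (P.lv w y - s • P.lv w x)
    simpa only [Prod.fst_sub, Prod.smul_fst, smul_eq_mul, Real.norm_eq_abs, P.lv_fst] using this
  have h2 := (abs_le.mp h1).1
  rw [mul_max_of_nonneg _ _ hs, mul_zero]
  apply max_le
  · exact add_nonneg (le_max_left _ _) (norm_nonneg _)
  · have := le_max_right 0 (P.lg w y)
    linarith

/-- a minimal subfamily of the polynomials whose `K`-span contains `F` is independent -/
theorem exists_sub {K : Type} [Field K] [CharZero K] (v : ℕ → ℤ[X]) (N : ℕ) (a : ℕ → K)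
    (F : K[X]) (hF : F = ∑ k ∈ Finset.range N, C (a k) * (v k).map (Int.castRingHom K))
    (hF0 : F ≠ 0) :
    ∃ (ρ : ℕ) (e : Fin ρ → ℕ) (φ : Fin ρ → K), ρ ≤ N ∧ LinearIndependent ℤ (fun i => v (e i)) ∧
      φ ≠ 0 ∧ F = ∑ i, C (φ i) * (v (e i)).map (Int.castRingHom K) := by
  classical
  set u : ℕ → K[X] := fun k => (v k).map (Int.castRingHom K) with hu
  have hne : ((Finset.range N).powerset.filter
      (fun S : Finset ℕ => F ∈ Submodule.span K (u '' (S : Set ℕ)))).Nonempty := by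
    refine ⟨Finset.range N, ?_⟩
    rw [Finset.mem_filter, Finset.mem_powerset]
    refine ⟨Finset.Subset.refl _, ?_⟩
    rw [hF]
    apply Submodule.sum_mem
    intro k hk
    rw [← smul_eq_C_mul]
    apply Submodule.smul_mem
    apply Submodule.subset_span
    exact ⟨k, hk, rfl⟩
  obtain ⟨S, hS, hmin⟩ := Finset.exists_min_image _ Finset.card hne
  rw [Finset.mem_filter, Finset.mem_powerset] at hS
  obtain ⟨hSN, hSF⟩ := hS
  set e : Fin S.card → ℕ := fun i => (S.equivFin.symm i : ℕ) with he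
  have heS : ∀ i, e i ∈ S := fun i => (S.equivFin.symm i).2
  have heinj : Function.Injective e := fun i i' h =>
    S.equivFin.symm.injective (Subtype.ext h)
  have hesurj : ∀ k ∈ S, ∃ i, e i = k := fun k hk => ⟨S.equivFin ⟨k, hk⟩, by simp [he]⟩
  have hrange : u '' (S : Set ℕ) = Set.range (fun i => u (e i)) := by
    ext p
    constructor
    · rintro ⟨k, hk, rfl⟩
      obtain ⟨i, hi⟩ := hesurj k hk
      exact ⟨i, by simp only [hi]⟩
    · rintro ⟨i, rfl⟩
      exact ⟨e i, heS i, rfl⟩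
  rw [hrange, Submodule.mem_span_range_iff_exists_fun] at hSF
  obtain ⟨φ, hφ⟩ := hSF
  refine ⟨S.card, e, φ, ?_, ?_, ?_, ?_⟩
  · have := Finset.card_le_card hSN
    rwa [Finset.card_range] at this
  · rw [Fintype.linearIndependent_iff]
    intro g hg i0
    by_contra hgi
    have hgK : ((g i0 : ℤ) : K) ≠ 0 := by exact_mod_cast hgi
    have hrel : ∑ i, ((g i : ℤ) : K) • u (e i) = 0 := by
      have := congrArg (fun p => p.map (Int.castRingHom K)) hg
      simp only [Polynomial.map_sum, Polynomial.map_zero] at this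
      rw [← this]
      apply Finset.sum_congr rfl
      intro i _
      simp only [hu]
      rw [smul_eq_C_mul, smul_eq_C_mul, Polynomial.map_mul, map_C, eq_intCast]
    have hmem : S.erase (e i0) ∈ (Finset.range N).powerset.filter
        (fun S : Finset ℕ => F ∈ Submodule.span K (u '' (S : Set ℕ))) := by
      rw [Finset.mem_filter, Finset.mem_powerset]
      refine ⟨(Finset.erase_subset _ _).trans hSN, ?_⟩
      have hother : ∀ i, i ≠ i0 → u (e i) ∈ Submodule.span K (u '' (S.erase (e i0) : Set ℕ)) := by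
        intro i hi
        apply Submodule.subset_span
        refine ⟨e i, ?_, rfl⟩
        rw [Finset.mem_coe, Finset.mem_erase]
        exact ⟨fun h => hi (heinj h), heS i⟩
      have hi0 : u (e i0) ∈ Submodule.span K (u '' (S.erase (e i0) : Set ℕ)) := by
        rw [← Finset.add_sum_erase _ _ (Finset.mem_univ i0)] at hrel
        have h1 : u (e i0) = -((g i0 : K)⁻¹ • ∑ i ∈ Finset.univ.erase i0,
            ((g i : ℤ) : K) • u (e i)) := by
          have h2 := eq_neg_of_add_eq_zero_left hrel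
          rw [← smul_neg, ← h2, smul_smul, inv_mul_cancel₀ hgK, one_smul]
        rw [h1]
        apply Submodule.neg_mem
        apply Submodule.smul_mem
        apply Submodule.sum_mem
        intro i hi
        apply Submodule.smul_mem
        exact hother i (Finset.ne_of_mem_erase hi)
      rw [← hφ]
      apply Submodule.sum_mem
      intro i _
      apply Submodule.smul_mem
      rcases eq_or_ne i i0 with h | h
      · rw [h]
        exact hi0
      · exact hother i h
    have h3 := hmin _ hmem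
    have h4 := Finset.card_erase_lt_of_mem (heS i0)
    omega
  · rintro rfl
    apply hF0
    rw [← hφ]
    simp
  · rw [← hφ]
    apply Finset.sum_congr rfl
    intro i _
    rw [smul_eq_C_mul]

theorem log_bound {n ρ : ℕ} (hρ : ρ ≤ 101) {c : ℝ} (hc : 0 ≤ c) :
    Real.log ((ρ.factorial : ℝ) * ((n + 1) * 2 ^ n * Real.exp c) ^ ρ) ≤
      Real.log ((Nat.factorial 101 : ℕ) : ℝ) + 101 * (2 * n + c) := by
  have h1 : (1 : ℝ) ≤ (n + 1) * 2 ^ n * Real.exp c := by
    have e1 : (1 : ℝ) ≤ n + 1 := by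
      have : (0 : ℝ) ≤ n := Nat.cast_nonneg n
      linarith
    have e2 : (1 : ℝ) ≤ 2 ^ n := one_le_pow₀ (by norm_num)
    have e3 : (1 : ℝ) ≤ Real.exp c := Real.one_le_exp hc
    calc (1 : ℝ) = 1 * 1 * 1 := by norm_num
      _ ≤ (n + 1) * 2 ^ n * Real.exp c := by gcongr
  have h2 : (ρ.factorial : ℝ) ≤ ((Nat.factorial 101 : ℕ) : ℝ) := by
    exact_mod_cast Nat.factorial_le hρ
  have h3 : ((n + 1) * 2 ^ n * Real.exp c) ^ ρ ≤ ((n + 1) * 2 ^ n * Real.exp c) ^ 101 :=
    pow_le_pow_right₀ h1 hρ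
  have h4 : (0 : ℝ) < (ρ.factorial : ℝ) := by exact_mod_cast Nat.factorial_pos ρ
  have h5 : (0 : ℝ) < ((Nat.factorial 101 : ℕ) : ℝ) := by exact_mod_cast Nat.factorial_pos 101
  have hpos : (0 : ℝ) < (n + 1) * 2 ^ n * Real.exp c := by linarith
  calc Real.log ((ρ.factorial : ℝ) * ((n + 1) * 2 ^ n * Real.exp c) ^ ρ) ≤
      Real.log (((Nat.factorial 101 : ℕ) : ℝ) * ((n + 1) * 2 ^ n * Real.exp c) ^ 101) := by
        apply Real.log_le_log (by positivity)
        exact mul_le_mul h2 h3 (by positivity) h5.le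
    _ = Real.log ((Nat.factorial 101 : ℕ) : ℝ) +
        101 * (Real.log (n + 1) + n * Real.log 2 + c) := by
        rw [Real.log_mul h5.ne' (by positivity), Real.log_pow, Real.log_mul (by positivity)
          (Real.exp_pos c).ne', Real.log_mul (by positivity) (by positivity), Real.log_pow,
          Real.log_exp]
        push_cast
        ring
    _ ≤ Real.log ((Nat.factorial 101 : ℕ) : ℝ) + 101 * (2 * n + c) := by
        have e1 : Real.log ((n : ℝ) + 1) ≤ n := by
          have := Real.log_le_sub_one_of_pos (by positivity : (0 : ℝ) < (n : ℝ) + 1)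
          linarith
        have e2 : Real.log 2 ≤ 1 := by
          have := Real.log_le_sub_one_of_pos (by norm_num : (0 : ℝ) < 2)
          linarith
        have e3 : (n : ℝ) * Real.log 2 ≤ n * 1 :=
          mul_le_mul_of_nonneg_left e2 (Nat.cast_nonneg n)
        linarith

theorem order_le {K : Type} [Field K] {R : Subring K} (P : Places K R) {n : ℕ}
    {q : ℕ → ℕ → ℤ} {x y : K} {s C1 a : ℝ} (hs : 1 ≤ s) (hn : (n : ℝ) ≤ 101 * s)
    (hC1 : 0 ≤ C1) (hq : ∀ i k, |(q i k : ℝ)| ≤ Real.exp (C1 * s)) (ha : 0 < a)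
    (hx : a ≤ P.avg (fun w => max 0 (P.lg w x))) (hF : bigF n q y ≠ 0) :
    (((bigF n q y).rootMultiplicity x : ℝ) - 101) * a ≤
      (Real.log ((Nat.factorial 101 : ℕ) : ℝ) + 101 * (202 + C1)) * s := by
  have hlog0 : 0 ≤ Real.log ((Nat.factorial 101 : ℕ) : ℝ) := by
    apply Real.log_nonneg
    exact_mod_cast Nat.factorial_pos 101
  have hs0 : 0 < s := by linarith
  set E := (bigF n q y).rootMultiplicity x with hE
  rcases le_or_gt E 101 with h | h
  · have e1 : ((E : ℝ) - 101) * a ≤ 0 := by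
      apply mul_nonpos_of_nonpos_of_nonneg _ ha.le
      have : (E : ℝ) ≤ 101 := by exact_mod_cast h
      linarith
    have e2 : 0 ≤ (Real.log ((Nat.factorial 101 : ℕ) : ℝ) + 101 * (202 + C1)) * s := by
      positivity
    linarith
  · have := P.charZero
    obtain ⟨ρ, e, φ, hρ, hli, hφ, hFe⟩ := exists_sub (col n q) 101 (fun k => y ^ k) _ rfl hF
    obtain ⟨W, hW0, hWL, hWd⟩ := wronskian (fun i => col n q (e i)) hli n
      (fun i => natDegree_col n q (e i)) (Real.exp (C1 * s))
      (Real.one_le_exp (by positivity))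
      (fun i k => by
        simp only [col_coeff]
        split_ifs
        · exact hq _ _
        · simp only [Int.cast_zero, abs_zero]
          positivity)
    have hd : (X - C x) ^ ((E - ρ) + ρ) ∣
        ∑ i, C (φ i) * (col n q (e i)).map (Int.castRingHom K) := by
      rw [← hFe, Nat.sub_add_cancel (by omega), hE]
      exact pow_rootMultiplicity_dvd _ _
    have h1 := order_bound P x W hW0 (E - ρ) _ hWL (hWd K x φ (E - ρ) hφ hd)
    have h2 := log_bound (n := n) hρ (c := C1 * s) (by positivity)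
    have h3 : ((E : ℝ) - 101) * a ≤ ((E - ρ : ℕ) : ℝ) * P.avg (fun w => max 0 (P.lg w x)) := by
      rw [Nat.cast_sub (by omega)]
      have e1 : (ρ : ℝ) ≤ 101 := by exact_mod_cast hρ
      have e2 : (101 : ℝ) < E := by exact_mod_cast h
      apply mul_le_mul _ hx ha.le (by linarith)
      linarith
    have h4 : Real.log ((Nat.factorial 101 : ℕ) : ℝ) ≤
        Real.log ((Nat.factorial 101 : ℕ) : ℝ) * s := le_mul_of_one_le_right hlog0 hs
    calc ((E : ℝ) - 101) * a ≤ _ := h3
      _ ≤ _ := h1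
      _ ≤ _ := h2
      _ ≤ Real.log ((Nat.factorial 101 : ℕ) : ℝ) * s + 101 * (2 * (101 * s) + C1 * s) := by
          linarith
      _ = (Real.log ((Nat.factorial 101 : ℕ) : ℝ) + 101 * (202 + C1)) * s := by ring

theorem rootMult_le {K : Type} [Field K] {n : ℕ} {q : ℕ → ℕ → ℤ} {x y : K}
    (hF : bigF n q y ≠ 0) : (bigF n q y).rootMultiplicity x ≤ n := by
  have h1 := natDegree_le_of_dvd (pow_rootMultiplicity_dvd (bigF n q y) x) hF
  rw [natDegree_pow, natDegree_X_sub_C, mul_one] at h1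
  exact h1.trans (natDegree_bigF n q y)

/-- the case of large `s` is impossible -/
theorem big_case {C0 C1 C2 C3 : ℝ} (hC1 : 0 ≤ C1)
    (hC3 : C3 = Real.log ((Nat.factorial 101 : ℕ) : ℝ) + 101 * (202 + C1))
    (heval : ∀ (K : Type) [Field K] (R : Subring K) (P : Places K R)
      (x y : K) (j : P.Pl → Fin 3) (t : P.Pl → ℝ) (h s τ c : ℝ) (n : ℕ) (q : ℕ → ℕ → ℤ),
      UU R x → UU R y → Dec P x j t h → 0 ≤ h → 1 ≤ s → 0 ≤ τ → τ ≤ 80 * s → 0 ≤ c →
      (n : ℝ) ≤ 100 * s + 1 →
      P.avg (fun w => ‖P.lv w y - s • P.lv w x‖) ≤ C0 * s →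
      (∀ i k, |(q i k : ℝ)| ≤ Real.exp c) → Van s n τ q → val n q x y ≠ 0 →
      3 * τ * h ≤ 200 * s * h + h + c + C2 * s)
    {K : Type} [Field K] {R : Subring K} (P : Places K R)
    {x y : K} {j : P.Pl → Fin 3} {t : P.Pl → ℝ} {h s : ℝ} {n : ℕ} {q : ℕ → ℕ → ℤ}
    (hx : UU R x) (hy : UU R y) (hdec : Dec P x j t h) (hs : 10 ≤ s)
    (havg : P.avg (fun w => ‖P.lv w y - s • P.lv w x‖) ≤ C0 * s)
    (hn : (n : ℝ) ≤ 100 * s + 1) {i0 k0 : ℕ} (hi0 : i0 ≤ n) (hk0 : k0 ≤ 100) (hq0 : q i0 k0 ≠ 0)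
    (hq : ∀ i k, |(q i k : ℝ)| ≤ Real.exp (C1 * s)) (hV : Van s n (80 * s) q)
    {L : ℝ} (hL : Real.log 101 ≤ L) (hL0 : 0 ≤ L)
    (hh8 : 8 ≤ h) (hh3 : 2 * C3 ≤ h) (hh0 : 5 + C0 + C1 + L ≤ h)
    (hh5 : |C2| + C1 + 101 + 6 * C3 ≤ h) : False := by
  have hs0 : 0 < s := by linarith
  have hC30 : 0 ≤ C3 := by
    have : 0 ≤ Real.log ((Nat.factorial 101 : ℕ) : ℝ) := by
      apply Real.log_nonneg
      exact_mod_cast Nat.factorial_pos 101
    rw [hC3]
    positivity
  have hmx : h - 4 ≤ P.avg (fun w => max 0 (P.lg w x)) := by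
    have := (abs_le.mp hdec.avg_norm.2.2).1
    linarith
  have hmy : Real.log 101 + C1 * s < P.avg (fun w => max 0 (P.lg w y)) := by
    have h1 := avg_max_le P x y hs0.le
    have h2 := mul_le_mul_of_nonneg_left hmx hs0.le
    have h3 : L ≤ L * s := le_mul_of_one_le_right hL0 (by linarith)
    have h4 : (1 + C0 + C1 + L) * s ≤ (h - 4) * s :=
      mul_le_mul_of_nonneg_right (by linarith) hs0.le
    nlinarith
  have hF := bigF_ne_zero P (y := y) hi0 hk0 hq0 hq hmy
  clear hmy hL
  set E := (bigF n q y).rootMultiplicity x with hE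
  have hEn : E ≤ n := rootMult_le hF
  have hord := order_le P (x := x) (by linarith : (1 : ℝ) ≤ s) (by linarith : (n : ℝ) ≤ 101 * s)
    hC1 hq (by linarith : 0 < h - 4) hmx hF
  rw [← hC3, ← hE] at hord
  have hval : val (n - E) (q1 n E q) x y ≠ 0 := by
    rw [← hasse_eval n E hEn q x y]
    exact hasse_ne_zero _ hF x
  clear hC3 hF
  clear_value E
  have hE2 : ((E : ℝ) - 101) * h ≤ 2 * C3 * s := by
    rcases le_or_gt (E : ℝ) 101 with h1 | h1
    · have e1 : ((E : ℝ) - 101) * h ≤ 0 :=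
        mul_nonpos_of_nonpos_of_nonneg (by linarith) (by linarith)
      have e2 : 0 ≤ 2 * C3 * s := by positivity
      linarith
    · have e1 : ((E : ℝ) - 101) * h ≤ ((E : ℝ) - 101) * (2 * (h - 4)) :=
        mul_le_mul_of_nonneg_left (by linarith) (by linarith)
      linarith
  have hE3 : (E : ℝ) ≤ 80 * s := by
    have e1 : 2 * C3 * s ≤ h * s := mul_le_mul_of_nonneg_right hh3 hs0.le
    have e2 : ((E : ℝ) - 101) * h ≤ s * h := by linarith
    have e3 := le_of_mul_le_mul_right e2 (by linarith)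
    linarith
  have hE0 : (0 : ℝ) ≤ E := Nat.cast_nonneg E
  have htest : (n : ℝ) - E ≤ 100 * s + 1 := by linarith
  have hlog2 : Real.log 2 ≤ 1 := by
    have := Real.log_le_sub_one_of_pos (by norm_num : (0 : ℝ) < 2)
    linarith
  have hlog2' : 0 ≤ Real.log 2 := Real.log_nonneg (by norm_num)
  have hn0 : (0 : ℝ) ≤ n := Nat.cast_nonneg n
  have hmain := heval K R P x y j t h s (80 * s - E) (C1 * s + n * Real.log 2) (n - E)
    (q1 n E q) hx hy hdec (by linarith) (by linarith) (by linarith)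
    (by linarith) (add_nonneg (mul_nonneg hC1 hs0.le) (mul_nonneg hn0 hlog2'))
    (by
      rw [Nat.cast_sub hEn]
      exact htest)
    havg (q1_bound hEn hq) (van_q1 hEn hV) hval
  have e1 : (n : ℝ) * Real.log 2 ≤ 101 * s := by
    have : (n : ℝ) * Real.log 2 ≤ n * 1 := mul_le_mul_of_nonneg_left hlog2 hn0
    linarith
  have e2 : C2 * s ≤ |C2| * s := mul_le_mul_of_nonneg_right (le_abs_self _) hs0.le
  have e3 : 10 * h ≤ s * h := mul_le_mul_of_nonneg_right hs (by linarith)
  have e4 : (|C2| + C1 + 101 + 6 * C3) * s ≤ h * s := mul_le_mul_of_nonneg_right hh5 hs0.le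
  have e5 : 0 < s * h := mul_pos hs0 (by linarith)
  clear hlog2 hlog2' hval htest
  generalize (n : ℝ) * Real.log 2 = l at hmain e1
  linarith

/-- the polynomial in two variables with given coefficients -/
noncomputable def poly2 {N M : ℕ} (f : Fin N × Fin M → ℤ) : MvPolynomial (Fin 2) ℤ :=
  ∑ p, MvPolynomial.monomial (Finsupp.single 0 (p.1 : ℕ) + Finsupp.single 1 (p.2 : ℕ)) (f p)

theorem poly2_ne_zero {N M : ℕ} (f : Fin N × Fin M → ℤ) (p : Fin N × Fin M) (hp : f p ≠ 0) :
    poly2 f ≠ 0 := by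
  classical
  intro h
  apply hp
  have h1 := congrArg (MvPolynomial.coeff
    (Finsupp.single (0 : Fin 2) (p.1 : ℕ) + Finsupp.single 1 (p.2 : ℕ))) h
  rw [poly2, MvPolynomial.coeff_sum, MvPolynomial.coeff_zero, Finset.sum_eq_single p] at h1
  · rwa [MvPolynomial.coeff_monomial, if_pos rfl] at h1
  · intro p' _ hne
    rw [MvPolynomial.coeff_monomial, if_neg]
    intro heq
    apply hne
    have e0 := DFunLike.congr_fun heq 0
    have e1 := DFunLike.congr_fun heq 1
    simp at e0 e1
    exact Prod.ext (Fin.ext e0) (Fin.ext e1)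
  · intro hcon
    exact absurd (Finset.mem_univ p) hcon

theorem poly2_aeval {K : Type} [Field K] {N M : ℕ} (f : Fin N × Fin M → ℤ) (x y : K) :
    MvPolynomial.aeval ![x, y] (poly2 f) =
      ∑ p : Fin N × Fin M, (f p : K) * (x ^ (p.1 : ℕ) * y ^ (p.2 : ℕ)) := by
  rw [poly2, map_sum]
  apply Finset.sum_congr rfl
  intro p _
  rw [MvPolynomial.aeval_monomial, Finsupp.prod_fintype _ _ (fun _ => pow_zero _),
    Fin.prod_univ_two]
  simp

theorem poly2_val {K : Type} [Field K] {N n : ℕ} (hn : n + 1 ≤ N) (q : ℕ → ℕ → ℤ) (x y : K) :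
    MvPolynomial.aeval ![x, y] (poly2 (fun p : Fin N × Fin 101 =>
      if (p.1 : ℕ) ≤ n then q p.1 p.2 else 0)) = val n q x y := by
  rw [poly2_aeval, Fintype.sum_prod_type]
  have h1 : ∀ i : Fin N, ∑ k : Fin 101, (((if (i : ℕ) ≤ n then q i k else 0 : ℤ)) : K) *
      (x ^ (i : ℕ) * y ^ (k : ℕ)) = ∑ k ∈ Finset.range 101,
      (((if (i : ℕ) ≤ n then q i k else 0 : ℤ)) : K) * (x ^ (i : ℕ) * y ^ k) := fun i =>
    Fin.sum_univ_eq_sum_range (fun k => (((if (i : ℕ) ≤ n then q i k else 0 : ℤ)) : K) *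
      (x ^ (i : ℕ) * y ^ k)) 101
  simp only [h1]
  rw [Fin.sum_univ_eq_sum_range (fun i => ∑ k ∈ Finset.range 101,
      (((if i ≤ n then q i k else 0 : ℤ)) : K) * (x ^ i * y ^ k)) N, val]
  symm
  apply Finset.sum_subset_zero_on_sdiff
  · intro i hi
    rw [Finset.mem_range] at hi ⊢
    omega
  · intro i hi
    rw [Finset.mem_sdiff, Finset.mem_range, Finset.mem_range] at hi
    apply Finset.sum_eq_zero
    intro k _
    rw [if_neg (by omega)]
    simp
  · intro i hi
    rw [Finset.mem_range] at hi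
    apply Finset.sum_congr rfl
    intro k _
    rw [if_pos (by omega)]
    ring

end VH

set_option maxRecDepth 10000 in
theorem V_prop (C0 : ℝ) : ∃ H0 : ℝ, ∃ 𝒬 : Finset (MvPolynomial (Fin 2) ℤ), (∀ Q ∈ 𝒬, Q ≠ 0) ∧
    ∀ (K : Type) [Field K] (R : Subring K) (P : Places K R) (x y : K) (j : P.Pl → Fin 3)
      (t : P.Pl → ℝ) (h s : ℝ), UU R x → UU R y → Dec P x j t h → H0 ≤ h → 1 ≤ s →
      P.avg (fun w => ‖P.lv w y - s • P.lv w x‖) ≤ C0 * s →
      ∃ Q ∈ 𝒬, MvPolynomial.aeval ![x, y] Q = 0 := by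
  classical
  obtain ⟨C1', haux⟩ := exists_aux
  obtain ⟨C2, heval⟩ := eval_ineq C0
  set C1 : ℝ := max C1' 0 with hC1def
  have hC1 : 0 ≤ C1 := le_max_right _ _
  have hC11 : C1' ≤ C1 := le_max_left _ _
  obtain ⟨C3, hC3⟩ : ∃ C3 : ℝ, C3 = Real.log ((Nat.factorial 101 : ℕ) : ℝ) + 101 * (202 + C1) :=
    ⟨_, rfl⟩
  obtain ⟨L, hL, hL0⟩ : ∃ L : ℝ, Real.log 101 ≤ L ∧ 0 ≤ L :=
    ⟨|Real.log 101|, le_abs_self _, abs_nonneg _⟩
  set B : ℤ := ⌊Real.exp (10 * C1)⌋ with hB
  refine ⟨8 + |2 * C3| + |5 + C0 + C1 + L| + abs (|C2| + C1 + 101 + 6 * C3) + (|C2| + C1 + 1),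
    ((Fintype.piFinset (fun _ : Fin 1002 × Fin 101 => Finset.Icc (-B) B)).image
      VH.poly2).filter (fun Q => Q ≠ 0), fun Q hQ => (Finset.mem_filter.mp hQ).2, ?_⟩
  intro K _ R P x y j t h s hx hy hdec hh hs havg
  have a1 := abs_nonneg (2 * C3)
  have a2 := abs_nonneg (5 + C0 + C1 + L)
  have a3 := abs_nonneg (|C2| + C1 + 101 + 6 * C3)
  have a4 := abs_nonneg C2
  have b1 := le_abs_self (2 * C3)
  have b2 := le_abs_self (5 + C0 + C1 + L)
  have b3 := le_abs_self (|C2| + C1 + 101 + 6 * C3)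
  have b4 := le_abs_self C2
  obtain ⟨q, ⟨i0, k0, hi0, hk0, hq0⟩, hq', hV⟩ := haux s hs
  have hs0 : 0 < s := by linarith
  have hq : ∀ i k, |(q i k : ℝ)| ≤ Real.exp (C1 * s) := fun i k =>
    (hq' i k).trans (Real.exp_le_exp.mpr (mul_le_mul_of_nonneg_right hC11 hs0.le))
  have hn : ((⌈100 * s⌉₊ : ℕ) : ℝ) ≤ 100 * s + 1 := (Nat.ceil_lt_add_one (by positivity)).le
  rcases le_or_gt s 10 with hs10 | hs10
  · have hval : val ⌈100 * s⌉₊ q x y = 0 := by
      by_contra hne
      have h1 := heval K R P x y j t h s (80 * s) (C1 * s) ⌈100 * s⌉₊ q hx hy hdec (by linarith) hs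
        (by positivity) le_rfl (by positivity) hn havg hq hV hne
      have e1 : 1 * h ≤ s * h := mul_le_mul_of_nonneg_right hs (by linarith)
      have e2 : (C1 + |C2| + 1) * s ≤ h * s := mul_le_mul_of_nonneg_right (by linarith) hs0.le
      have e3 : C2 * s ≤ |C2| * s := mul_le_mul_of_nonneg_right b4 hs0.le
      have e4 : 0 < s * h := mul_pos hs0 (by linarith)
      nlinarith
    have hn1001 : ⌈100 * s⌉₊ + 1 ≤ 1002 := by
      have : ⌈100 * s⌉₊ ≤ 1001 := by
        rw [Nat.ceil_le]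
        push_cast
        linarith
      omega
    refine ⟨VH.poly2 (fun p : Fin 1002 × Fin 101 =>
      if (p.1 : ℕ) ≤ ⌈100 * s⌉₊ then q p.1 p.2 else 0), ?_, ?_⟩
    · rw [Finset.mem_filter]
      constructor
      · apply Finset.mem_image_of_mem
        rw [Fintype.mem_piFinset]
        intro p
        rw [Finset.mem_Icc, ← abs_le, hB, Int.le_floor]
        push_cast
        split_ifs
        · refine (hq _ _).trans (Real.exp_le_exp.mpr ?_)
          nlinarith
        · simp only [Int.cast_zero, abs_zero]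
          positivity
      · apply VH.poly2_ne_zero _ (⟨i0, by omega⟩, ⟨k0, by omega⟩)
        simp only
        rw [if_pos hi0]
        exact hq0
    · rw [VH.poly2_val hn1001, hval]
  · exfalso
    exact VH.big_case hC1 hC3 heval P hx hy hdec hs10.le havg hn hi0 hk0 hq0 hq hV hL hL0
      (by linarith) (by linarith) (by linarith) (by linarith)

end Pool.Agent.L3
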