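import Mathlib
import Pool.Agent.Lib.MP_c95b3b_ag_L3.Defs
import Pool.Agent.Lib.MP_c95b3b_ag_L3.VA
import Pool.Agent.Lib.MP_c95b3b_ag_L3.VB
import Pool.Agent.Lib.MP_c95b3b_ag_L3.VC
import Pool.Agent.Lib.MP_c95b3b_ag_L3.VH

/-! Project L3 (MP_c95b3b_ag): Theorem V, two large heights in a subspace of dimension two. -/

namespace Pool.Agent.L3

namespace VI

theorem half (c : ℝ) : ∃ H0 : ℝ, ∃ 𝒬 : Finset (MvPolynomial (Fin 2) ℤ), (∀ Q ∈ 𝒬, Q ≠ 0) ∧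
    ∀ (K : Type) [Field K] (R : Subring K) (P : Places K R) (x y : K) (g g' : P.Pl → ℝ × ℝ)
      (E : Submodule ℝ ((ℝ × ℝ) × (ℝ × ℝ))) (j j' : P.Pl → Fin 3) (t t' : P.Pl → ℝ) (h h' : ℝ),
      UU R x → UU R y → Dec P x j t h → Dec P y j' t' h' →
      P.avg (fun w => ‖g w‖) ≤ c → P.avg (fun w => ‖g' w‖) ≤ c → Module.finrank ℝ E ≤ 2 →
      (∀ w, (P.lv w x - g w, P.lv w y - g' w) ∈ E) →
      H0 ≤ h → h ≤ h' → ∃ Q ∈ 𝒬, MvPolynomial.aeval ![x, y] Q = 0 := by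
  classical
  obtain ⟨H1, C, hH1, hC, hmat⟩ := matrix_near (max c 2)
  obtain ⟨H2, 𝒬v, h𝒬v, hprop⟩ := V_prop (2 * C)
  choose a b c' d had hmo using exists_moebius
  have hF : ∀ (π : Equiv.Perm (Fin 3)) (Q : MvPolynomial (Fin 2) ℤ), ∃ Q' : MvPolynomial (Fin 2) ℤ,
      Q' ≠ 0 ∧ (Q ≠ 0 → ∀ (K : Type) [Field K] [CharZero K] (x y : K),
        (c' π : K) * y + d π ≠ 0 →
        MvPolynomial.aeval ![x, (a π * y + b π) / (c' π * y + d π)] Q = 0 →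
        MvPolynomial.aeval ![x, y] Q' = 0) := by
    intro π Q
    by_cases hQ : Q = 0
    · exact ⟨1, one_ne_zero, fun h => absurd hQ h⟩
    · obtain ⟨Q', h1, h2⟩ := moebius_poly (a π) (b π) (c' π) (d π) (had π) Q hQ
      exact ⟨Q', h1, fun _ => h2⟩
  choose F hF0 hF1 using hF
  refine ⟨max H1 H2, (Finset.univ ×ˢ 𝒬v).image fun p => F p.1 p.2, ?_, ?_⟩
  · intro Q hQ
    obtain ⟨p, _, rfl⟩ := Finset.mem_image.1 hQ
    exact hF0 _ _
  intro K _ R P x y g g' E j j' t t' h h' hx hy hdx hdy hg hg' hE hmem hh hhh'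
  have hh1 : H1 ≤ h := (le_max_left _ _).trans hh
  have hh2 : H2 ≤ h := (le_max_right _ _).trans hh
  have hh0 : 0 < h := hH1.trans_le hh1
  obtain ⟨π, hπ⟩ := hmat P.Pl P.D (fun w => P.lv w x) (fun w => P.lv w y) g g' t t'
    (fun w => 2 * P.arch w) j j' h h' E P.D_cast_pos hdx.nonneg hdy.nonneg hdx.near hdy.near
    ((P.avg_const_arch 2).le.trans (le_max_right _ _)) (hg.trans (le_max_left _ _))
    (hg'.trans (le_max_left _ _)) (fun i => (hdx.mass i).trans (le_max_right _ _))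
    (fun i => (hdy.mass i).trans (le_max_right _ _)) hE hmem hh1 hhh'
  set s : ℝ := h' / h with hs
  have hs1 : 1 ≤ s := (one_le_div hh0).2 hhh'
  obtain ⟨hne, hU, hlv⟩ := hmo π⁻¹ K R P y hy
  have hav : P.avg (fun w => ‖P.lv w ((a π⁻¹ * y + b π⁻¹) / (c' π⁻¹ * y + d π⁻¹)) -
      s • P.lv w x‖) ≤ 2 * C * s := by
    calc P.avg (fun w => ‖P.lv w ((a π⁻¹ * y + b π⁻¹) / (c' π⁻¹ * y + d π⁻¹)) - s • P.lv w x‖)
        ≤ P.avg (fun w => 2 * ‖P.lv w y - s • rayMap π (P.lv w x)‖) := by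
          apply P.avg_mono
          intro w
          have e : P.lv w ((a π⁻¹ * y + b π⁻¹) / (c' π⁻¹ * y + d π⁻¹)) - s • P.lv w x =
              rayMap π⁻¹ (P.lv w y - s • rayMap π (P.lv w x)) := by
            rw [hlv, rayMap_sub, rayMap_smul, rayMap_inv]
          rw [e]
          exact rayMap_norm _ _
      _ = 2 * P.avg (fun w => ‖P.lv w y - s • rayMap π (P.lv w x)‖) := P.avg_mul _ _
      _ ≤ 2 * (C * s) := mul_le_mul_of_nonneg_left hπ zero_le_two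
      _ = 2 * C * s := by ring
  obtain ⟨Q, hQ, hQ0⟩ := hprop K R P x _ j t h s hx hU hdx hh2 hs1 hav
  have := P.charZero
  refine ⟨F π⁻¹ Q, Finset.mem_image.2 ⟨(π⁻¹, Q), by simp [hQ], rfl⟩, ?_⟩
  exact hF1 π⁻¹ Q (h𝒬v Q hQ) K x y hne hQ0

end VI

theorem V_main (c : ℝ) : ∃ H0 : ℝ, ∃ 𝒬 : Finset (MvPolynomial (Fin 2) ℤ), (∀ Q ∈ 𝒬, Q ≠ 0) ∧
    ∀ (K : Type) [Field K] (R : Subring K) (P : Places K R) (x y : K) (g g' : P.Pl → ℝ × ℝ)
      (E : Submodule ℝ ((ℝ × ℝ) × (ℝ × ℝ))), UU R x → UU R y →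
      P.avg (fun w => ‖g w‖) ≤ c → P.avg (fun w => ‖g' w‖) ≤ c → Module.finrank ℝ E ≤ 2 →
      (∀ w, (P.lv w x - g w, P.lv w y - g' w) ∈ E) →
      H0 ≤ P.avg (fun w => ‖P.lv w x‖) → H0 ≤ P.avg (fun w => ‖P.lv w y‖) →
      ∃ Q ∈ 𝒬, MvPolynomial.aeval ![x, y] Q = 0 := by
  classical
  obtain ⟨H0, 𝒬, h𝒬, hmain⟩ := VI.half c
  set ρ : MvPolynomial (Fin 2) ℤ → MvPolynomial (Fin 2) ℤ :=
    fun Q => MvPolynomial.rename (Equiv.swap (0 : Fin 2) 1) Q with hρ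
  refine ⟨3 * H0 + 8, 𝒬 ∪ 𝒬.image ρ, ?_, ?_⟩
  · intro Q hQ
    rcases Finset.mem_union.1 hQ with h | h
    · exact h𝒬 Q h
    · obtain ⟨Q', hQ', rfl⟩ := Finset.mem_image.1 h
      intro h0
      apply h𝒬 Q' hQ'
      have h1 : MvPolynomial.rename (Equiv.swap (0 : Fin 2) 1) Q' =
          MvPolynomial.rename (Equiv.swap (0 : Fin 2) 1) 0 := by
        rw [map_zero]
        exact h0
      exact MvPolynomial.rename_injective _ (Equiv.swap (0 : Fin 2) 1).injective h1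
  intro K _ R P x y g g' E hx hy hg hg' hE hmem hHx hHy
  obtain ⟨j, t, h, hd⟩ := exists_dec P hx
  obtain ⟨j', t', h', hd'⟩ := exists_dec P hy
  have h1 := (abs_le.1 hd.avg_norm.2.1).2
  have h2 := (abs_le.1 hd'.avg_norm.2.1).2
  rcases le_total h h' with hle | hle
  · obtain ⟨Q, hQ, hQ0⟩ := hmain K R P x y g g' E j j' t t' h h' hx hy hd hd' hg hg' hE hmem
      (by linarith) hle
    exact ⟨Q, Finset.mem_union_left _ hQ, hQ0⟩
  · obtain ⟨Q, hQ, hQ0⟩ := hmain K R P y x g' g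
      (E.map (LinearEquiv.prodComm ℝ (ℝ × ℝ) (ℝ × ℝ)).toLinearMap) j' j t' t h' h hy hx hd' hd
      hg' hg (by
        rw [LinearEquiv.finrank_map_eq]
        exact hE) (fun w => ⟨_, hmem w, rfl⟩) (by linarith) hle
    refine ⟨ρ Q, Finset.mem_union_right _ (Finset.mem_image_of_mem _ hQ), ?_⟩
    have e0 : MvPolynomial.aeval ![x, y] (ρ Q) =
        MvPolynomial.aeval ((![x, y] : Fin 2 → K) ∘ (Equiv.swap (0 : Fin 2) 1)) Q :=
      MvPolynomial.aeval_rename _ _ _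
    rw [e0]
    have e : (![x, y] : Fin 2 → K) ∘ (Equiv.swap (0 : Fin 2) 1) = ![y, x] := by
      funext i
      fin_cases i <;> simp
    rw [e]
    exact hQ0

end Pool.Agent.L3
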