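import Pool.Agent.Lib.MP_c95b3b_ag_L3.TG
import Pool.Agent.Lib.MP_c95b3b_ag_L3.VI
import Pool.Agent.Lib.MP_c95b3b_ag_L3.FA
import Pool.Agent.Lib.MP_c95b3b_ag_L3.FB

set_option autoImplicit false

namespace Pool.Agent.L3

/-! ## Theorems over number fields -/

namespace FC

/-- all but one of the averages bounded -/
theorem cover (k : ℕ) (hk : 1 ≤ k) (c : ℝ) (Γ : Finset (Fin (k + 1) → ℝ × ℝ))
    (hΓ : ∀ γ ∈ Γ, ‖γ‖ ≤ c) (B : ℝ) (l : Fin (k + 1)) :
    ∃ 𝒬 : Finset (MvPolynomial (Fin (k + 1)) ℤ), (∀ Q ∈ 𝒬, Q ≠ 0) ∧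
      ∀ (K : Type) [Field K] (R : Subring K) (P : Places K R) (U : Fin (k + 1) → K)
        (g : P.Pl → Fin (k + 1) → ℝ × ℝ) (E : Submodule ℝ (Fin (k + 1) → ℝ × ℝ)),
        (∀ i, UU R (U i)) → P.avg (fun w => ‖g w‖) ≤ c → (∀ i, g (.inl i) ∈ Γ) →
        Module.finrank ℝ E ≤ k → (∀ w, (fun i => P.lv w (U i)) - g w ∈ E) →
        (∀ i, i ≠ l → P.avg (fun w => ‖P.lv w (U i)‖) ≤ B) →
        ∃ Q ∈ 𝒬, MvPolynomial.aeval U Q = 0 := by
  classical
  obtain ⟨H1, 𝒬1, h1, H⟩ := one_large k hk (k * B) c (Γ.image (fun γ i => γ (l.succAbove i)))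
  obtain ⟨η, hη, 𝒬2, h2, T⟩ := T_main (k + 1) Γ.card (by omega) (k * B + H1)
  refine ⟨𝒬1.image (MvPolynomial.rename l.succAbove) ∪ 𝒬2, ?_, ?_⟩
  · intro Q hQ
    rcases Finset.mem_union.mp hQ with h | h
    · obtain ⟨Q', hQ', rfl⟩ := Finset.mem_image.mp h
      intro h0
      exact h1 Q' hQ' (MvPolynomial.rename_injective _ Fin.succAbove_right_injective
        (by rw [h0, map_zero]))
    · exact h2 Q h
  · intro K _ R P U g E hU hg hgΓ hE hmem hB
    have hsum : P.avg (fun w => ∑ i, ‖P.lv w (U (l.succAbove i))‖) ≤ k * B := by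
      rw [P.avg_sum Finset.univ (fun i w => ‖P.lv w (U (l.succAbove i))‖)]
      refine (Finset.sum_le_card_nsmul _ _ B fun i _ => hB _ (Fin.succAbove_ne l i)).trans ?_
      simp
    by_cases hl : H1 ≤ P.avg (fun w => ‖P.lv w (U l)‖)
    · -- the linear map forgetting nothing but separating the coordinate `l`
      let φ : (Fin (k + 1) → ℝ × ℝ) →ₗ[ℝ] ((Fin k → ℝ × ℝ) × (ℝ × ℝ)) :=
        { toFun := fun v => (fun i => v (l.succAbove i), v l)
          map_add' := fun v w => rfl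
          map_smul' := fun r v => rfl }
      obtain ⟨Q, hQ, hQ0⟩ := H K R P (fun i => U (l.succAbove i)) (U l)
        (fun w i => g w (l.succAbove i)) (fun w => g w l) (E.map φ)
        (fun i => hU _) (hU l)
        ((P.avg_mono fun w => by
          refine (pi_norm_le_iff_of_nonneg (norm_nonneg _)).mpr fun i => ?_
          exact norm_le_pi_norm (g w) _).trans hg)
        ((P.avg_mono fun w => norm_le_pi_norm (g w) l).trans hg)
        (fun i => Finset.mem_image_of_mem _ (hgΓ i))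
        (fun i => (norm_le_pi_norm (g (.inl i)) l).trans (hΓ _ (hgΓ i)))
        ((Submodule.finrank_map_le φ E).trans hE)
        (fun w => ⟨_, hmem w, rfl⟩) hsum hl
      refine ⟨MvPolynomial.rename l.succAbove Q,
        Finset.mem_union_left _ (Finset.mem_image_of_mem _ hQ), ?_⟩
      rw [MvPolynomial.aeval_rename]
      exact hQ0
    · push Not at hl
      obtain ⟨Q, hQ, hQ0⟩ := T K R P U (fun i => (hU i).mem) (fun i => ⟨(hU i).ne0, (hU i).ne1⟩)
        (by
          have : (fun w => ∑ i, ‖P.lv w (U i)‖) =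
              fun w => ‖P.lv w (U l)‖ + ∑ i, ‖P.lv w (U (l.succAbove i))‖ := by
            funext w
            exact Fin.sum_univ_succAbove (fun i => ‖P.lv w (U i)‖) l
          rw [this, P.avg_add (fun w => ‖P.lv w (U l)‖)
            (fun w => ∑ i, ‖P.lv w (U (l.succAbove i))‖)]
          linarith)
        (fun j => (Γ.equivFin.symm j : Fin (k + 1) → ℝ × ℝ)) (fun _ => E)
        (fun _ => Nat.lt_succ_of_le hE)
        (fun i => by
          refine ⟨Γ.equivFin ⟨g (.inl i), hgΓ i⟩, _, hmem (.inl i), ?_⟩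
          rw [Equiv.symm_apply_apply]
          simpa using hη.le)
      exact ⟨Q, Finset.mem_union_right _ hQ, hQ0⟩

theorem inj2 {i j : Fin 3} (h : i ≠ j) : Function.Injective ![i, j] := by
  intro u v huv
  fin_cases u <;> fin_cases v
  · rfl
  · exact absurd huv h
  · exact absurd huv.symm h
  · rfl

end FC

theorem three_lines_nf (K0 : Type) [Field K0] [NumberField K0] (a b : Fin 3 → K0)
    (ha : ∀ i, a i ≠ 0) (hb : ∀ i, b i ≠ 0) : ∃ F : MvPolynomial (Fin 3) ℤ, F ≠ 0 ∧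
    ∀ (K : Type) [Field K] [NumberField K] [Algebra K0 K] (x y : Fin 3 → K),
      Special 4 (fun i => algebraMap K0 K (a i)) (fun i => algebraMap K0 K (b i)) x y →
      MvPolynomial.aeval (fun i => algebraMap K0 K (a i) * x i) F = 0 := by
  classical
  obtain ⟨c, Γ, hΓ, hS⟩ := setup 3 K0 a b ha hb
  obtain ⟨H0, 𝒬V, hV, V⟩ := V_main c
  choose 𝒬C hC C using fun l => FC.cover 2 (by norm_num) c Γ hΓ H0 l
  let F1 : MvPolynomial (Fin 3) ℤ := ∏ ij : Fin 3 × Fin 3,
    if ij.1 = ij.2 then 1 else ∏ Q ∈ 𝒬V, MvPolynomial.rename ![ij.1, ij.2] Q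
  let F2 : MvPolynomial (Fin 3) ℤ := ∏ l : Fin 3, ∏ Q ∈ 𝒬C l, Q
  refine ⟨F1 * F2, mul_ne_zero ?_ ?_, ?_⟩
  · refine Finset.prod_ne_zero_iff.mpr fun ij _ => ?_
    split_ifs with h
    · exact one_ne_zero
    · refine Finset.prod_ne_zero_iff.mpr fun Q hQ h0 => hV Q hQ ?_
      exact MvPolynomial.rename_injective _ (FC.inj2 h) (by rw [h0, map_zero])
  · exact Finset.prod_ne_zero_iff.mpr fun l _ =>
      Finset.prod_ne_zero_iff.mpr fun Q hQ => hC l Q hQ
  · intro K _ _ _ x y hxy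
    obtain ⟨R, P, g, E, hU, hg, hgΓ, hE, hmem, -⟩ := hS K 4 x y hxy
    set U : Fin 3 → K := fun i => algebraMap K0 K (a i) * x i with hUdef
    have hE2 : Module.finrank ℝ E ≤ 2 := by omega
    rw [map_mul]
    by_cases hbig : ∃ i j : Fin 3, i ≠ j ∧ H0 ≤ P.avg (fun w => ‖P.lv w (U i)‖) ∧
        H0 ≤ P.avg (fun w => ‖P.lv w (U j)‖)
    · obtain ⟨i, j, hij, hi, hj⟩ := hbig
      let φ : (Fin 3 → ℝ × ℝ) →ₗ[ℝ] ((ℝ × ℝ) × (ℝ × ℝ)) :=
        { toFun := fun v => (v i, v j)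
          map_add' := fun v w => rfl
          map_smul' := fun r v => rfl }
      obtain ⟨Q, hQ, hQ0⟩ := V K R P (U i) (U j) (fun w => g w i) (fun w => g w j) (E.map φ)
        (hU i) (hU j) ((P.avg_mono fun w => norm_le_pi_norm (g w) i).trans hg)
        ((P.avg_mono fun w => norm_le_pi_norm (g w) j).trans hg)
        ((Submodule.finrank_map_le φ E).trans hE2) (fun w => ⟨_, hmem w, rfl⟩) hi hj
      have h1 : MvPolynomial.aeval U F1 = 0 := by
        rw [map_prod]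
        refine Finset.prod_eq_zero (Finset.mem_univ (i, j)) ?_
        rw [if_neg hij, map_prod]
        refine Finset.prod_eq_zero hQ ?_
        rw [MvPolynomial.aeval_rename]
        have : U ∘ ![i, j] = ![U i, U j] := by
          funext u
          fin_cases u <;> rfl
        rw [this]
        exact hQ0
      rw [h1, zero_mul]
    · push Not at hbig
      obtain ⟨l, hl⟩ : ∃ l : Fin 3, ∀ i, i ≠ l → P.avg (fun w => ‖P.lv w (U i)‖) ≤ H0 := by
        by_cases h : ∃ l, H0 ≤ P.avg (fun w => ‖P.lv w (U l)‖)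
        · obtain ⟨l, hl⟩ := h
          exact ⟨l, fun i hi => (hbig l i hi.symm hl).le⟩
        · push Not at h
          exact ⟨0, fun i _ => (h i).le⟩
      obtain ⟨Q, hQ, hQ0⟩ := C l K R P U g E hU hg hgΓ hE2 hmem hl
      have h2 : MvPolynomial.aeval U F2 = 0 := by
        rw [map_prod]
        refine Finset.prod_eq_zero (Finset.mem_univ l) ?_
        rw [map_prod]
        exact Finset.prod_eq_zero hQ hQ0
      rw [h2, mul_zero]

theorem one_height_nf (k : ℕ) (hk : 2 ≤ k) (K0 : Type) [Field K0] [NumberField K0]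
    (a b : Fin k → K0) (ha : ∀ i, a i ≠ 0) (hb : ∀ i, b i ≠ 0) (B : ℝ) :
    ∃ F : MvPolynomial (Fin k) ℤ, F ≠ 0 ∧
    ∀ (K : Type) [Field K] [NumberField K] [Algebra K0 K] (x y : Fin k → K),
      Special (k + 1) (fun i => algebraMap K0 K (a i)) (fun i => algebraMap K0 K (b i)) x y →
      (∃ i0, ∀ i, i ≠ i0 → Height.logHeight₁ (x i) ≤ B * Module.finrank ℚ K) →
      MvPolynomial.aeval (fun i => algebraMap K0 K (a i) * x i) F = 0 := by
  classical
  obtain ⟨k, rfl⟩ : ∃ k', k = k' + 1 := ⟨k - 1, by omega⟩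
  obtain ⟨c, Γ, hΓ, hS⟩ := setup (k + 1) K0 a b ha hb
  choose 𝒬C hC C using fun l => FC.cover k (by omega) c Γ hΓ (c + 4 * B) l
  refine ⟨∏ l : Fin (k + 1), ∏ Q ∈ 𝒬C l, Q, Finset.prod_ne_zero_iff.mpr fun l _ =>
      Finset.prod_ne_zero_iff.mpr fun Q hQ => hC l Q hQ, ?_⟩
  rintro K _ _ _ x y hxy ⟨l, hl⟩
  obtain ⟨R, P, g, E, hU, hg, hgΓ, hE, hmem, hht⟩ := hS K (k + 1 + 1) x y hxy
  have hpos : (0 : ℝ) < Module.finrank ℚ K := by exact_mod_cast Module.finrank_pos
  obtain ⟨Q, hQ, hQ0⟩ := C l K R P _ g E hU hg hgΓ (by omega) hmem (fun i hi => by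
    refine (hht i).trans ?_
    have : Height.logHeight₁ (x i) / Module.finrank ℚ K ≤ B :=
      (div_le_iff₀ hpos).mpr (hl i hi)
    linarith)
  rw [map_prod]
  refine Finset.prod_eq_zero (Finset.mem_univ l) ?_
  rw [map_prod]
  exact Finset.prod_eq_zero hQ hQ0

end Pool.Agent.L3
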