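import Mathlib

/-! Project L3 (MP_c95b3b_ag), module TB: Taylor expansion of exponentials of sums. -/

namespace Pool.Agent.L3

namespace TB

/-- tail of the exponential series -/
theorem exp_tail (r : ℝ) (hr : 0 ≤ r) (T : ℕ) :
    Real.exp r - ∑ a ∈ Finset.range T, r ^ a / (a.factorial : ℝ) ≤
      Real.exp r * (r ^ T / T.factorial) := by
  have hs : HasSum (fun a : ℕ => r ^ a / (a.factorial : ℝ)) (Real.exp r) := by
    rw [Real.exp_eq_exp_ℝ]
    exact NormedSpace.expSeries_div_hasSum_exp (𝔸 := ℝ) r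
  have h1 : Real.exp r - ∑ a ∈ Finset.range T, r ^ a / (a.factorial : ℝ) =
      ∑' b : ℕ, r ^ (b + T) / ((b + T).factorial : ℝ) := by
    rw [← hs.summable.sum_add_tsum_nat_add T |>.trans hs.tsum_eq]
    ring
  rw [h1, ← hs.tsum_eq, ← tsum_mul_right]
  refine Summable.tsum_le_tsum (fun b => ?_) ((summable_nat_add_iff T).mpr hs.summable)
    (hs.summable.mul_right _)
  rw [div_mul_div_comm, ← pow_add]
  apply div_le_div_of_nonneg_left (by positivity) (by positivity)
  exact_mod_cast Nat.le_of_dvd (Nat.factorial_pos _) (Nat.factorial_mul_factorial_dvd_factorial_add b T)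

/-- one variable -/
theorem exp_one (x r : ℝ) (T : ℕ) (hx : |x| ≤ r) :
    |Real.exp x - ∑ a : Fin T, x ^ (a : ℕ) / ((a : ℕ).factorial : ℝ)| ≤
      Real.exp r * (r ^ T / T.factorial) := by
  have hr : 0 ≤ r := (abs_nonneg x).trans hx
  have hs : Summable (fun a : ℕ => r ^ a / (a.factorial : ℝ)) :=
    Real.summable_pow_div_factorial r
  have hx' : Summable (fun a : ℕ => x ^ a / (a.factorial : ℝ)) :=
    Real.summable_pow_div_factorial x
  refine le_trans ?_ (exp_tail r hr T)
  rw [← Fin.sum_univ_eq_sum_range (fun a => r ^ a / (a.factorial : ℝ)) T]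
  have e1 : ∀ y : ℝ, Real.exp y - ∑ a : Fin T, y ^ (a : ℕ) / ((a : ℕ).factorial : ℝ) =
      ∑' b : ℕ, y ^ (b + T) / ((b + T).factorial : ℝ) := by
    intro y
    have hy : HasSum (fun a : ℕ => y ^ a / (a.factorial : ℝ)) (Real.exp y) := by
      rw [Real.exp_eq_exp_ℝ]
      exact NormedSpace.expSeries_div_hasSum_exp (𝔸 := ℝ) y
    rw [Fin.sum_univ_eq_sum_range (fun a => y ^ a / (a.factorial : ℝ)) T,
      ← hy.summable.sum_add_tsum_nat_add T |>.trans hy.tsum_eq]
    ring
  rw [e1 x, e1 r]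
  rw [← Real.norm_eq_abs]
  refine tsum_of_norm_bounded ((summable_nat_add_iff T).mpr hs).hasSum (fun b => ?_)
  rw [norm_div, norm_pow, Real.norm_eq_abs, Real.norm_natCast]
  gcongr

theorem prod_diff {ι : Type*} (s : Finset ι) (e p : ι → ℝ) (M q : ℝ) (hM : 0 ≤ M) (hq : 0 ≤ q)
    (he : ∀ i ∈ s, |e i| ≤ M) (hp : ∀ i ∈ s, |p i| ≤ M) (hd : ∀ i ∈ s, |e i - p i| ≤ M * q) :
    |∏ i ∈ s, e i| ≤ M ^ s.card ∧
      |∏ i ∈ s, e i - ∏ i ∈ s, p i| ≤ s.card * M ^ s.card * q := by
  classical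
  induction s using Finset.induction_on with
  | empty => simp
  | insert i s hi ih =>
    obtain ⟨h1, h2⟩ := ih (fun j hj => he j (Finset.mem_insert_of_mem hj))
      (fun j hj => hp j (Finset.mem_insert_of_mem hj))
      (fun j hj => hd j (Finset.mem_insert_of_mem hj))
    have a1 := he i (Finset.mem_insert_self i s)
    have a2 := hp i (Finset.mem_insert_self i s)
    have a3 := hd i (Finset.mem_insert_self i s)
    rw [Finset.prod_insert hi, Finset.prod_insert hi, Finset.card_insert_of_notMem hi]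
    constructor
    · rw [abs_mul, pow_succ, mul_comm]
      exact mul_le_mul h1 a1 (abs_nonneg _) (by positivity)
    · have e1 : e i * ∏ j ∈ s, e j - p i * ∏ j ∈ s, p j =
          (e i - p i) * ∏ j ∈ s, e j + p i * (∏ j ∈ s, e j - ∏ j ∈ s, p j) := by ring
      rw [e1]
      refine (abs_add_le _ _).trans ?_
      rw [abs_mul, abs_mul]
      have b1 : |e i - p i| * |∏ j ∈ s, e j| ≤ (M * q) * M ^ s.card :=
        mul_le_mul a3 h1 (abs_nonneg _) (by positivity)
      have b2 : |p i| * |∏ j ∈ s, e j - ∏ j ∈ s, p j| ≤ M * (s.card * M ^ s.card * q) :=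
        mul_le_mul a2 h2 (abs_nonneg _) hM
      refine (add_le_add b1 b2).trans (le_of_eq ?_)
      push_cast
      ring

end TB

theorem exp_taylor (d T : ℕ) (x : Fin d → ℝ) (r : ℝ) (hx : ∀ i, |x i| ≤ r) :
    |Real.exp (∑ i, x i) - ∑ α : Fin d → Fin T, ∏ i, (x i ^ (α i : ℕ) / (α i : ℕ).factorial)| ≤
      d * Real.exp (d * r) * (r ^ T / T.factorial) := by
  rcases Nat.eq_zero_or_pos d with hd | hd
  · subst hd
    simp
  have hr : 0 ≤ r := (abs_nonneg _).trans (hx ⟨0, hd⟩)
  have e1 : ∑ α : Fin d → Fin T, ∏ i, (x i ^ (α i : ℕ) / ((α i : ℕ).factorial : ℝ)) =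
      ∏ i, ∑ a : Fin T, (x i ^ (a : ℕ) / ((a : ℕ).factorial : ℝ)) := by
    rw [Finset.prod_univ_sum]
    simp
  rw [e1, Real.exp_sum]
  have key := TB.prod_diff (Finset.univ : Finset (Fin d)) (fun i => Real.exp (x i))
    (fun i => ∑ a : Fin T, (x i ^ (a : ℕ) / ((a : ℕ).factorial : ℝ))) (Real.exp r)
    (r ^ T / T.factorial) (Real.exp_pos r).le (by positivity)
    (fun i _ => by
      rw [abs_of_pos (Real.exp_pos _)]
      exact Real.exp_le_exp.mpr ((le_abs_self _).trans (hx i)))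
    (fun i _ => by
      refine (Finset.abs_sum_le_sum_abs _ _).trans ?_
      refine le_trans (Finset.sum_le_sum (g := fun a : Fin T => r ^ (a : ℕ) / ((a : ℕ).factorial : ℝ))
        (fun a _ => ?_)) ?_
      · rw [abs_div, abs_pow, Nat.abs_cast]
        gcongr
        exact hx i
      · rw [Fin.sum_univ_eq_sum_range (fun a => r ^ a / (a.factorial : ℝ)) T]
        exact Real.sum_le_exp_of_nonneg hr T)
    (fun i _ => TB.exp_one (x i) r T (hx i))
  refine key.2.trans (le_of_eq ?_)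
  rw [Finset.card_univ, Fintype.card_fin, ← Real.exp_nat_mul]

end Pool.Agent.L3
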