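import Mathlib
import Pool.Agent.Lib.MP_c95b3b_ag_L3.Defs
import Pool.Agent.Lib.MP_c95b3b_ag_L3.TA

/-! Project L3 (MP_c95b3b_ag), module TD: monomials as combinations of squarefree monomials. -/

namespace Pool.Agent.L3

namespace TD

theorem sum_fin {M : Type*} [AddCommMonoid M] (N n : ℕ) (hn : n ≤ N) (f : ℕ → ℕ → M)
    (hf : ∀ a b, n < a ∨ n < b → f a b = 0) :
    ∑ p : Fin (N + 1) × Fin (N + 1), f (p.1 : ℕ) (p.2 : ℕ) =
      ∑ a ∈ Finset.range (n + 1), ∑ b ∈ Finset.range (n + 1), f a b := by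
  rw [Fintype.sum_prod_type]
  simp only
  rw [Fin.sum_univ_eq_sum_range (fun a => ∑ b : Fin (N + 1), f a (b : ℕ)) (N + 1)]
  rw [← Finset.sum_subset (Finset.range_subset_range.2 (by omega : n + 1 ≤ N + 1))]
  · refine Finset.sum_congr rfl fun a _ => ?_
    rw [Fin.sum_univ_eq_sum_range (fun b => f a b) (N + 1)]
    rw [← Finset.sum_subset (Finset.range_subset_range.2 (by omega : n + 1 ≤ N + 1))]
    intro b _ hb
    exact hf a b (Or.inr (by simpa using hb))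
  · intro a _ ha
    exact Finset.sum_eq_zero fun b _ => hf a b (Or.inl (by simpa using ha))

theorem prod_bool_sum {k : ℕ} {ι : Type*} [Fintype ι] (v : Fin k → Bool → ℂ)
    (F : Fin k → Bool → ι → ℂ) :
    ∏ i, ∑ s : Bool, v i s * ∑ p, F i s p =
      ∑ S : Fin k → Bool, (∏ i, v i (S i)) * ∑ c : Fin k → ι, ∏ i, F i (S i) (c i) := by
  rw [Finset.prod_univ_sum, Fintype.piFinset_univ]
  refine Finset.sum_congr rfl fun S _ => ?_
  rw [Finset.prod_mul_distrib, Finset.prod_univ_sum, Fintype.piFinset_univ]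

end TD

/-- Monomials of degree at most `N` in each of `k` variables as combinations of squarefree
monomials with coefficients polynomial in the squared norms. -/
theorem monomial_expand (k N : ℕ) :
    ∃ Γ : (Fin k → Bool) → (Fin k → Fin (N + 1) × Fin (N + 1)) → (Fin k → Fin (N + 1)) → ℤ,
      (∀ S n, ∑ c, |Γ S c n| ≤ 4 ^ (k * N)) ∧
      ∀ (u : Fin k → ℂ) (n : Fin k → Fin (N + 1)), ∏ i, u i ^ (n i : ℕ) =
        ∑ S : Fin k → Bool, (∏ i, if S i then u i else 1) *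
          ∑ c, (Γ S c n : ℂ) *
            ((∏ i, ‖u i‖ ^ (2 * ((c i).1 : ℕ)) * ‖1 - u i‖ ^ (2 * ((c i).2 : ℕ)) : ℝ) : ℂ) := by
  obtain ⟨A, B, h0, hb, he⟩ := pow_reduce
  let G : ℕ → Bool → ℕ → ℕ → ℤ := fun n s a b => if s then A n a b else B n a b
  have hG0 : ∀ n s a b, n < a ∨ n < b → G n s a b = 0 := by
    intro n s a b h
    cases s
    · exact (h0 n a b h).2
    · exact (h0 n a b h).1
  have hGb : ∀ n s, ∑ a ∈ Finset.range (n + 1), ∑ b ∈ Finset.range (n + 1), |G n s a b|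
      ≤ 4 ^ n := by
    intro n s
    cases s
    · exact (hb n).2
    · exact (hb n).1
  refine ⟨fun S c n => ∏ i, G (n i : ℕ) (S i) ((c i).1 : ℕ) ((c i).2 : ℕ), ?_, ?_⟩
  · intro S n
    have h1 : ∑ c : Fin k → Fin (N + 1) × Fin (N + 1),
        |∏ i, G (n i : ℕ) (S i) ((c i).1 : ℕ) ((c i).2 : ℕ)| =
        ∏ i, ∑ p : Fin (N + 1) × Fin (N + 1), |G (n i : ℕ) (S i) (p.1 : ℕ) (p.2 : ℕ)| := by
      rw [Finset.prod_univ_sum, Fintype.piFinset_univ]
      exact Finset.sum_congr rfl fun c _ => Finset.abs_prod _ _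
    rw [h1]
    calc ∏ i, ∑ p : Fin (N + 1) × Fin (N + 1), |G (n i : ℕ) (S i) (p.1 : ℕ) (p.2 : ℕ)|
        ≤ ∏ _i : Fin k, (4 : ℤ) ^ N := by
          refine Finset.prod_le_prod (fun i _ => Finset.sum_nonneg fun p _ => abs_nonneg _) ?_
          intro i _
          have hn : (n i : ℕ) ≤ N := Nat.lt_succ_iff.1 (n i).2
          rw [TD.sum_fin N (n i : ℕ) hn (fun a b => |G (n i : ℕ) (S i) a b|)
            (fun a b h => by simp [hG0 _ _ _ _ h])]
          exact (hGb _ _).trans (pow_le_pow_right₀ (by norm_num) hn)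
      _ = 4 ^ (k * N) := by
          rw [Finset.prod_const, Finset.card_univ, Fintype.card_fin, ← pow_mul, mul_comm]
  · intro u n
    have h2 : ∀ i, u i ^ (n i : ℕ) = ∑ s : Bool, (if s then u i else 1) *
        ∑ p : Fin (N + 1) × Fin (N + 1), (G (n i : ℕ) s (p.1 : ℕ) (p.2 : ℕ) : ℂ) *
          ((‖u i‖ ^ (2 * (p.1 : ℕ)) * ‖1 - u i‖ ^ (2 * (p.2 : ℕ)) : ℝ) : ℂ) := by
      intro i
      have hn : (n i : ℕ) ≤ N := Nat.lt_succ_iff.1 (n i).2
      rw [Fintype.sum_bool]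
      simp only [if_true, Bool.false_eq_true, if_false, one_mul]
      rw [TD.sum_fin N (n i : ℕ) hn (fun a b => (G (n i : ℕ) true a b : ℂ) *
          ((‖u i‖ ^ (2 * a) * ‖1 - u i‖ ^ (2 * b) : ℝ) : ℂ))
          (fun a b h => by simp [hG0 _ _ _ _ h]),
        TD.sum_fin N (n i : ℕ) hn (fun a b => (G (n i : ℕ) false a b : ℂ) *
          ((‖u i‖ ^ (2 * a) * ‖1 - u i‖ ^ (2 * b) : ℝ) : ℂ))
          (fun a b h => by simp [hG0 _ _ _ _ h])]
      rw [he (u i) (n i : ℕ)]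
      rw [mul_comm]
      rfl
    simp only [h2]
    rw [TD.prod_bool_sum (fun i s => if s then u i else 1)
      (fun i s (p : Fin (N + 1) × Fin (N + 1)) => (G (n i : ℕ) s (p.1 : ℕ) (p.2 : ℕ) : ℂ) *
          ((‖u i‖ ^ (2 * (p.1 : ℕ)) * ‖1 - u i‖ ^ (2 * (p.2 : ℕ)) : ℝ) : ℂ))]
    refine Finset.sum_congr rfl fun S _ => ?_
    congr 1
    refine Finset.sum_congr rfl fun c _ => ?_
    rw [Finset.prod_mul_distrib]
    push_cast
    rfl

end Pool.Agent.L3
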