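import Pool.Agent.Lib.MP_c95b3b_ag_L3.TB
import Pool.Agent.Lib.MP_c95b3b_ag_L3.TC
import Pool.Agent.Lib.MP_c95b3b_ag_L3.TD

/-! Project L3 (MP_c95b3b_ag), module TE: auxiliary polynomial (bounded heights). -/

namespace Pool.Agent.L3

namespace TE

variable {k N : ℕ}

/-- pairing of the exponents with the logarithms -/
noncomputable def dot (c : Fin k → Fin (N + 1) × Fin (N + 1)) (v : Fin k → ℝ × ℝ) : ℝ :=
  ∑ a, ((((c a).1 : ℕ) : ℝ) * (v a).1 + (((c a).2 : ℕ) : ℝ) * (v a).2)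

theorem dot_add (c : Fin k → Fin (N + 1) × Fin (N + 1)) (v w : Fin k → ℝ × ℝ) :
    dot c (v + w) = dot c v + dot c w := by
  simp only [dot, Pi.add_apply, Prod.fst_add, Prod.snd_add, ← Finset.sum_add_distrib]
  exact Finset.sum_congr rfl fun a _ => by ring

theorem dot_smul (c : Fin k → Fin (N + 1) × Fin (N + 1)) (y : ℝ) (v : Fin k → ℝ × ℝ) :
    dot c (y • v) = y * dot c v := by
  simp only [dot, Pi.smul_apply, Prod.smul_fst, Prod.smul_snd, smul_eq_mul, Finset.mul_sum]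
  exact Finset.sum_congr rfl fun a _ => by ring

theorem dot_sum (c : Fin k → Fin (N + 1) × Fin (N + 1)) {ι : Type*} (s : Finset ι)
    (f : ι → Fin k → ℝ × ℝ) : dot c (∑ i ∈ s, f i) = ∑ i ∈ s, dot c (f i) := by
  classical
  induction s using Finset.induction_on with
  | empty => simp [dot]
  | insert a s ha ih => rw [Finset.sum_insert ha, Finset.sum_insert ha, dot_add, ih]

theorem abs_dot_le (c : Fin k → Fin (N + 1) × Fin (N + 1)) (v : Fin k → ℝ × ℝ) :
    |dot c v| ≤ 2 * k * N * ‖v‖ := by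
  have h : ∀ a, |(((c a).1 : ℕ) : ℝ) * (v a).1 + (((c a).2 : ℕ) : ℝ) * (v a).2| ≤
      2 * N * ‖v‖ := by
    intro a
    have h0 := norm_le_pi_norm v a
    have h1 : |(v a).1| ≤ ‖v‖ := (norm_fst_le (v a)).trans h0
    have h2 : |(v a).2| ≤ ‖v‖ := (norm_snd_le (v a)).trans h0
    have h3 : (((c a).1 : ℕ) : ℝ) ≤ N := by exact_mod_cast Nat.lt_succ_iff.1 (c a).1.2
    have h4 : (((c a).2 : ℕ) : ℝ) ≤ N := by exact_mod_cast Nat.lt_succ_iff.1 (c a).2.2
    have h5 : (0 : ℝ) ≤ (((c a).1 : ℕ) : ℝ) := Nat.cast_nonneg _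
    have h6 : (0 : ℝ) ≤ (((c a).2 : ℕ) : ℝ) := Nat.cast_nonneg _
    calc |(((c a).1 : ℕ) : ℝ) * (v a).1 + (((c a).2 : ℕ) : ℝ) * (v a).2|
        ≤ |(((c a).1 : ℕ) : ℝ) * (v a).1| + |(((c a).2 : ℕ) : ℝ) * (v a).2| := abs_add_le _ _
      _ = (((c a).1 : ℕ) : ℝ) * |(v a).1| + (((c a).2 : ℕ) : ℝ) * |(v a).2| := by
          rw [abs_mul, abs_mul, abs_of_nonneg h5, abs_of_nonneg h6]
      _ ≤ N * ‖v‖ + N * ‖v‖ := by gcongr
      _ = 2 * N * ‖v‖ := by ring
  calc |dot c v| ≤ ∑ a : Fin k, 2 * N * ‖v‖ :=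
        (Finset.abs_sum_le_sum_abs _ _).trans (Finset.sum_le_sum fun a _ => h a)
    _ = 2 * k * N * ‖v‖ := by
        rw [Finset.sum_const, Finset.card_univ, Fintype.card_fin, nsmul_eq_mul]; ring

theorem prod_eq_exp (c : Fin k → Fin (N + 1) × Fin (N + 1)) (u : Fin k → ℂ)
    (hu : ∀ i, u i ≠ 0 ∧ u i ≠ 1) :
    ∏ i, ‖u i‖ ^ (2 * ((c i).1 : ℕ)) * ‖1 - u i‖ ^ (2 * ((c i).2 : ℕ)) =
      Real.exp (2 * dot c (fun a => (Real.log ‖u a‖, Real.log ‖1 - u a‖))) := by
  rw [dot, Finset.mul_sum, Real.exp_sum]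
  refine Finset.prod_congr rfl fun a _ => ?_
  have h1 : 0 < ‖u a‖ := norm_pos_iff.2 (hu a).1
  have h2 : 0 < ‖1 - u a‖ := norm_pos_iff.2 (sub_ne_zero.2 (hu a).2.symm)
  have e1 : ‖u a‖ ^ (2 * ((c a).1 : ℕ)) =
      Real.exp (((2 * ((c a).1 : ℕ) : ℕ) : ℝ) * Real.log ‖u a‖) := by
    rw [Real.exp_nat_mul, Real.exp_log h1]
  have e2 : ‖1 - u a‖ ^ (2 * ((c a).2 : ℕ)) =
      Real.exp (((2 * ((c a).2 : ℕ) : ℕ) : ℝ) * Real.log ‖1 - u a‖) := by
    rw [Real.exp_nat_mul, Real.exp_log h2]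
  rw [e1, e2, ← Real.exp_add]
  congr 1
  push_cast
  ring

theorem exp_approx (ρ : ℝ) (hρ : 1 ≤ ρ) (c : Fin k → Fin (N + 1) × Fin (N + 1))
    (p : Fin k → ℝ × ℝ) (hp : ‖p‖ ≤ ρ) (d : ℕ) (hd : d + 1 = k) (b : Fin d → Fin k → ℝ × ℝ)
    (hb : ∀ i, ‖b i‖ ≤ 1) (y : Fin d → ℝ) (hy : ∀ i, |y i| ≤ ρ) (e : Fin k → ℝ × ℝ) (δ : ℝ)
    (he : ‖e‖ ≤ δ) (hδ : 4 * k * N * δ ≤ 1) (T : ℕ) :
    |Real.exp (2 * dot c (p + ∑ i, y i • b i + e)) - Real.exp (2 * dot c p) *
      ∑ α : Fin d → Fin T, ∏ i, ((2 * y i * dot c (b i)) ^ (α i : ℕ) / (α i : ℕ).factorial)| ≤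
    Real.exp (k * (4 * k * N * ρ)) * (k * ((4 * k * N * ρ) ^ T / T.factorial) +
      8 * k * N * δ) := by
  set r : ℝ := 4 * k * N * ρ with hr
  have hr0 : 0 ≤ r := by positivity
  have hδ0 : 0 ≤ δ := (norm_nonneg _).trans he
  have hx : ∀ i, |2 * y i * dot c (b i)| ≤ r := by
    intro i
    have h1 := abs_dot_le c (b i)
    have h2 : 2 * (k : ℝ) * N * ‖b i‖ ≤ 2 * k * N * 1 := by gcongr; exact hb i
    rw [abs_mul, abs_mul, abs_of_pos (by norm_num : (0 : ℝ) < 2)]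
    calc 2 * |y i| * |dot c (b i)| ≤ 2 * ρ * (2 * k * N * 1) := by
          gcongr
          · exact hy i
          · exact h1.trans h2
      _ = r := by rw [hr]; ring
  have hp1 : 2 * dot c p ≤ r := by
    have h1 := abs_dot_le c p
    have h2 : 2 * (k : ℝ) * N * ‖p‖ ≤ 2 * k * N * ρ := by gcongr
    have h3 := le_abs_self (dot c p)
    rw [hr]
    nlinarith
  have hsum : ∑ i, 2 * y i * dot c (b i) ≤ d * r := by
    calc ∑ i, 2 * y i * dot c (b i) ≤ ∑ _i : Fin d, r :=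
          Finset.sum_le_sum fun i _ => (le_abs_self _).trans (hx i)
      _ = d * r := by rw [Finset.sum_const, Finset.card_univ, Fintype.card_fin, nsmul_eq_mul]
  have hz : |2 * dot c e| ≤ 4 * k * N * δ := by
    have h1 := abs_dot_le c e
    have h2 : 2 * (k : ℝ) * N * ‖e‖ ≤ 2 * k * N * δ := by gcongr
    rw [abs_mul, abs_of_pos (by norm_num : (0 : ℝ) < 2)]
    linarith
  have hE : |Real.exp (2 * dot c e) - 1| ≤ 8 * k * N * δ := by
    refine (Real.abs_exp_sub_one_le (hz.trans hδ)).trans ?_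
    linarith
  have hT := exp_taylor d T (fun i => 2 * y i * dot c (b i)) r hx
  have e0 : Real.exp (2 * dot c (p + ∑ i, y i • b i + e)) =
      Real.exp (2 * dot c p) * Real.exp (∑ i, 2 * y i * dot c (b i)) *
        Real.exp (2 * dot c e) := by
    rw [← Real.exp_add, ← Real.exp_add]
    congr 1
    rw [dot_add, dot_add, dot_sum]
    have : ∑ i, dot c (y i • b i) = ∑ i, y i * dot c (b i) :=
      Finset.sum_congr rfl fun i _ => dot_smul c (y i) (b i)
    rw [this]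
    have h2 : ∑ i, 2 * y i * dot c (b i) = 2 * ∑ i, y i * dot c (b i) := by
      rw [Finset.mul_sum]
      exact Finset.sum_congr rfl fun i _ => by ring
    rw [h2]
    ring
  set P := Real.exp (2 * dot c p)
  set X := Real.exp (∑ i, 2 * y i * dot c (b i))
  set E := Real.exp (2 * dot c e)
  set S := ∑ α : Fin d → Fin T, ∏ i, ((2 * y i * dot c (b i)) ^ (α i : ℕ) /
    ((α i : ℕ).factorial : ℝ))
  have hP0 : 0 < P := Real.exp_pos _
  have hX0 : 0 < X := Real.exp_pos _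
  have hP : P ≤ Real.exp r := Real.exp_le_exp.2 hp1
  have hX : X ≤ Real.exp (d * r) := Real.exp_le_exp.2 hsum
  have hdk : (d : ℝ) + 1 = k := by exact_mod_cast hd
  have e1 : P * X * E - P * S = P * (X - S) + P * X * (E - 1) := by ring
  rw [e0, e1]
  have hm : Real.exp r * Real.exp (d * r) = Real.exp (k * r) := by
    rw [← Real.exp_add, ← hdk]; congr 1; ring
  have hw0 : 0 ≤ r ^ T / (T.factorial : ℝ) := by positivity
  calc |P * (X - S) + P * X * (E - 1)| ≤ |P * (X - S)| + |P * X * (E - 1)| := abs_add_le _ _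
    _ = P * |X - S| + P * X * |E - 1| := by
        rw [abs_mul, abs_mul, abs_mul, abs_of_pos hP0, abs_of_pos hX0]
    _ ≤ Real.exp r * (d * Real.exp (d * r) * (r ^ T / T.factorial)) +
        Real.exp r * Real.exp (d * r) * (8 * k * N * δ) := by gcongr
    _ = Real.exp (k * r) * (d * (r ^ T / T.factorial) + 8 * k * N * δ) := by
        rw [← hm]; ring
    _ ≤ Real.exp (k * r) * (k * (r ^ T / T.factorial) + 8 * k * N * δ) := by
        gcongr
        linarith

/-- the coefficients of the linear forms -/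
theorem form_bound (ρ : ℝ) (hρ : 1 ≤ ρ) (g : (Fin k → Fin (N + 1) × Fin (N + 1)) → ℤ)
    (hg : ∑ c, |g c| ≤ 4 ^ (k * N))
    (p : Fin k → ℝ × ℝ) (hp : ‖p‖ ≤ ρ) (d : ℕ) (hd : d + 1 = k) (b : Fin d → Fin k → ℝ × ℝ)
    (hb : ∀ i, ‖b i‖ ≤ 1) (α : Fin d → ℕ) :
    |∑ c, (g c : ℝ) * (Real.exp (2 * dot c p) *
      ∏ i, ((2 * ρ * dot c (b i)) ^ (α i) / ((α i).factorial : ℝ)))| ≤
    4 ^ (k * N) * Real.exp (k * (4 * k * N * ρ)) := by
  set r : ℝ := 4 * k * N * ρ with hr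
  have hr0 : 0 ≤ r := by positivity
  have hdk : (d : ℝ) + 1 = k := by exact_mod_cast hd
  have h1 : ∀ c : Fin k → Fin (N + 1) × Fin (N + 1), |Real.exp (2 * dot c p) *
      ∏ i, ((2 * ρ * dot c (b i)) ^ (α i) / ((α i).factorial : ℝ))| ≤ Real.exp (k * r) := by
    intro c
    have hp1 : 2 * dot c p ≤ r := by
      have h1 := abs_dot_le c p
      have h2 : 2 * (k : ℝ) * N * ‖p‖ ≤ 2 * k * N * ρ := by gcongr
      have h3 := le_abs_self (dot c p)
      rw [hr]
      nlinarith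
    have hx : ∀ i, |2 * ρ * dot c (b i)| ≤ r := by
      intro i
      have h1 := abs_dot_le c (b i)
      have h2 : 2 * (k : ℝ) * N * ‖b i‖ ≤ 2 * k * N * 1 := by gcongr; exact hb i
      rw [abs_mul, abs_mul, abs_of_pos (by norm_num : (0 : ℝ) < 2),
        abs_of_pos (by linarith : (0 : ℝ) < ρ)]
      calc 2 * ρ * |dot c (b i)| ≤ 2 * ρ * (2 * k * N * 1) := by
            gcongr
            exact h1.trans h2
        _ = r := by rw [hr]; ring
    rw [abs_mul, abs_of_pos (Real.exp_pos _), Finset.abs_prod]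
    have h3 : ∏ i, |(2 * ρ * dot c (b i)) ^ (α i) / ((α i).factorial : ℝ)| ≤
        ∏ _i : Fin d, Real.exp r := by
      refine Finset.prod_le_prod (fun i _ => abs_nonneg _) fun i _ => ?_
      rw [abs_div, abs_pow, Nat.abs_cast]
      calc |2 * ρ * dot c (b i)| ^ α i / ((α i).factorial : ℝ) ≤
            r ^ α i / ((α i).factorial : ℝ) := by gcongr; exact hx i
        _ ≤ Real.exp r := Real.pow_div_factorial_le_exp r hr0 _
    rw [Finset.prod_const, Finset.card_univ, Fintype.card_fin, ← Real.exp_nat_mul] at h3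
    calc Real.exp (2 * dot c p) * ∏ i, |(2 * ρ * dot c (b i)) ^ (α i) / ((α i).factorial : ℝ)|
        ≤ Real.exp r * Real.exp (d * r) := by
          refine mul_le_mul (Real.exp_le_exp.2 hp1) h3 ?_ (Real.exp_pos _).le
          exact Finset.prod_nonneg fun i _ => abs_nonneg _
      _ = Real.exp (k * r) := by rw [← Real.exp_add, ← hdk]; congr 1; ring
  have hg' : ∑ c, |(g c : ℝ)| ≤ 4 ^ (k * N) := by
    have : ((∑ c, |g c| : ℤ) : ℝ) ≤ ((4 ^ (k * N) : ℤ) : ℝ) := by exact_mod_cast hg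
    push_cast at this
    exact this
  calc |∑ c, (g c : ℝ) * (Real.exp (2 * dot c p) *
      ∏ i, ((2 * ρ * dot c (b i)) ^ (α i) / ((α i).factorial : ℝ)))|
      ≤ ∑ c, |(g c : ℝ)| * Real.exp (k * r) := by
        refine (Finset.abs_sum_le_sum_abs _ _).trans (Finset.sum_le_sum fun c _ => ?_)
        rw [abs_mul]
        exact mul_le_mul_of_nonneg_left (h1 c) (abs_nonneg _)
    _ = (∑ c, |(g c : ℝ)|) * Real.exp (k * r) := by rw [Finset.sum_mul]
    _ ≤ 4 ^ (k * N) * Real.exp (k * r) := by gcongr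

/-- the polynomial with given coefficients -/
theorem exists_poly (x : (Fin k → Fin (N + 1)) → ℤ) (hx : x ≠ 0) (H : ℝ)
    (hH : ∀ n, |((x n : ℤ) : ℝ)| ≤ H) :
    ∃ Q : MvPolynomial (Fin k) ℤ, Q ≠ 0 ∧ (∀ i, Q.degreeOf i ≤ N) ∧
      (∀ e, |((Q.coeff e : ℤ) : ℝ)| ≤ H) ∧
      ∀ u : Fin k → ℂ, MvPolynomial.aeval u Q = ∑ n, (x n : ℂ) * ∏ i, u i ^ (n i : ℕ) := by
  classical
  let ex : (Fin k → Fin (N + 1)) → (Fin k →₀ ℕ) := fun n =>
    Finsupp.equivFunOnFinite.symm (fun i => ((n i : ℕ)))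
  have hex : Function.Injective ex := by
    intro n m h
    have h1 := Finsupp.equivFunOnFinite.symm.injective h
    funext i
    exact Fin.ext (congrFun h1 i)
  let Q : MvPolynomial (Fin k) ℤ := ∑ n, MvPolynomial.monomial (ex n) (x n)
  have hc : ∀ e, Q.coeff e = ∑ n, if ex n = e then x n else 0 := by
    intro e
    rw [MvPolynomial.coeff_sum]
    exact Finset.sum_congr rfl fun n _ => MvPolynomial.coeff_monomial _ _ _
  have hc1 : ∀ n, Q.coeff (ex n) = x n := by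
    intro n
    rw [hc, Finset.sum_eq_single n]
    · simp
    · intro m _ hm
      rw [if_neg (fun h => hm (hex h))]
    · intro h; exact absurd (Finset.mem_univ n) h
  have hc2 : ∀ e, (∀ n, ex n ≠ e) → Q.coeff e = 0 := by
    intro e he
    rw [hc]
    exact Finset.sum_eq_zero fun n _ => if_neg (he n)
  obtain ⟨n0, hn0⟩ := Function.ne_iff.1 hx
  have hH0 : 0 ≤ H := (abs_nonneg _).trans (hH n0)
  refine ⟨Q, ?_, ?_, ?_, ?_⟩
  · intro h
    apply hn0
    rw [← hc1 n0, h]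
    simp
  · intro i
    rw [MvPolynomial.degreeOf_le_iff]
    intro m hm
    rw [MvPolynomial.mem_support_iff] at hm
    by_contra hcon
    apply hm
    apply hc2
    intro n hn
    apply hcon
    rw [← hn]
    exact Nat.lt_succ_iff.1 (n i).2
  · intro e
    by_cases he : ∃ n, ex n = e
    · obtain ⟨n, rfl⟩ := he
      rw [hc1]
      exact hH n
    · rw [hc2 e (fun n hn => he ⟨n, hn⟩)]
      simpa using hH0
  · intro u
    show MvPolynomial.aeval u (∑ n, MvPolynomial.monomial (ex n) (x n)) = _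
    rw [map_sum]
    refine Finset.sum_congr rfl fun n _ => ?_
    rw [MvPolynomial.aeval_monomial, Finsupp.prod_fintype]
    · simp [ex]
    · intro i; simp


theorem numeric (k q : ℕ) (hk : 1 ≤ k) (ρ : ℝ) (hρ : 1 ≤ ρ) : ∃ M0 : ℕ, ∀ M ≥ M0,
    ∀ N T : ℕ, N = M ^ (2 * k) → T = M ^ (2 * k + 1) →
      1 ≤ N ∧ 1 ≤ T ∧ 3 * q * 2 ^ k * T ^ k ≤ N ^ (k + 1) ∧
      4 * k * N * Real.exp (-(3 * (T : ℝ))) ≤ 1 ∧
      ∀ H L : ℝ, 0 ≤ H → H ≤ Real.exp N → Real.exp (2 * T) ≤ L →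
        2 ^ k * Real.exp (k * (k * ρ + 1)) *
          ((T : ℝ) ^ (k - 1) * (2 * (N + 1) ^ k * (4 ^ (k * N) *
              Real.exp (k * (4 * k * N * ρ))) * H / L) +
            (N + 1) ^ k * H * (4 ^ (k * N) * (Real.exp (k * (4 * k * N * ρ)) *
              (k * ((4 * k * N * ρ) ^ T / T.factorial) +
                8 * k * N * Real.exp (-(3 * (T : ℝ))))))) ≤
        Real.exp (-((T : ℝ) / 2)) := by
  set B : ℝ := k + k * (k * ρ + 1) + 3 * k + 1 + 4 * k ^ 2 * ρ + 9 * k + 2 with hB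
  refine ⟨3 * q * 2 ^ k + ⌈84 * k * ρ⌉₊ + ⌈B⌉₊ + 1, ?_⟩
  intro M hM N T hN hT
  have hM1 : 1 ≤ M := by omega
  have hMq : 3 * q * 2 ^ k ≤ M := by omega
  have hMρ' : ⌈84 * k * ρ⌉₊ ≤ M := by omega
  have hMB' : ⌈B⌉₊ ≤ M := by omega
  have hMρ : 84 * k * ρ ≤ M := (Nat.le_ceil _).trans (Nat.cast_le.2 hMρ')
  have hMB : B ≤ M := (Nat.le_ceil _).trans (Nat.cast_le.2 hMB')
  have hN1 : 1 ≤ N := by rw [hN]; exact Nat.one_le_pow _ _ hM1
  have hTN : T = N * M := by rw [hT, hN, pow_succ]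
  have hT1 : 1 ≤ T := by rw [hT]; exact Nat.one_le_pow _ _ hM1
  have hMN : M ≤ N := by
    rw [hN]
    calc M = M ^ 1 := (pow_one M).symm
      _ ≤ M ^ (2 * k) := Nat.pow_le_pow_right hM1 (by omega)
  have kR : (1 : ℝ) ≤ k := by exact_mod_cast hk
  have NR : (1 : ℝ) ≤ N := by exact_mod_cast hN1
  have MR : (1 : ℝ) ≤ M := by exact_mod_cast hM1
  have TR : (1 : ℝ) ≤ T := by exact_mod_cast hT1
  have hTNR : (T : ℝ) = N * M := by exact_mod_cast hTN
  have hMNR : (M : ℝ) ≤ N := by exact_mod_cast hMN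
  have hB13 : 13 * (k : ℝ) ≤ B := by
    rw [hB]
    have h1 : (0 : ℝ) ≤ k * (k * ρ + 1) := by positivity
    have h2 : (0 : ℝ) ≤ 4 * k ^ 2 * ρ := by positivity
    linarith
  refine ⟨hN1, hT1, ?_, ?_, ?_⟩
  · -- counting
    have h1 : M ≤ M ^ k := by
      calc M = M ^ 1 := (pow_one M).symm
        _ ≤ M ^ k := Nat.pow_le_pow_right hM1 hk
    calc 3 * q * 2 ^ k * T ^ k = (3 * q * 2 ^ k) * (N ^ k * M ^ k) := by rw [hTN, mul_pow]
      _ ≤ M ^ k * (N ^ k * M ^ k) := Nat.mul_le_mul_right _ (hMq.trans h1)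
      _ = N ^ k * (M ^ k * M ^ k) := by ring
      _ = N ^ (k + 1) := by
          rw [pow_succ, ← pow_add, hN]
          congr 2
          ring
  · have h1 : 4 * (k : ℝ) * N ≤ Real.exp (3 * T) := by
      have h2 : 4 * (k : ℝ) * N ≤ 3 * T := by
        rw [hTNR]
        have : 4 * (k : ℝ) ≤ 3 * M := by linarith
        nlinarith
      have h3 := Real.add_one_le_exp (3 * (T : ℝ))
      linarith
    rw [Real.exp_neg, ← div_eq_mul_inv]
    exact (div_le_one (Real.exp_pos _)).2 h1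
  · intro H L hH0 hH hL
    have e1 : (2 : ℝ) ≤ Real.exp 1 := by
      have := Real.add_one_le_exp (1 : ℝ); linarith
    have e4 : (4 : ℝ) ≤ Real.exp 2 := by
      have : Real.exp 2 = Real.exp 1 * Real.exp 1 := by rw [← Real.exp_add]; norm_num
      rw [this]; nlinarith
    have e3 : Real.exp 3 ≤ 21 := by
      have h := Real.exp_one_lt_d9
      have : Real.exp 3 = Real.exp 1 * Real.exp 1 * Real.exp 1 := by
        rw [← Real.exp_add, ← Real.exp_add]; norm_num
      rw [this]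
      have h0 := Real.exp_pos 1
      nlinarith [mul_pos h0 h0]
    have h1 : ((N : ℝ) + 1) ^ k ≤ Real.exp (k * N) := by
      rw [Real.exp_nat_mul]
      have := Real.add_one_le_exp (N : ℝ)
      gcongr
    have h2 : (4 : ℝ) ^ (k * N) ≤ Real.exp (2 * k * N) := by
      have : Real.exp (2 * k * N) = (Real.exp 2) ^ (k * N) := by
        rw [← Real.exp_nat_mul]; congr 1; push_cast; ring
      rw [this]
      gcongr
    have h3 : (2 : ℝ) ^ k ≤ Real.exp k := by
      have : Real.exp (k : ℝ) = (Real.exp 1) ^ k := by rw [← Real.exp_nat_mul]; congr 1; ring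
      rw [this]
      gcongr
    have h4 : (T : ℝ) ^ (k - 1) ≤ Real.exp (2 * k * N) := by
      have a1 : (T : ℝ) ≤ Real.exp (2 * N) := by
        have b1 : (T : ℝ) ≤ N * N := by rw [hTNR]; nlinarith
        have b2 : (N : ℝ) ≤ Real.exp N := by have := Real.add_one_le_exp (N : ℝ); linarith
        have b3 : Real.exp (2 * N) = Real.exp N * Real.exp N := by
          rw [← Real.exp_add]; congr 1; ring
        rw [b3]
        exact b1.trans (mul_le_mul b2 b2 (by positivity) (Real.exp_pos _).le)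
      calc (T : ℝ) ^ (k - 1) ≤ (T : ℝ) ^ k := pow_le_pow_right₀ TR (by omega)
        _ ≤ (Real.exp (2 * N)) ^ k := by gcongr
        _ = Real.exp (2 * k * N) := by rw [← Real.exp_nat_mul]; congr 1; ring
    have h5 : (4 * k * N * ρ) ^ T / (T.factorial : ℝ) ≤ Real.exp (-(2 * (T : ℝ))) := by
      have a1 : (4 * k * N * ρ) ^ T / (T.factorial : ℝ) =
          ((4 * k * N * ρ) / T) ^ T * ((T : ℝ) ^ T / T.factorial) := by
        rw [div_pow]
        have : (T : ℝ) ^ T ≠ 0 := by positivity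
        field_simp
      have a2 : (T : ℝ) ^ T / (T.factorial : ℝ) ≤ Real.exp T :=
        Real.pow_div_factorial_le_exp (T : ℝ) (by positivity) T
      have a3 : (4 * k * N * ρ) / (T : ℝ) ≤ Real.exp (-3) := by
        rw [div_le_iff₀ (by linarith), Real.exp_neg, hTNR]
        have b1 : (0 : ℝ) < Real.exp 3 := Real.exp_pos _
        rw [inv_mul_eq_div, le_div_iff₀ b1]
        have b2 : 4 * (k : ℝ) * ρ * Real.exp 3 ≤ M := by
          have : 4 * (k : ℝ) * ρ * Real.exp 3 ≤ 4 * k * ρ * 21 := by gcongr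
          linarith
        nlinarith
      have a4 : (((4 * k * N * ρ) / (T : ℝ)) ^ T) ≤ Real.exp (-3 * T) := by
        have : Real.exp (-3 * (T : ℝ)) = (Real.exp (-3)) ^ T := by
          rw [← Real.exp_nat_mul]; congr 1; ring
        rw [this]
        gcongr
      rw [a1]
      calc ((4 * k * N * ρ) / (T : ℝ)) ^ T * ((T : ℝ) ^ T / T.factorial) ≤
            Real.exp (-3 * T) * Real.exp T := by gcongr
        _ = Real.exp (-(2 * (T : ℝ))) := by rw [← Real.exp_add]; congr 1; ring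
    have hL0 : 0 < L := (Real.exp_pos _).trans_le hL
    have h6 : 1 / L ≤ Real.exp (-(2 * (T : ℝ))) := by
      rw [Real.exp_neg, ← one_div]
      exact one_div_le_one_div_of_le (Real.exp_pos _) hL
    -- the common factor
    set W : ℝ := 4 ^ (k * N) * Real.exp (k * (4 * k * N * ρ)) with hW
    set G : ℝ := 2 ^ k * Real.exp (k * (k * ρ + 1)) * ((N + 1) ^ k * H * W) with hG
    have hW0 : 0 < W := by positivity
    have hG0 : 0 ≤ G := by positivity
    have hGle : G ≤ Real.exp ((B - 9 * k - 2) * N) := by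
      calc G ≤ Real.exp k * Real.exp (k * (k * ρ + 1)) * (Real.exp (k * N) * Real.exp N *
            (Real.exp (2 * k * N) * Real.exp (k * (4 * k * N * ρ)))) := by
            rw [hG, hW]; gcongr
        _ = Real.exp (k + k * (k * ρ + 1) + (k * N + N + (2 * k * N +
              k * (4 * k * N * ρ)))) := by
            simp only [← Real.exp_add]
        _ ≤ Real.exp ((B - 9 * k - 2) * N) := by
            apply Real.exp_le_exp.2
            rw [hB]
            have c1 : (k : ℝ) * 1 ≤ k * N := by gcongr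
            have c2 : (k : ℝ) * (k * ρ + 1) * 1 ≤ k * (k * ρ + 1) * N := by gcongr
            nlinarith
    have hfac : (T : ℝ) ^ (k - 1) * (2 / L) + (k * ((4 * k * N * ρ) ^ T / T.factorial) +
        8 * k * N * Real.exp (-(3 * (T : ℝ)))) ≤
        Real.exp ((9 * k + 2) * N) * Real.exp (-(2 * (T : ℝ))) := by
      have c1 : (T : ℝ) ^ (k - 1) * (2 / L) ≤ 2 * Real.exp (9 * k * N) *
          Real.exp (-(2 * (T : ℝ))) := by
        have : (T : ℝ) ^ (k - 1) * (2 / L) = 2 * (T : ℝ) ^ (k - 1) * (1 / L) := by ring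
        rw [this]
        have d1 : (T : ℝ) ^ (k - 1) ≤ Real.exp (9 * k * N) := by
          refine h4.trans (Real.exp_le_exp.2 ?_)
          have : (0 : ℝ) ≤ k * N := by positivity
          linarith
        gcongr
      have c2 : k * ((4 * k * N * ρ) ^ T / (T.factorial : ℝ)) +
          8 * k * N * Real.exp (-(3 * (T : ℝ))) ≤ Real.exp (9 * k * N) *
            Real.exp (-(2 * (T : ℝ))) := by
        have d1 : Real.exp (-(3 * (T : ℝ))) ≤ Real.exp (-(2 * (T : ℝ))) :=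
          Real.exp_le_exp.2 (by linarith)
        have d2 : (k : ℝ) + 8 * k * N ≤ Real.exp (9 * k * N) := by
          have f1 := Real.add_one_le_exp (9 * (k : ℝ) * N)
          have f2 : (k : ℝ) * 1 ≤ k * N := by gcongr
          linarith
        calc k * ((4 * k * N * ρ) ^ T / (T.factorial : ℝ)) +
              8 * k * N * Real.exp (-(3 * (T : ℝ))) ≤
              k * Real.exp (-(2 * (T : ℝ))) + 8 * k * N * Real.exp (-(2 * (T : ℝ))) := by
                gcongr
          _ = (k + 8 * k * N) * Real.exp (-(2 * (T : ℝ))) := by ring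
          _ ≤ _ := by gcongr
      have c3 : 3 * Real.exp (9 * k * N) ≤ Real.exp ((9 * k + 2) * N) := by
        have f1 : Real.exp ((9 * k + 2) * N) = Real.exp (2 * N) * Real.exp (9 * k * N) := by
          rw [← Real.exp_add]; congr 1; ring
        rw [f1]
        have f2 : (3 : ℝ) ≤ Real.exp (2 * N) := by
          have := Real.add_one_le_exp (2 * (N : ℝ))
          linarith
        gcongr
      calc _ ≤ 2 * Real.exp (9 * k * N) * Real.exp (-(2 * (T : ℝ))) +
            Real.exp (9 * k * N) * Real.exp (-(2 * (T : ℝ))) := add_le_add c1 c2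
        _ = 3 * Real.exp (9 * k * N) * Real.exp (-(2 * (T : ℝ))) := by ring
        _ ≤ _ := by gcongr
    have hrew : 2 ^ k * Real.exp (k * (k * ρ + 1)) *
          ((T : ℝ) ^ (k - 1) * (2 * (N + 1) ^ k * (4 ^ (k * N) *
              Real.exp (k * (4 * k * N * ρ))) * H / L) +
            (N + 1) ^ k * H * (4 ^ (k * N) * (Real.exp (k * (4 * k * N * ρ)) *
              (k * ((4 * k * N * ρ) ^ T / T.factorial) +
                8 * k * N * Real.exp (-(3 * (T : ℝ))))))) =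
        G * ((T : ℝ) ^ (k - 1) * (2 / L) + (k * ((4 * k * N * ρ) ^ T / T.factorial) +
          8 * k * N * Real.exp (-(3 * (T : ℝ))))) := by
      rw [hG, hW]; ring
    rw [hrew]
    calc _ ≤ Real.exp ((B - 9 * k - 2) * N) * (Real.exp ((9 * k + 2) * N) *
          Real.exp (-(2 * (T : ℝ)))) := by
          refine mul_le_mul hGle hfac ?_ (Real.exp_pos _).le
          positivity
      _ = Real.exp (B * N - 2 * T) := by
          rw [← Real.exp_add, ← Real.exp_add]; congr 1; ring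
      _ ≤ Real.exp (-((T : ℝ) / 2)) := by
          apply Real.exp_le_exp.2
          have : B * N ≤ T := by rw [hTNR]; nlinarith
          linarith


/-- the value of the polynomial near one of the subspaces -/
theorem main_bound (hk : 1 ≤ k) (ρ : ℝ) (hρ : 1 ≤ ρ) (T : ℕ)
    (G : (Fin k → Fin (N + 1) × Fin (N + 1)) → (Fin k → Fin (N + 1)) → ℤ)
    (hG : ∀ n, ∑ c, |G c n| ≤ 4 ^ (k * N)) (p : Fin k → ℝ × ℝ) (hp : ‖p‖ ≤ ρ)
    (b : Fin (k - 1) → Fin k → ℝ × ℝ) (hb : ∀ i, ‖b i‖ ≤ 1) (y : Fin (k - 1) → ℝ)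
    (hy : ∀ i, |y i| ≤ ρ) (e : Fin k → ℝ × ℝ) (δ : ℝ) (he : ‖e‖ ≤ δ) (hδ : 4 * k * N * δ ≤ 1)
    (x : (Fin k → Fin (N + 1)) → ℤ) (H : ℝ) (hx : ∀ n, |((x n : ℤ) : ℝ)| ≤ H) (Z : ℝ)
    (hZ : ∀ α : Fin (k - 1) → Fin T, |∑ n, (∑ c, (G c n : ℝ) * (Real.exp (2 * dot c p) *
      ∏ i, ((2 * ρ * dot c (b i)) ^ (α i : ℕ) / ((α i : ℕ).factorial : ℝ)))) * (x n : ℝ)| ≤ Z) :
    |∑ n, (x n : ℝ) * ∑ c, (G c n : ℝ) * Real.exp (2 * dot c (p + ∑ i, y i • b i + e))| ≤
      (T : ℝ) ^ (k - 1) * Z + (N + 1) ^ k * H * (4 ^ (k * N) *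
        (Real.exp (k * (4 * k * N * ρ)) * (k * ((4 * k * N * ρ) ^ T / T.factorial) +
          8 * k * N * δ))) := by
  set err : ℝ := Real.exp (k * (4 * k * N * ρ)) * (k * ((4 * k * N * ρ) ^ T / T.factorial) +
          8 * k * N * δ) with herr
  have hδ0 : 0 ≤ δ := (norm_nonneg _).trans he
  have hρ0 : 0 < ρ := by linarith
  have herr0 : 0 ≤ err := by positivity
  have hap : ∀ c : Fin k → Fin (N + 1) × Fin (N + 1),
      |Real.exp (2 * dot c (p + ∑ i, y i • b i + e)) - Real.exp (2 * dot c p) *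
      ∑ α : Fin (k - 1) → Fin T, ∏ i, ((2 * y i * dot c (b i)) ^ (α i : ℕ) /
        (α i : ℕ).factorial)| ≤ err := fun c =>
    exp_approx ρ hρ c p hp (k - 1) (Nat.sub_add_cancel hk) b hb y hy e δ he hδ T
  set mn : ℝ := ∑ n, (x n : ℝ) * ∑ c, (G c n : ℝ) * (Real.exp (2 * dot c p) *
      ∑ α : Fin (k - 1) → Fin T, ∏ i, ((2 * y i * dot c (b i)) ^ (α i : ℕ) /
        ((α i : ℕ).factorial : ℝ))) with hmn
  have h1 : mn = ∑ α : Fin (k - 1) → Fin T, (∏ i, (y i / ρ) ^ (α i : ℕ)) *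
      ∑ n, (∑ c, (G c n : ℝ) * (Real.exp (2 * dot c p) *
      ∏ i, ((2 * ρ * dot c (b i)) ^ (α i : ℕ) / ((α i : ℕ).factorial : ℝ)))) * (x n : ℝ) := by
    have e1 : ∀ (c : Fin k → Fin (N + 1) × Fin (N + 1)) (α : Fin (k - 1) → Fin T),
        ∏ i, ((2 * y i * dot c (b i)) ^ (α i : ℕ) / ((α i : ℕ).factorial : ℝ)) =
        (∏ i, (y i / ρ) ^ (α i : ℕ)) *
          ∏ i, ((2 * ρ * dot c (b i)) ^ (α i : ℕ) / ((α i : ℕ).factorial : ℝ)) := by
      intro c α
      rw [← Finset.prod_mul_distrib]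
      refine Finset.prod_congr rfl fun i _ => ?_
      have : 2 * y i * dot c (b i) = (y i / ρ) * (2 * ρ * dot c (b i)) := by
        field_simp
      rw [this, mul_pow, mul_div_assoc]
    have e2 : ∀ n : Fin k → Fin (N + 1), (x n : ℝ) * ∑ c, (G c n : ℝ) *
        (Real.exp (2 * dot c p) * ∑ α : Fin (k - 1) → Fin T,
          ∏ i, ((2 * y i * dot c (b i)) ^ (α i : ℕ) / ((α i : ℕ).factorial : ℝ))) =
        ∑ α : Fin (k - 1) → Fin T, (∏ i, (y i / ρ) ^ (α i : ℕ)) *
          ((∑ c, (G c n : ℝ) * (Real.exp (2 * dot c p) *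
            ∏ i, ((2 * ρ * dot c (b i)) ^ (α i : ℕ) / ((α i : ℕ).factorial : ℝ)))) *
            (x n : ℝ)) := by
      intro n
      simp only [e1, Finset.mul_sum, Finset.sum_mul]
      rw [Finset.sum_comm]
      refine Finset.sum_congr rfl fun α _ => ?_
      refine Finset.sum_congr rfl fun c _ => ?_
      ring
    rw [hmn, Finset.sum_congr rfl (fun n _ => e2 n), Finset.sum_comm]
    refine Finset.sum_congr rfl fun α _ => ?_
    rw [Finset.mul_sum]
  have h2 : |mn| ≤ (T : ℝ) ^ (k - 1) * Z := by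
    rw [h1]
    refine (Finset.abs_sum_le_sum_abs _ _).trans ?_
    calc ∑ α : Fin (k - 1) → Fin T, |(∏ i, (y i / ρ) ^ (α i : ℕ)) *
      ∑ n, (∑ c, (G c n : ℝ) * (Real.exp (2 * dot c p) *
      ∏ i, ((2 * ρ * dot c (b i)) ^ (α i : ℕ) / ((α i : ℕ).factorial : ℝ)))) * (x n : ℝ)|
        ≤ ∑ _α : Fin (k - 1) → Fin T, Z := by
          refine Finset.sum_le_sum fun α _ => ?_
          rw [abs_mul]
          have h3 : |∏ i, (y i / ρ) ^ (α i : ℕ)| ≤ 1 := by
            rw [Finset.abs_prod]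
            refine Finset.prod_le_one (fun i _ => abs_nonneg _) fun i _ => ?_
            rw [abs_pow]
            apply pow_le_one₀ (abs_nonneg _)
            rw [abs_div, abs_of_pos hρ0]
            exact (div_le_one hρ0).2 (hy i)
          calc _ ≤ 1 * Z := mul_le_mul h3 (hZ α) (abs_nonneg _) zero_le_one
            _ = Z := one_mul Z
      _ = (T : ℝ) ^ (k - 1) * Z := by
          rw [Finset.sum_const, Finset.card_univ, Fintype.card_fun, Fintype.card_fin,
            Fintype.card_fin, nsmul_eq_mul]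
          push_cast
          ring
  have h3 : |∑ n, (x n : ℝ) * ∑ c, (G c n : ℝ) *
      Real.exp (2 * dot c (p + ∑ i, y i • b i + e)) - mn| ≤
      (N + 1) ^ k * H * (4 ^ (k * N) * err) := by
    rw [hmn, ← Finset.sum_sub_distrib]
    refine (Finset.abs_sum_le_sum_abs _ _).trans ?_
    calc _ ≤ ∑ _n : Fin k → Fin (N + 1), H * (4 ^ (k * N) * err) := by
          refine Finset.sum_le_sum fun n _ => ?_
          rw [← mul_sub, abs_mul, ← Finset.sum_sub_distrib]
          refine mul_le_mul (hx n) ?_ (abs_nonneg _) ((abs_nonneg _).trans (hx n))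
          refine (Finset.abs_sum_le_sum_abs _ _).trans ?_
          calc _ ≤ ∑ c, |(G c n : ℝ)| * err := by
                refine Finset.sum_le_sum fun c _ => ?_
                rw [← mul_sub, abs_mul]
                exact mul_le_mul_of_nonneg_left (hap c) (abs_nonneg _)
            _ = (∑ c, |(G c n : ℝ)|) * err := by rw [Finset.sum_mul]
            _ ≤ 4 ^ (k * N) * err := by
                have : ((∑ c, |G c n| : ℤ) : ℝ) ≤ ((4 ^ (k * N) : ℤ) : ℝ) := by
                  exact_mod_cast hG n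
                push_cast at this
                gcongr
      _ = (N + 1) ^ k * H * (4 ^ (k * N) * err) := by
          rw [Finset.sum_const, Finset.card_univ, Fintype.card_fun, Fintype.card_fin,
            Fintype.card_fin, nsmul_eq_mul]
          push_cast
          ring
  calc _ = |mn + (∑ n, (x n : ℝ) * ∑ c, (G c n : ℝ) *
      Real.exp (2 * dot c (p + ∑ i, y i • b i + e)) - mn)| := by congr 1; ring
    _ ≤ |mn| + |∑ n, (x n : ℝ) * ∑ c, (G c n : ℝ) *
      Real.exp (2 * dot c (p + ∑ i, y i • b i + e)) - mn| := abs_add_le _ _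
    _ ≤ _ := add_le_add h2 h3

end TE

theorem T_core (k q : ℕ) (hk : 1 ≤ k) (ρ : ℝ) (hρ : 1 ≤ ρ) : ∃ M0 : ℕ, ∀ M ≥ M0,
    ∀ (p : Fin q → Fin k → ℝ × ℝ) (b : Fin q → Fin (k - 1) → Fin k → ℝ × ℝ),
      (∀ l, ‖p l‖ ≤ ρ) → (∀ l i, ‖b l i‖ ≤ 1) →
      ∃ Q : MvPolynomial (Fin k) ℤ, Q ≠ 0 ∧ (∀ i, Q.degreeOf i ≤ M ^ (2 * k)) ∧
        (∀ e, |((Q.coeff e : ℤ) : ℝ)| ≤ Real.exp ((M : ℝ) ^ (2 * k))) ∧
        ∀ (l : Fin q) (y : Fin (k - 1) → ℝ), (∀ i, |y i| ≤ ρ) →
          ∀ u : Fin k → ℂ, (∀ i, u i ≠ 0 ∧ u i ≠ 1) →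
            ‖(fun a => (Real.log ‖u a‖, Real.log ‖1 - u a‖)) - p l - ∑ i, y i • b l i‖ ≤
              Real.exp (-(3 * (M : ℝ) ^ (2 * k + 1))) →
            ‖MvPolynomial.aeval u Q‖ ≤ Real.exp (-((M : ℝ) ^ (2 * k + 1) / 2)) := by
  obtain ⟨M0, hM0⟩ := TE.numeric k q hk ρ hρ
  refine ⟨M0, fun M hM p b hp hb => ?_⟩
  obtain ⟨N, hN⟩ : ∃ N, N = M ^ (2 * k) := ⟨_, rfl⟩
  obtain ⟨T, hT⟩ : ∃ T, T = M ^ (2 * k + 1) := ⟨_, rfl⟩
  obtain ⟨hN1, hT1, hcount, hδ, hnum⟩ := hM0 M hM N T hN hT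
  obtain ⟨Γ, hΓ, hexp⟩ := monomial_expand k N
  have hNR : (M : ℝ) ^ (2 * k) = N := by rw [hN]; push_cast; rfl
  have hTR : (M : ℝ) ^ (2 * k + 1) = T := by rw [hT]; push_cast; rfl
  rw [← hN, hNR, hTR]
  have TR : (1 : ℝ) ≤ T := by exact_mod_cast hT1
  set W : ℝ := 4 ^ (k * N) * Real.exp (k * (4 * k * N * ρ)) with hWdef
  have hW0 : 0 < W := by positivity
  -- the forms
  let a : Fin q × (Fin k → Bool) × (Fin (k - 1) → Fin T) → (Fin k → Fin (N + 1)) → ℝ :=
    fun j n => ∑ c, (Γ j.2.1 c n : ℝ) * (Real.exp (2 * TE.dot c (p j.1)) *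
      ∏ i, ((2 * ρ * TE.dot c (b j.1 i)) ^ (j.2.2 i : ℕ) / ((j.2.2 i : ℕ).factorial : ℝ)))
  have hW : ∀ j n, |a j n| ≤ W := fun j n =>
    TE.form_bound ρ hρ (fun c => Γ j.2.1 c n) (hΓ _ _) (p j.1) (hp _) (k - 1)
      (Nat.sub_add_cancel hk) (b j.1) (hb _) (fun i => (j.2.2 i : ℕ))
  obtain ⟨H, hH⟩ : ∃ H : ℕ, H = ⌊Real.exp N⌋₊ := ⟨_, rfl⟩
  obtain ⟨L, hL⟩ : ∃ L : ℕ, L = ⌈Real.exp (2 * T)⌉₊ := ⟨_, rfl⟩
  have hHle : (H : ℝ) ≤ Real.exp N := by rw [hH]; exact Nat.floor_le (Real.exp_pos _).le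
  have hHlt : Real.exp N < H + 1 := by rw [hH]; exact Nat.lt_floor_add_one _
  have hLge : Real.exp (2 * T) ≤ L := by rw [hL]; exact Nat.le_ceil _
  have hLle : (L : ℝ) ≤ Real.exp (3 * T) := by
    have h1 : (L : ℝ) < Real.exp (2 * T) + 1 := by
      rw [hL]; exact Nat.ceil_lt_add_one (Real.exp_pos _).le
    have h2 : Real.exp (3 * (T : ℝ)) = Real.exp T * Real.exp (2 * T) := by
      rw [← Real.exp_add]; congr 1; ring
    have h3 : 2 ≤ Real.exp (T : ℝ) := by have := Real.add_one_le_exp (T : ℝ); linarith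
    have h4 : 1 ≤ Real.exp (2 * (T : ℝ)) := Real.one_le_exp (by positivity)
    rw [h2]
    nlinarith
  have hL0 : 0 < L := by
    have : (0 : ℝ) < L := (Real.exp_pos _).trans_le hLge
    exact_mod_cast this
  have hc : L ^ Fintype.card (Fin q × (Fin k → Bool) × (Fin (k - 1) → Fin T)) <
      (H + 1) ^ Fintype.card (Fin k → Fin (N + 1)) := by
    have hcJ : Fintype.card (Fin q × (Fin k → Bool) × (Fin (k - 1) → Fin T)) =
        q * (2 ^ k * T ^ (k - 1)) := by
      simp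
    have hcn : Fintype.card (Fin k → Fin (N + 1)) = (N + 1) ^ k := by
      simp
    rw [hcJ, hcn]
    have h1 : (L : ℝ) ^ (q * (2 ^ k * T ^ (k - 1))) ≤ Real.exp ((N : ℝ) ^ (k + 1)) := by
      calc (L : ℝ) ^ (q * (2 ^ k * T ^ (k - 1))) ≤
            (Real.exp (3 * T)) ^ (q * (2 ^ k * T ^ (k - 1))) := by gcongr
        _ = Real.exp (((3 * q * 2 ^ k * T ^ k : ℕ) : ℝ)) := by
            rw [← Real.exp_nat_mul]
            congr 1
            have : T ^ k = T ^ (k - 1) * T := by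
              rw [← pow_succ, Nat.sub_add_cancel hk]
            rw [this]
            push_cast
            ring
        _ ≤ Real.exp ((N : ℝ) ^ (k + 1)) := by
            apply Real.exp_le_exp.2
            exact_mod_cast hcount
    have h2 : Real.exp ((N : ℝ) ^ (k + 1)) < ((H : ℝ) + 1) ^ ((N + 1) ^ k) := by
      calc Real.exp ((N : ℝ) ^ (k + 1)) = (Real.exp N) ^ (N ^ k) := by
            rw [← Real.exp_nat_mul]; congr 1; push_cast; ring
        _ ≤ (Real.exp N) ^ ((N + 1) ^ k) := by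
            apply pow_le_pow_right₀ (Real.one_le_exp (by positivity))
            exact Nat.pow_le_pow_left (Nat.le_succ N) k
        _ < ((H : ℝ) + 1) ^ ((N + 1) ^ k) := by
            apply pow_lt_pow_left₀ hHlt (Real.exp_pos _).le
            exact (pow_pos (Nat.succ_pos N) k).ne'
    have h3 := h1.trans_lt h2
    exact_mod_cast h3
  obtain ⟨x, hx0, hxH, hxa⟩ := pigeon a W hW H L hL0 hc
  have hxH' : ∀ n, |((x n : ℤ) : ℝ)| ≤ H := fun n => by exact_mod_cast hxH n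
  obtain ⟨Q, hQ0, hQd, hQc, hQe⟩ := TE.exists_poly x hx0 (Real.exp N)
    (fun n => (hxH' n).trans hHle)
  refine ⟨Q, hQ0, hQd, hQc, ?_⟩
  intro l y hy u hu hnear
  set Lu : Fin k → ℝ × ℝ := fun a => (Real.log ‖u a‖, Real.log ‖1 - u a‖) with hLu
  set e : Fin k → ℝ × ℝ := Lu - p l - ∑ i, y i • b l i with he
  have hLe : Lu = p l + ∑ i, y i • b l i + e := by rw [he]; abel
  set δ : ℝ := Real.exp (-(3 * (T : ℝ))) with hδd
  set Z : ℝ := 2 * (N + 1) ^ k * W * H / L with hZ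
  set X : ℝ := (T : ℝ) ^ (k - 1) * Z + (N + 1) ^ k * H * (4 ^ (k * N) *
        (Real.exp (k * (4 * k * N * ρ)) * (k * ((4 * k * N * ρ) ^ T / T.factorial) +
          8 * k * N * δ))) with hX
  have hX0 : 0 ≤ X := by positivity
  let A : (Fin k → Bool) → ℝ := fun S =>
    ∑ n, (x n : ℝ) * ∑ c, (Γ S c n : ℝ) * Real.exp (2 * TE.dot c Lu)
  have hA : ∀ S, |A S| ≤ X := by
    intro S
    have := TE.main_bound hk ρ hρ T (fun c n => Γ S c n) (fun n => hΓ S n) (p l) (hp l) (b l)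
      (hb l) y hy e δ hnear hδ x H hxH' Z (by
        intro α
        have h := hxa (l, S, α)
        simp only [Fintype.card_fun, Fintype.card_fin] at h
        push_cast at h
        exact h)
    rw [← hLe] at this
    exact this
  have hval : MvPolynomial.aeval u Q =
      ∑ S : Fin k → Bool, (∏ i, if S i then u i else 1) * ((A S : ℝ) : ℂ) := by
    rw [hQe]
    simp only [hexp, TE.prod_eq_exp _ u hu, A]
    push_cast
    simp only [Finset.mul_sum]
    rw [Finset.sum_comm]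
    refine Finset.sum_congr rfl fun S _ => ?_
    refine Finset.sum_congr rfl fun n _ => ?_
    refine Finset.sum_congr rfl fun c _ => ?_
    ring
  have hLn : ‖Lu‖ ≤ k * ρ + 1 := by
    have h1 : ‖∑ i, y i • b l i‖ ≤ ((k - 1 : ℕ) : ℝ) * ρ := by
      calc ‖∑ i, y i • b l i‖ ≤ ∑ i : Fin (k - 1), ρ * 1 := by
            refine (norm_sum_le _ _).trans (Finset.sum_le_sum fun i _ => ?_)
            rw [norm_smul, Real.norm_eq_abs]
            exact mul_le_mul (hy i) (hb l i) (norm_nonneg _) (by linarith)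
        _ = ((k - 1 : ℕ) : ℝ) * ρ := by
            rw [Finset.sum_const, Finset.card_univ, Fintype.card_fin, nsmul_eq_mul, mul_one]
    have h2 : ‖e‖ ≤ 1 := hnear.trans (by
      rw [hδd]; apply Real.exp_le_one_iff.2; linarith)
    have h3 : ((k - 1 : ℕ) : ℝ) + 1 = k := by exact_mod_cast Nat.sub_add_cancel hk
    calc ‖Lu‖ = ‖p l + ∑ i, y i • b l i + e‖ := by rw [← hLe]
      _ ≤ ‖p l‖ + ‖∑ i, y i • b l i‖ + ‖e‖ := norm_add₃_le
      _ ≤ ρ + ((k - 1 : ℕ) : ℝ) * ρ + 1 := by linarith [hp l]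
      _ = k * ρ + 1 := by rw [← h3]; ring
  have hprod : ∀ S : Fin k → Bool, ‖∏ i, if S i then u i else 1‖ ≤
      Real.exp (k * (k * ρ + 1)) := by
    intro S
    rw [norm_prod]
    calc ∏ i, ‖if S i then u i else 1‖ ≤ ∏ _i : Fin k, Real.exp (k * ρ + 1) := by
          refine Finset.prod_le_prod (fun i _ => norm_nonneg _) fun i _ => ?_
          by_cases hS : S i
          · rw [if_pos hS]
            have h1 : 0 < ‖u i‖ := norm_pos_iff.2 (hu i).1
            rw [← Real.exp_log h1]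
            apply Real.exp_le_exp.2
            have h2 : |Real.log ‖u i‖| ≤ ‖Lu‖ :=
              (norm_fst_le (Lu i)).trans (norm_le_pi_norm Lu i)
            exact (le_abs_self _).trans (h2.trans hLn)
          · rw [if_neg hS, norm_one]
            exact Real.one_le_exp (by positivity)
      _ = Real.exp (k * (k * ρ + 1)) := by
          rw [Finset.prod_const, Finset.card_univ, Fintype.card_fin, ← Real.exp_nat_mul]
  calc ‖MvPolynomial.aeval u Q‖ ≤ ∑ S : Fin k → Bool,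
        ‖(∏ i, if S i then u i else 1) * ((A S : ℝ) : ℂ)‖ := by
        rw [hval]; exact norm_sum_le _ _
    _ ≤ ∑ _S : Fin k → Bool, Real.exp (k * (k * ρ + 1)) * X := by
        refine Finset.sum_le_sum fun S _ => ?_
        rw [norm_mul, Complex.norm_real, Real.norm_eq_abs]
        exact mul_le_mul (hprod S) (hA S) (abs_nonneg _) (Real.exp_pos _).le
    _ = 2 ^ k * Real.exp (k * (k * ρ + 1)) * X := by
        rw [Finset.sum_const, Finset.card_univ, Fintype.card_fun, Fintype.card_fin,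
          Fintype.card_bool, nsmul_eq_mul]
        push_cast
        ring
    _ ≤ Real.exp (-((T : ℝ) / 2)) := hnum H L (Nat.cast_nonneg _) hHle hLge

end Pool.Agent.L3
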